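import Pool.Agent.H79.CQ.Grd

set_option linter.unusedSectionVars false
set_option linter.unusedVariables false

/-!
# Worlds over `F_p`: extensions and differences; annihilators of subgroups

Port of `H42/CS/Wor`. PROOF of `exists_primitive`: let `E := U ⊓ D` (all its members have weight at most
`w`). On the set `ZMod p × E` define `(a, y) + (b, y') := (a + b + kap y y', y + y')`: by `kap_comm`,
`kap_coc` and `kap_line` this is an abelian group with `-(a, y) = (-a, -y)`, and `n • (a, y) =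
(n a, n y)` by `kap_line`; so it is a `ZMod p`-vector space and the projection to `E` has a linear
section `y ↦ (f y, y)`. `ext_exists`: `f - f0` is additive on `U ⊓ D`; extend it to a linear function.
`exists_shift`: `f' - f` is additive on `U' ⊓ D` and vanishes on `U ⊓ D`.
-/

set_option autoImplicit false

namespace Pool.Agent.H79.CQ

variable {p : ℕ} [hp : Fact p.Prime] {K : Type}

/-- the twisted extension of `E` by `ZMod p` -/
private structure TW (g : Gad p K) (E : Submodule (ZMod p) (K → ZMod p)) : Type where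
  a : ZMod p
  y : E

private theorem TW.ext' {g : Gad p K} {E : Submodule (ZMod p) (K → ZMod p)} {s t : TW g E}
    (h1 : s.a = t.a) (h2 : s.y = t.y) : s = t := by
  cases s
  cases t
  simp only at h1 h2
  subst h1 h2
  rfl

private theorem kap_zero (g : Gad p K) (y : K → ZMod p) : g.kap 0 y = 0 := by
  have h := g.kap_line 0 1 y
  rwa [zero_smul, one_smul] at h

private theorem kap_neg (g : Gad p K) (y : K → ZMod p) : g.kap (-y) y = 0 := by
  have h := g.kap_line (-1) 1 y
  rwa [neg_smul, one_smul] at h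

private instance twAdd (g : Gad p K) (E : Submodule (ZMod p) (K → ZMod p)) : Add (TW g E) :=
  ⟨fun s t => ⟨s.a + t.a + g.kap s.y t.y, s.y + t.y⟩⟩

private instance twZero (g : Gad p K) (E : Submodule (ZMod p) (K → ZMod p)) : Zero (TW g E) :=
  ⟨⟨0, 0⟩⟩

private instance twNeg (g : Gad p K) (E : Submodule (ZMod p) (K → ZMod p)) : Neg (TW g E) :=
  ⟨fun s => ⟨-s.a, -s.y⟩⟩

private abbrev twGroup (g : Gad p K) (E : Submodule (ZMod p) (K → ZMod p))
    (hE : ∀ y ∈ E, y ∈ g.D ∧ nm y ≤ g.w) : AddCommGroup (TW g E) where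
  nsmul := nsmulRec
  zsmul := zsmulRec
  add_assoc := by
    intro s t u
    apply TW.ext'
    · show (s.a + t.a + g.kap s.y t.y) + u.a + g.kap ((s.y + t.y : E) : K → ZMod p) u.y =
        s.a + (t.a + u.a + g.kap t.y u.y) + g.kap s.y ((t.y + u.y : E) : K → ZMod p)
      have h := g.kap_coc s.y t.y u.y (hE _ s.y.2).1 (hE _ t.y.2).1 (hE _ u.y.2).1
        (hE _ s.y.2).2 (hE _ t.y.2).2 (hE _ u.y.2).2 (hE _ (E.add_mem s.y.2 t.y.2)).2
        (hE _ (E.add_mem t.y.2 u.y.2)).2 (hE _ (E.add_mem (E.add_mem s.y.2 t.y.2) u.y.2)).2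
      rw [Submodule.coe_add, Submodule.coe_add]
      linear_combination h
    · exact add_assoc s.y t.y u.y
  zero_add := by
    intro s
    apply TW.ext'
    · show 0 + s.a + g.kap ((0 : E) : K → ZMod p) s.y = s.a
      rw [Submodule.coe_zero, kap_zero g, zero_add, add_zero]
    · exact zero_add s.y
  add_zero := by
    intro s
    apply TW.ext'
    · show s.a + 0 + g.kap s.y ((0 : E) : K → ZMod p) = s.a
      rw [g.kap_comm, Submodule.coe_zero, kap_zero g, add_zero,
        add_zero]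
    · exact add_zero s.y
  neg_add_cancel := by
    intro s
    apply TW.ext'
    · show -s.a + s.a + g.kap ((-s.y : E) : K → ZMod p) s.y = 0
      rw [Submodule.coe_neg, kap_neg, add_zero, neg_add_cancel]
    · exact neg_add_cancel s.y
  add_comm := by
    intro s t
    apply TW.ext'
    · show s.a + t.a + g.kap s.y t.y = t.a + s.a + g.kap t.y s.y
      rw [g.kap_comm, add_comm s.a]
    · exact add_comm s.y t.y

private theorem split_p {V E : Type} [AddCommGroup V] [AddCommGroup E] [Module (ZMod p) E]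
    (hV : ∀ v : V, p • v = 0) (π0 : V →+ E) (hs : Function.Surjective π0) :
    ∃ σ : E →+ V, ∀ y, π0 (σ y) = y := by
  let _ : Module (ZMod p) V := AddCommGroup.zmodModule hV
  let π : V →ₗ[ZMod p] E := AddMonoidHom.toZModLinearMap p π0
  obtain ⟨σ, hσ⟩ := π.exists_rightInverse_of_surjective (LinearMap.range_eq_top.2 hs)
  refine ⟨σ.toAddMonoidHom, fun y => ?_⟩
  exact LinearMap.congr_fun hσ y

theorem Gad.exists_primitive (g : Gad p K) (U : Submodule (ZMod p) (K → ZMod p)) (ht : g.Tame U) :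
    ∃ f, g.IsW U f := by
  classical
  set E := U ⊓ g.D with hE
  have hE' : ∀ y ∈ E, y ∈ g.D ∧ nm y ≤ g.w := fun y hy =>
    ⟨(Submodule.mem_inf.1 hy).2, ht y (Submodule.mem_inf.1 hy).1 (Submodule.mem_inf.1 hy).2⟩
  let _ : AddCommGroup (TW g E) := twGroup g E hE'
  have hn : ∀ (n : ℕ) (s : TW g E), (n • s).a = n * s.a ∧
      (((n • s).y : E) : K → ZMod p) = (n : ZMod p) • (s.y : K → ZMod p) := by
    intro n s
    induction n with
    | zero =>
      rw [zero_smul]
      refine ⟨?_, ?_⟩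
      · show (0 : ZMod p) = _
        rw [Nat.cast_zero, zero_mul]
      · show ((0 : E) : K → ZMod p) = _
        rw [Nat.cast_zero, zero_smul, Submodule.coe_zero]
    | succ n ih =>
      rw [succ_nsmul]
      refine ⟨?_, ?_⟩
      · show (n • s).a + s.a + g.kap (n • s).y s.y = _
        have h := g.kap_line n 1 (s.y : K → ZMod p)
        rw [one_smul] at h
        rw [ih.2, h, ih.1, Nat.cast_succ]
        ring
      · show (((n • s).y + s.y : E) : K → ZMod p) = _
        rw [Submodule.coe_add, ih.2, Nat.cast_succ, add_smul, one_smul]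
  have h2 : ∀ s : TW g E, p • s = 0 := by
    intro s
    obtain ⟨h3, h4⟩ := hn p s
    rw [ZMod.natCast_self, zero_mul] at h3
    rw [ZMod.natCast_self, zero_smul] at h4
    apply TW.ext'
    · exact h3
    · exact Subtype.ext h4
  let π0 : TW g E →+ E := AddMonoidHom.mk' (fun s => s.y) (fun s t => rfl)
  obtain ⟨σ, hσ⟩ := split_p h2 π0 (fun y => ⟨⟨0, y⟩, rfl⟩)
  have hσy : ∀ y : E, (σ y).y = y := hσ
  refine ⟨fun y => if h : y ∈ E then (σ ⟨y, h⟩).a else 0, ?_⟩
  intro y hy hyD y' hy' hyD'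
  have m1 : y ∈ E := Submodule.mem_inf.2 ⟨hy, hyD⟩
  have m2 : y' ∈ E := Submodule.mem_inf.2 ⟨hy', hyD'⟩
  have m3 : y + y' ∈ E := E.add_mem m1 m2
  show (if h : y + y' ∈ E then (σ ⟨y + y', h⟩).a else 0) = (if h : y ∈ E then (σ ⟨y, h⟩).a else 0) +
    (if h : y' ∈ E then (σ ⟨y', h⟩).a else 0) + g.kap y y'
  rw [dif_pos m1, dif_pos m2, dif_pos m3]
  have h3 : σ ⟨y + y', m3⟩ = σ ⟨y, m1⟩ + σ ⟨y', m2⟩ := by
    rw [← map_add]
    rfl
  rw [h3]
  show (σ ⟨y, m1⟩).a + (σ ⟨y', m2⟩).a + g.kap (σ ⟨y, m1⟩).y (σ ⟨y', m2⟩).y = _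
  rw [hσy, hσy]

theorem Gad.ext_exists (g : Gad p K) {U U' : Submodule (ZMod p) (K → ZMod p)} (hle : U ≤ U')
    (ht : g.Tame U') {f : Wd p K} (hf : g.IsW U f) : ∃ f', g.IsW U' f' ∧ g.Agr U f f' := by
  obtain ⟨f0, h0⟩ := g.exists_primitive U' ht
  let h0' : (U ⊓ g.D : Submodule (ZMod p) (K → ZMod p)) →+ ZMod p :=
    AddMonoidHom.mk' (fun y => f y - f0 y) (by
      intro y y'
      have m1 := Submodule.mem_inf.1 y.2
      have m2 := Submodule.mem_inf.1 y'.2
      show f ((y : K → ZMod p) + y') - f0 ((y : K → ZMod p) + y') = (f y - f0 y) + (f y' - f0 y')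
      rw [hf y m1.1 m1.2 y' m2.1 m2.2, h0 y (hle m1.1) m1.2 y' (hle m2.1) m2.2]
      ring)
  obtain ⟨l, hl⟩ := (AddMonoidHom.toZModLinearMap p h0').exists_extend
  have hl' : ∀ y ∈ U, y ∈ g.D → l y = f y - f0 y := by
    intro y hy hyD
    have := LinearMap.congr_fun hl ⟨y, Submodule.mem_inf.2 ⟨hy, hyD⟩⟩
    exact this
  refine ⟨fun y => f0 y + l y, ?_, ?_⟩
  · intro y hy hyD y' hy' hyD'
    show f0 (y + y') + l (y + y') = (f0 y + l y) + (f0 y' + l y') + g.kap y y'
    rw [h0 y hy hyD y' hy' hyD', map_add]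
    ring
  · intro y hy hyD
    show f y = f0 y + l y
    rw [hl' y hy hyD]
    ring

theorem Gad.ext_isW (g : Gad p K) {U U' : Submodule (ZMod p) (K → ZMod p)} (hle : U ≤ U')
    (ht : g.Tame U') {f : Wd p K} (hf : g.IsW U f) : g.IsW U' (g.ext U U' f) := by
  have h := g.ext_exists hle ht hf
  unfold Gad.ext
  rw [dif_pos h]
  exact h.choose_spec.1

theorem Gad.ext_agr (g : Gad p K) {U U' : Submodule (ZMod p) (K → ZMod p)} (hle : U ≤ U')
    (ht : g.Tame U') {f : Wd p K} (hf : g.IsW U f) : g.Agr U f (g.ext U U' f) := by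
  have h := g.ext_exists hle ht hf
  unfold Gad.ext
  rw [dif_pos h]
  exact h.choose_spec.2

theorem Gad.exists_shift [Fintype K] (g : Gad p K) {U U' : Submodule (ZMod p) (K → ZMod p)}
    (hle : U ≤ U') {f f' : Wd p K} (hf : g.IsW U' f) (hf' : g.IsW U' f') (ha : g.Agr U f f') :
    ∃ t : K → ZMod p, (∀ y ∈ U, t ⬝ᵥ y = 0) ∧ g.Agr U' f' (sh t f) := by
  classical
  let E := U' ⊓ g.D
  let h0 : E →+ ZMod p := AddMonoidHom.mk' (fun y => f' y - f y) (by
    intro y y'
    have m1 := Submodule.mem_inf.1 y.2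
    have m2 := Submodule.mem_inf.1 y'.2
    show f' ((y : K → ZMod p) + y') - f ((y : K → ZMod p) + y') = (f' y - f y) + (f' y' - f y')
    rw [hf y m1.1 m1.2 y' m2.1 m2.2, hf' y m1.1 m1.2 y' m2.1 m2.2]
    ring)
  let h1 : E →ₗ[ZMod p] ZMod p := AddMonoidHom.toZModLinearMap p h0
  have hh1 : ∀ y : E, h1 y = f' y - f y := fun _ => rfl
  let q : E →ₗ[ZMod p] ((K → ZMod p) ⧸ U) := U.mkQ.comp E.subtype
  have hmem : h1 ∈ (LinearMap.ker q).dualAnnihilator := by
    rw [Submodule.mem_dualAnnihilator]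
    intro y hy
    rw [LinearMap.mem_ker] at hy
    have hyU : (y : K → ZMod p) ∈ U := (Submodule.Quotient.mk_eq_zero U).1 hy
    rw [hh1, ha y hyU (Submodule.mem_inf.1 y.2).2]
    exact sub_self _
  rw [← LinearMap.range_dualMap_eq_dualAnnihilator_ker] at hmem
  obtain ⟨l', hl'⟩ := hmem
  let l : Module.Dual (ZMod p) (K → ZMod p) := l'.comp U.mkQ
  have hl : ∀ y : E, l y = f' y - f y := by
    intro y
    rw [← hh1, ← hl']
    rfl
  refine ⟨(dotProductEquiv (ZMod p) K).symm l, ?_, ?_⟩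
  · intro y hy
    have h3 : (dotProductEquiv (ZMod p) K) ((dotProductEquiv (ZMod p) K).symm l) y = l y := by
      rw [LinearEquiv.apply_symm_apply]
    have h4 : l y = 0 := by
      show l' (U.mkQ y) = 0
      have : U.mkQ y = 0 := (Submodule.Quotient.mk_eq_zero U).2 hy
      rw [this, map_zero]
    rw [h4] at h3
    exact h3
  · intro y hy hyD
    have h3 : (dotProductEquiv (ZMod p) K) ((dotProductEquiv (ZMod p) K).symm l) y = l y := by
      rw [LinearEquiv.apply_symm_apply]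
    have h4 := hl ⟨y, Submodule.mem_inf.2 ⟨hy, hyD⟩⟩
    have h5 : (dotProductEquiv (ZMod p) K).symm l ⬝ᵥ y = f' y - f y := h3.trans h4
    show f' y = f y + (dotProductEquiv (ZMod p) K).symm l ⬝ᵥ y
    rw [h5]
    ring

theorem Gad.isW_mono (g : Gad p K) {U U' : Submodule (ZMod p) (K → ZMod p)} (hle : U ≤ U')
    {f : Wd p K} (hf : g.IsW U' f) : g.IsW U f := by
  exact fun y hy hyD y' hy' hyD' => hf y (hle hy) hyD y' (hle hy') hyD'

theorem Gad.isW_congr (g : Gad p K) {U : Submodule (ZMod p) (K → ZMod p)} {f f' : Wd p K}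
    (hf : g.IsW U f) (ha : g.Agr U f f') : g.IsW U f' := by
  intro y hy hyD y' hy' hyD'
  rw [← ha _ (U.add_mem hy hy') (g.D.add_mem hyD hyD'), ← ha y hy hyD, ← ha y' hy' hyD']
  exact hf y hy hyD y' hy' hyD'

theorem Gad.isW_sh [Fintype K] (g : Gad p K) {U : Submodule (ZMod p) (K → ZMod p)} {f : Wd p K}
    (hf : g.IsW U f) (t : K → ZMod p) : g.IsW U (sh t f) := by
  intro y hy hyD y' hy' hyD'
  show f (y + y') + t ⬝ᵥ (y + y') = (f y + t ⬝ᵥ y) + (f y' + t ⬝ᵥ y') + g.kap y y'
  rw [hf y hy hyD y' hy' hyD', dotProduct_add]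
  ring

theorem Gad.tame_mono (g : Gad p K) {U U' : Submodule (ZMod p) (K → ZMod p)} (hle : U ≤ U')
    (ht : g.Tame U') : g.Tame U := by
  intro y hy hyD
  exact ht y (hle hy) hyD

theorem sh_sh [Fintype K] (t t' : K → ZMod p) (f : Wd p K) : sh t (sh t' f) = sh (t + t') f := by
  funext y
  show (f y + t' ⬝ᵥ y) + t ⬝ᵥ y = f y + (t + t') ⬝ᵥ y
  rw [add_dotProduct]
  ring

section

variable {G : Type} [Fintype K] [Group G] {pr : G → K → ZMod p}

theorem Vs_anti {H H' : Subgroup G} (h : H ≤ H') : Vs pr H' ≤ Vs pr H := by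
  intro y hy g hg
  exact hy g (h hg)

theorem pr_one (hm : ∀ g h, pr (g * h) = pr g + pr h) : pr 1 = 0 := by
  have h := hm 1 1
  rw [mul_one] at h
  exact left_eq_add.1 h

theorem pr_inv (hm : ∀ g h, pr (g * h) = pr g + pr h) (g : G) : pr g⁻¹ = -pr g := by
  have h := hm g⁻¹ g
  rw [inv_mul_cancel, pr_one hm] at h
  exact eq_neg_of_add_eq_zero_left h.symm

private theorem pr_pow (hm : ∀ g h, pr (g * h) = pr g + pr h) (g : G) (n : ℕ) :
    pr (g ^ n) = (n : ZMod p) • pr g := by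
  induction n with
  | zero => rw [pow_zero, pr_one hm, Nat.cast_zero, zero_smul]
  | succ n ih => rw [pow_succ, hm, ih, Nat.cast_succ, add_smul, one_smul]

/-- the image of a subgroup -/
private def im (hm : ∀ g h, pr (g * h) = pr g + pr h) (H : Subgroup G) :
    Submodule (ZMod p) (K → ZMod p) where
  carrier := {v | ∃ g ∈ H, pr g = v}
  add_mem' := by
    rintro _ _ ⟨g, hg, rfl⟩ ⟨h, hh, rfl⟩
    exact ⟨g * h, H.mul_mem hg hh, hm g h⟩
  zero_mem' := ⟨1, H.one_mem, pr_one hm⟩
  smul_mem' := by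
    rintro r _ ⟨g, hg, rfl⟩
    refine ⟨g ^ r.val, H.pow_mem hg _, ?_⟩
    rw [pr_pow hm, ZMod.natCast_zmod_val]

theorem Vs_perp (hm : ∀ g h, pr (g * h) = pr g + pr h) (H : Subgroup G) (t : K → ZMod p)
    (h : ∀ y ∈ Vs pr H, t ⬝ᵥ y = 0) : ∃ g ∈ H, pr g = t := by
  classical
  by_contra hn
  have ht : t ∉ im hm H := hn
  obtain ⟨l, hl1, hl2⟩ := Submodule.exists_le_ker_of_notMem ht
  have hl : ∀ v, v ⬝ᵥ (dotProductEquiv (ZMod p) K).symm l = l v := by
    intro v
    rw [dotProduct_comm]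
    have h3 : (dotProductEquiv (ZMod p) K) ((dotProductEquiv (ZMod p) K).symm l) v = l v := by
      rw [LinearEquiv.apply_symm_apply]
    exact h3
  apply hl1
  rw [← hl]
  apply h
  intro g hg
  rw [hl]
  exact hl2 ⟨g, hg, rfl⟩

/-- `Vs` of conjugate subgroups; the conjugation is given elementwise. -/
theorem Vs_conj (hm : ∀ g h, pr (g * h) = pr g + pr h) (H H' : Subgroup G) (g : G)
    (h : ∀ x, x ∈ H' ↔ g⁻¹ * x * g ∈ H) : Vs pr H' = Vs pr H := by
  have key : ∀ x : G, pr (g⁻¹ * x * g) = pr x := by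
    intro x
    rw [hm, hm, pr_inv hm]
    abel
  apply le_antisymm
  · intro y hy x hx
    have h1 : g * x * g⁻¹ ∈ H' := by
      rw [h]
      have : g⁻¹ * (g * x * g⁻¹) * g = x := by group
      rwa [this]
    have h2 := hy _ h1
    rw [← key (g * x * g⁻¹)] at h2
    have : g⁻¹ * (g * x * g⁻¹) * g = x := by group
    rwa [this] at h2
  · intro y hy x hx
    have h1 := hy _ ((h x).1 hx)
    rwa [key] at h1

theorem Vs_top (ho : Function.Surjective pr) : Vs pr (⊤ : Subgroup G) = ⊥ := by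
  classical
  rw [eq_bot_iff]
  intro y hy
  rw [Submodule.mem_bot]
  funext i
  obtain ⟨g, hg⟩ := ho (Pi.single i 1)
  have h1 := hy g (Subgroup.mem_top g)
  rw [hg, single_dotProduct, one_mul] at h1
  exact h1

theorem card_Vs [Finite G] (hm : ∀ g h, pr (g * h) = pr g + pr h)
    (ho : Function.Surjective pr) (H : Subgroup G) : Nat.card (Vs pr H) ≤ H.index := by
  classical
  have h1 : Vs pr H = (im hm H).dualAnnihilator.comap (dotProductEquiv (ZMod p) K).toLinearMap := by
    ext y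
    rw [Submodule.mem_comap, Submodule.mem_dualAnnihilator]
    constructor
    · rintro hy _ ⟨g, hg, rfl⟩
      show y ⬝ᵥ pr g = 0
      rw [dotProduct_comm]
      exact hy g hg
    · intro hy g hg
      have h2 : y ⬝ᵥ pr g = 0 := hy (pr g) ⟨g, hg, rfl⟩
      rw [dotProduct_comm] at h2
      exact h2
  have h2 : Module.finrank (ZMod p) (Vs pr H) =
      Module.finrank (ZMod p) (im hm H).dualAnnihilator := by
    rw [h1]
    exact ((dotProductEquiv (ZMod p) K).ofSubmodule' _).finrank_eq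
  have h3 := Subspace.finrank_add_finrank_dualAnnihilator_eq (im hm H)
  have h4 := Submodule.finrank_quotient_add_finrank (im hm H)
  have h5 : Nat.card (Vs pr H) = Nat.card ((K → ZMod p) ⧸ im hm H) := by
    rw [Module.natCard_eq_pow_finrank (K := ZMod p) (V := Vs pr H),
      Module.natCard_eq_pow_finrank (K := ZMod p) (V := (K → ZMod p) ⧸ im hm H)]
    congr 1
    omega
  rw [h5, Subgroup.index]
  let φ : G ⧸ H → (K → ZMod p) ⧸ im hm H := Quotient.lift
    (fun g => Submodule.Quotient.mk (pr g)) (by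
      intro a b hab
      have h6 : a⁻¹ * b ∈ H := QuotientGroup.leftRel_apply.1 hab
      rw [Submodule.Quotient.eq]
      refine ⟨(a⁻¹ * b)⁻¹, H.inv_mem h6, ?_⟩
      rw [pr_inv hm, hm, pr_inv hm]
      abel)
  have hφ : Function.Surjective φ := by
    intro x
    obtain ⟨v, rfl⟩ := Submodule.Quotient.mk_surjective _ x
    obtain ⟨g, rfl⟩ := ho v
    exact ⟨Quotient.mk _ g, rfl⟩
  exact Nat.card_le_card_of_surjective φ hφ

end

end Pool.Agent.H79.CQ
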