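import Pool.Agent.H42.CS.GId

/-!
# The grid, gadgets and worlds over `F_p`: definitions

The points, edges and squares of the grid (`Pt`, `Ed`, `Sq`, `un`, `inB`, `isE`, `isS`, `mix`, `btw`,
`Slot`, `off`, `ed`, `sq`, `box_fin`, `isE_fin`, `isS_fin`, `mix_isE`) are those of `H42/CS`
(`Grd`, `GId`). All chains and cochains have values in `ZMod p` (`H42/CS`: `ZMod 2`).
-/

set_option autoImplicit false

namespace Pool.Agent.H79.CQ

open Pool.Agent.H42.CS (Pt Ed Sq un inB isE isS mix btw Slot off ed sq)

variable {p : ℕ}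

/-- The weight of a function: the number of its nonzero values. -/
noncomputable def nm {α : Type} (z : α → ZMod p) : ℕ := {e | z e ≠ 0}.ncard

/-- The chain is supported on the edges of the box. -/
def Sup {d : ℕ} (L : ℕ) (z : Ed d → ZMod p) : Prop := ∀ e, ¬ isE L e → z e = 0

open Classical in
/-- The coboundary of a function on the edges: a function on the squares. -/
noncomputable def dl {d : ℕ} (L : ℕ) (z : Ed d → ZMod p) (s : Sq d) : ZMod p :=
  if isS L s then z (s.1, s.2.1) + z (s.1 + un s.2.1, s.2.2) - z (s.1 + un s.2.2, s.2.1) -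
    z (s.1, s.2.2) else 0

open Classical in
/-- The coboundary of a function on the points: a function on the edges. -/
noncomputable def cob {d : ℕ} (L : ℕ) (f : Pt d → ZMod p) (e : Ed d) : ZMod p :=
  if isE L e then f e.1 - f (e.1 + un e.2) else 0

/-- The sign of the direction from `u` to `v`. -/
def sgs (p : ℕ) (u v : ℤ) : ZMod p := if u ≤ v then 1 else -1

/-- The signed sum of `z` along the path from `P` to `x` that changes the coordinates in their
order. -/
noncomputable def pth {d : ℕ} (z : Ed d → ZMod p) (P x : Pt d) : ZMod p :=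
  ∑ b : Fin d, sgs p (P b) (x b) * ∑ t ∈ btw (P b) (x b), z (mix x P b t, b)

open Classical in
/-- The value of a small closed chain: it is the coboundary of a function which is zero at more than
7/8 of the points of the box; the value of this function at the vertex `0`. -/
noncomputable def sg {d : ℕ} (L : ℕ) (z : Ed d → ZMod p) : ZMod p :=
  if h : ∃ f : Pt d → ZMod p, z = cob L f ∧ 8 * {x | inB L x ∧ f x ≠ 0}.ncard < L ^ d
  then h.choose 0 else 0

/-- The image of a function on the squares in the functions on the cells. -/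
noncomputable def iot {d : ℕ} {K : Type} (L : ℕ) (j : Sq d → K) (v : Sq d → ZMod p) (k : K) :
    ZMod p := ∑ᶠ s ∈ {s : Sq d | isS L s ∧ j s = k}, v s

/-- The vector of an edge. -/
noncomputable def ye {d : ℕ} {K : Type} (p L : ℕ) (j : Sq d → K) (e : Ed d) : K → ZMod p :=
  iot L j (dl L (Pi.single e 1))

/-- The sign of a slot. -/
def tau (p : ℕ) {d : ℕ} (σ : Slot d) : ZMod p := if σ.2 then 1 else -1

/-- The coefficient of the square `sq x σ t` in the coboundary of the edge `ed x σ`. -/
def oo (p : ℕ) {d : ℕ} (σ t : Slot d) : ZMod p :=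
  (if σ.1 < t.1 then 1 else -1) * tau p t

/-! ### Gadgets and worlds -/

/-- A space `D` of vectors with a symmetric cocycle, which is a cocycle only on vectors of
weight at most `w`, and is zero on lines. -/
structure Gad (p : ℕ) (K : Type) where
  /-- the space -/
  D : Submodule (ZMod p) (K → ZMod p)
  /-- the bound for the weight -/
  w : ℕ
  /-- the cocycle -/
  kap : (K → ZMod p) → (K → ZMod p) → ZMod p
  kap_comm : ∀ y y', kap y y' = kap y' y
  kap_line : ∀ (a b : ZMod p) (y : K → ZMod p), kap (a • y) (b • y) = 0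
  kap_coc : ∀ y y' y'', y ∈ D → y' ∈ D → y'' ∈ D → nm y ≤ w → nm y' ≤ w → nm y'' ≤ w →
    nm (y + y') ≤ w → nm (y' + y'') ≤ w → nm (y + y' + y'') ≤ w →
    kap y y' + kap (y + y') y'' = kap y' y'' + kap y (y' + y'')

/-- Candidates for worlds: functions of vectors. -/
abbrev Wd (p : ℕ) (K : Type) : Type := (K → ZMod p) → ZMod p

/-- The space `U` is tame: its members in `D` are light. -/
def Gad.Tame {K : Type} (g : Gad p K) (U : Submodule (ZMod p) (K → ZMod p)) : Prop :=
  ∀ y ∈ U, y ∈ g.D → nm y ≤ g.w

/-- `f` is a world on `U`. -/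
def Gad.IsW {K : Type} (g : Gad p K) (U : Submodule (ZMod p) (K → ZMod p)) (f : Wd p K) : Prop :=
  ∀ y ∈ U, y ∈ g.D → ∀ y' ∈ U, y' ∈ g.D → f (y + y') = f y + f y' + g.kap y y'

/-- `f` and `f'` agree on `U`. -/
def Gad.Agr {K : Type} (g : Gad p K) (U : Submodule (ZMod p) (K → ZMod p)) (f f' : Wd p K) :
    Prop := ∀ y ∈ U, y ∈ g.D → f y = f' y

/-- The shift of a world by the linear function `t`. -/
def sh {K : Type} [Fintype K] (t : K → ZMod p) (f : Wd p K) : Wd p K := fun y => f y + t ⬝ᵥ y

open Classical in
/-- An extension of the world `f` on `U` to a world on `U'`. It depends only on `U, U', f`. -/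
noncomputable def Gad.ext {K : Type} (g : Gad p K) (U U' : Submodule (ZMod p) (K → ZMod p))
    (f : Wd p K) : Wd p K :=
  if h : ∃ f', g.IsW U' f' ∧ g.Agr U f f' then h.choose else f

/-- The annihilator of a subgroup. -/
def Vs {K G : Type} [Fintype K] [Group G] (pr : G → K → ZMod p) (H : Subgroup G) :
    Submodule (ZMod p) (K → ZMod p) where
  carrier := {y | ∀ g ∈ H, pr g ⬝ᵥ y = 0}
  add_mem' := by
    intro a b ha hb g hg
    rw [dotProduct_add, ha g hg, hb g hg, add_zero]
  zero_mem' := by
    intro g _
    exact dotProduct_zero _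
  smul_mem' := by
    intro c a ha g hg
    rw [dotProduct_smul, ha g hg, smul_zero]

/-- The vectors supported on `s`. -/
def csp (p : ℕ) {K : Type} (s : Finset K) : Submodule (ZMod p) (K → ZMod p) where
  carrier := {y | ∀ k, k ∉ s → y k = 0}
  add_mem' := by
    intro a b ha hb k hk
    rw [Pi.add_apply, ha k hk, hb k hk, add_zero]
  zero_mem' := by
    intro k _
    rfl
  smul_mem' := by
    intro c a ha k hk
    rw [Pi.smul_apply, ha k hk, smul_zero]

/-! ### Cells -/

/-- A group `H` of permutations of `P` with `r` disjoint cells, each divided into `p` blocks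
`C i b`, `b ∈ ZMod p`, and a homomorphism `pr` onto `F_p^r`: `g` moves the blocks of the cell `i` by
`pr g i`. -/
structure Cells (p : ℕ) (P : Type) (r : ℕ) where
  /-- the group -/
  H : Subgroup (Equiv.Perm P)
  /-- the blocks of the cells -/
  C : Fin r → ZMod p → Set P
  /-- the homomorphism -/
  pr : H → Fin r → ZMod p
  pr_mul : ∀ g g' : H, pr (g * g') = pr g + pr g'
  pr_onto : Function.Surjective pr
  ne : ∀ i b, (C i b).Nonempty
  disj : ∀ i b j c, (i, b) ≠ (j, c) → Disjoint (C i b) (C j c)
  map : ∀ (g : H) (i : Fin r) (b : ZMod p), (g : Equiv.Perm P) '' C i b = C i (b + pr g i)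

end Pool.Agent.H79.CQ
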