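import Pool.Agent.H79.CQ.Mod

/-!
# The clauses are true in the model I

`ClOK g leaf fam Λ`: the clause `Λ` is true in the sense needed by the engine. `Esy Λ`: some member has the
right truth value at every world. `cel u`: the cells of the points `u t`.

* `clok_of`: `Y := csp p s`. `clok_esy`: `Y := csp p ∅`.
* `card_cel`: every point is in at most one cell (`blk_disj`). `ye_csp`: `ye_supp`, `ye_mem`. `val_agr`: the
  vector `ye …` is in `csp p s` and in `D`. `thS_agr`: `val_agr` for the labels `sl σ u` (if `isE`). `loc_T`, `loc_M`, `loc_G`,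
  `loc_X`: unfold; `val_agr`, `thS_agr` (`tot` is a function of `thS`).
* er, es, et: `pE` is an equivalence relation. jf: `x ∈ blk (cv v)`, `y, z ∈ blk (cv (v + un a))` (`vert_unique`), so
  `pE y z` (`blk_disj`). ji: similarly (`v + un a = v' + un a`). je: `pE x x'` and `x ∈ blk (cv v)` give
  `x' ∈ blk (cv v)`. f6, f7, z1, z2, z3: see the header and the proofs of `H42/CS/Mo2` (`sq_shift` below is the same
  as there). b1: the block `C kA 0` is nonempty. b2, b3: the block of a point is unique (`bit_of_mem`). b4: if `pB x x`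
  then `x ∈ C kA b`; take `y` in `C kA (b + 1)`, `b + 1 ≠ b`. b5: `pD x y` gives `y ∈ C kA b` for some `b`. b6: `pB x y` gives
  `bit x = bit y`.
-/

set_option autoImplicit false
set_option linter.unusedSectionVars false

namespace Pool.Agent.H79.CQ

open Pool.Agent.H42.CS (Pt Ed Sq un inB isE isS Slot off ed sq Ax Atom)

variable {p : ℕ} [hp : Fact p.Prime]

/-- The squares at the two ends of an edge. -/
theorem sq_shift {d : ℕ} (x : Pt d) (a : Fin d) (t : Slot d) :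
    sq (x + un a) (a, false) t = sq x (a, true) t ∧ ed (x + un a) (a, false) = ed x (a, true) ∧
      ed x (a, true) = (x, a) := by
  refine ⟨?_, ?_, ?_⟩
  · simp [H42.CS.sq, H42.CS.off]
  · simp [H42.CS.ed, H42.CS.off]
  · simp [H42.CS.ed, H42.CS.off]

/-- The number of the labels of a vertex. -/
def k8 (d : ℕ) : ℕ := Fintype.card (Sym2 (Slot d))

/-- The clause `Λ` is true: at every world on a tame space that contains the space `Y` of the clause, some
member is true at every world that agrees on `Y`. -/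
def ClOK {p : ℕ} {Rel : ℕ → Type} {P K : Type} (g : Gad p K) (leaf : Atom Rel P → Wd p K → Prop)
    (fam : Set (Submodule (ZMod p) (K → ZMod p))) (Λ : Set (Atom Rel P × Bool)) : Prop :=
  ∃ Y ∈ fam, ∀ (U : Submodule (ZMod p) (K → ZMod p)) (f : Wd p K), Y ≤ U → g.Tame U →
    g.IsW U f → ∃ x ∈ Λ, ∀ f', g.Agr Y f f' → (leaf x.1 f' ↔ x.2 = true)

namespace Dat

variable {d L r : ℕ} {P : Type} (D : Dat p d L r P)

/-- Some member has the right truth value at every world. -/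
def Esy (Λ : Set (Atom (Re d) P × Bool)) : Prop := ∃ x ∈ Λ, ∀ f, (D.leaf x.1 f ↔ x.2 = true)

open Classical in
/-- The cells of the points `u t`. -/
noncomputable def cel {ι : Type} (u : ι → P) : Finset (Fin r) :=
  Finset.univ.filter (fun i => ∃ t, u t ∈ D.blk i)

private theorem mem_cel_iff {ι : Type} {u : ι → P} {i : Fin r} :
    i ∈ D.cel u ↔ ∃ t, u t ∈ D.blk i := by
  simp [cel]

theorem card_cel {ι : Type} [Fintype ι] (u : ι → P) : (D.cel u).card ≤ Fintype.card ι := by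
  classical
  have h : D.cel u ⊆ (Finset.univ : Finset ι).image
      (fun t => if h : ∃ i, u t ∈ D.blk i then h.choose else D.cv 0) := by
    intro i hi
    obtain ⟨t, ht⟩ := D.mem_cel_iff.1 hi
    have h : ∃ i, u t ∈ D.blk i := ⟨i, ht⟩
    refine Finset.mem_image.2 ⟨t, Finset.mem_univ _, ?_⟩
    rw [dif_pos h]
    exact D.blk_disj h.choose_spec ht
  refine (Finset.card_le_card h).trans (Finset.card_image_le.trans ?_)
  rw [Finset.card_univ]

theorem card_slot : Fintype.card (Slot d) ≤ k8 d := by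
  exact Fintype.card_le_of_injective (fun t : Slot d => s(t, t)) (fun a b h => by
    simpa using h)

theorem clok_of {fam : Set (Submodule (ZMod p) (Fin r → ZMod p))}
    (hfam : ∀ s : Finset (Fin r), s.card ≤ k8 d → csp p s ∈ fam)
    {Λ : Set (Atom (Re d) P × Bool)} (s : Finset (Fin r)) (hs : s.card ≤ k8 d)
    (hloc : ∀ x ∈ Λ, ∀ f f', D.g.Agr (csp p s) f f' → (D.leaf x.1 f ↔ D.leaf x.1 f'))
    (h : ∀ (U : Submodule (ZMod p) (Fin r → ZMod p)) (f : Wd p (Fin r)), csp p s ≤ U →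
      D.g.Tame U → D.g.IsW U f → ∃ x ∈ Λ, (D.leaf x.1 f ↔ x.2 = true)) :
    ClOK D.g D.leaf fam Λ := by
  refine ⟨csp p s, hfam s hs, fun U f hY hT hW => ?_⟩
  obtain ⟨x, hx, hf⟩ := h U f hY hT hW
  exact ⟨x, hx, fun f' hff => (hloc x hx f f' hff).symm.trans hf⟩

theorem clok_esy {fam : Set (Submodule (ZMod p) (Fin r → ZMod p))}
    (hfam : ∀ s : Finset (Fin r), s.card ≤ k8 d → csp p s ∈ fam)
    {Λ : Set (Atom (Re d) P × Bool)} (h : D.Esy Λ) : ClOK D.g D.leaf fam Λ := by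
  obtain ⟨x, hx, hf⟩ := h
  exact ⟨csp p ∅, hfam ∅ (by simp), fun U f _ _ _ => ⟨x, hx, fun f' _ => hf f'⟩⟩

theorem ye_csp {x : Pt d} {σ : Slot d} (hx : inB L x) (he : isE L (ed x σ)) {u : Slot d → P}
    (hu : ∀ t, isS L (sq x σ t) → u t ∈ D.blk (D.j (sq x σ t))) (s : Finset (Fin r))
    (hs : ∀ i t, u t ∈ D.blk i → i ∈ s) :
    ye p L D.j (ed x σ) ∈ csp p s ∧ ye p L D.j (ed x σ) ∈ D.g.D := by
  refine ⟨fun k hk => ?_, D.ye_mem _ he⟩
  by_contra hne
  obtain ⟨t, ht, hkt⟩ := ye_supp L D.j D.j_inj x σ hx he k hne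
  exact hk (hs k t (by rw [hkt]; exact hu t ht))

theorem val_agr {x : Pt d} {σ : Slot d} (hx : inB L x) (he : isE L (ed x σ)) {u : Slot d → P}
    (hu : ∀ t, isS L (sq x σ t) → u t ∈ D.blk (D.j (sq x σ t))) {s : Finset (Fin r)}
    (hs : ∀ i t, u t ∈ D.blk i → i ∈ s) {f f' : Wd p (Fin r)} (h : D.g.Agr (csp p s) f f') :
    D.val x σ u f = D.val x σ u f' := by
  have h1 := D.ye_csp hx he hu s hs
  unfold val
  rw [h _ h1.1 h1.2]

private theorem mem_cel {ι : Type} {u : ι → P} {i : Fin r} {t : ι} (h : u t ∈ D.blk i) :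
    i ∈ D.cel u := by
  exact D.mem_cel_iff.2 ⟨t, h⟩

theorem thS_agr {x : Pt d} {q : P} {u : Sym2 (Slot d) → P} (hl : D.Leg x q u)
    {s : Finset (Fin r)} (hs : D.cel u ⊆ s) {f f' : Wd p (Fin r)}
    (h : D.g.Agr (csp p s) f f') : D.thS x u f = D.thS x u f' := by
  funext σ
  unfold thS
  split_ifs with he
  · rw [D.val_agr hl.1 he (u := sl σ u) (fun t ht => hl.2.2 σ t ht)
      (fun i t ht => hs (D.mem_cel ht)) h]
  · rfl

private theorem loc_T0 {σ : Slot d} {q z y : P} {u : Slot d → P} {s : Finset (Fin r)}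
    (hs : ∀ i t, u t ∈ D.blk i → i ∈ s) {f f' : Wd p (Fin r)} (h : D.g.Agr (csp p s) f f') :
    D.leaf (aT σ q u z y) f ↔ D.leaf (aT σ q u z y) f' := by
  rw [D.leaf_aT, D.leaf_aT]
  unfold pT
  refine and_congr_right fun _ => and_congr_right fun _ => exists_congr fun x =>
    and_congr_right fun hx => and_congr_right fun _ => and_congr_right fun he =>
    and_congr_right fun hu => ?_
  rw [D.val_agr hx he hu hs h]

theorem loc_T {σ : Slot d} {q z y : P} {u : Slot d → P} {s : Finset (Fin r)}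
    (hs : D.cel u ⊆ s) {f f' : Wd p (Fin r)} (h : D.g.Agr (csp p s) f f') :
    D.leaf (aT σ q u z y) f ↔ D.leaf (aT σ q u z y) f' := by
  exact D.loc_T0 (fun i t ht => hs (D.mem_cel ht)) h

theorem loc_T' {σ : Slot d} {q z y : P} {u : Sym2 (Slot d) → P} {s : Finset (Fin r)}
    (hs : D.cel u ⊆ s) {f f' : Wd p (Fin r)} (h : D.g.Agr (csp p s) f f') :
    D.leaf (aT σ q (sl σ u) z y) f ↔ D.leaf (aT σ q (sl σ u) z y) f' := by
  exact D.loc_T0 (fun i t ht => hs (D.mem_cel (u := u) (t := s(σ, t)) ht)) h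

theorem loc_M {σ : Slot d} {k : Fin (2 * d)} {q z y y' : P} {u : Sym2 (Slot d) → P}
    {s : Finset (Fin r)} (hs : D.cel u ⊆ s) {f f' : Wd p (Fin r)}
    (h : D.g.Agr (csp p s) f f') :
    D.leaf (aM σ k q u z y y') f ↔ D.leaf (aM σ k q u z y y') f' := by
  rw [D.leaf_aM, D.leaf_aM]
  unfold pM
  refine and_congr_right fun _ => and_congr_right fun _ => and_congr_right fun _ =>
    exists_congr fun x => and_congr_right fun hl => ?_
  rw [D.thS_agr hl hs h]

theorem loc_G {k : Fin (2 * d)} {q z y' : P} {u : Sym2 (Slot d) → P} {s : Finset (Fin r)}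
    (hs : D.cel u ⊆ s) {f f' : Wd p (Fin r)} (h : D.g.Agr (csp p s) f f') :
    D.leaf (aG k q u z y') f ↔ D.leaf (aG k q u z y') f' := by
  rw [D.leaf_aG, D.leaf_aG]
  unfold pG tot
  refine and_congr_right fun _ => and_congr_right fun _ =>
    exists_congr fun x => and_congr_right fun hl => ?_
  rw [D.thS_agr hl hs h]

theorem loc_X {k : Fin (2 * d)} {q z : P} {u : Sym2 (Slot d) → P} {s : Finset (Fin r)}
    (hs : D.cel u ⊆ s) {f f' : Wd p (Fin r)} (h : D.g.Agr (csp p s) f f') :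
    D.leaf (aX k q u z) f ↔ D.leaf (aX k q u z) f' := by
  rw [D.leaf_aX, D.leaf_aX]
  unfold pX tot
  refine and_congr_right fun _ => exists_congr fun x => and_congr_right fun hl => ?_
  rw [D.thS_agr hl hs h]

/-! ### The clauses without worlds -/

private theorem m2_sq {d : ℕ} (x : Pt d) {σ t σ' t' : Slot d} (h : s(σ, t) = s(σ', t')) :
    sq x σ t = sq x σ' t' := by
  rcases Sym2.eq_iff.1 h with ⟨rfl, rfl⟩ | ⟨rfl, rfl⟩
  · rfl
  · simp only [H42.CS.sq]
    rw [add_right_comm, min_comm, max_comm]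

private theorem m2_f {Λ : Set (Atom (Re d) P × Bool)} (hno : ¬ D.Esy Λ) {v : Atom (Re d) P}
    (hm : (v, false) ∈ Λ) {c : Prop} (hv : ∀ f, D.leaf v f ↔ c) : c := by
  by_contra hp
  exact hno ⟨_, hm, fun f => (hv f).trans ⟨fun h => absurd h hp, fun h => absurd h (by simp)⟩⟩

private theorem m2_t {Λ : Set (Atom (Re d) P × Bool)} (hno : ¬ D.Esy Λ) {v : Atom (Re d) P}
    (hm : (v, true) ∈ Λ) {c : Prop} (hv : ∀ f, D.leaf v f ↔ c) : ¬ c :=
  fun hp => hno ⟨_, hm, fun f => (hv f).trans ⟨fun _ => rfl, fun _ => hp⟩⟩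

private theorem m2_pE {w : Pt d} {q q' : P} (hw : inB L w) (hq : q ∈ D.blk (D.cv w))
    (hq' : q' ∈ D.blk (D.cv w)) : D.pE q q' := by
  intro x hx
  constructor
  · intro h
    rw [D.vert_unique hx hw h hq]
    exact hq'
  · intro h
    rw [D.vert_unique hx hw h hq']
    exact hq

private theorem m2_zero (hL : 0 < L) : inB L (0 : Pt d) := fun i => by
  simp [hL]

private theorem m2_blk (i : Fin r) : ∃ y, y ∈ D.blk i := by
  obtain ⟨y, hy⟩ := D.M.ne i 0
  exact ⟨y, 0, hy⟩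

theorem ok_er (x : P) : D.Esy {(aE x x, true)} := by
  by_contra hno
  exact D.m2_t hno rfl (D.leaf_aE x x) fun _ _ => Iff.rfl

theorem ok_es (x y : P) : D.Esy {(aE x y, false), (aE y x, true)} := by
  by_contra hno
  have h1 := D.m2_f hno (Or.inl rfl) (D.leaf_aE x y)
  exact D.m2_t hno (Or.inr rfl) (D.leaf_aE y x) fun z hz => (h1 z hz).symm

theorem ok_et (x y z : P) : D.Esy {(aE x y, false), (aE y z, false), (aE x z, true)} := by
  by_contra hno
  have h1 := D.m2_f hno (Or.inl rfl) (D.leaf_aE x y)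
  have h2 := D.m2_f hno (Or.inr (Or.inl rfl)) (D.leaf_aE y z)
  exact D.m2_t hno (Or.inr (Or.inr rfl)) (D.leaf_aE x z) fun w hw => (h1 w hw).trans (h2 w hw)

theorem ok_jf (a : Fin d) (x y z : P) :
    D.Esy {(aJ a x y, false), (aJ a x z, false), (aE y z, true)} := by
  by_contra hno
  obtain ⟨v, hv, h1, h2⟩ := D.m2_f hno (Or.inl rfl) (D.leaf_aJ a x y)
  obtain ⟨v', hv', h3, h4⟩ := D.m2_f hno (Or.inr (Or.inl rfl)) (D.leaf_aJ a x z)
  have e : v = v' := D.vert_unique hv.1 hv'.1 h1 h3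
  rw [← e] at h4
  exact D.m2_t hno (Or.inr (Or.inr rfl)) (D.leaf_aE y z) (D.m2_pE hv.2 h2 h4)

theorem ok_ji (a : Fin d) (x y z : P) :
    D.Esy {(aJ a x z, false), (aJ a y z, false), (aE x y, true)} := by
  by_contra hno
  obtain ⟨v, hv, h1, h2⟩ := D.m2_f hno (Or.inl rfl) (D.leaf_aJ a x z)
  obtain ⟨v', hv', h3, h4⟩ := D.m2_f hno (Or.inr (Or.inl rfl)) (D.leaf_aJ a y z)
  have e : v = v' := add_right_cancel (D.vert_unique hv.2 hv'.2 h2 h4)
  rw [← e] at h3
  exact D.m2_t hno (Or.inr (Or.inr rfl)) (D.leaf_aE x y) (D.m2_pE hv.1 h1 h3)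

theorem ok_je (a : Fin d) (x y x' y' : P) :
    D.Esy {(aJ a x y, false), (aE x x', false), (aE y y', false), (aJ a x' y', true)} := by
  by_contra hno
  obtain ⟨v, hv, h1, h2⟩ := D.m2_f hno (Or.inl rfl) (D.leaf_aJ a x y)
  have h3 := D.m2_f hno (Or.inr (Or.inl rfl)) (D.leaf_aE x x')
  have h4 := D.m2_f hno (Or.inr (Or.inr (Or.inl rfl))) (D.leaf_aE y y')
  exact D.m2_t hno (Or.inr (Or.inr (Or.inr rfl))) (D.leaf_aJ a x' y')
    ⟨v, hv, (h3 v hv.1).1 h1, (h4 _ hv.2).1 h2⟩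

theorem ok_f6 (a : Fin d) (t : Slot d) (b : Bool) (q q' u : P) :
    D.Esy {(aJ a q q', false), (aF s((a, b), t) (if b then q else q') u, false),
      (aF s((a, !b), t) (if b then q' else q) u, true)} := by
  by_contra hno
  obtain ⟨v, hv, h1, h2⟩ := D.m2_f hno (Or.inl rfl) (D.leaf_aJ a q q')
  have h3 := D.m2_f hno (Or.inr (Or.inl rfl)) (D.leaf_aF s((a, b), t) (if b then q else q') u)
  refine D.m2_t hno (Or.inr (Or.inr rfl))
    (D.leaf_aF s((a, !b), t) (if b then q' else q) u) ?_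
  cases b with
  | true =>
    intro x σ t' hs hx hq hS
    have hq' : q' ∈ D.blk (D.cv x) := hq
    have e := D.vert_unique hx hv.2 hq' h2
    rw [← m2_sq x hs] at hS ⊢
    subst e
    have e2 : sq (v + un a) (a, !true) t = sq v (a, true) t := (sq_shift v a t).1
    rw [e2] at hS ⊢
    exact h3 v (a, true) t rfl hv.1 h1 hS
  | false =>
    intro x σ t' hs hx hq hS
    have hq' : q ∈ D.blk (D.cv x) := hq
    have e := D.vert_unique hx hv.1 hq' h1
    rw [← m2_sq x hs] at hS ⊢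
    subst e
    have e2 : sq x (a, !false) t = sq (x + un a) (a, false) t := (sq_shift x a t).1.symm
    rw [e2] at hS ⊢
    exact h3 (x + un a) (a, false) t rfl hv.2 h2 hS

theorem ok_f7 (τ : Sym2 (Slot d)) (q : P) : D.Esy {x | ∃ u, x = (aF τ q u, true)} := by
  by_contra hno
  have h1 : ∀ u, ¬ D.pF τ q u := fun u => D.m2_t hno ⟨u, rfl⟩ (D.leaf_aF τ q u)
  induction τ using Sym2.ind with
  | _ σ t =>
    by_cases hx : ∃ x, inB L x ∧ q ∈ D.blk (D.cv x) ∧ isS L (sq x σ t)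
    · obtain ⟨x, hx1, hx2, hx3⟩ := hx
      obtain ⟨u, hu⟩ := D.m2_blk (D.j (sq x σ t))
      refine h1 u ?_
      intro x' σ' t' hs hx' hq hS
      have e := D.vert_unique hx' hx1 hq hx2
      subst e
      rw [← m2_sq x' hs]
      exact hu
    · refine h1 q ?_
      intro x' σ' t' hs hx' hq hS
      rw [← m2_sq x' hs] at hS
      exact absurd ⟨x', hx', hq, hS⟩ hx

theorem ok_z1 : D.Esy {x | ∃ y, x = (aZ y, true)} := by
  by_contra hno
  obtain ⟨y, hy⟩ := D.m2_blk (D.cv 0)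
  exact D.m2_t hno ⟨y, rfl⟩ (D.leaf_aZ y) hy

theorem ok_z2 (x y : P) : D.Esy {(aZ x, false), (aZ y, false), (aE x y, true)} := by
  by_contra hno
  have h1 := D.m2_f hno (Or.inl rfl) (D.leaf_aZ x)
  have h2 := D.m2_f hno (Or.inr (Or.inl rfl)) (D.leaf_aZ y)
  refine D.m2_t hno (Or.inr (Or.inr rfl)) (D.leaf_aE x y) fun v _ => ?_
  constructor
  · intro h
    rw [D.blk_disj h h1]
    exact h2
  · intro h
    rw [D.blk_disj h h2]
    exact h1

theorem ok_z3 (hL : 0 < L) (x y : P) :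
    D.Esy {(aZ x, false), (aE x y, false), (aZ y, true)} := by
  by_contra hno
  have h1 := D.m2_f hno (Or.inl rfl) (D.leaf_aZ x)
  have h2 := D.m2_f hno (Or.inr (Or.inl rfl)) (D.leaf_aE x y)
  exact D.m2_t hno (Or.inr (Or.inr rfl)) (D.leaf_aZ y) ((h2 0 (m2_zero hL)).1 h1)

theorem ok_b1 : D.Esy {x | ∃ y, x = (aB y y, true)} := by
  by_contra hno
  obtain ⟨y, hy⟩ := D.M.ne D.kA 0
  exact D.m2_t hno ⟨y, rfl⟩ (D.leaf_aB y y) ⟨0, hy, hy⟩

theorem ok_b2 (x y : P) : D.Esy {(aB x y, false), (aB y x, true)} := by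
  by_contra hno
  obtain ⟨b, h1, h2⟩ := D.m2_f hno (Or.inl rfl) (D.leaf_aB x y)
  exact D.m2_t hno (Or.inr rfl) (D.leaf_aB y x) ⟨b, h2, h1⟩

theorem ok_b3 (x y z : P) : D.Esy {(aB x y, false), (aB y z, false), (aB x z, true)} := by
  by_contra hno
  obtain ⟨b, h1, h2⟩ := D.m2_f hno (Or.inl rfl) (D.leaf_aB x y)
  obtain ⟨c, h3, h4⟩ := D.m2_f hno (Or.inr (Or.inl rfl)) (D.leaf_aB y z)
  have e : b = c := by rw [← D.bit_of_mem h2, D.bit_of_mem h3]
  rw [← e] at h4
  exact D.m2_t hno (Or.inr (Or.inr rfl)) (D.leaf_aB x z) ⟨b, h1, h4⟩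

theorem ok_b4 (x : P) : D.Esy ({(aB x x, false)} ∪ {l | ∃ y, l = (aD x y, true)}) := by
  by_contra hno
  obtain ⟨b, h1, -⟩ := D.m2_f hno (Or.inl rfl) (D.leaf_aB x x)
  obtain ⟨y, hy⟩ := D.M.ne D.kA (b + 1)
  refine D.m2_t hno (Or.inr ⟨y, rfl⟩) (D.leaf_aD x y) ⟨⟨b, h1⟩, ⟨b + 1, hy⟩, ?_⟩
  rw [D.bit_of_mem h1, D.bit_of_mem hy]
  intro h
  exact one_ne_zero (left_eq_add.1 h)

theorem ok_b5 (x y : P) : D.Esy {(aD x y, false), (aB y y, true)} := by
  by_contra hno
  obtain ⟨-, ⟨b, h2⟩, -⟩ := D.m2_f hno (Or.inl rfl) (D.leaf_aD x y)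
  exact D.m2_t hno (Or.inr rfl) (D.leaf_aB y y) ⟨b, h2, h2⟩

theorem ok_b6 (x y : P) : D.Esy {(aD x y, false), (aB x y, false)} := by
  by_contra hno
  obtain ⟨-, -, h1⟩ := D.m2_f hno (Or.inl rfl) (D.leaf_aD x y)
  obtain ⟨b, h2, h3⟩ := D.m2_f hno (Or.inr rfl) (D.leaf_aB x y)
  rw [D.bit_of_mem h2, D.bit_of_mem h3] at h1
  exact h1 rfl

end Dat

end Pool.Agent.H79.CQ
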