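import Pool.Agent.H79.CQ.Grd

/-!
# Random choice of the cells of the squares

Variant of `Pool/Agent/H42/CS/Ran.lean` over `F_p`; new: the coordinate spaces `csp p s` with `s.card ≤ k` are
not counted by their number of elements (which depends on `p`), but by the sets `s`.

PROOF. Let `l` be six spaces, each `⊥`, in `Sp`, or `csp p s_i` with `s_i.card ≤ k`; a member `y` of
`⨆ i, l i` is `y' + y''` with `y'` a sum of at most six members of spaces in `Sp`, and `y''` supported on
`s = ⋃ s_i`, `s.card ≤ 6 k`. If `nm y ≥ w + 1` and every `i` with `y i ≠ 0` is of the form `cand i (b i)`, then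
`y'` has at least `w + 1 - 6 k` nonzero values outside `s`, all of the form `cand i (b i)`. Call `b` bad for
`(y', s)` if all `κ ∉ s` with `y' κ ≠ 0` have the form `cand i (b i)`. As in the original (`bad_card`, applied to
`y'` with the values on `s` replaced by 0), if `y'` has at least `w + 1 - 6 k` nonzero values outside `s`, at
most `2 ^ (|I| - (w + 1 - 6 k))` functions `b` are bad for `(y', s)`. The number of the pairs `(y', s)` is at
most `(1 + M * M) ^ 6 * M ^ 6` (`y'` is a sum of six members of the set `Z` = union of the spaces in `Sp` and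
`{0}`, `|Z| ≤ 1 + M * M`; `s` is a union of six sets with at most `k` elements, and there are at most
`(|K| + 1) ^ k ≤ M` of them: images of functions `Fin k → Option K`). `(1 + M * M) ^ 6 * M ^ 6 ≤ (2 * M) ^ 18`
(`M ≥ 1`), and `(2 M) ^ 18 * 2 ^ (6 k) < 2 ^ (w + 1)` gives `(2 M) ^ 18 * 2 ^ (|I| - (w + 1 - 6 k)) < 2 ^ |I|`.
-/

set_option autoImplicit false
set_option linter.unusedSectionVars false

namespace Pool.Agent.H79.CQ

variable {p : ℕ} [hp : Fact p.Prime]

open Classical in
private theorem bad_card {K I : Type} [Fintype K] [Fintype I] (cand : I → Bool → K)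
    (hinj : ∀ i b i' b', cand i b = cand i' b' → i = i' ∧ b = b') (m : ℕ) (T : Finset K)
    (hT : m ≤ T.card) :
    (Finset.univ.filter fun b : I → Bool => ∀ κ ∈ T, ∃ i, κ = cand i (b i)).card * 2 ^ m ≤
      2 ^ Fintype.card I := by
  rcases Finset.eq_empty_or_nonempty
    (Finset.univ.filter fun b : I → Bool => ∀ κ ∈ T, ∃ i, κ = cand i (b i)) with h0 | ⟨b0, hb0⟩
  · rw [h0, Finset.card_empty, Nat.zero_mul]
    exact Nat.zero_le _
  · have hb := (Finset.mem_filter.1 hb0).2
    obtain ⟨A, hA⟩ : ∃ A : Finset I, A = Finset.univ.filter fun i => cand i (b0 i) ∈ T := ⟨_, rfl⟩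
    have h1 : T.card ≤ A.card := by
      have h2 : T ⊆ A.image fun i => cand i (b0 i) := by
        intro κ hκ
        obtain ⟨i, hi⟩ := hb κ hκ
        rw [Finset.mem_image]
        refine ⟨i, ?_, hi.symm⟩
        rw [hA, Finset.mem_filter]
        refine ⟨Finset.mem_univ _, ?_⟩
        rw [← hi]
        exact hκ
      exact (Finset.card_le_card h2).trans Finset.card_image_le
    have h3 : (Finset.univ.filter fun b : I → Bool => ∀ κ ∈ T, ∃ i, κ = cand i (b i)) ⊆
        Fintype.piFinset fun i => if i ∈ A then {b0 i} else Finset.univ := by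
      intro b hbb
      have hb' := (Finset.mem_filter.1 hbb).2
      rw [Fintype.mem_piFinset]
      intro i
      by_cases hi : i ∈ A
      · rw [if_pos hi, Finset.mem_singleton]
        have h4 : cand i (b0 i) ∈ T := by
          rw [hA, Finset.mem_filter] at hi
          exact hi.2
        obtain ⟨i', hi'⟩ := hb' _ h4
        obtain ⟨h5, h6⟩ := hinj _ _ _ _ hi'
        rw [h6, h5]
      · rw [if_neg hi]
        exact Finset.mem_univ _
    have h4 : (Fintype.piFinset fun i : I => if i ∈ A then ({b0 i} : Finset Bool) else Finset.univ).card =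
        2 ^ (Fintype.card I - A.card) := by
      rw [Fintype.card_piFinset]
      have h5 : ∀ i : I, (if i ∈ A then ({b0 i} : Finset Bool) else Finset.univ).card = if i ∈ A then 1 else 2 := by
        intro i
        split_ifs
        · exact Finset.card_singleton _
        · rfl
      rw [Finset.prod_congr rfl fun i _ => h5 i, Finset.prod_ite, Finset.prod_const_one, one_mul, Finset.prod_const]
      congr 1
      rw [← Finset.card_compl]
      congr 1
      ext i
      simp
    have h5 : A.card ≤ Fintype.card I := Finset.card_le_univ A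
    calc _ ≤ 2 ^ (Fintype.card I - A.card) * 2 ^ m :=
          Nat.mul_le_mul_right _ ((Finset.card_le_card h3).trans (le_of_eq h4))
      _ = 2 ^ (Fintype.card I - A.card + m) := (pow_add _ _ _).symm
      _ ≤ 2 ^ Fintype.card I := Nat.pow_le_pow_right (by norm_num) (by omega)

/-- There are at most `(|K| + 1) ^ k` sets with at most `k` elements. -/
private theorem small_card (K : Type) [Fintype K] [DecidableEq K] (k : ℕ) :
    (Finset.univ.filter fun s : Finset K => s.card ≤ k).card ≤ (Fintype.card K + 1) ^ k := by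
  have h1 : (Finset.univ.filter fun s : Finset K => s.card ≤ k) ⊆
      (Finset.univ : Finset (Fin k → Option K)).image fun g => Finset.eraseNone (Finset.univ.image g) := by
    intro s hs
    have hs' := (Finset.mem_filter.1 hs).2
    rw [Finset.mem_image]
    refine ⟨fun j => if h : (j : ℕ) < s.card then some (s.equivFin.symm ⟨j, h⟩ : K) else none,
      Finset.mem_univ _, ?_⟩
    ext x
    rw [Finset.mem_eraseNone, Finset.mem_image]
    constructor
    · rintro ⟨j, -, hj⟩
      by_cases h : (j : ℕ) < s.card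
      · rw [dif_pos h] at hj
        have h2 := Option.some.inj hj
        rw [← h2]
        exact (s.equivFin.symm ⟨j, h⟩).2
      · rw [dif_neg h] at hj
        exact absurd hj (by simp)
    · intro hx
      have h2 := (s.equivFin ⟨x, hx⟩).2
      refine ⟨⟨s.equivFin ⟨x, hx⟩, by omega⟩, Finset.mem_univ _, ?_⟩
      rw [dif_pos h2]
      congr 1
      have h3 : s.equivFin.symm ⟨((s.equivFin ⟨x, hx⟩ : Fin s.card) : ℕ), h2⟩ = ⟨x, hx⟩ := by
        rw [Equiv.symm_apply_eq]
      rw [h3]
  refine (Finset.card_le_card h1).trans (Finset.card_image_le.trans ?_)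
  rw [Finset.card_univ, Fintype.card_fun, Fintype.card_option, Fintype.card_fin]

theorem random_cells {K I : Type} [Finite K] [Finite I] (cand : I → Bool → K)
    (hinj : ∀ i b i' b', cand i b = cand i' b' → i = i' ∧ b = b')
    (Sp : Set (Submodule (ZMod p) (K → ZMod p))) (M w k : ℕ) (hSp : Sp.ncard ≤ M)
    (hc : ∀ A ∈ Sp, Nat.card A ≤ M) (hk : (Nat.card K + 1) ^ k ≤ M)
    (hM : (2 * M) ^ 18 * 2 ^ (6 * k) < 2 ^ (w + 1)) :
    ∃ b : I → Bool, ∀ l : Fin 6 → Submodule (ZMod p) (K → ZMod p),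
      (∀ i, l i = ⊥ ∨ l i ∈ Sp ∨ ∃ s : Finset K, s.card ≤ k ∧ l i = csp p s) →
      ∀ y ∈ ⨆ i, l i, (∀ κ, y κ ≠ 0 → ∃ i, κ = cand i (b i)) → nm y ≤ w := by
  classical
  have : Fintype K := Fintype.ofFinite K
  have : Fintype I := Fintype.ofFinite I
  have : Finite (Submodule (ZMod p) (K → ZMod p)) :=
    Finite.of_injective (fun A : Submodule (ZMod p) (K → ZMod p) => (A : Set (K → ZMod p))) SetLike.coe_injective
  have hM0 : 0 < M := lt_of_lt_of_le (by positivity) hk
  -- the union of the spaces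
  obtain ⟨Z, hZ⟩ : ∃ Z : Finset (K → ZMod p), Z = insert 0 (Finset.univ.filter fun y => ∃ A ∈ Sp, y ∈ A) := ⟨_, rfl⟩
  have hZc : Z.card ≤ 1 + M * M := by
    have h1 : (Finset.univ.filter fun y : K → ZMod p => ∃ A ∈ Sp, y ∈ A).card ≤ M * M := by
      have h2 : (Finset.univ.filter fun y : K → ZMod p => ∃ A ∈ Sp, y ∈ A) ⊆
          (Set.toFinite Sp).toFinset.biUnion fun A => Finset.univ.filter fun y => y ∈ A := by
        intro y hy
        obtain ⟨A, hA, hyA⟩ := (Finset.mem_filter.1 hy).2
        rw [Finset.mem_biUnion]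
        exact ⟨A, (Set.Finite.mem_toFinset _).2 hA, Finset.mem_filter.2 ⟨Finset.mem_univ _, hyA⟩⟩
      refine (Finset.card_le_card h2).trans ((Finset.card_biUnion_le_card_mul _ _ M fun A hA => ?_).trans ?_)
      · have h3 := hc A ((Set.Finite.mem_toFinset _).1 hA)
        rw [Nat.card_eq_fintype_card] at h3
        refine le_trans (le_of_eq ?_) h3
        rw [Fintype.card_subtype]
      · refine Nat.mul_le_mul_right _ ?_
        rw [← Set.ncard_eq_toFinset_card]
        exact hSp
    rw [hZ]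
    refine (Finset.card_insert_le _ _).trans ?_
    omega
  obtain ⟨W, hW⟩ : ∃ W : Finset (Finset K), W = Finset.univ.filter fun s : Finset K => s.card ≤ k := ⟨_, rfl⟩
  have hWc : W.card ≤ M := by
    rw [hW]
    refine (small_card K k).trans ?_
    rw [← Nat.card_eq_fintype_card]
    exact hk
  obtain ⟨F, hF⟩ : ∃ F : (Fin 6 → K → ZMod p) × (Fin 6 → Finset K) → Finset K,
      F = fun q => Finset.univ.filter fun κ => (∀ i, κ ∉ q.2 i) ∧ (∑ i, q.1 i) κ ≠ 0 := ⟨_, rfl⟩
  obtain ⟨Y, hY⟩ : ∃ Y : Finset (Finset K), Y = ((Fintype.piFinset fun _ : Fin 6 => Z) ×ˢ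
      (Fintype.piFinset fun _ : Fin 6 => W)).image F := ⟨_, rfl⟩
  have hYc : Y.card ≤ (1 + M * M) ^ 6 * M ^ 6 := by
    rw [hY]
    refine Finset.card_image_le.trans ?_
    rw [Finset.card_product, Fintype.card_piFinset, Finset.prod_const, Finset.card_univ, Fintype.card_fin,
      Fintype.card_piFinset, Finset.prod_const, Finset.card_univ, Fintype.card_fin]
    exact Nat.mul_le_mul (Nat.pow_le_pow_left hZc 6) (Nat.pow_le_pow_left hWc 6)
  have hYm : ∀ l : Fin 6 → Submodule (ZMod p) (K → ZMod p),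
      (∀ i, l i = ⊥ ∨ l i ∈ Sp ∨ ∃ s : Finset K, s.card ≤ k ∧ l i = csp p s) → ∀ y ∈ ⨆ i, l i,
      ∃ T ∈ Y, nm y ≤ T.card + 6 * k ∧ ∀ κ ∈ T, y κ ≠ 0 := by
    intro l hl y hy
    rw [Submodule.mem_iSup_iff_exists_finsupp] at hy
    obtain ⟨f, hf, hfy⟩ := hy
    have h1 : ∀ i, ∃ z ∈ Z, ∃ s ∈ W, ∀ κ, κ ∉ s → f i κ = z κ := by
      intro i
      rcases hl i with h | h | ⟨s, hs, h⟩
      · refine ⟨0, by rw [hZ]; exact Finset.mem_insert_self _ _, ∅, by rw [hW]; simp, fun κ _ => ?_⟩
        have h2 := hf i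
        rw [h, Submodule.mem_bot] at h2
        rw [h2]
      · refine ⟨f i, ?_, ∅, by rw [hW]; simp, fun κ _ => rfl⟩
        rw [hZ, Finset.mem_insert, Finset.mem_filter]
        exact Or.inr ⟨Finset.mem_univ _, l i, h, hf i⟩
      · refine ⟨0, by rw [hZ]; exact Finset.mem_insert_self _ _, s, by rw [hW]; simpa using hs, fun κ hκ => ?_⟩
        have h2 := hf i
        rw [h] at h2
        exact h2 κ hκ
    choose z hz s hs hzs using h1
    have h2 : ∀ κ, (∀ i, κ ∉ s i) → y κ = (∑ i, z i) κ := by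
      intro κ hκ
      rw [← hfy, Finsupp.sum_fintype _ _ fun i => rfl, Finset.sum_apply, Finset.sum_apply]
      exact Finset.sum_congr rfl fun i _ => hzs i κ (hκ i)
    refine ⟨F (z, s), ?_, ?_, ?_⟩
    · rw [hY, Finset.mem_image]
      refine ⟨(z, s), ?_, rfl⟩
      rw [Finset.mem_product, Fintype.mem_piFinset, Fintype.mem_piFinset]
      exact ⟨hz, hs⟩
    · have h3 : {κ | y κ ≠ 0} ⊆ ((F (z, s) ∪ Finset.univ.biUnion s : Finset K) : Set K) := by
        intro κ hκ
        rw [Finset.mem_coe, Finset.mem_union]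
        by_cases h4 : ∀ i, κ ∉ s i
        · left
          rw [hF, Finset.mem_filter]
          refine ⟨Finset.mem_univ _, h4, ?_⟩
          rw [← h2 κ h4]
          exact hκ
        · right
          push Not at h4
          obtain ⟨i, hi⟩ := h4
          exact Finset.mem_biUnion.2 ⟨i, Finset.mem_univ _, hi⟩
      have h4 : (Finset.univ.biUnion s).card ≤ 6 * k := by
        refine (Finset.card_biUnion_le_card_mul _ _ k fun i _ => ?_).trans ?_
        · have h5 := hs i
          rw [hW, Finset.mem_filter] at h5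
          exact h5.2
        · rw [Finset.card_univ, Fintype.card_fin]
      unfold nm
      calc {κ | y κ ≠ 0}.ncard ≤ ((F (z, s) ∪ Finset.univ.biUnion s : Finset K) : Set K).ncard :=
            Set.ncard_le_ncard h3 (Finset.finite_toSet _)
        _ = (F (z, s) ∪ Finset.univ.biUnion s).card := Set.ncard_coe_finset _
        _ ≤ (F (z, s)).card + (Finset.univ.biUnion s).card := Finset.card_union_le _ _
        _ ≤ _ := Nat.add_le_add_left h4 _
    · intro κ hκ
      rw [hF, Finset.mem_filter] at hκ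
      rw [h2 κ hκ.2.1]
      exact hκ.2.2
  by_contra hcon
  push Not at hcon
  have h1 : (Finset.univ : Finset (I → Bool)) ⊆ (Y.filter fun T => w + 1 - 6 * k ≤ T.card).biUnion fun T =>
      Finset.univ.filter fun b : I → Bool => ∀ κ ∈ T, ∃ i, κ = cand i (b i) := by
    intro b _
    obtain ⟨l, hl, y, hy, h2, h3⟩ := hcon b
    obtain ⟨T, hT, h4, h5⟩ := hYm l hl y hy
    rw [Finset.mem_biUnion]
    exact ⟨T, Finset.mem_filter.2 ⟨hT, by omega⟩, Finset.mem_filter.2 ⟨Finset.mem_univ _, fun κ hκ => h2 κ (h5 κ hκ)⟩⟩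
  have h2 := Finset.card_le_card h1
  rw [Finset.card_univ, Fintype.card_fun, Fintype.card_bool] at h2
  have h3 : 2 ^ Fintype.card I * 2 ^ (w + 1 - 6 * k) ≤ Y.card * 2 ^ Fintype.card I := by
    calc 2 ^ Fintype.card I * 2 ^ (w + 1 - 6 * k)
        ≤ (∑ T ∈ Y.filter fun T => w + 1 - 6 * k ≤ T.card, (Finset.univ.filter fun b : I → Bool =>
            ∀ κ ∈ T, ∃ i, κ = cand i (b i)).card) * 2 ^ (w + 1 - 6 * k) :=
          Nat.mul_le_mul_right _ (h2.trans Finset.card_biUnion_le)
      _ = ∑ T ∈ Y.filter fun T => w + 1 - 6 * k ≤ T.card, (Finset.univ.filter fun b : I → Bool =>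
            ∀ κ ∈ T, ∃ i, κ = cand i (b i)).card * 2 ^ (w + 1 - 6 * k) := Finset.sum_mul _ _ _
      _ ≤ ∑ T ∈ Y.filter fun T => w + 1 - 6 * k ≤ T.card, 2 ^ Fintype.card I :=
          Finset.sum_le_sum fun T hT => bad_card cand hinj _ T (Finset.mem_filter.1 hT).2
      _ = (Y.filter fun T => w + 1 - 6 * k ≤ T.card).card * 2 ^ Fintype.card I := by
          rw [Finset.sum_const, smul_eq_mul]
      _ ≤ Y.card * 2 ^ Fintype.card I := Nat.mul_le_mul_right _ (Finset.card_filter_le _ _)
  have h4 : 2 ^ (w + 1 - 6 * k) ≤ Y.card := by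
    have h5 : 0 < 2 ^ Fintype.card I := by positivity
    rw [mul_comm] at h3
    exact Nat.le_of_mul_le_mul_right h3 h5
  have h5 : (1 + M * M) ^ 6 * M ^ 6 ≤ (2 * M) ^ 18 := by
    have h6 : 1 + M * M ≤ 2 * M ^ 2 := by nlinarith
    calc (1 + M * M) ^ 6 * M ^ 6 ≤ (2 * M ^ 2) ^ 6 * M ^ 6 :=
          Nat.mul_le_mul_right _ (Nat.pow_le_pow_left h6 6)
      _ = 2 ^ 6 * M ^ 18 := by ring
      _ ≤ 2 ^ 18 * M ^ 18 := Nat.mul_le_mul_right _ (by norm_num)
      _ = (2 * M) ^ 18 := by ring
  have h6 : 2 ^ (w + 1) ≤ (2 * M) ^ 18 * 2 ^ (6 * k) := by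
    calc 2 ^ (w + 1) ≤ 2 ^ ((w + 1 - 6 * k) + 6 * k) := Nat.pow_le_pow_right (by norm_num) (by omega)
      _ = 2 ^ (w + 1 - 6 * k) * 2 ^ (6 * k) := pow_add _ _ _
      _ ≤ _ := Nat.mul_le_mul_right _ (h4.trans (hYc.trans h5))
  omega

end Pool.Agent.H79.CQ
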