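import Pool.Agent.H79.CQ.Mo5
import Pool.Agent.H79.CQ.Ran
import Pool.Agent.H79.CQ.Lo1
import Pool.Agent.H16.LE.Snd
import Pool.Agent.H16.LE.Idx

/-!
# The lower bound

PROOF of `lower_core`. By contradiction let `(4 * B) ^ 24 < 2 ^ (w + 1)`, `w = L ^ (d - 2) / 100`.
`Sp := {Vs M.pr (stN R.C _ a)} ∪ {Vs M.pr (stL R.C _ Λ) : Λ ∈ R.lines}`, `fam := Sp ∪ {csp p s : s.card ≤ k8 d}`.
`Sp.ncard ≤ R.size ≤ B`; the members of `Sp` have at most `B` elements. `exists_placing` gives `cv`, `cand`;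
`random_cells` with `I = {s // isS L s}` gives `b`; `j s := cand s (b s)` for the squares of the box. `grid_gad` gives
`g`, `c`. This is a `Dat`, and with `M.H`, `R.C`, `D.leaf`, `fam` an `Eng`. `Eng.engine` with `ins_ok` gives the
contradiction.

PROOF of `lower`: `H16.LE.rst_exists` and `lower_core`.
-/

set_option autoImplicit false
set_option linter.unusedSectionVars false

namespace Pool.Agent.H79.CQ

open Pool.Agent.H42.CS (Pt Ed Sq un inB isE isS Slot off ed sq Ax Atom Lit Gate Circuit Step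
  Refutation isS_fin exists_placing)

variable {p : ℕ} [hp : Fact p.Prime]

theorem lower_core {P : Type} {d r L : ℕ} (hd : 3 ≤ d) (hL : 100 * d ≤ L)
    (hr : L ^ d * (1 + 2 * d ^ 2) ≤ r) (M : Cells p P r) (R : Refutation (T d) P)
    (B : ℕ) (hB : R.size ≤ B)
    (hN : ∀ a, Nat.card (Vs M.pr (H16.LE.stN R.C M.H.subtype a)) ≤ B)
    (hS : ∀ Λ ∈ R.lines, Nat.card (Vs M.pr (H16.LE.stL R.C M.H.subtype Λ)) ≤ B)
    (hB2 : (2 * (r + 1)) ^ k8 d ≤ B) : 2 ^ (L ^ (d - 2) / 100 + 1) ≤ (4 * B) ^ 24 := by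
  classical
  by_contra hcon
  have hcon' : (4 * B) ^ 24 < 2 ^ (L ^ (d - 2) / 100 + 1) := not_le.mp hcon
  have hLpos : 0 < L := by omega
  have hLd : 0 < L ^ d := pow_pos hLpos d
  have hrpos : 0 < r := by
    have : 0 < L ^ d * (1 + 2 * d ^ 2) := Nat.mul_pos hLd (by positivity)
    omega
  let Sp : Set (Submodule (ZMod p) (Fin r → ZMod p)) :=
    Set.range (fun a => Vs M.pr (H16.LE.stN R.C M.H.subtype a)) ∪
      ((fun Λ => Vs M.pr (H16.LE.stL R.C M.H.subtype Λ)) '' R.lines)
  let fam : Set (Submodule (ZMod p) (Fin r → ZMod p)) :=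
    Sp ∪ {A | ∃ s : Finset (Fin r), s.card ≤ k8 d ∧ A = csp p s}
  have hSpdef : Sp = Set.range (fun a => Vs M.pr (H16.LE.stN R.C M.H.subtype a)) ∪
      ((fun Λ => Vs M.pr (H16.LE.stL R.C M.H.subtype Λ)) '' R.lines) := rfl
  have hNF : Finite R.C.N := R.C.fin
  have hLF : Finite (Lit R.C.N) := by
    refine Finite.of_injective (fun x : Lit R.C.N => (x.node, x.pos)) ?_
    intro x y hxy
    have h1 := congrArg Prod.fst hxy
    have h2 := congrArg Prod.snd hxy
    exact H42.CS.Lit.ext h1 h2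
  have hlfin : R.lines.Finite := Set.toFinite _
  have hpow1 : (r + 1) ^ k8 d ≤ B := le_trans (Nat.pow_le_pow_left (by omega) _) hB2
  have hpow2 : 2 ^ k8 d ≤ B := le_trans (Nat.pow_le_pow_left (by omega) _) hB2
  have hsz : Nat.card R.C.N + R.lines.ncard ≤ B := hB
  have hSp_card : Sp.ncard ≤ B := by
    rw [hSpdef]
    have h2 := Set.ncard_union_le (Set.range (fun a => Vs M.pr (H16.LE.stN R.C M.H.subtype a)))
      ((fun Λ => Vs M.pr (H16.LE.stL R.C M.H.subtype Λ)) '' R.lines)
    have h3 : (Set.range (fun a => Vs M.pr (H16.LE.stN R.C M.H.subtype a))).ncard ≤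
        Nat.card R.C.N := by
      rw [← Set.image_univ]
      refine le_trans (Set.ncard_image_le (Set.toFinite _)) ?_
      rw [Set.ncard_univ]
    have h4 : ((fun Λ => Vs M.pr (H16.LE.stL R.C M.H.subtype Λ)) '' R.lines).ncard ≤
        R.lines.ncard := Set.ncard_image_le hlfin
    omega
  have hSp_le : ∀ A ∈ Sp, Nat.card A ≤ B := by
    intro A hA
    rcases hA with ⟨a, rfl⟩ | ⟨Λ, hΛ, rfl⟩
    · exact hN a
    · exact hS Λ hΛ
  obtain ⟨cv, cand, hcv, hcand, hne⟩ := exists_placing hLpos hr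
  have hSF : Finite {s : Sq d // isS L s} := (isS_fin L).1.to_subtype
  have hnum : (2 * B) ^ 18 * 2 ^ (6 * k8 d) < 2 ^ (L ^ (d - 2) / 100 + 1) := by
    refine lt_of_le_of_lt ?_ hcon'
    calc (2 * B) ^ 18 * 2 ^ (6 * k8 d) ≤ (4 * B) ^ 18 * (4 * B) ^ 6 := by
          refine Nat.mul_le_mul (Nat.pow_le_pow_left (by omega) _) ?_
          rw [mul_comm, pow_mul]
          exact Nat.pow_le_pow_left (by omega) _
      _ = (4 * B) ^ 24 := by rw [← pow_add]
  obtain ⟨b, hb⟩ := random_cells (K := Fin r) (I := {s : Sq d // isS L s})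
    (fun s β => cand s.1 β) (by
      intro s β s' β' h
      obtain ⟨h1, h2⟩ := hcand s.1 β s'.1 β' s.2 s'.2 h
      exact ⟨Subtype.ext h1, h2⟩) Sp B (L ^ (d - 2) / 100) (k8 d) hSp_card hSp_le
    (by rw [Nat.card_eq_fintype_card, Fintype.card_fin]; exact hpow1) hnum
  let j : Sq d → Fin r := fun s => if h : isS L s then cand s (b ⟨s, h⟩) else cand s true
  have hjv : ∀ s (h : isS L s), j s = cand s (b ⟨s, h⟩) := by
    intro s h
    exact dif_pos h
  have hj : Set.InjOn j {s | isS L s} := by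
    intro s hs s' hs' h
    rw [hjv s hs, hjv s' hs'] at h
    exact (hcand _ _ _ _ hs hs' h).1
  obtain ⟨g, c, hw, hsupp, hye, hlaw⟩ := grid_gad (p := p) hd L hL j hj
  let D : Dat p d L r P :=
    { M := M, cv := cv, cv_inj := hcv, j := j, j_inj := hj
      cv_ne := by
        intro x s hx hs
        rw [hjv s hs]
        exact hne x s _ hx hs
      g := g, c := c, ye_mem := hye, law := hlaw }
  let E : H16.LE.Eng p (Re d) P (Fin r) M.H :=
    { toGad := g
      pr := M.pr
      pr_mul := M.pr_mul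
      pr_onto := M.pr_onto
      ρ := M.H.subtype
      C := R.C
      leaf := D.leaf
      leaf_loc := by
        intro v f f' h
        apply D.leaf_loc v f f'
        intro y hy hyD
        apply h y _ hyD
        intro g' hg'
        exact hy g' hg'
      leaf_equi := by
        intro g' v f
        exact D.leaf_equi g' v f
      fam := fam
      node_mem := by
        intro a
        exact Or.inl (Or.inl ⟨a, rfl⟩)
      tame6 := by
        intro l hl y hy hyD
        rw [hw]
        apply hb l (fun i => ?_) y hy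
        · intro k hk
          obtain ⟨s, hs, hjs⟩ := hsupp y hyD k hk
          refine ⟨⟨s, hs⟩, ?_⟩
          rw [← hjs, hjv s hs]
        · rcases hl i with h | h | h
          · exact Or.inl h
          · exact Or.inr (Or.inl h)
          · exact Or.inr (Or.inr h) }
  refine E.engine (T := T d) ?_ R.lines R.order R.step ?_ R.empty_mem
  · intro A hA v
    exact D.ins_ok (fun s hs => Or.inr ⟨s, hs, rfl⟩) hLpos (T_ins A hA v)
  · intro Λ hΛ
    exact Or.inl (Or.inr ⟨Λ, hΛ, rfl⟩)

/-- Every line is left invariant by its own subgroup of `M.H` of index at most `I`. -/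
theorem lower {P : Type} [Finite P] {d r L : ℕ} (hd : 3 ≤ d) (hL : 100 * d ≤ L)
    (hr : L ^ d * (1 + 2 * d ^ 2) ≤ r) (M : Cells p P r) (R : Refutation (T d) P) (I : ℕ)
    (hR : ∀ Λ ∈ R.lines, ∃ H : Subgroup M.H, H.index ≤ I ∧ ∀ g ∈ H, ∀ x ∈ Λ,
      ∃ y ∈ Λ, y.pos = x.pos ∧ H16.LE.Img R.C (g : Equiv.Perm P) x.node y.node) :
    2 ^ (L ^ (d - 2) / 100 + 1) ≤
      (4 * max (2 * I * R.size) ((2 * (r + 1)) ^ k8 d)) ^ 24 := by
  classical
  have hfP : Finite (Equiv.Perm P) := inferInstance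
  have hfG : Finite M.H := inferInstance
  have hI : 1 ≤ I := by
    obtain ⟨H, h1, -⟩ := hR ∅ R.empty_mem
    have h2 : H.index ≠ 0 := Subgroup.index_ne_zero_of_finite
    omega
  obtain ⟨R', hs, hN, hS⟩ := H16.LE.rst_exists (ρ := M.H.subtype) M.pr_mul M.pr_onto R I
    (fun Λ hΛ => by
      obtain ⟨H, h1, h2⟩ := hR Λ hΛ
      exact ⟨H, H16.LE.le_stL R.C M.H.subtype (fun g hg x hx => h2 g hg x hx),
        (card_Vs M.pr_mul M.pr_onto H).trans h1⟩)
  have hle : R.size ≤ 2 * I * R.size := Nat.le_mul_of_pos_left _ (by omega)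
  have hI' : I ≤ 2 * I * R.size := by
    have h1 : 0 < R.size := by
      have hfin : Finite R.C.N := R.C.fin
      have hfl : Finite (Lit R.C.N) := Finite.of_injective (fun x : Lit R.C.N => (x.node, x.pos))
        fun x y h => by
          have h1 := Prod.mk.inj h
          exact H42.CS.Lit.ext h1.1 h1.2
      have h2 : 0 < R.lines.ncard := (Set.ncard_pos (Set.toFinite _)).2 ⟨∅, R.empty_mem⟩
      unfold H42.CS.Refutation.size
      omega
    nlinarith
  refine lower_core hd hL hr M R' _ ?_ ?_ ?_ (le_max_right _ _)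
  · rw [hs]
    exact hle.trans (le_max_left _ _)
  · intro a
    exact (hN a).trans (le_max_left _ _)
  · intro Λ hΛ
    exact (hS Λ hΛ).trans (hI'.trans (le_max_left _ _))

end Pool.Agent.H79.CQ
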