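import Mathlib

/-!
# The numerical inequality

Variant of `Pool/Agent/H42/CS/Num.lean` with the exponent 24 instead of 12 (copy the file and adapt the
constants).
-/

set_option autoImplicit false

namespace Pool.Agent.H79.CQ

private theorem key (d K : ℕ) (hd : 3 ≤ d) : ∃ (r0 : ℕ) (c : ℝ), 0 < c ∧ 1 ≤ r0 ∧ ∀ r : ℕ, r0 ≤ r → ∀ S : ℕ, 1 ≤ S →
    (∀ L : ℕ, 100 * d ≤ L → L ^ d * (1 + 2 * d ^ 2) ≤ r →
      2 ^ (L ^ (d - 2) / 100 + 1) ≤ (4 * max S ((2 * (r + 1)) ^ K)) ^ 24) →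
    c * (r : ℝ) ^ (1 - 2 / (d : ℝ)) ≤ Real.logb 2 S := by
  have hd0 : (3 : ℝ) ≤ d := by exact_mod_cast hd
  obtain ⟨N, hN⟩ : ∃ N : ℝ, N = 1 + 2 * (d : ℝ) ^ 2 := ⟨_, rfl⟩
  have hN0 : 0 < N := by
    rw [hN]
    positivity
  obtain ⟨e, he⟩ : ∃ e : ℝ, e = 1 - 2 / (d : ℝ) := ⟨_, rfl⟩
  have he0 : 0 < e := by
    rw [he]
    have : 2 / (d : ℝ) ≤ 2 / 3 := by
      apply div_le_div_of_nonneg_left (by norm_num) (by norm_num) hd0
    linarith
  obtain ⟨c, hc⟩ : ∃ c : ℝ, c = 1 / (100 * 2 ^ (d - 2) * N ^ e) := ⟨_, rfl⟩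
  have hc0 : 0 < c := by
    rw [hc]
    have := Real.rpow_pos_of_pos hN0 e
    positivity
  have hl2 : 0 < Real.log 2 := Real.log_pos (by norm_num)
  obtain ⟨A, hA⟩ : ∃ A : ℝ, A = 2 + 2 * K + K * (2 / e) / Real.log 2 := ⟨_, rfl⟩
  have hA0 : 0 < A := by
    rw [hA]
    positivity
  refine ⟨⌈(48 * A / c) ^ (2 / e)⌉₊ + (100 * d + 1) ^ d * (1 + 2 * d ^ 2) + 1, c / 48, by positivity, by omega, ?_⟩
  intro r hr S hS hyp
  rw [← he]
  have hr1 : 1 ≤ r := by omega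
  have hr1' : (1 : ℝ) ≤ r := by exact_mod_cast hr1
  have hr0' : (0 : ℝ) < r := by linarith
  have hrA : (48 * A / c) ^ (2 / e) ≤ r := by
    have h1 := Nat.le_ceil ((48 * A / c) ^ (2 / e))
    have h2 : (⌈(48 * A / c) ^ (2 / e)⌉₊ : ℝ) ≤ r := by exact_mod_cast (by omega)
    linarith
  have hrN : ((100 * d + 1 : ℝ)) ^ d * N ≤ r := by
    have h1 : (100 * d + 1) ^ d * (1 + 2 * d ^ 2) ≤ r := by omega
    rw [hN]
    exact_mod_cast h1
  obtain ⟨x, hx⟩ : ∃ x : ℝ, x = ((r : ℝ) / N) ^ ((d : ℝ)⁻¹) := ⟨_, rfl⟩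
  have hrn : 0 ≤ (r : ℝ) / N := by positivity
  have hx0 : 0 ≤ x := by
    rw [hx]
    positivity
  have hx1 : (100 * d + 1 : ℝ) ≤ x := by
    have h1 : (100 * d + 1 : ℝ) ^ d ≤ (r : ℝ) / N := by
      rw [le_div_iff₀ hN0]
      exact hrN
    have h2 := Real.rpow_le_rpow (by positivity) h1 (by positivity : 0 ≤ (d : ℝ)⁻¹)
    rw [Real.pow_rpow_inv_natCast (by positivity) (by omega)] at h2
    rwa [hx]
  have hxd : x ^ d = (r : ℝ) / N := by
    rw [hx]
    exact Real.rpow_inv_natCast_pow hrn (by omega)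
  obtain ⟨L, hL⟩ : ∃ L : ℕ, L = ⌊x⌋₊ := ⟨_, rfl⟩
  have hL1 : (L : ℝ) ≤ x := by
    rw [hL]
    exact Nat.floor_le hx0
  have hL2 : x < L + 1 := by
    rw [hL]
    exact Nat.lt_floor_add_one x
  have hL3 : 100 * d ≤ L := by
    have : (100 * d : ℝ) ≤ L := by linarith
    exact_mod_cast this
  have hL4 : L ^ d * (1 + 2 * d ^ 2) ≤ r := by
    have h1 : (L : ℝ) ^ d ≤ x ^ d := pow_le_pow_left₀ (Nat.cast_nonneg L) hL1 d
    rw [hxd, le_div_iff₀ hN0, hN] at h1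
    exact_mod_cast h1
  have h1 := hyp L hL3 hL4
  -- the exponent
  obtain ⟨w, hw⟩ : ∃ w : ℕ, w = L ^ (d - 2) / 100 + 1 := ⟨_, rfl⟩
  rw [← hw] at h1
  have hx2 : x / 2 ≤ L := by linarith
  have hw1 : c * (r : ℝ) ^ e ≤ w := by
    have h2 : L ^ (d - 2) < 100 * w := by
      rw [hw]
      exact Nat.lt_mul_div_succ _ (by norm_num)
    have h3 : (L : ℝ) ^ (d - 2) < 100 * w := by exact_mod_cast h2
    have h4 : (x / 2) ^ (d - 2) ≤ (L : ℝ) ^ (d - 2) := pow_le_pow_left₀ (by positivity) hx2 _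
    have h5 : x ^ (d - 2) = (r : ℝ) ^ e / N ^ e := by
      rw [hx, ← Real.rpow_natCast, ← Real.rpow_mul hrn, ← Real.div_rpow hr0'.le hN0.le]
      congr 1
      rw [Nat.cast_sub (by omega), he]
      push_cast
      field_simp
    rw [div_pow, h5] at h4
    have h6 : c * (r : ℝ) ^ e = (r : ℝ) ^ e / N ^ e / 2 ^ (d - 2) / 100 := by
      rw [hc]
      have := Real.rpow_pos_of_pos hN0 e
      field_simp
    rw [h6, div_le_iff₀ (by norm_num)]
    linarith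
  -- logarithms
  have hS0 : (0 : ℝ) < S := by exact_mod_cast hS
  have hM0 : (0 : ℝ) < (2 * ((r : ℝ) + 1)) ^ K := by positivity
  have h2 : (w : ℝ) ≤ 24 * (2 + Real.logb 2 S + K * Real.logb 2 (2 * ((r : ℝ) + 1))) := by
    have h3 : (2 : ℝ) ^ w ≤ (4 * (S * (2 * ((r : ℝ) + 1)) ^ K)) ^ 24 := by
      have h4 : (4 * max S ((2 * (r + 1)) ^ K)) ^ 24 ≤ (4 * (S * (2 * (r + 1)) ^ K)) ^ 24 := by
        apply Nat.pow_le_pow_left
        apply Nat.mul_le_mul_left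
        apply max_le
        · exact Nat.le_mul_of_pos_right _ (by positivity)
        · exact Nat.le_mul_of_pos_left _ (by omega)
      exact_mod_cast h1.trans h4
    have h4 := Real.logb_le_logb_of_le (b := 2) (by norm_num) (by positivity) h3
    have h5 : Real.logb 2 ((2 : ℝ) ^ w) = w := by
      rw [← Real.rpow_natCast, Real.logb_rpow (by norm_num) (by norm_num)]
    have h6 : Real.logb 2 4 = 2 := by
      rw [show (4 : ℝ) = 2 ^ (2 : ℝ) by norm_num, Real.logb_rpow (by norm_num) (by norm_num)]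
    have h7 : Real.logb 2 ((4 * (S * (2 * ((r : ℝ) + 1)) ^ K)) ^ 24) =
        24 * (2 + Real.logb 2 S + K * Real.logb 2 (2 * ((r : ℝ) + 1))) := by
      rw [Real.logb_pow, Real.logb_mul (by norm_num) (by positivity), Real.logb_mul hS0.ne' hM0.ne', Real.logb_pow, h6]
      push_cast
      ring
    rw [h5, h7] at h4
    exact h4
  obtain ⟨y, hy⟩ : ∃ y : ℝ, y = (r : ℝ) ^ (e / 2) := ⟨_, rfl⟩
  have hy1 : 1 ≤ y := by
    rw [hy]
    exact Real.one_le_rpow hr1' (by positivity)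
  have hyy : (r : ℝ) ^ e = y * y := by
    rw [hy, ← Real.rpow_add hr0']
    congr 1
    ring
  have h3 : Real.logb 2 (2 * ((r : ℝ) + 1)) ≤ 2 + (2 / e) * y / Real.log 2 := by
    have h4 := Real.log_le_rpow_div hr0'.le (by positivity : 0 < e / 2)
    rw [← hy] at h4
    have h5 : Real.logb 2 (2 * ((r : ℝ) + 1)) ≤ Real.logb 2 (4 * r) :=
      Real.logb_le_logb_of_le (by norm_num) (by positivity) (by linarith)
    have h6 : Real.logb 2 4 = 2 := by
      rw [show (4 : ℝ) = 2 ^ (2 : ℝ) by norm_num, Real.logb_rpow (by norm_num) (by norm_num)]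
    rw [Real.logb_mul (by norm_num) hr0'.ne', h6] at h5
    have h7 : Real.logb 2 (r : ℝ) ≤ (2 / e) * y / Real.log 2 := by
      unfold Real.logb
      apply div_le_div_of_nonneg_right _ hl2.le
      refine h4.trans (le_of_eq ?_)
      field_simp
    linarith
  have h4 : 2 + K * Real.logb 2 (2 * ((r : ℝ) + 1)) ≤ A * y := by
    have hK : (0 : ℝ) ≤ K := Nat.cast_nonneg K
    have h5 := mul_le_mul_of_nonneg_left h3 hK
    have h6 : A * y = 2 * y + 2 * K * y + K * ((2 / e) * y / Real.log 2) := by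
      rw [hA]
      ring
    rw [h6]
    have h7 : 2 * (K : ℝ) ≤ 2 * K * y := le_mul_of_one_le_right (by positivity) hy1
    linarith
  have h5 : A * y ≤ c / 48 * (r : ℝ) ^ e := by
    have h6 : 48 * A / c ≤ y := by
      have h7 := Real.rpow_le_rpow (by positivity) hrA (by positivity : 0 ≤ e / 2)
      rw [← Real.rpow_mul (by positivity)] at h7
      have h8 : 2 / e * (e / 2) = 1 := by field_simp
      rw [h8, Real.rpow_one, ← hy] at h7
      exact h7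
    rw [div_le_iff₀ hc0] at h6
    rw [hyy]
    have h7 : 48 * A * y ≤ y * c * y := mul_le_mul_of_nonneg_right h6 (by linarith)
    linarith
  linarith

theorem numeric (k : ℕ → ℕ) (δ : ℝ) (h0 : 0 < δ) (h1 : δ < 1) :
    ∃ (d C : ℕ), 3 ≤ d ∧ 0 < C ∧ ∀ C' : ℕ, C ≤ C' → ∀ r n h S : ℕ, 2 ≤ n →
      h ≤ r * Nat.log 2 n → 2 ≤ S →
      (∀ L : ℕ, 100 * d ≤ L → L ^ d * (1 + 2 * d ^ 2) ≤ r →
        2 ^ (L ^ (d - 2) / 100 + 1) ≤ (4 * max S ((2 * (r + 1)) ^ k d)) ^ 24) →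
      (2 : ℝ) ^ (((h : ℝ) / Real.logb 2 n) ^ (1 - δ) / (C' : ℝ)) ≤ S := by
  obtain ⟨m, hm⟩ := exists_nat_gt (2 / δ)
  obtain ⟨d, hd⟩ : ∃ d, d = m + 3 := ⟨_, rfl⟩
  have hd3 : 3 ≤ d := by omega
  have hdδ : 2 / (d : ℝ) ≤ δ := by
    have h2 : 2 / δ < d := by
      rw [hd]
      push_cast
      linarith
    have h3 : (0 : ℝ) < d := lt_trans (by positivity) h2
    rw [div_lt_iff₀ h0] at h2
    rw [div_le_iff₀ h3]
    linarith
  obtain ⟨r0, c, hc, hr0, hkey⟩ := key d (k d) hd3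
  refine ⟨d, ⌈1 / c⌉₊ + r0, hd3, by omega, fun C' hC' r n h S hn hh hS hyp => ?_⟩
  have hC0 : (0 : ℝ) < C' := by exact_mod_cast (show 0 < C' by omega)
  have hn1 : (1 : ℝ) ≤ Real.logb 2 n := by
    have h2 : Real.logb 2 2 ≤ Real.logb 2 n :=
      Real.logb_le_logb_of_le (by norm_num) (by norm_num) (by exact_mod_cast hn)
    rwa [Real.logb_self_eq_one (by norm_num)] at h2
  have hle : (h : ℝ) / Real.logb 2 n ≤ r := by
    rw [div_le_iff₀ (by linarith)]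
    have h2 : (h : ℝ) ≤ r * Nat.log 2 n := by exact_mod_cast hh
    have h3 : (Nat.log 2 n : ℝ) ≤ Real.logb 2 n := by
      have := Real.natLog_le_logb n 2
      exact_mod_cast this
    exact h2.trans (mul_le_mul_of_nonneg_left h3 (Nat.cast_nonneg r))
  have hδ1 : 0 < 1 - δ := by linarith
  have hpos : 0 ≤ (h : ℝ) / Real.logb 2 n := div_nonneg (Nat.cast_nonneg h) (by linarith)
  have h2 : ((h : ℝ) / Real.logb 2 n) ^ (1 - δ) ≤ (r : ℝ) ^ (1 - δ) := Real.rpow_le_rpow hpos hle hδ1.le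
  have hS0 : (0 : ℝ) < S := by exact_mod_cast (show 0 < S by omega)
  have hgoal : (r : ℝ) ^ (1 - δ) / (C' : ℝ) ≤ Real.logb 2 S := by
    rcases Nat.lt_or_ge r r0 with hr | hr
    · have h3 : (r : ℝ) ^ (1 - δ) ≤ C' := by
        rcases Nat.eq_zero_or_pos r with hr' | hr'
        · rw [hr']
          push_cast
          rw [Real.zero_rpow hδ1.ne']
          exact hC0.le
        · have h4 : (1 : ℝ) ≤ r := by exact_mod_cast hr'
          have h5 : (r : ℝ) ^ (1 - δ) ≤ (r : ℝ) ^ (1 : ℝ) := Real.rpow_le_rpow_of_exponent_le h4 (by linarith)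
          rw [Real.rpow_one] at h5
          have h6 : (r : ℝ) ≤ C' := by exact_mod_cast (show r ≤ C' by omega)
          linarith
      have h4 : (r : ℝ) ^ (1 - δ) / (C' : ℝ) ≤ 1 := by
        rw [div_le_iff₀ hC0]
        linarith
      have h5 : Real.logb 2 2 ≤ Real.logb 2 S :=
        Real.logb_le_logb_of_le (by norm_num) (by norm_num) (by exact_mod_cast hS)
      rw [Real.logb_self_eq_one (by norm_num)] at h5
      linarith
    · have h3 := hkey r hr S (by omega) hyp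
      have h4 : (1 : ℝ) ≤ r := by exact_mod_cast (show 1 ≤ r by omega)
      have h5 : (r : ℝ) ^ (1 - δ) ≤ (r : ℝ) ^ (1 - 2 / (d : ℝ)) := Real.rpow_le_rpow_of_exponent_le h4 (by linarith)
      have h6 : 1 / c ≤ C' := by
        have h7 := Nat.le_ceil (1 / c)
        have h8 : (⌈1 / c⌉₊ : ℝ) ≤ C' := by exact_mod_cast (show ⌈1 / c⌉₊ ≤ C' by omega)
        linarith
      rw [div_le_iff₀ hC0]
      rw [div_le_iff₀ hc] at h6
      have h7 : 0 ≤ (r : ℝ) ^ (1 - 2 / (d : ℝ)) := by positivity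
      have h8 := mul_le_mul_of_nonneg_right h3 hC0.le
      have h9 := mul_le_mul_of_nonneg_right h6 h7
      nlinarith
  have h3 : ((h : ℝ) / Real.logb 2 n) ^ (1 - δ) / (C' : ℝ) ≤ Real.logb 2 S :=
    (div_le_div_of_nonneg_right h2 hC0.le).trans hgoal
  calc (2 : ℝ) ^ (((h : ℝ) / Real.logb 2 n) ^ (1 - δ) / (C' : ℝ)) ≤ (2 : ℝ) ^ (Real.logb 2 S) :=
        Real.rpow_le_rpow_of_exponent_le (by norm_num) h3
    _ = S := Real.rpow_logb (by norm_num) (by norm_num) hS0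

end Pool.Agent.H79.CQ
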