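import Pool.Agent.H79.CQ.Loc

/-!
# The number of all items

Only the gates matter here (`ss`, `ww`, `s0`, `p0`, `uj`, `fi`), `Dn.cnt` and the rules `Pn.dist`, `Pn.cover`.

* (i) For `j ≤ NI d n` (`c : Cn d n`, `c.val = j`), `j ∉ {0, m}`: from `⟨.ww z m g, true⟩` derive `⟨.ss z c g, false⟩`
  (`Pn.cover` with `XS z g`). From `⟨.ss z c1 g0, true⟩` with `c1.val = 1` derive `⟨.ss z c g0, false⟩` for
  `c.val ≠ 1`.
* (ii) If `⟨.ss z c g, false⟩` is derived for all groups `g` of the kind `κ` then `⟨.uj z κ c 0, true⟩`: `Dn.cnt`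
  with `X = {x | ∃ g, g.kd = κ ∧ x = ⟨.ss z c g, true⟩}`, `W = ∅`, `A = A3 0 = {0}`, `p = .p0 z κ c none`,
  `un ⟨.ss z c g, _⟩ = .s0 z false c g`. With exactly one `g0`: `⟨.uj z κ c 1, true⟩`, `W = {⟨.ss z c g0, true⟩}`,
  `A = A3 1 = {1}`, `p = .p0 z κ c (some g0)`. `⟨.uj z κ c 2, true⟩` (`A3 2 = univ`): `Pn.cover`.
* (iii) `fi`: `Pn.dist` with `J = NI d n`, `F = {X | ∃ g, g.kd = κ ∧ X = XS z g}`, `B j X = .ss z j g` for `X = XS z g`
  (`g` is determined by `X`: every group contains an item, because a pair or a vertex group has an `a : Fin d`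
  or a `k : Fin (2 * d)`; the groups are disjoint), `u j = .uj z κ j (Aj j)`, `⋃₀ F = AI z`, `a = .fi z κ m`.
  `κ = true`: `Aj j = 2` for `j ∈ {0, m}` and `0` otherwise; if `t j ∈ A3 (Aj j)` for all `j` then
  `∑ j * t j = m * t m` is `0` modulo `m` (`m ≤ NI d n` or the term does not occur).
  `κ = false`: `Aj 1 = 1`, `Aj j = 2` for `j ∈ {0, m}` (`m ≥ 2`), `0` otherwise: the sum is `1 + m * t m`
  (`1 ≤ NI d n`: there is an item). `Pn.cutAll` with all `⟨.uj z κ j (Aj j), true⟩`.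
* (iv) `glb`: `⟨.fi z true m, true⟩` and `⟨.fi z false m, true⟩` are contradictory by `Pn.cover` with `AI z`
  (`c % m = 0` and `c % m = 1` exclude each other).
-/

set_option autoImplicit false
set_option linter.unusedSectionVars false
set_option linter.unusedVariables false

namespace Pool.Agent.H79.CQ

open Pool.Agent.H42.CS (Pt Ed Sq un inB isE isS Slot off ed sq Ax Atom Lit Gate Circuit Step
  Refutation Der Pn Dn bs)

private theorem gb_inj {d n : ℕ} {z : Fin n} {c : Cn d n} {g g' : Gp d n}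
    (h : (⟨.ss z c g, true⟩ : Lit (Nd d n)) = ⟨.ss z c g', true⟩) : g = g' := by
  have h1 : (Nd.ss z c g : Nd d n) = Nd.ss z c g' := congrArg Lit.node h
  injection h1

/-- Counting of the groups with exactly `c` true items. -/
private theorem cnt_groups {d n l : ℕ} {Γ : Set (Lit (Nd d n))} (z : Fin n) (κ : Bool) (c : Cn d n) (w : Option (Gp d n))
    (hw : ∀ g, w = some g → g.kd = κ) {A : Set ℕ} {a : Nd d n}
    (ha : gt a = .sym A {l | ∃ g, g.kd = κ ∧ l = ⟨.ss z c g, true⟩})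
    (hA : {l : Lit (Nd d n) | ∃ g, w = some g ∧ l = ⟨.ss z c g, true⟩}.ncard ∈ A)
    (h1 : ∀ g, w = some g → DD l Γ ⟨.ss z c g, true⟩)
    (h0 : ∀ g, g.kd = κ → w ≠ some g → DD l Γ ⟨.ss z c g, false⟩) : DD (l + 6) Γ ⟨a, true⟩ := by
  classical
  obtain ⟨un, hun⟩ : ∃ un : Lit (Nd d n) → Nd d n, ∀ g : Gp d n,
      un ⟨.ss z c g, true⟩ = .s0 z (decide (w = some g)) c g := by
    refine ⟨fun l => match l with
      | ⟨.ss _ _ g, _⟩ => .s0 z (decide (w = some g)) c g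
      | _ => .lt2, fun x => rfl⟩
  refine Dn.cnt (C := CC d n) (X := {l | ∃ g, g.kd = κ ∧ l = ⟨.ss z c g, true⟩})
    (W := {l : Lit (Nd d n) | ∃ g, w = some g ∧ l = ⟨.ss z c g, true⟩}) (A := A)
    (a := a) (p := (.p0 z κ c w : Nd d n)) un ?_ ?_ ?_ ha hA ?_ ?_
  · rintro _ ⟨g, hg, rfl⟩
    exact ⟨g, hw g hg, rfl⟩
  · rintro _ ⟨g, hg, rfl⟩
    rw [hun]
    change Gate.sym {if decide (w = some g) = true then 1 else 0} ({⟨.ss z c g, true⟩} : Set (Lit (Nd d n))) = _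
    have h2 : ((⟨.ss z c g, true⟩ : Lit (Nd d n)) ∈ {l : Lit (Nd d n) | ∃ g, w = some g ∧ l = ⟨.ss z c g, true⟩}) ↔
        w = some g := by
      constructor
      · rintro ⟨g', h3, h4⟩
        rw [gb_inj h4]
        exact h3
      · intro h3
        exact ⟨g, h3, rfl⟩
    by_cases h4 : w = some g
    · rw [if_pos (decide_eq_true h4), if_pos (h2.2 h4)]
    · rw [if_neg (by simpa using h4), if_neg (fun h5 => h4 (h2.1 h5))]
  · change Gate.and {l : Lit (Nd d n) | ∃ g, g.kd = κ ∧ l = ⟨.s0 z (decide (w = some g)) c g, true⟩} = _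
    congr 1
    ext y
    constructor
    · rintro ⟨g, hg, rfl⟩
      refine ⟨⟨.ss z c g, true⟩, ⟨g, hg, rfl⟩, ?_⟩
      change (⟨un ⟨.ss z c g, true⟩, true⟩ : Lit (Nd d n)) = _
      rw [hun]
    · rintro ⟨_, ⟨g, hg, rfl⟩, rfl⟩
      refine ⟨g, hg, ?_⟩
      change (⟨un ⟨.ss z c g, true⟩, true⟩ : Lit (Nd d n)) = _
      rw [hun]
  · rintro _ ⟨g, hg, rfl⟩
    exact h1 g hg
  · rintro _ ⟨g, hg, rfl⟩ h2
    exact h0 g hg fun h3 => h2 ⟨g, h3, rfl⟩

private theorem XS_card {d n : ℕ} (z : Fin n) (g : Gp d n) : (XS z g).ncard ≤ NI d n := by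
  rw [← Itm_card d n]
  have hf : Finite (Itm d n) := by
    refine Finite.of_injective (fun x : Itm d n => (x.b, x.a, x.q, x.q', x.y, x.k, x.y')) ?_
    rintro ⟨b, a, q, q', y, k, y'⟩ ⟨b2, a2, q2, q2', y2, k2, y2'⟩ h
    simp only [Prod.mk.injEq] at h
    obtain ⟨rfl, rfl, rfl, rfl, rfl, rfl, rfl⟩ := h
    rfl
  have h1 : XS z g ⊆ (fun x : Itm d n => (⟨.it z x, true⟩ : Lit (Nd d n))) '' Set.univ := by
    rintro _ ⟨x, -, rfl⟩
    exact ⟨x, Set.mem_univ _, rfl⟩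
  refine (Set.ncard_le_ncard h1 (Set.toFinite _)).trans ?_
  refine (Set.ncard_image_le (Set.toFinite _)).trans ?_
  rw [Set.ncard_univ]

private theorem it_inj {d n : ℕ} {z : Fin n} {x x' : Itm d n}
    (h : (⟨.it z x, true⟩ : Lit (Nd d n)) = ⟨.it z x', true⟩) : x = x' := by
  have h1 : (Nd.it z x : Nd d n) = Nd.it z x' := congrArg Lit.node h
  injection h1

private theorem gr_kd {d n : ℕ} (κ : Bool) (x : Itm d n) : (gr κ x).kd = κ := by
  cases κ <;> rfl

private theorem XS_ne {d n : ℕ} (z : Fin n) (g : Gp d n) : ∃ x : Itm d n, gr g.kd x = g := by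
  cases g with
  | pair a q q' =>
    have ha := a.2
    exact ⟨⟨true, a, q, q', z, ⟨0, by omega⟩, z⟩, rfl⟩
  | vert q k =>
    have hk := k.2
    exact ⟨⟨true, ⟨0, by omega⟩, q, z, z, k, z⟩, rfl⟩

private theorem XS_inj {d n : ℕ} {z : Fin n} {g g' : Gp d n} (hk : g.kd = g'.kd) (h : XS z g = XS z g') : g = g' := by
  obtain ⟨x, hx⟩ := XS_ne z g
  have h1 : (⟨.it z x, true⟩ : Lit (Nd d n)) ∈ XS z g := ⟨x, hx, rfl⟩
  rw [h] at h1
  obtain ⟨x', hx', he⟩ := h1
  rw [← it_inj he, ← hk, hx] at hx'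
  exact hx'

private theorem fi_key {d n l : ℕ} {Γ : Set (Lit (Nd d n))} (z : Fin n) (κ : Bool) (m : Fin (n + 1)) (Aj : ℕ → Fin 3)
    (hu : ∀ c : Cn d n, c.val ≤ NI d n → DD l Γ ⟨.uj z κ c (Aj c.val), true⟩)
    (ht : ∀ t : ℕ → ℕ, (∀ j ≤ NI d n, t j ∈ A3 (Aj j)) →
      (∑ j ∈ Finset.range (NI d n + 1), j * t j) % m.val = if κ then 0 else 1) :
    DD (l + 3) Γ ⟨.fi z κ m, true⟩ := by
  classical
  obtain ⟨cn, hcn⟩ : ∃ cn : ℕ → Cn d n, ∀ j ≤ NI d n, (cn j).val = j :=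
    ⟨fun j => ⟨min j (NI d n), by omega⟩, fun j hj => min_eq_left hj⟩
  refine Pn.cutAll (l := l + 1) (S := {x | ∃ c : Cn d n, c.val ≤ NI d n ∧ x = ⟨.uj z κ c (Aj c.val), true⟩}) ?_ ?_
  · rintro _ ⟨c, hc, rfl⟩
    exact (hu c hc).mono (Set.subset_insert _ _) (Nat.lt_succ_self l)
  obtain ⟨B, hB⟩ : ∃ B : ℕ → Set (Lit (Nd d n)) → Nd d n, ∀ j g, g.kd = κ → B j (XS z g) = .ss z (cn j) g := by
    refine ⟨fun j X => if h : ∃ g, g.kd = κ ∧ XS z g = X then .ss z (cn j) h.choose else .lt2, fun j g hg => ?_⟩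
    have h : ∃ g', g'.kd = κ ∧ XS z g' = XS z g := ⟨g, hg, rfl⟩
    beta_reduce
    rw [dif_pos h, XS_inj (h.choose_spec.1.trans hg.symm) h.choose_spec.2]
  refine Pn.dist (C := CC d n) (a := (.fi z κ m : Nd d n)) (F := {X | ∃ g : Gp d n, g.kd = κ ∧ X = XS z g})
    (J := NI d n) (B := B) (u := fun j => (.uj z κ (cn j) (Aj j) : Nd d n)) (A := fun j => A3 (Aj j))
    (A' := {c | c % m.val = (if κ then 0 else 1)}) ?_ ?_ ?_ ?_ ?_ ?_ ?_ (Or.inl (Or.inl rfl))
  · rintro _ ⟨g, hg, rfl⟩ _ ⟨g', hg', rfl⟩ hne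
    rw [Function.onFun, id, id, Set.disjoint_left]
    rintro _ ⟨x, hx, rfl⟩ ⟨x', hx', he⟩
    apply hne
    rw [← it_inj he, hg', ← hg, hx] at hx'
    rw [hx']
  · rintro _ ⟨g, hg, rfl⟩
    exact XS_card z g
  · rintro j hj _ ⟨g, hg, rfl⟩
    rw [hB j g hg]
    change Gate.sym {(cn j).val} (XS z g) = _
    rw [hcn j hj]
  · intro j hj
    change Gate.sym (A3 (Aj j)) {l : Lit (Nd d n) | ∃ g, g.kd = κ ∧ l = ⟨.ss z (cn j) g, true⟩} = _
    congr 1
    ext x
    constructor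
    · rintro ⟨g, hg, rfl⟩
      refine ⟨XS z g, ⟨g, hg, rfl⟩, ?_⟩
      change (⟨B j (XS z g), true⟩ : Lit (Nd d n)) = _
      rw [hB j g hg]
    · rintro ⟨_, ⟨g, hg, rfl⟩, rfl⟩
      refine ⟨g, hg, ?_⟩
      change (⟨B j (XS z g), true⟩ : Lit (Nd d n)) = _
      rw [hB j g hg]
  · change Gate.sym {c | c % m.val = (if κ then 0 else 1)} (AI z) = _
    congr 1
    ext x
    rw [Set.mem_sUnion]
    constructor
    · rintro ⟨y, rfl⟩
      refine ⟨XS z (gr κ y), ⟨_, gr_kd κ y, rfl⟩, y, ?_, rfl⟩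
      rw [gr_kd]
    · rintro ⟨_, ⟨g, hg, rfl⟩, y, _, rfl⟩
      exact ⟨y, rfl⟩
  · intro t h1 _
    exact ht t h1
  · intro j hj
    refine Or.inr ⟨cn j, ?_, ?_⟩
    · rw [hcn j hj]
      exact hj
    · rw [hcn j hj]

private theorem uj_two {d n l : ℕ} {Γ : Set (Lit (Nd d n))} (z : Fin n) (κ : Bool) (c : Cn d n) :
    DD l Γ ⟨.uj z κ c 2, true⟩ := by
  refine Pn.cover (C := CC d n) (S := {l | ∃ g : Gp d n, g.kd = κ ∧ l = ⟨.ss z c g, true⟩}) fun c0 _ => ?_
  refine ⟨.uj z κ c 2, A3 2, false, rfl, ?_, Or.inl rfl⟩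
  have h1 : c0 ∈ A3 2 := Set.mem_univ c0
  intro h2
  exact absurd (h2.1 h1) (by simp)

private theorem uj_zero {d n l : ℕ} {Γ : Set (Lit (Nd d n))} (z : Fin n) (κ : Bool) (c : Cn d n)
    (h : ∀ g : Gp d n, g.kd = κ → DD l Γ ⟨.ss z c g, false⟩) : DD (l + 6) Γ ⟨.uj z κ c 0, true⟩ := by
  refine cnt_groups z κ c none (fun x hx => absurd hx (by simp)) (a := .uj z κ c 0) (A := A3 0) rfl ?_
    (fun x hx => absurd hx (by simp)) (fun x hx _ => h x hx)
  have h1 : {l : Lit (Nd d n) | ∃ g, (none : Option (Gp d n)) = some g ∧ l = ⟨.ss z c g, true⟩} = ∅ := by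
    ext x
    simp
  rw [h1, Set.ncard_empty]
  exact Set.mem_singleton 0

private theorem uj_one {d n l : ℕ} {Γ : Set (Lit (Nd d n))} (z : Fin n) (κ : Bool) (c : Cn d n) (g0 : Gp d n)
    (hg0 : g0.kd = κ) (h1 : DD l Γ ⟨.ss z c g0, true⟩)
    (h : ∀ g : Gp d n, g.kd = κ → g ≠ g0 → DD l Γ ⟨.ss z c g, false⟩) : DD (l + 6) Γ ⟨.uj z κ c 1, true⟩ := by
  refine cnt_groups z κ c (some g0) (fun x hx => by rw [← Option.some.inj hx]; exact hg0) (a := .uj z κ c 1)
    (A := A3 1) rfl ?_ (fun x hx => by rw [← Option.some.inj hx]; exact h1)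
    (fun x hx hne => h x hx fun h3 => hne (by rw [h3]))
  have h2 : {l : Lit (Nd d n) | ∃ g, some g0 = some g ∧ l = ⟨.ss z c g, true⟩} = {⟨.ss z c g0, true⟩} := by
    ext x
    constructor
    · rintro ⟨y, hy, rfl⟩
      rw [Option.some.inj hy]
      exact Set.mem_singleton _
    · rintro rfl
      exact ⟨g0, rfl, rfl⟩
  rw [h2, Set.ncard_singleton]
  exact Set.mem_singleton 1

private theorem ss_false {d n l : ℕ} {Γ : Set (Lit (Nd d n))} (z : Fin n) (m : Fin (n + 1)) (c : Cn d n) (g : Gp d n)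
    (h : DD l Γ ⟨.ww z m g, true⟩) (h0 : c.val ≠ 0) (hm : c.val ≠ m.val) : DD (l + 2) Γ ⟨.ss z c g, false⟩ := by
  refine Dn.use h ?_
  refine Pn.cover (C := CC d n) (S := XS z g) fun c0 _ => ?_
  by_cases h1 : c0 = c.val
  · refine ⟨.ww z m g, {0, m.val}, true, rfl, ?_, Or.inr (Or.inl rfl)⟩
    intro h2
    rcases h2.2 rfl with h3 | h3
    · exact h0 (h1.symm.trans h3)
    · exact hm (h1.symm.trans h3)
  · refine ⟨.ss z c g, {c.val}, true, rfl, ?_, Or.inl rfl⟩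
    intro h2
    exact h1 (h2.2 rfl)

private theorem ss_false' {d n l : ℕ} {Γ : Set (Lit (Nd d n))} (z : Fin n) (c c1 : Cn d n) (g : Gp d n)
    (h : DD l Γ ⟨.ss z c1 g, true⟩) (h0 : c.val ≠ c1.val) : DD (l + 2) Γ ⟨.ss z c g, false⟩ := by
  refine Dn.use h ?_
  refine Pn.cover (C := CC d n) (S := XS z g) fun c0 _ => ?_
  by_cases h1 : c0 = c.val
  · refine ⟨.ss z c1 g, {c1.val}, true, rfl, ?_, Or.inr (Or.inl rfl)⟩
    intro h2
    have h3 : c0 = c1.val := h2.2 rfl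
    exact h0 (h1.symm.trans h3)
  · refine ⟨.ss z c g, {c.val}, true, rfl, ?_, Or.inl rfl⟩
    intro h2
    exact h1 (h2.2 rfl)

theorem glb_pair (d : ℕ) : ∃ K : ℕ, ∀ (n l : ℕ) (Γ : Set (Lit (Nd d n))) (z : Fin n)
    (m : Fin (n + 1)), (∀ g : Gp d n, g.kd = true → DD l Γ ⟨.ww z m g, true⟩) →
    DD (l + K) Γ ⟨.fi z true m, true⟩ := by
  refine ⟨11, fun n l Γ z m h => ?_⟩
  refine fi_key (l := l + 8) z true m (fun j => if j = 0 ∨ j = m.val then 2 else 0) ?_ ?_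
  · intro c _
    by_cases h1 : c.val = 0 ∨ c.val = m.val
    · rw [if_pos h1]
      exact uj_two z true c
    · rw [if_neg h1]
      rw [not_or] at h1
      exact uj_zero (l := l + 2) z true c fun g hg => ss_false z m c g (h g hg) h1.1 h1.2
  · intro t ht
    rw [if_pos rfl]
    apply Nat.mod_eq_zero_of_dvd
    refine Finset.dvd_sum fun j hj => ?_
    have h2 := ht j (by
      rw [Finset.mem_range] at hj
      omega)
    by_cases h1 : j = 0 ∨ j = m.val
    · rcases h1 with h1 | h1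
      · rw [h1, zero_mul]
        exact dvd_zero _
      · rw [h1]
        exact dvd_mul_right _ _
    · rw [if_neg h1] at h2
      have h3 : t j = 0 := h2
      rw [h3, mul_zero]
      exact dvd_zero _

theorem glb_vert (d : ℕ) : ∃ K : ℕ, ∀ (n l : ℕ) (Γ : Set (Lit (Nd d n))) (z : Fin n)
    (m : Fin (n + 1)) (c : Cn d n) (g0 : Gp d n), 2 ≤ m.val → c.val = 1 → g0.kd = false →
    DD l Γ ⟨.ss z c g0, true⟩ →
    (∀ g : Gp d n, g.kd = false → g ≠ g0 → DD l Γ ⟨.ww z m g, true⟩) →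
    DD (l + K) Γ ⟨.fi z false m, true⟩ := by
  refine ⟨11, fun n l Γ z m c g0 hm hc hg0 h1 h => ?_⟩
  have hNI : 1 ≤ NI d n := by
    obtain ⟨x, -⟩ := XS_ne z g0
    have hd : 0 < d := x.a.pos
    have hn : 0 < n := z.pos
    have h2 : 0 < d ^ 2 := by positivity
    have h3 : 0 < n ^ 4 := by positivity
    unfold NI
    exact Nat.succ_le_of_lt (by positivity)
  refine fi_key (l := l + 8) z false m (fun j => if j = 1 then 1 else if j = 0 ∨ j = m.val then 2 else 0) ?_ ?_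
  · intro c' _
    by_cases h2 : c'.val = 1
    · have h3 : c' = c := Fin.ext (h2.trans hc.symm)
      rw [if_pos h2, h3]
      refine uj_one (l := l + 2) z false c g0 hg0 (h1.le (by omega)) fun g hg hne => ?_
      exact ss_false z m c g (h g hg hne) (by omega) (by omega)
    · rw [if_neg h2]
      by_cases h3 : c'.val = 0 ∨ c'.val = m.val
      · rw [if_pos h3]
        exact uj_two z false c'
      · rw [if_neg h3]
        rw [not_or] at h3
        refine uj_zero (l := l + 2) z false c' fun g hg => ?_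
        by_cases h4 : g = g0
        · rw [h4]
          exact ss_false' z c' c g0 h1 (by omega)
        · exact ss_false z m c' g (h g hg h4) h3.1 h3.2
  · intro t ht
    have h2 : ∀ j ∈ Finset.range (NI d n + 1), ∃ q, j * t j = (if j = 1 then 1 else 0) + m.val * q := by
      intro j hj
      have h3 := ht j (by
        rw [Finset.mem_range] at hj
        omega)
      by_cases h4 : j = 1
      · rw [if_pos h4] at h3
        have h5 : t j = 1 := h3
        refine ⟨0, ?_⟩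
        rw [if_pos h4, h5, h4, mul_zero, add_zero]
      · rw [if_neg h4] at h3
        rw [if_neg h4]
        by_cases h5 : j = 0 ∨ j = m.val
        · rcases h5 with h5 | h5
          · exact ⟨0, by rw [h5]; simp⟩
          · exact ⟨t j, by rw [h5, zero_add]⟩
        · rw [if_neg h5] at h3
          have h6 : t j = 0 := h3
          exact ⟨0, by rw [h6]; simp⟩
    choose! q hq using h2
    rw [Finset.sum_congr rfl hq, Finset.sum_add_distrib, ← Finset.mul_sum, Finset.sum_ite_eq', if_pos (by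
      rw [Finset.mem_range]
      omega), Nat.add_mul_mod_self_left]
    exact Nat.mod_eq_of_lt (by omega)

theorem glb (d : ℕ) : ∃ K : ℕ, ∀ (n l : ℕ) (Γ : Set (Lit (Nd d n))) (z : Fin n)
    (m : Fin (n + 1)) (c : Cn d n) (g0 : Gp d n), 2 ≤ m.val → c.val = 1 → g0.kd = false →
    DD l Γ ⟨.ss z c g0, true⟩ →
    (∀ g : Gp d n, g ≠ g0 → DD l Γ ⟨.ww z m g, true⟩) → PP (l + K) Γ := by
  obtain ⟨K1, h1⟩ := glb_pair d
  obtain ⟨K2, h2⟩ := glb_vert d
  refine ⟨K1 + K2 + 2, fun n l Γ z m c g0 hm hc hg0 h3 h => ?_⟩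
  have h4 := h1 n l Γ z m fun g hg => h g fun h5 => by
    rw [h5, hg0] at hg
    exact absurd hg (by simp)
  have h5 := h2 n l Γ z m c g0 hm hc hg0 h3 fun g _ hne => h g hne
  refine Pn.cutAll (C := CC d n) (l := l + (K1 + K2)) (S := ({⟨.fi z true m, true⟩, ⟨.fi z false m, true⟩} : Set (Lit (Nd d n)))) ?_ ?_
  · rintro _ (rfl | rfl)
    · exact h4.le (by omega)
    · exact h5.le (by omega)
  · refine Pn.cover (C := CC d n) (S := AI z) fun c0 _ => ?_
    by_cases h6 : c0 % m.val = 0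
    · refine ⟨.fi z false m, {c | c % m.val = (if (false : Bool) then 0 else 1)}, true, rfl, ?_, Or.inr (Or.inr rfl)⟩
      intro h7
      have h8 : c0 % m.val = 1 := h7.2 rfl
      omega
    · refine ⟨.fi z true m, {c | c % m.val = (if (true : Bool) then 0 else 1)}, true, rfl, ?_, Or.inr (Or.inl rfl)⟩
      intro h7
      exact h6 (h7.2 rfl)

end Pool.Agent.H79.CQ
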