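import Pool.Agent.H79.CQ.Lab

/-!
# Counting in one group of items

Only the gates matter here (`u1`, `pz`, `ee`, `pe`, `tt`, `nr`, `ss`, `ps`, `ww`, `pn`), `Dn.cnt` and the
rules `Pn.sum`, `Pn.cover`.

* `ex1`: assume `⟨.ee z g y, false⟩` (`Dn` unfolded) and use `searchS` with `S = lt z '' IS g y`. If `lt z w0` is
  true then for the other `w`: `(lt z w).neg` is derived (second hypothesis), and `Dn.cnt` with
  `X = lt z '' IS g y`, `W = {lt z w0}`, `A = {1}`, `a = .ee z g y`, `p = .pz z g y (some w0)`,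
  `un (lt z w) = .u1 z (decide (some w0 = some w)) w` (`lt z` is injective: choose an inverse on `X`, or define
  `un` by cases on the node) gives `⟨.ee z g y, true⟩`. If all are false: the first hypothesis. No levels depend
  on `n`.
* `zero`: `Dn.cnt` with `X = XS z g`, `W = ∅`, `A = {0, m}`, `a = .ww z m g`, `p = .pn z g none`,
  `un ⟨.it z x, _⟩ = .u1 z false (.inl x)`.
* `one`: the same with `W = {⟨.it z x0, true⟩}`, `A = {c}`, `p = .pn z g (some x0)`.
* `block`: (i) `⟨.pe z g, true⟩` by `Dn.andT`; (ii) with `N : Cn d n` of value `n` (it exists: `n < NI + n + 1`):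
  `⟨.tt z N g, true⟩` by `Pn.sum` with `B = {b | ∃ y, b = .ee z g y}`, `A b = {1}`, `S (.ee z g y) = lt z '' IS g y`
  (these sets are pairwise disjoint, and their union is `XS z g ∪ NA`), `A' = {n}`, `p = .pe z g`; the sum of the
  constant 1 over `B` is `n` (`y ↦ .ee z g y` is injective); (iii) assume `⟨.ww z m g, false⟩`; `searchS` with
  `S = {x | ∃ c : Cn d n, c.val ≠ 0 ∧ c.val ≠ m.val ∧ c.val ≤ NI d n ∧ x = ⟨.ss z c g, true⟩}`; all false: `Pn.cover`
  with the set `XS z g` (its number of elements is at most `NI d n` by `Itm_card`); for a member `c`: `⟨.ps z c m' g, true⟩`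
  by `Dn.andT`, `⟨.tt z c' g, true⟩` with `c'.val = c.val + m'.val` by `Pn.sum` with `B = {.ss z c g, .nr m'}`
  (`XS z g` and `NA` are disjoint), and `c + m' ≠ n`: `Pn.cover` with `XS z g ∪ NA` and the nodes `.tt z c' g`,
  `.tt z N g`.
-/

set_option autoImplicit false
set_option linter.unusedSectionVars false
set_option linter.unusedVariables false

namespace Pool.Agent.H79.CQ

open Pool.Agent.H42.CS (Pt Ed Sq un inB isE isS Slot off ed sq Ax Atom Lit Gate Circuit Step
  Refutation Der Pn Dn bs)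

private theorem bk_neg {N : Type} (x : Lit N) : x.neg.neg = x := by
  rcases x with ⟨a, s⟩
  cases s <;> rfl

private theorem lt_inj {d n : ℕ} (z : Fin n) : Function.Injective (lt z : Itm d n ⊕ Fin n → Lit (Nd d n)) := by
  intro w w' h
  rcases w with x | y <;> rcases w' with x' | y'
  · have h1 : (Nd.it z x : Nd d n) = Nd.it z x' := congrArg Lit.node h
    injection h1 with _ h2
    rw [h2]
  · have h1 : (Nd.it z x : Nd d n) = Nd.ra y' := congrArg Lit.node h
    injection h1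
  · have h1 : (Nd.ra y : Nd d n) = Nd.it z x' := congrArg Lit.node h
    injection h1
  · have h1 : (Nd.ra y : Nd d n) = Nd.ra y' := congrArg Lit.node h
    injection h1 with h2
    rw [h2]

/-- Counting with at most one true item of the group. -/
private theorem cnt_items {d n l : ℕ} {Γ : Set (Lit (Nd d n))} (z : Fin n) (g : Gp d n) (w : Option (Itm d n))
    (hw : ∀ x, w = some x → gr g.kd x = g) {A : Set ℕ} {a : Nd d n} (ha : gt a = .sym A (XS z g))
    (hA : {l : Lit (Nd d n) | ∃ x, w = some x ∧ l = ⟨.it z x, true⟩}.ncard ∈ A)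
    (h1 : ∀ x, w = some x → DD l Γ ⟨.it z x, true⟩)
    (h0 : ∀ x, gr g.kd x = g → w ≠ some x → DD l Γ ⟨.it z x, false⟩) : DD (l + 6) Γ ⟨a, true⟩ := by
  classical
  obtain ⟨un, hun⟩ : ∃ un : Lit (Nd d n) → Nd d n, ∀ x : Itm d n,
      un ⟨.it z x, true⟩ = .u1 z (decide (w = some x)) (.inl x) := by
    refine ⟨fun l => match l with
      | ⟨.it _ x, _⟩ => .u1 z (decide (w = some x)) (.inl x)
      | _ => .lt2, fun x => rfl⟩
  have hinj : ∀ x x' : Itm d n, (⟨.it z x, true⟩ : Lit (Nd d n)) = ⟨.it z x', true⟩ → x = x' := by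
    intro x x' h
    have h1 : (Nd.it z x : Nd d n) = Nd.it z x' := congrArg Lit.node h
    injection h1
  refine Dn.cnt (C := CC d n) (X := XS z g) (W := {l : Lit (Nd d n) | ∃ x, w = some x ∧ l = ⟨.it z x, true⟩}) (A := A)
    (a := a) (p := (.pn z g w : Nd d n)) un ?_ ?_ ?_ ha hA ?_ ?_
  · rintro _ ⟨x, hx, rfl⟩
    exact ⟨x, hw x hx, rfl⟩
  · rintro _ ⟨x, hx, rfl⟩
    rw [hun]
    change Gate.sym {if decide (w = some x) = true then 1 else 0} {lt z (.inl x)} = _
    have h2 : ((⟨.it z x, true⟩ : Lit (Nd d n)) ∈ {l : Lit (Nd d n) | ∃ x, w = some x ∧ l = ⟨.it z x, true⟩}) ↔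
        w = some x := by
      constructor
      · rintro ⟨x', h3, h4⟩
        rw [hinj _ _ h4]
        exact h3
      · intro h3
        exact ⟨x, h3, rfl⟩
    have h3 : (lt z (.inl x) : Lit (Nd d n)) = ⟨.it z x, true⟩ := rfl
    rw [h3]
    by_cases h4 : w = some x
    · rw [if_pos (decide_eq_true h4), if_pos (h2.2 h4)]
    · rw [if_neg (by simpa using h4), if_neg (fun h5 => h4 (h2.1 h5))]
  · change Gate.and {l : Lit (Nd d n) | ∃ x, gr g.kd x = g ∧ l = ⟨.u1 z (decide (w = some x)) (.inl x), true⟩} = _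
    congr 1
    ext y
    constructor
    · rintro ⟨x, hx, rfl⟩
      refine ⟨⟨.it z x, true⟩, ⟨x, hx, rfl⟩, ?_⟩
      change (⟨un ⟨.it z x, true⟩, true⟩ : Lit (Nd d n)) = _
      rw [hun]
    · rintro ⟨_, ⟨x, hx, rfl⟩, rfl⟩
      refine ⟨x, hx, ?_⟩
      change (⟨un ⟨.it z x, true⟩, true⟩ : Lit (Nd d n)) = _
      rw [hun]
  · rintro _ ⟨x, hx, rfl⟩
    exact h1 x hx
  · rintro _ ⟨x, hx, rfl⟩ h2
    exact h0 x hx fun h3 => h2 ⟨x, h3, rfl⟩

private theorem XS_card {d n : ℕ} (z : Fin n) (g : Gp d n) : (XS z g).ncard ≤ NI d n := by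
  rw [← Itm_card d n]
  have hf : Finite (Itm d n) := by
    refine Finite.of_injective (fun x : Itm d n => (x.b, x.a, x.q, x.q', x.y, x.k, x.y')) ?_
    rintro ⟨b, a, q, q', y, k, y'⟩ ⟨b2, a2, q2, q2', y2, k2, y2'⟩ h
    simp only [Prod.mk.injEq] at h
    obtain ⟨rfl, rfl, rfl, rfl, rfl, rfl, rfl⟩ := h
    rfl
  have h1 : XS z g ⊆ (fun x : Itm d n => (⟨.it z x, true⟩ : Lit (Nd d n))) '' Set.univ := by
    rintro _ ⟨x, -, rfl⟩
    exact ⟨x, Set.mem_univ _, rfl⟩
  refine (Set.ncard_le_ncard h1 (Set.toFinite _)).trans ?_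
  refine (Set.ncard_image_le (Set.toFinite _)).trans ?_
  rw [Set.ncard_univ]

/-- The sets of the nodes `.ee z g y`, `.ss z c g`, `.nr c`. -/
private def bkS {d n : ℕ} : Nd d n → Set (Lit (Nd d n))
  | .ee z g y => lt z '' IS g y
  | .ss z _ g => XS z g
  | .nr _ => NA
  | _ => ∅

/-- Exactly one member of the part `y` is true. -/
theorem ex1 (d : ℕ) : ∃ K : ℕ, ∀ (n l : ℕ) (Γ : Set (Lit (Nd d n))) (z : Fin n) (g : Gp d n)
    (y : Fin n), PP l (Γ ∪ Lit.neg '' (lt z '' IS g y)) →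
    (∀ w ∈ IS g y, ∀ w' ∈ IS g y, w ≠ w' → PP l (Γ ∪ {lt z w, lt z w'})) →
    DD (l + K) Γ ⟨.ee z g y, true⟩ := by
  refine ⟨10, fun n l Γ z g y h1 h2 => ?_⟩
  classical
  refine searchS (l := l + 8) (S := lt z '' IS g y) ?_ ?_
  · rintro _ ⟨w0, hw0, rfl⟩
    have key : DD (l + 7) (insert (lt z w0) (insert (Lit.neg ⟨.ee z g y, true⟩) Γ)) ⟨.ee z g y, true⟩ := by
      obtain ⟨un, hun⟩ : ∃ un : Lit (Nd d n) → Nd d n, ∀ w, un (lt z w) = .u1 z (decide (some w0 = some w)) w := by
        refine ⟨fun x => if h : ∃ w, lt z w = x then .u1 z (decide (some w0 = some h.choose)) h.choose else .lt2,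
          fun w => ?_⟩
        have h3 : ∃ w', lt z w' = (lt z w : Lit (Nd d n)) := ⟨w, rfl⟩
        beta_reduce
        rw [dif_pos h3, lt_inj z h3.choose_spec]
      refine Dn.cnt (l := l + 1) (C := CC d n) (X := lt z '' IS g y) (W := {lt z w0}) (A := {1})
        (a := (.ee z g y : Nd d n)) (p := (.pz z g y (some w0) : Nd d n)) un ?_ ?_ ?_ rfl ?_ ?_ ?_
      · rintro _ rfl
        exact ⟨w0, hw0, rfl⟩
      · rintro _ ⟨w, hw, rfl⟩
        rw [hun]
        change Gate.sym {if decide (some w0 = some w) = true then 1 else 0} {lt z w} = _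
        by_cases h4 : w0 = w
        · rw [h4, if_pos (decide_eq_true rfl), if_pos (Set.mem_singleton _)]
        · rw [if_neg (by simpa using h4), if_neg]
          intro h5
          exact h4 (lt_inj z h5).symm
      · change Gate.and {l : Lit (Nd d n) | ∃ w' ∈ IS g y, l = ⟨.u1 z (decide (some w0 = some w')) w', true⟩} = _
        congr 1
        ext x
        constructor
        · rintro ⟨w, hw, rfl⟩
          refine ⟨lt z w, ⟨w, hw, rfl⟩, ?_⟩
          change (⟨un (lt z w), true⟩ : Lit (Nd d n)) = _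
          rw [hun]
        · rintro ⟨_, ⟨w, hw, rfl⟩, rfl⟩
          refine ⟨w, hw, ?_⟩
          change (⟨un (lt z w), true⟩ : Lit (Nd d n)) = _
          rw [hun]
      · rw [Set.ncard_singleton]
        rfl
      · rintro _ rfl
        exact Dn.mem (Or.inl rfl)
      · rintro _ ⟨w, hw, rfl⟩ hne
        have hne' : w0 ≠ w := fun h => hne (by rw [h]; exact Set.mem_singleton _)
        have h3 := h2 w0 hw0 w hw hne'
        unfold Dn
        rw [bk_neg]
        refine Pn.mono h3 ?_ (Nat.lt_succ_self l)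
        rintro x (hx | rfl | rfl)
        · exact Or.inr (Or.inr (Or.inr hx))
        · exact Or.inr (Or.inl rfl)
        · exact Or.inl rfl
    refine Pn.use key (Pn.triv (x := ⟨.ee z g y, true⟩) (Or.inl rfl) (Or.inr (Or.inr (Or.inl rfl))))
  · refine Pn.mono h1 ?_ (by omega)
    rintro x (hx | hx)
    · exact Or.inl (Or.inr hx)
    · exact Or.inr hx

/-- No item of the group is true. -/
theorem zero (d : ℕ) : ∃ K : ℕ, ∀ (n l : ℕ) (Γ : Set (Lit (Nd d n))) (z : Fin n) (g : Gp d n)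
    (m : Fin (n + 1)), (∀ x : Itm d n, gr g.kd x = g → DD l Γ ⟨.it z x, false⟩) →
    DD (l + K) Γ ⟨.ww z m g, true⟩ := by
  refine ⟨6, fun n l Γ z g m h => ?_⟩
  refine cnt_items z g none (fun x hx => absurd hx (by simp)) (a := .ww z m g) (A := {0, m.val}) rfl ?_
    (fun x hx => absurd hx (by simp)) (fun x hx _ => h x hx)
  have h1 : {l : Lit (Nd d n) | ∃ x, (none : Option (Itm d n)) = some x ∧ l = ⟨.it z x, true⟩} = ∅ := by
    ext x
    simp
  rw [h1, Set.ncard_empty]
  exact Or.inl rfl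

/-- Exactly one item of the group is true. -/
theorem one (d : ℕ) : ∃ K : ℕ, ∀ (n l : ℕ) (Γ : Set (Lit (Nd d n))) (z : Fin n) (g : Gp d n)
    (c : Cn d n) (x0 : Itm d n), c.val = 1 → gr g.kd x0 = g → DD l Γ ⟨.it z x0, true⟩ →
    (∀ x : Itm d n, gr g.kd x = g → x ≠ x0 → DD l Γ ⟨.it z x, false⟩) →
    DD (l + K) Γ ⟨.ss z c g, true⟩ := by
  refine ⟨6, fun n l Γ z g c x0 hc hg h1 h0 => ?_⟩
  refine cnt_items z g (some x0) (fun x hx => by rw [← Option.some.inj hx]; exact hg) (a := .ss z c g)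
    (A := {c.val}) rfl ?_ (fun x hx => by rw [← Option.some.inj hx]; exact h1)
    (fun x hx hne => h0 x hx fun h => hne (by rw [h]))
  have h2 : {l : Lit (Nd d n) | ∃ x, some x0 = some x ∧ l = ⟨.it z x, true⟩} = {⟨.it z x0, true⟩} := by
    ext x
    constructor
    · rintro ⟨y, hy, rfl⟩
      rw [Option.some.inj hy]
      exact Set.mem_singleton _
    · rintro rfl
      exact ⟨x0, rfl, rfl⟩
  rw [h2, Set.ncard_singleton, hc]
  exact Set.mem_singleton _

/-- In every part there is exactly one true member: the number of the true items is the number of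
the representatives. -/
theorem block (d : ℕ) : ∃ K : ℕ, ∀ (n l : ℕ) (Γ : Set (Lit (Nd d n))) (z : Fin n) (g : Gp d n)
    (m m' : Fin (n + 1)), m.val + m'.val = n → (∀ y : Fin n, DD l Γ ⟨.ee z g y, true⟩) →
    DD l Γ ⟨.nr m', true⟩ → DD (l + K) Γ ⟨.ww z m g, true⟩ := by
  refine ⟨9, fun n l Γ z g m m' hmm he hnr => ?_⟩
  classical
  -- the node for the number n
  obtain ⟨N, hN⟩ : ∃ N : Cn d n, N.val = n := ⟨⟨n, by omega⟩, rfl⟩
  have hpe : DD (l + 2) Γ ⟨.pe z g, true⟩ := by
    refine Dn.andT (C := CC d n) (a := (.pe z g : Nd d n)) (S := {l | ∃ y, l = ⟨.ee z g y, true⟩}) rfl ?_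
    rintro _ ⟨y, rfl⟩
    exact he y
  have htt : DD (l + 4) Γ ⟨.tt z N g, true⟩ := by
    refine Dn.use hpe ?_
    refine Pn.sum (C := CC d n) (a := (.tt z N g : Nd d n)) (p := (.pe z g : Nd d n))
      (B := Set.range fun y : Fin n => (.ee z g y : Nd d n)) (A := fun _ => {1}) (A' := {N.val}) (S := bkS)
      ?_ ?_ ?_ ?_ ?_ (Or.inr (Or.inl rfl)) (Or.inl rfl)
    · rintro _ ⟨y, rfl⟩
      rfl
    · rintro _ ⟨y, rfl⟩ _ ⟨y', rfl⟩ hne
      rw [Function.onFun, Set.disjoint_left]
      rintro x ⟨w, hw, rfl⟩ ⟨w', hw', he'⟩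
      have h1 := lt_inj z he'
      rw [h1] at hw'
      apply hne
      have h2 : y = y' := by
        rcases hw with ⟨x, rfl, _, h3⟩ | rfl
        · rcases hw' with ⟨x', h4, _, h5⟩ | h4
          · rw [← Sum.inl.inj h4] at h5
            rw [← h3, h5]
          · exact absurd h4 (by simp)
        · rcases hw' with ⟨x', h4, _⟩ | h4
          · exact absurd h4 (by simp)
          · exact Sum.inr.inj h4
      rw [h2]
    · change Gate.and {l : Lit (Nd d n) | ∃ y, l = ⟨.ee z g y, true⟩} = _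
      congr 1
      ext x
      constructor
      · rintro ⟨y, rfl⟩
        exact ⟨_, ⟨y, rfl⟩, rfl⟩
      · rintro ⟨_, ⟨y, rfl⟩, rfl⟩
        exact ⟨y, rfl⟩
    · change Gate.sym {N.val} (XS z g ∪ NA) = _
      congr 1
      ext x
      rw [Set.mem_iUnion₂]
      constructor
      · rintro (⟨x', hx, rfl⟩ | ⟨y, rfl⟩)
        · exact ⟨.ee z g (sub g.kd x'), ⟨_, rfl⟩, .inl x', Or.inl ⟨x', rfl, hx, rfl⟩, rfl⟩
        · exact ⟨.ee z g y, ⟨_, rfl⟩, .inr y, Or.inr rfl, rfl⟩
      · rintro ⟨_, ⟨y, rfl⟩, w, (⟨x', rfl, hx, _⟩ | rfl), rfl⟩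
        · exact Or.inl ⟨x', hx, rfl⟩
        · exact Or.inr ⟨y, rfl⟩
    · intro c hc
      have hinj : Function.Injective fun y : Fin n => (.ee z g y : Nd d n) := by
        intro y y' h
        injection h
      rw [finsum_mem_range hinj, finsum_eq_sum_of_fintype]
      have h1 : ∀ y : Fin n, c (.ee z g y) = 1 := fun y => hc _ ⟨y, rfl⟩
      rw [Finset.sum_congr rfl fun y _ => h1 y, Finset.sum_const, Finset.card_univ, Fintype.card_fin, smul_eq_mul,
        mul_one, hN]
      exact Set.mem_singleton _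
  refine searchS (l := l + 7) (S := {x | ∃ c : Cn d n, c.val ≠ 0 ∧ c.val ≠ m.val ∧ c.val ≤ NI d n ∧
    x = ⟨.ss z c g, true⟩}) ?_ ?_
  · rintro _ ⟨c, hc0, hcm, hcN, rfl⟩
    obtain ⟨c', hc'⟩ : ∃ c' : Cn d n, c'.val = c.val + m'.val := by
      have h1 := m'.2
      exact ⟨⟨c.val + m'.val, by omega⟩, rfl⟩
    obtain ⟨Γ2, hΓ2⟩ : ∃ Γ2, Γ2 = insert (⟨.ss z c g, true⟩ : Lit (Nd d n))
      (insert (Lit.neg ⟨.ww z m g, true⟩) Γ) := ⟨_, rfl⟩
    have hsub : Γ ⊆ Γ2 := by
      rw [hΓ2]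
      exact fun x hx => Or.inr (Or.inr hx)
    rw [← hΓ2]
    have h1 : DD (l + 5) Γ2 ⟨.tt z N g, true⟩ := htt.mono hsub (by omega)
    have h2 : DD (l + 3) Γ2 ⟨.ps z c m' g, true⟩ := by
      refine Dn.andT (l := l + 1) (C := CC d n) (a := (.ps z c m' g : Nd d n))
        (S := {⟨.ss z c g, true⟩, ⟨.nr m', true⟩}) rfl ?_
      rintro _ (rfl | rfl)
      · refine Dn.mem ?_
        rw [hΓ2]
        exact Or.inl rfl
      · exact hnr.mono hsub (by omega)
    have h3 : DD (l + 5) Γ2 ⟨.tt z c' g, true⟩ := by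
      refine Dn.use h2 ?_
      have hne : (.ss z c g : Nd d n) ≠ .nr m' := by
        intro h
        injection h
      refine Pn.sum (C := CC d n) (a := (.tt z c' g : Nd d n)) (p := (.ps z c m' g : Nd d n))
        (B := {(.ss z c g : Nd d n), .nr m'}) (A := fun b => if b = .ss z c g then {c.val} else {m'.val})
        (A' := {c'.val}) (S := bkS) ?_ ?_ ?_ ?_ ?_ (Or.inr (Or.inl rfl)) (Or.inl rfl)
      · rintro _ (rfl | rfl)
        · rw [if_pos rfl]
          rfl
        · rw [if_neg hne.symm]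
          rfl
      · have hd : Disjoint (XS z g) (NA : Set (Lit (Nd d n))) := by
          rw [Set.disjoint_left]
          rintro _ ⟨x, _, rfl⟩ ⟨y, hy⟩
          have h4 : (Nd.it z x : Nd d n) = Nd.ra y := congrArg Lit.node hy
          injection h4
        rintro _ (rfl | rfl) _ (rfl | rfl) h4
        · exact absurd rfl h4
        · exact hd
        · exact hd.symm
        · exact absurd rfl h4
      · change Gate.and ({⟨.ss z c g, true⟩, ⟨.nr m', true⟩} : Set (Lit (Nd d n))) = _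
        rw [Set.image_pair]
      · change Gate.sym {c'.val} (XS z g ∪ NA) = _
        rw [Set.biUnion_pair]
        rfl
      · intro f hf
        rw [finsum_mem_pair hne]
        have h4 := hf _ (Or.inl rfl)
        have h5 := hf _ (Or.inr rfl)
        beta_reduce at h4 h5
        rw [if_pos rfl] at h4
        rw [if_neg hne.symm] at h5
        rw [Set.mem_singleton_iff] at h4 h5 ⊢
        rw [h4, h5, hc']
    refine Pn.cutAll (l := l + 5) (S := {⟨.tt z N g, true⟩, ⟨.tt z c' g, true⟩}) ?_ ?_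
    · rintro _ (rfl | rfl)
      · exact h1
      · exact h3
    · refine Pn.cover (C := CC d n) (S := XS z g ∪ NA) fun c0 _ => ?_
      by_cases h4 : c0 = n
      · refine ⟨.tt z c' g, {c'.val}, true, rfl, ?_, Or.inr (Or.inr rfl)⟩
        rw [Set.mem_singleton_iff]
        intro h5
        have h6 := h5.2 rfl
        omega
      · refine ⟨.tt z N g, {N.val}, true, rfl, ?_, Or.inr (Or.inl rfl)⟩
        rw [Set.mem_singleton_iff]
        intro h5
        have h6 := h5.2 rfl
        omega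
  · refine Pn.cover (C := CC d n) (S := XS z g) fun c0 hc0 => ?_
    have h4 := hc0.trans (XS_card z g)
    by_cases h5 : c0 = 0 ∨ c0 = m.val
    · refine ⟨.ww z m g, {0, m.val}, false, rfl, ?_, Or.inl (Or.inl rfl)⟩
      intro h6
      exact absurd (h6.1 h5) (by simp)
    · rw [not_or] at h5
      refine ⟨.ss z ⟨c0, by omega⟩ g, {c0}, false, rfl, ?_, Or.inr ⟨_, ⟨⟨c0, by omega⟩, h5.1, h5.2, h4, rfl⟩, rfl⟩⟩
      intro h6
      exact absurd (h6.1 (Set.mem_singleton _)) (by simp)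

end Pool.Agent.H79.CQ
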