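import Pool.Agent.H79.CQ.Vex
import Pool.Agent.H79.CQ.Blk

/-!
# Vertices: the number of the items of one vertex and one number

* `vert_norep`: all items of the group have the vertex `q` (`vx`), so they are false (`it_rep` or `it_rep'`): `zero`.
* `vert_ww`: assume `⟨.ww …, false⟩`. Cut on `rep q`: false: `vert_norep`. True: `searchS` with the set of all
  `⟨.vG k q u z y0, true⟩`. For `y0`: for every `y'`: from `ra y'`: `vB y' y'` (`ra_B`), `g1` (with `vX` false): `vG k q u z y'`;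
  `ex1` with `vert_ex`, `vert_un`; `block`. All false: `vert_off`, `zero`.
* `vert_one`: assume `⟨.ss …, false⟩`. `search_ra` at `z`: `y1` with `ra y1`, `vB y1 z`; `b_symm`: `vB z y1`. `g3`: `vG k q u z z`.
  `vert_item` with `y0 = z`, `y' = y1`: an item `x0` of the group with `x0.y' = y1`, true. Every other item `x` of the
  group is false: assume it is true: `it_M`, `m3`: `vG k q u z x.y'`; `g2`: `vB x.y' z`; `b_trans`: `vB x.y' y1`; so `x.y' = y1`
  or `ra_uniq`; then `vert_un`. `one`.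
-/

set_option autoImplicit false
set_option linter.unusedSectionVars false
set_option linter.unusedVariables false

namespace Pool.Agent.H79.CQ

open Pool.Agent.H42.CS (Pt Ed Sq un inB isE isS Slot off ed sq Ax Atom Lit Gate Circuit Step
  Refutation Der Pn Dn bs)

section private_rules

variable {d n l : ℕ} {Γ : Set (Lit (Nd d n))}

private theorem v_m3 {σ : Slot d} {k : Fin (2 * d)} {q z y y' : Fin n} {u : Sym2 (Slot d) → Fin n}
    (h : DD l Γ ⟨.vM σ k q u z y y', true⟩) : DD (l + 3) Γ ⟨.vG k q u z y', true⟩ := by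
  refine dn_ins q.pos (Ins.m3 σ k q u z y y') (x0 := (aG k q u z y', true)) rfl ?_
  rintro x (rfl | rfl) hx
  · exact ⟨.vM σ k q u z y y', rfl, h⟩
  · exact absurd rfl hx

private theorem v_g1 {k : Fin (2 * d)} {q z y y' : Fin n} {u : Sym2 (Slot d) → Fin n}
    (h : DD l Γ ⟨.vG k q u z y, true⟩) (hX : DD l Γ ⟨.vX k q u z, false⟩) (hB : DD l Γ ⟨.vB y' y', true⟩) :
    DD (l + 3) Γ ⟨.vG k q u z y', true⟩ := by
  refine dn_ins q.pos (Ins.g1 k q u z y y') (x0 := (aG k q u z y', true)) rfl ?_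
  rintro x (rfl | rfl | rfl | rfl) hx
  · exact ⟨.vG k q u z y, rfl, h⟩
  · exact ⟨.vX k q u z, rfl, hX⟩
  · exact ⟨.vB y' y', rfl, hB⟩
  · exact absurd rfl hx

private theorem v_g2 {k : Fin (2 * d)} {q z y : Fin n} {u : Sym2 (Slot d) → Fin n}
    (h : DD l Γ ⟨.vG k q u z y, true⟩) (hX : DD l Γ ⟨.vX k q u z, true⟩) :
    DD (l + 3) Γ ⟨.vB y z, true⟩ := by
  refine dn_ins q.pos (Ins.g2 k q u z y) (x0 := (aB y z, true)) rfl ?_
  rintro x (rfl | rfl | rfl) hx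
  · exact ⟨.vG k q u z y, rfl, h⟩
  · exact ⟨.vX k q u z, rfl, hX⟩
  · exact absurd rfl hx

private theorem v_g3 {k : Fin (2 * d)} {q z : Fin n} {u : Sym2 (Slot d) → Fin n}
    (hX : DD l Γ ⟨.vX k q u z, true⟩) : DD (l + 3) Γ ⟨.vG k q u z z, true⟩ := by
  refine dn_ins q.pos (Ins.g3 k q u z) (x0 := (aG k q u z z, true)) rfl ?_
  rintro x (rfl | rfl) hx
  · exact ⟨.vX k q u z, rfl, hX⟩
  · exact absurd rfl hx

end private_rules

theorem vert_norep (d : ℕ) : ∃ K : ℕ, ∀ (n l : ℕ) (Γ : Set (Lit (Nd d n))) (z q : Fin n)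
    (k : Fin (2 * d)) (m : Fin (n + 1)), DD l Γ ⟨.rep q, false⟩ →
    DD (l + K) Γ ⟨.ww z m (.vert q k), true⟩ := by
  obtain ⟨K, hK⟩ := zero d
  refine ⟨K + 10, fun n l Γ z q k m h => ?_⟩
  refine (hK n (l + 5) Γ z (.vert q k) m fun x hx => ?_).le (by omega)
  have hx' : gr false x = .vert q k := hx
  have hs : Γ ⊆ insert ⟨.it z x, true⟩ Γ := Set.subset_insert _ _
  have hi : DD (l + 1) (insert ⟨.it z x, true⟩ Γ) ⟨.it z x, true⟩ := Dn.mem (Or.inl rfl)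
  have hr : DD (l + 4) (insert ⟨.it z x, true⟩ Γ) ⟨.rep q, true⟩ := by
    have hq : x.vx = q := by
      injection hx'
    unfold Itm.vx at hq
    cases hb : x.b
    · rw [hb, if_neg (by simp)] at hq
      rw [← hq]
      exact it_rep' hi
    · rw [hb, if_pos rfl] at hq
      rw [← hq]
      exact it_rep hi
  exact Dn.contra (l := l + 4) hr (h.mono hs (by omega))

theorem vert_ww (d : ℕ) : ∃ K : ℕ, ∀ (n l : ℕ) (Γ : Set (Lit (Nd d n))) (z q : Fin n)
    (k : Fin (2 * d)) (u : Sym2 (Slot d) → Fin n) (m m' : Fin (n + 1)), m.val + m'.val = n →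
    DD l Γ ⟨.nr m', true⟩ → Lab q u ⊆ Γ → DD l Γ ⟨.vX k q u z, false⟩ →
    DD (l + K) Γ ⟨.ww z m (.vert q k), true⟩ := by
  obtain ⟨K1, h1⟩ := vert_norep d
  obtain ⟨K3, h3⟩ := ex1 d
  obtain ⟨K4, h4⟩ := vert_ex d
  obtain ⟨K5, h5⟩ := vert_un d
  obtain ⟨K6, h6⟩ := block d
  obtain ⟨K7, h7⟩ := vert_off d
  obtain ⟨K8, h8⟩ := zero d
  refine ⟨K1 + K3 + K4 + K5 + K6 + K7 + K8 + 50, fun n l Γ z q k u m m' hm hnr hu hX => ?_⟩
  refine (Dn.cases (l := l + K1 + K3 + K4 + K5 + K6 + K7 + K8 + 40) (⟨.rep q, true⟩ : Lit (Nd d n)) ?_ ?_).le (by omega)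
  · -- `rep q` is true
    obtain ⟨Γ3, hΓ3⟩ : ∃ Γ3 : Set (Lit (Nd d n)),
      Γ3 = insert (⟨.ww z m (.vert q k), false⟩ : Lit (Nd d n)) (insert ⟨.rep q, true⟩ Γ) := ⟨_, rfl⟩
    have hs3 : Γ ⊆ Γ3 := by
      rw [hΓ3]
      exact (Set.subset_insert _ _).trans (Set.subset_insert _ _)
    have hrep3 : (⟨.rep q, true⟩ : Lit (Nd d n)) ∈ Γ3 := by
      rw [hΓ3]
      exact Or.inr (Or.inl rfl)
    have hW3 : (⟨.ww z m (.vert q k), false⟩ : Lit (Nd d n)) ∈ Γ3 := by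
      rw [hΓ3]
      exact Or.inl rfl
    have goal : PP (l + K3 + K4 + K5 + K6 + K7 + K8 + 30 + 2) Γ3 := by
      refine searchS (S := {w | ∃ y0, w = ⟨.vG k q u z y0, true⟩}) ?_ ?_
      · rintro _ ⟨y0, rfl⟩
        obtain ⟨Γ4, hΓ4⟩ : ∃ Γ4 : Set (Lit (Nd d n)), Γ4 = insert ⟨.vG k q u z y0, true⟩ Γ3 := ⟨_, rfl⟩
        have hs4 : Γ3 ⊆ Γ4 := by
          rw [hΓ4]
          exact Set.subset_insert _ _
        have hG4 : (⟨.vG k q u z y0, true⟩ : Lit (Nd d n)) ∈ Γ4 := by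
          rw [hΓ4]
          exact Or.inl rfl
        rw [← hΓ4]
        have hsΓ := hs3.trans hs4
        have hee : ∀ y : Fin n, DD (l + K3 + K4 + K5 + 20) Γ4 ⟨.ee z (.vert q k) y, true⟩ := by
          intro y
          refine (h3 n (l + K4 + K5 + 20) Γ4 z (.vert q k) y ?_ ?_).le (by omega)
          · refine (h4 n (l + 10) Γ4 z q k u y (hu.trans hsΓ) (Dn.mem (hs4 hrep3)) ?_).le (by omega)
            have e1 : DD (l + 4) (insert ⟨.ra y, true⟩ Γ4) ⟨.vB y y, true⟩ :=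
              ra_B (l := l + 1) (Dn.mem (Or.inl rfl))
            exact (v_g1 (l := l + 4) (Dn.mem (Or.inr hG4))
              (hX.mono (hsΓ.trans (Set.subset_insert _ _)) (by omega)) e1).le (by omega)
          · intro w hw w' hw' hne
            exact (h5 n (l + 10) Γ4 z q k u y (hu.trans hsΓ) w hw w' hw' hne).le (by omega)
        have hww := h6 n (l + K3 + K4 + K5 + 20) Γ4 z (.vert q k) m m' hm hee (hnr.mono hsΓ (by omega))
        exact (Dn.contra hww (Dn.mem (hs4 hW3))).le (by omega)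
      · obtain ⟨Γ5, hΓ5⟩ : ∃ Γ5 : Set (Lit (Nd d n)),
          Γ5 = Γ3 ∪ Lit.neg '' {w | ∃ y0, w = ⟨.vG k q u z y0, true⟩} := ⟨_, rfl⟩
        have hs5 : Γ3 ⊆ Γ5 := by
          rw [hΓ5]
          exact Set.subset_union_left
        have hG5 : ∀ y0, (⟨.vG k q u z y0, false⟩ : Lit (Nd d n)) ∈ Γ5 := by
          intro y0
          rw [hΓ5]
          exact Or.inr ⟨⟨.vG k q u z y0, true⟩, ⟨y0, rfl⟩, rfl⟩
        rw [← hΓ5]
        have hoff := h7 n (l + 5) Γ5 z q k u (hu.trans (hs3.trans hs5)) fun y' => Dn.mem (hG5 y')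
        have hww := h8 n (l + 5 + K7) Γ5 z (.vert q k) m fun x hx => hoff x hx
        exact (Dn.contra hww (Dn.mem (hs5 hW3))).le (by omega)
    have goal' : DD (l + K3 + K4 + K5 + K6 + K7 + K8 + 30 + 2) (insert (⟨.rep q, true⟩ : Lit (Nd d n)) Γ)
        ⟨.ww z m (.vert q k), true⟩ := by
      rw [hΓ3] at goal
      exact goal
    exact goal'.le (by omega)
  · exact (h1 n (l + 5) _ z q k m (Dn.mem (Or.inl rfl))).le (by omega)

theorem vert_one (d : ℕ) : ∃ K : ℕ, ∀ (n l : ℕ) (Γ : Set (Lit (Nd d n))) (z q : Fin n)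
    (k : Fin (2 * d)) (u : Sym2 (Slot d) → Fin n) (c : Cn d n), c.val = 1 → Lab q u ⊆ Γ →
    DD l Γ ⟨.rep q, true⟩ → DD l Γ ⟨.vB z z, true⟩ → DD l Γ ⟨.vX k q u z, true⟩ →
    DD (l + K) Γ ⟨.ss z c (.vert q k), true⟩ := by
  obtain ⟨K1, h1⟩ := search_ra d
  obtain ⟨K2, h2⟩ := vert_item d
  obtain ⟨K3, h3⟩ := one d
  obtain ⟨K4, h4⟩ := vert_un d
  refine ⟨K1 + K2 + K3 + K4 + 200, fun n l Γ z q k u c hc hu hrep hBz hX => ?_⟩
  obtain ⟨Γ1, hΓ1⟩ : ∃ Γ1 : Set (Lit (Nd d n)),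
    Γ1 = insert (⟨.ss z c (.vert q k), false⟩ : Lit (Nd d n)) Γ := ⟨_, rfl⟩
  have hs1 : Γ ⊆ Γ1 := by
    rw [hΓ1]
    exact Set.subset_insert _ _
  have hS1 : (⟨.ss z c (.vert q k), false⟩ : Lit (Nd d n)) ∈ Γ1 := by
    rw [hΓ1]
    exact Or.inl rfl
  have goal : PP (l + K2 + K3 + K4 + 180 + K1) Γ1 := by
    refine h1 n (l + K2 + K3 + K4 + 180) Γ1 z (hBz.mono hs1 (by omega)) fun y1 => ?_
    obtain ⟨Γ2, hΓ2⟩ : ∃ Γ2 : Set (Lit (Nd d n)), Γ2 = Γ1 ∪ {⟨.ra y1, true⟩, ⟨.vB y1 z, true⟩} := ⟨_, rfl⟩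
    have hs2 : Γ1 ⊆ Γ2 := by
      rw [hΓ2]
      exact Set.subset_union_left
    have hra2 : (⟨.ra y1, true⟩ : Lit (Nd d n)) ∈ Γ2 := by
      rw [hΓ2]
      exact Or.inr (Or.inl rfl)
    have hB2 : (⟨.vB y1 z, true⟩ : Lit (Nd d n)) ∈ Γ2 := by
      rw [hΓ2]
      exact Or.inr (Or.inr rfl)
    rw [← hΓ2]
    have hsΓ := hs1.trans hs2
    have hzy : DD (l + 4) Γ2 ⟨.vB z y1, true⟩ := b_symm (l := l + 1) (Dn.mem hB2)
    have hX2 : DD (l + 1) Γ2 ⟨.vX k q u z, true⟩ := hX.mono hsΓ (by omega)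
    have hGz : DD (l + 4) Γ2 ⟨.vG k q u z z, true⟩ := v_g3 hX2
    refine (h2 n (l + K3 + K4 + 170) Γ2 z q k u y1 z (hu.trans hsΓ) (hrep.mono hsΓ (by omega)) (Dn.mem hra2)
      (hGz.le (by omega)) (hzy.le (by omega)) fun x0 hx0 hy0 => ?_).le (by omega)
    obtain ⟨Γ3, hΓ3⟩ : ∃ Γ3 : Set (Lit (Nd d n)), Γ3 = insert ⟨.it z x0, true⟩ Γ2 := ⟨_, rfl⟩
    have hs3 : Γ2 ⊆ Γ3 := by
      rw [hΓ3]
      exact Set.subset_insert _ _
    have hi3 : (⟨.it z x0, true⟩ : Lit (Nd d n)) ∈ Γ3 := by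
      rw [hΓ3]
      exact Or.inl rfl
    rw [← hΓ3]
    have hone := h3 n (l + K4 + 150) Γ3 z (.vert q k) c x0 hc hx0 (Dn.mem hi3) (fun x hx hne => by
      have hx' : gr false x = .vert q k := hx
      have hx1 : x.vx = q := by
        injection hx'
      have hx2 : x.k = k := by
        injection hx'
      obtain ⟨Γ4, hΓ4⟩ : ∃ Γ4 : Set (Lit (Nd d n)), Γ4 = insert ⟨.it z x, true⟩ Γ3 := ⟨_, rfl⟩
      have hs4 : Γ3 ⊆ Γ4 := by
        rw [hΓ4]
        exact Set.subset_insert _ _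
      have hi4 : (⟨.it z x, true⟩ : Lit (Nd d n)) ∈ Γ4 := by
        rw [hΓ4]
        exact Or.inl rfl
      have hs24 := hs3.trans hs4
      have goal4 : PP (l + K4 + 150) Γ4 := by
        by_cases hy : x.y' = y1
        · have e1 : (lt z (.inl x) : Lit (Nd d n)) ∈ Γ4 := hi4
          have e2 : (lt z (.inl x0) : Lit (Nd d n)) ∈ Γ4 := hs4 hi3
          have e3 := h4 n (l + 1) Γ4 z q k u y1 (hu.trans (hsΓ.trans hs24)) (.inl x)
            (Or.inl ⟨x, rfl, hx', hy⟩) (.inl x0) (Or.inl ⟨x0, rfl, hx0, hy0⟩) (fun h => hne (by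
              injection h))
          have e4 : Γ4 ∪ {lt z (.inl x), lt z (.inl x0)} = Γ4 := by
            refine Set.union_eq_self_of_subset_right ?_
            rintro w (rfl | rfl)
            · exact e1
            · exact e2
          rw [e4] at e3
          exact e3.le (by omega)
        · have hit : DD (l + 1) Γ4 ⟨.it z x, true⟩ := Dn.mem hi4
          have hM := it_M (u := u) (by rw [hx1]; exact hu.trans (hsΓ.trans hs24)) hit
          rw [hx1, hx2] at hM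
          have hG := v_m3 hM
          have hB := v_g2 hG (hX2.mono hs24 (by omega))
          have hB' := b_trans hB (hzy.mono hs24 (by omega))
          exact (ra_uniq (l := l + 60) ((it_ra' hit).le (by omega)) (Dn.mem (hs24 hra2)) (hB'.le (by omega))
            hy).le (by omega)
      rw [hΓ4] at goal4
      exact goal4)
    exact (Dn.contra hone (Dn.mem (hs3 (hs2 hS1)))).le (by omega)
  have goal' : DD (l + K2 + K3 + K4 + 180 + K1) Γ ⟨.ss z c (.vert q k), true⟩ := by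
    rw [hΓ1] at goal
    exact goal
  exact goal'.le (by omega)

end Pool.Agent.H79.CQ
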