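import Pool.Agent.H79.CQ.Pun
import Pool.Agent.H79.CQ.Vun
import Pool.Agent.H79.CQ.Glb

/-!
# The short refutation

* `asm_z`: clause `z1` and `searchS`: `q2` with `vZ q2`; `search_rep`: `q` with `rep q`, `vE q q2`; `e_symm`, `z_inv`: `vZ q`;
  `search_lab` at `q`: `u`; clause `g6` (the `vF τ q (u τ)` are assumptions) and `searchS`: `k` with `vX k q u z`. Then `glb`
  with `g0 = .vert q k`, `c.val = 1` (`1 < NI d n + n + 1` as `0 < n`): `vert_one`; the pairs: `pair_ww`; `.vert q' k'` with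
  `(q', k') ≠ (q, k)`: assume `⟨.ww z m (.vert q' k'), false⟩` and `search_lab` at `q'`: `u'`; `vX k' q' u' z` is false: assume it
  is true; if `q' = q` then `u' = u` (`lab_uniq`) and `k' ≠ k`: `g4`; if `q' ≠ q`: cut on `rep q'`; false:
  `vert_norep`; true: `g5`: `vZ q'`, `z_uni`, `rep_uniq`. Then `vert_ww`.
* `two_blocks`: clause `b4` for `z` and `searchS`: `y` with `vD z y`; `b5`: `vB y y`; `search_ra` at `z` and at `y`: `y1`, `y2` with
  `ra y1`, `vB y1 z`, `ra y2`, `vB y2 y`. If `y1 = y2`: `vB z y1`, `vB y1 y`, so `vB z y`, contradiction with `b6`. If `y1 ≠ y2`: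
  `⟨.u1 y1 false (.inr y1), true⟩` and `⟨.u1 y1 false (.inr y2), true⟩` (`Pn.unit`, the literal `⟨.ra _, false⟩` is false),
  `⟨.le1 y0, true⟩` (`Pn.cover` on a singleton), `⟨.pl y1 y2, true⟩` (`Dn.andT`), `⟨.lt2, true⟩` (`Pn.sum`: the sets are the
  singletons `{⟨.ra y0, false⟩}`; the sum of numbers of which two are `0` and the others at most `1` is at most
  `n - 2`), and with `⟨.nr m', true⟩`, `n ≤ m' + 1`: `Pn.cover` with `NA`.
* `refuted`: clause `b1` and `searchS`: `z` with `vB z z`; `searchS` with the set of all `⟨.nr m', true⟩` (all false: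
  `Pn.cover` with `NA`, `NA.ncard ≤ n`); for `m'`: `two_blocks` if `n ≤ m' + 1`, otherwise `asm_z` with `m = n - m' ≥ 2`.
* `upper`: as in `H42/CS/Upa` (`to_refutation`, `Nd_card`, `rk_le`).
-/

set_option autoImplicit false
set_option linter.unusedSectionVars false
set_option linter.unusedVariables false

namespace Pool.Agent.H79.CQ

open Pool.Agent.H42.CS (Pt Ed Sq un inB isE isS Slot off ed sq Ax Atom Lit Gate Circuit Step
  Refutation Der Pn Dn bs)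

/-- Least labels at `q`, for derivations. -/
private theorem dd_lab (d : ℕ) : ∃ K : ℕ, ∀ (n l : ℕ) (Γ : Set (Lit (Nd d n))) (q : Fin n) (x : Lit (Nd d n)),
    (∀ u : Sym2 (Slot d) → Fin n, DD l (Γ ∪ Lab q u) x) → DD (l + K) Γ x := by
  obtain ⟨K, hK⟩ := search_lab d
  refine ⟨K, fun n l Γ q x h => hK n l _ q fun u => ?_⟩
  rw [Set.insert_union]
  exact h u

/-- The groups of the vertices which are not the group of the exceptional element. -/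
private theorem oth (d : ℕ) : ∃ K : ℕ, ∀ (n l : ℕ) (Γ : Set (Lit (Nd d n))) (z q : Fin n) (k : Fin (2 * d))
    (u : Sym2 (Slot d) → Fin n) (m m' : Fin (n + 1)) (q' : Fin n) (k' : Fin (2 * d)), m.val + m'.val = n →
    DD l Γ ⟨.nr m', true⟩ → Lab q u ⊆ Γ → DD l Γ ⟨.rep q, true⟩ → DD l Γ ⟨.vZ q, true⟩ →
    DD l Γ ⟨.vX k q u z, true⟩ → (q', k') ≠ (q, k) → DD (l + K) Γ ⟨.ww z m (.vert q' k'), true⟩ := by
  obtain ⟨K1, hK1⟩ := dd_lab d
  obtain ⟨K2, hK2⟩ := vert_ww d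
  obtain ⟨K3, hK3⟩ := vert_norep d
  refine ⟨K1 + K2 + K3 + 40, fun n l Γ z q k u m m' q' k' hmm hnr hu hr hZ hX hne => ?_⟩
  by_cases hq : q' = q
  · subst hq
    have hk : k ≠ k' := fun h => hne (by rw [h])
    refine (hK1 n (l + 20 + K2) Γ q' _ fun u' => ?_).le (by omega)
    have hs : Γ ⊆ Γ ∪ Lab q' u' := Set.subset_union_left
    refine (hK2 n (l + 20) _ z q' k' u' m m' hmm (hnr.mono hs (by omega)) Set.subset_union_right ?_).le (by omega)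
    have hs2 : Γ ⊆ insert ⟨.vX k' q' u' z, true⟩ (Γ ∪ Lab q' u') := hs.trans (Set.subset_insert _ _)
    show PP (l + 20) (insert ⟨.vX k' q' u' z, true⟩ (Γ ∪ Lab q' u'))
    by_cases huu : u = u'
    · subst huu
      refine (pn_ins (l := l + 1) q'.pos (Ins.g4 k k' hk q' u z) ?_).le (by omega)
      rintro x (rfl | rfl)
      · exact ⟨.vX k q' u z, rfl, hX.mono hs2 (by omega)⟩
      · exact ⟨.vX k' q' u z, rfl, Dn.mem (Or.inl rfl)⟩
    · exact lab_uniq (u := u) (u' := u') (hu.trans hs2)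
        (Set.subset_union_right.trans (Set.subset_insert _ _)) huu
  · refine Dn.le (l := l + 30 + K1 + K2 + K3 + 1) (Dn.cases (C := CC d n) ⟨.rep q', true⟩ ?_ ?_) (by omega)
    · refine (hK1 n (l + 26 + K2) _ q' _ fun u' => ?_).le (by omega)
      have hs1 : Γ ⊆ insert ⟨.rep q', true⟩ Γ := Set.subset_insert _ _
      have hs : Γ ⊆ insert ⟨.rep q', true⟩ Γ ∪ Lab q' u' := hs1.trans Set.subset_union_left
      refine (hK2 n (l + 26) _ z q' k' u' m m' hmm (hnr.mono hs (by omega)) Set.subset_union_right ?_).le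
        (by omega)
      have hs2 : Γ ⊆ insert ⟨.vX k' q' u' z, true⟩ (insert ⟨.rep q', true⟩ Γ ∪ Lab q' u') :=
        hs.trans (Set.subset_insert _ _)
      show PP (l + 26) (insert ⟨.vX k' q' u' z, true⟩ (insert ⟨.rep q', true⟩ Γ ∪ Lab q' u'))
      have hZ' : DD (l + 3) (insert ⟨.vX k' q' u' z, true⟩ (insert ⟨.rep q', true⟩ Γ ∪ Lab q' u'))
          ⟨.vZ q', true⟩ := by
        refine dn_ins q'.pos (Ins.g5 k' q' u' z) (x0 := (aZ q', true)) (a0 := .vZ q') rfl ?_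
        rintro x (rfl | rfl) hx
        · exact ⟨.vX k' q' u' z, rfl, Dn.mem (Or.inl rfl)⟩
        · exact absurd rfl hx
      have hE := z_uni hZ' (hZ.mono hs2 (by omega : l < l + 3))
      have hr' : DD (l + 6) (insert ⟨.vX k' q' u' z, true⟩ (insert ⟨.rep q', true⟩ Γ ∪ Lab q' u'))
          ⟨.rep q', true⟩ := Dn.mem (Or.inr (Or.inl (Or.inl rfl)))
      exact (rep_uniq (l := l + 6) hr' (hr.mono hs2 (by omega)) (hE.le (by omega)) hq).le (by omega)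
    · exact (hK3 n l _ z q' k' m (Dn.mem (Or.inl rfl))).le (by omega)

theorem asm_z (d : ℕ) : ∃ K : ℕ, ∀ (n l : ℕ) (Γ : Set (Lit (Nd d n))) (z : Fin n)
    (m m' : Fin (n + 1)), m.val + m'.val = n → 2 ≤ m.val → DD l Γ ⟨.vB z z, true⟩ →
    DD l Γ ⟨.nr m', true⟩ → PP (l + K) Γ := by
  obtain ⟨K1, hK1⟩ := search_rep d
  obtain ⟨K2, hK2⟩ := search_lab d
  obtain ⟨K3, hK3⟩ := glb d
  obtain ⟨K4, hK4⟩ := vert_one d
  obtain ⟨K5, hK5⟩ := pair_ww d
  obtain ⟨K6, hK6⟩ := oth d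
  refine ⟨K1 + K2 + K3 + K4 + K5 + K6 + 60, fun n l Γ z m m' hmm hm hB hnr => ?_⟩
  refine (searchS (l := l + K1 + K2 + K3 + K4 + K5 + K6 + 50) (S := {w | ∃ q2, w = ⟨.vZ q2, true⟩}) ?_ ?_).le
    (by omega)
  · rintro x ⟨q2, rfl⟩
    refine (hK1 n (l + K2 + K3 + K4 + K5 + K6 + 40) _ q2 fun q => ?_).le (by omega)
    refine (hK2 n (l + K3 + K4 + K5 + K6 + 30) _ q fun u => ?_).le (by omega)
    have hs1 : Γ ⊆ insert ⟨.vZ q2, true⟩ Γ := Set.subset_insert _ _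
    have hs2 : insert ⟨.vZ q2, true⟩ Γ ⊆ insert ⟨.vZ q2, true⟩ Γ ∪ {⟨.rep q, true⟩, ⟨.vE q q2, true⟩} :=
      Set.subset_union_left
    have hE : DD 3 (insert ⟨.vZ q2, true⟩ Γ ∪ {⟨.rep q, true⟩, ⟨.vE q q2, true⟩}) ⟨.vE q2 q, true⟩ :=
      e_symm (l := 0) (Dn.mem (Or.inr (Or.inr rfl)))
    have hZ : DD 6 (insert ⟨.vZ q2, true⟩ Γ ∪ {⟨.rep q, true⟩, ⟨.vE q q2, true⟩}) ⟨.vZ q, true⟩ :=
      z_inv (l := 3) (Dn.mem (Or.inl (Or.inl rfl))) hE
    have hr : DD 6 (insert ⟨.vZ q2, true⟩ Γ ∪ {⟨.rep q, true⟩, ⟨.vE q q2, true⟩}) ⟨.rep q, true⟩ :=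
      Dn.mem (Or.inr (Or.inl rfl))
    have hs := hs1.trans hs2
    have hB2 := hB.mono hs (Nat.lt_succ_self l)
    have hnr2 := hnr.mono hs (Nat.lt_succ_self l)
    generalize insert ⟨.vZ q2, true⟩ Γ ∪ {⟨.rep q, true⟩, ⟨.vE q q2, true⟩} = Γ2 at hZ hr hB2 hnr2 ⊢
    have hs3 : Γ2 ⊆ Γ2 ∪ Lab q u := Set.subset_union_left
    have hlab : Lab q u ⊆ Γ2 ∪ Lab q u := Set.subset_union_right
    have hB3 : DD (l + 8) (Γ2 ∪ Lab q u) ⟨.vB z z, true⟩ := hB2.mono hs3 (by omega)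
    have hnr3 : DD (l + 8) (Γ2 ∪ Lab q u) ⟨.nr m', true⟩ := hnr2.mono hs3 (by omega)
    have hZ3 : DD (l + 8) (Γ2 ∪ Lab q u) ⟨.vZ q, true⟩ := hZ.mono hs3 (by omega)
    have hr3 : DD (l + 8) (Γ2 ∪ Lab q u) ⟨.rep q, true⟩ := hr.mono hs3 (by omega)
    generalize Γ2 ∪ Lab q u = Γ3 at hlab hB3 hnr3 hZ3 hr3 ⊢
    refine (searchS (l := l + K3 + K4 + K5 + K6 + 20) (S := {w | ∃ k, w = ⟨.vX k q u z, true⟩}) ?_ ?_).le
      (by omega)
    · rintro x ⟨k, rfl⟩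
      have hs4 : Γ3 ⊆ insert ⟨.vX k q u z, true⟩ Γ3 := Set.subset_insert _ _
      have hX : DD (l + 9) (insert ⟨.vX k q u z, true⟩ Γ3) ⟨.vX k q u z, true⟩ := Dn.mem (Or.inl rfl)
      have hB4 : DD (l + 9) (insert ⟨.vX k q u z, true⟩ Γ3) ⟨.vB z z, true⟩ := hB3.mono hs4 (by omega)
      have hnr4 : DD (l + 9) (insert ⟨.vX k q u z, true⟩ Γ3) ⟨.nr m', true⟩ := hnr3.mono hs4 (by omega)
      have hZ4 : DD (l + 9) (insert ⟨.vX k q u z, true⟩ Γ3) ⟨.vZ q, true⟩ := hZ3.mono hs4 (by omega)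
      have hr4 : DD (l + 9) (insert ⟨.vX k q u z, true⟩ Γ3) ⟨.rep q, true⟩ := hr3.mono hs4 (by omega)
      have hl4 := hlab.trans hs4
      generalize insert ⟨.vX k q u z, true⟩ Γ3 = Γ4 at hX hB4 hnr4 hZ4 hr4 hl4 ⊢
      have hn := z.pos
      obtain ⟨c, hc⟩ : ∃ c : Cn d n, c.val = 1 := ⟨⟨1, by omega⟩, rfl⟩
      refine (hK3 n (l + 9 + K4 + K5 + K6) Γ4 z m c (.vert q k) hm hc rfl ?_ ?_).le (by omega)
      · exact (hK4 n (l + 9) Γ4 z q k u c hc hl4 hr4 hB4 hX).le (by omega)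
      · intro g hg
        cases g with
        | pair a p p' => exact (hK5 n (l + 9) Γ4 z a p p' m m' hmm hnr4).le (by omega)
        | vert q' k' =>
          exact (hK6 n (l + 9) Γ4 z q k u m m' q' k' hmm hnr4 hl4 hr4 hZ4 hX fun h => hg (by
            rw [(Prod.mk.inj h).1, (Prod.mk.inj h).2])).le (by omega)
    · have hs4 : Γ3 ⊆ Γ3 ∪ Lit.neg '' {w | ∃ k, w = ⟨.vX k q u z, true⟩} := Set.subset_union_left
      refine (pn_ins (l := l + 9) q.pos (Ins.g6 q u z) ?_).le (by omega)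
      rintro x ((⟨τ, rfl⟩ | rfl | rfl) | ⟨k, rfl⟩)
      · exact ⟨.vF τ q (u τ), rfl, Dn.mem (hs4 (hlab ⟨τ, Or.inl rfl⟩))⟩
      · exact ⟨.vZ q, rfl, hZ3.mono hs4 (by omega)⟩
      · exact ⟨.vB z z, rfl, hB3.mono hs4 (by omega)⟩
      · exact ⟨.vX k q u z, rfl, Dn.mem (Or.inr ⟨_, ⟨k, rfl⟩, rfl⟩)⟩
  · refine (pn_ins (l := 0) z.pos Ins.z1 ?_).le (by omega)
    rintro x ⟨y, rfl⟩
    exact ⟨.vZ y, rfl, Dn.mem (Or.inr ⟨_, ⟨y, rfl⟩, rfl⟩)⟩

private theorem ra_ne {n : ℕ} {d : ℕ} {y y' : Fin n}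
    (h : (⟨.ra y, false⟩ : Lit (Nd d n)) = ⟨.ra y', false⟩) : y = y' := by
  have h1 : (Nd.ra y : Nd d n) = Nd.ra y' := congrArg Lit.node h
  injection h1

/-- At least two representatives: the number of the others is at most `n - 2`. -/
private theorem two_lt {d n l : ℕ} {Γ : Set (Lit (Nd d n))} {y1 y2 : Fin n} (hne : y1 ≠ y2)
    (h1 : (⟨.ra y1, true⟩ : Lit (Nd d n)) ∈ Γ) (h2 : (⟨.ra y2, true⟩ : Lit (Nd d n)) ∈ Γ) :
    DD (l + 4) Γ ⟨.lt2, true⟩ := by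
  classical
  have hu : ∀ y0 : Fin n, (⟨.ra y0, true⟩ : Lit (Nd d n)) ∈ Γ → DD l Γ ⟨.u1 y1 false (.inr y0), true⟩ := by
    intro y0 h
    refine Pn.unit (C := CC d n) (a := .u1 y1 false (.inr y0)) (A := {0}) (x := ⟨.ra y0, false⟩) rfl
      (Or.inl rfl) (Or.inr ⟨rfl, Or.inr h⟩)
  have hle : ∀ y0 : Fin n, DD l Γ ⟨.le1 y0, true⟩ := by
    intro y0
    refine Pn.cover (C := CC d n) (S := {⟨.ra y0, false⟩}) fun c hc => ?_
    rw [Set.ncard_singleton] at hc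
    refine ⟨.le1 y0, {0, 1}, false, rfl, ?_, Or.inl rfl⟩
    intro h
    have h3 : c ∈ ({0, 1} : Set ℕ) := by
      rcases Nat.le_one_iff_eq_zero_or_eq_one.1 hc with h4 | h4
      · exact Or.inl h4
      · exact Or.inr h4
    exact absurd (h.1 h3) (by simp)
  have hpl : DD (l + 2) Γ ⟨.pl y1 y2, true⟩ := by
    refine Dn.andT (C := CC d n) (a := .pl y1 y2) rfl ?_
    rintro x ⟨y0, rfl⟩
    by_cases h3 : y0 = y1 ∨ y0 = y2
    · rw [if_pos h3]
      rcases h3 with h3 | h3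
      · rw [h3]
        exact hu y1 h1
      · rw [h3]
        exact hu y2 h2
    · rw [if_neg h3]
      exact hle y0
  refine Dn.use hpl ?_
  obtain ⟨f, hf⟩ : ∃ f : Fin n → Nd d n, f = fun y0 => if y0 = y1 ∨ y0 = y2 then .u1 y1 false (.inr y0) else .le1 y0 :=
    ⟨_, rfl⟩
  obtain ⟨nm, hnm⟩ : ∃ nm : Nd d n → Set (Lit (Nd d n)), nm = fun b => match b with
      | .u1 _ _ (.inr y0) => {⟨.ra y0, false⟩}
      | .le1 y0 => {⟨.ra y0, false⟩}
      | _ => ∅ := ⟨_, rfl⟩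
  obtain ⟨A, hA⟩ : ∃ A : Nd d n → Set ℕ, A = fun b => match b with
      | .u1 _ _ _ => {0}
      | _ => {0, 1} := ⟨_, rfl⟩
  have hfS : ∀ y0, nm (f y0) = {⟨.ra y0, false⟩} := by
    intro y0
    rw [hf, hnm]
    by_cases h3 : y0 = y1 ∨ y0 = y2
    · simp only [if_pos h3]
    · simp only [if_neg h3]
  have hfg : ∀ y0, gt (f y0) = .sym (A (f y0)) (nm (f y0)) := by
    intro y0
    rw [hf, hA, hnm]
    by_cases h3 : y0 = y1 ∨ y0 = y2
    · simp only [if_pos h3]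
      rfl
    · simp only [if_neg h3]
      rfl
  have hinj : Function.Injective f := by
    intro a b h
    have h3 := congrArg nm h
    rw [hfS, hfS] at h3
    exact ra_ne (Set.singleton_injective h3)
  refine Pn.sum (C := CC d n) (a := .lt2) (p := .pl y1 y2) (B := Set.range f) (A := A)
    (A' := {c | c + 2 ≤ n}) (S := nm) ?_ ?_ ?_ ?_ ?_ (Or.inr (Or.inl rfl)) (Or.inl rfl)
  · rintro _ ⟨y0, rfl⟩
    exact hfg y0
  · rintro _ ⟨a, rfl⟩ _ ⟨b, rfl⟩ hab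
    show Disjoint (nm (f a)) (nm (f b))
    rw [hfS, hfS, Set.disjoint_singleton]
    intro h
    exact hab (by rw [ra_ne h])
  · refine congrArg Gate.and ?_
    ext x
    constructor
    · rintro ⟨y0, rfl⟩
      refine ⟨f y0, ⟨y0, rfl⟩, ?_⟩
      rw [hf]
      by_cases h3 : y0 = y1 ∨ y0 = y2
      · simp only [if_pos h3]
      · simp only [if_neg h3]
    · rintro ⟨_, ⟨y0, rfl⟩, rfl⟩
      refine ⟨y0, ?_⟩
      rw [hf]
      by_cases h3 : y0 = y1 ∨ y0 = y2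
      · simp only [if_pos h3]
      · simp only [if_neg h3]
  · refine congrArg (Gate.sym {c | c + 2 ≤ n}) ?_
    ext x
    simp only [Set.mem_iUnion, Set.mem_range, exists_prop]
    constructor
    · rintro ⟨y0, rfl⟩
      exact ⟨f y0, ⟨y0, rfl⟩, by rw [hfS]; exact rfl⟩
    · rintro ⟨_, ⟨y0, rfl⟩, hx⟩
      rw [hfS] at hx
      exact ⟨y0, hx⟩
  · intro c hc
    rw [finsum_mem_range hinj, finsum_eq_sum_of_fintype]
    have hA0 : ∀ y0, (y0 = y1 ∨ y0 = y2) → c (f y0) = 0 := by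
      intro y0 h3
      have h4 := hc (f y0) ⟨y0, rfl⟩
      have h5 : A (f y0) = {0} := by
        rw [hA, hf]
        simp only [if_pos h3]
      rw [h5] at h4
      exact h4
    have hA1 : ∀ y0, c (f y0) ≤ 1 := by
      intro y0
      have h4 := hc (f y0) ⟨y0, rfl⟩
      by_cases h3 : y0 = y1 ∨ y0 = y2
      · rw [hA0 y0 h3]
        omega
      · have h5 : A (f y0) = {0, 1} := by
          rw [hA, hf]
          simp only [if_neg h3]
        rw [h5] at h4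
        rcases h4 with h4 | h4
        · rw [h4]
          omega
        · have h6 : c (f y0) = 1 := h4
          omega
    have h6 : ∑ y0 : Fin n, (c (f y0) + (if y0 = y1 then 1 else 0) + (if y0 = y2 then 1 else 0)) ≤
        ∑ _y0 : Fin n, 1 := by
      refine Finset.sum_le_sum fun y0 _ => ?_
      by_cases h3 : y0 = y1
      · have h4 : y0 ≠ y2 := fun h => hne (by rw [← h3, h])
        rw [if_pos h3, if_neg h4, hA0 y0 (Or.inl h3)]
      · by_cases h4 : y0 = y2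
        · rw [if_neg h3, if_pos h4, hA0 y0 (Or.inr h4)]
        · rw [if_neg h3, if_neg h4]
          exact hA1 y0
    rw [Finset.sum_add_distrib, Finset.sum_add_distrib, Finset.sum_ite_eq', Finset.sum_ite_eq',
      if_pos (Finset.mem_univ _), if_pos (Finset.mem_univ _), Finset.sum_const, Finset.card_univ,
      Fintype.card_fin, smul_eq_mul, mul_one] at h6
    exact h6

theorem two_blocks (d : ℕ) : ∃ K : ℕ, ∀ (n l : ℕ) (Γ : Set (Lit (Nd d n))) (z : Fin n)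
    (m' : Fin (n + 1)), n ≤ m'.val + 1 → DD l Γ ⟨.vB z z, true⟩ → DD l Γ ⟨.nr m', true⟩ →
    PP (l + K) Γ := by
  obtain ⟨K1, hK1⟩ := search_ra d
  refine ⟨K1 + K1 + 60, fun n l Γ z m' hm hB hnr => ?_⟩
  refine (searchS (l := l + K1 + K1 + 50) (S := {w | ∃ y, w = ⟨.vD z y, true⟩}) ?_ ?_).le (by omega)
  · rintro x ⟨y, rfl⟩
    have hs1 : Γ ⊆ insert ⟨.vD z y, true⟩ Γ := Set.subset_insert _ _
    have hB1 : DD (l + 3) (insert ⟨.vD z y, true⟩ Γ) ⟨.vB z z, true⟩ := hB.mono hs1 (by omega)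
    have hnr1 : DD (l + 3) (insert ⟨.vD z y, true⟩ Γ) ⟨.nr m', true⟩ := hnr.mono hs1 (by omega)
    have hD1 : DD (l + 3) (insert ⟨.vD z y, true⟩ Γ) ⟨.vD z y, true⟩ := Dn.mem (Or.inl rfl)
    have hB1' : DD (l + 3) (insert ⟨.vD z y, true⟩ Γ) ⟨.vB y y, true⟩ := by
      refine dn_ins z.pos (Ins.b5 z y) (x0 := (aB y y, true)) (a0 := .vB y y) rfl ?_
      rintro x (rfl | rfl) hx
      · exact ⟨.vD z y, rfl, Dn.mem (Or.inl rfl)⟩
      · exact absurd rfl hx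
    generalize insert ⟨.vD z y, true⟩ Γ = Γ1 at hB1 hnr1 hD1 hB1' ⊢
    refine (hK1 n (l + K1 + 40) Γ1 z (hB1.le (by omega)) fun y1 => ?_).le (by omega)
    have hs2 : Γ1 ⊆ Γ1 ∪ {⟨.ra y1, true⟩, ⟨.vB y1 z, true⟩} := Set.subset_union_left
    refine (hK1 n (l + 30) _ y (hB1'.mono hs2 (by omega)) fun y2 => ?_).le (by omega)
    have hs3 : Γ1 ∪ {⟨.ra y1, true⟩, ⟨.vB y1 z, true⟩} ⊆ Γ1 ∪ {⟨.ra y1, true⟩, ⟨.vB y1 z, true⟩} ∪
        {⟨.ra y2, true⟩, ⟨.vB y2 y, true⟩} := Set.subset_union_left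
    have hs := hs2.trans hs3
    have hnr2 := hnr1.mono hs (by omega : l + 3 < l + 10)
    have hD2 := hD1.mono hs (by omega : l + 3 < l + 10)
    have h1 : (⟨.ra y1, true⟩ : Lit (Nd d n)) ∈ Γ1 ∪ {⟨.ra y1, true⟩, ⟨.vB y1 z, true⟩} ∪
        {⟨.ra y2, true⟩, ⟨.vB y2 y, true⟩} := Or.inl (Or.inr (Or.inl rfl))
    have h1' : (⟨.vB y1 z, true⟩ : Lit (Nd d n)) ∈ Γ1 ∪ {⟨.ra y1, true⟩, ⟨.vB y1 z, true⟩} ∪
        {⟨.ra y2, true⟩, ⟨.vB y2 y, true⟩} := Or.inl (Or.inr (Or.inr rfl))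
    have h2 : (⟨.ra y2, true⟩ : Lit (Nd d n)) ∈ Γ1 ∪ {⟨.ra y1, true⟩, ⟨.vB y1 z, true⟩} ∪
        {⟨.ra y2, true⟩, ⟨.vB y2 y, true⟩} := Or.inr (Or.inl rfl)
    have h2' : (⟨.vB y2 y, true⟩ : Lit (Nd d n)) ∈ Γ1 ∪ {⟨.ra y1, true⟩, ⟨.vB y1 z, true⟩} ∪
        {⟨.ra y2, true⟩, ⟨.vB y2 y, true⟩} := Or.inr (Or.inr rfl)
    generalize Γ1 ∪ {⟨.ra y1, true⟩, ⟨.vB y1 z, true⟩} ∪ {⟨.ra y2, true⟩, ⟨.vB y2 y, true⟩} = Γ3
      at hnr2 hD2 h1 h1' h2 h2' ⊢
    by_cases hne : y1 = y2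
    · rw [← hne] at h2'
      have h3 : DD (l + 3) Γ3 ⟨.vB z y1, true⟩ := b_symm (l := l) (Dn.mem h1')
      have h4 : DD (l + 6) Γ3 ⟨.vB z y, true⟩ := b_trans (l := l + 3) h3 (Dn.mem h2')
      refine (pn_ins (l := l + 10) z.pos (Ins.b6 z y) ?_).le (by omega)
      rintro x (rfl | rfl)
      · exact ⟨.vD z y, rfl, hD2⟩
      · exact ⟨.vB z y, rfl, h4.le (by omega)⟩
    · have h3 : DD (l + 10) Γ3 ⟨.lt2, true⟩ := (two_lt (l := l) hne h1 h2).le (by omega)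
      refine Pn.le (l := l + 12 + 1) (Pn.use (l := l + 12) (h3.le (by omega)) ?_) (by omega)
      refine Pn.le (l := l + 11 + 1) (Pn.use (l := l + 11)
        (hnr2.mono (Set.subset_insert _ _) (by omega)) ?_) (by omega)
      refine Pn.cover (C := CC d n) (S := NA) fun c _ => ?_
      by_cases hc : c = m'.val
      · refine ⟨.lt2, {c | c + 2 ≤ n}, true, rfl, ?_, Or.inr (Or.inl rfl)⟩
        intro h
        have h5 : c + 2 ≤ n := h.2 rfl
        omega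
      · refine ⟨.nr m', {m'.val}, true, rfl, ?_, Or.inl rfl⟩
        intro h
        exact hc (h.2 rfl)
  · have hs1 : Γ ⊆ Γ ∪ Lit.neg '' {w | ∃ y, w = ⟨.vD z y, true⟩} := Set.subset_union_left
    refine (pn_ins (l := l + 1) z.pos (Ins.b4 z) ?_).le (by omega)
    rintro x (rfl | ⟨y, rfl⟩)
    · exact ⟨.vB z z, rfl, hB.mono hs1 (by omega)⟩
    · exact ⟨.vD z y, rfl, Dn.mem (Or.inr ⟨_, ⟨y, rfl⟩, rfl⟩)⟩

theorem refuted (d : ℕ) : ∃ K : ℕ, ∀ n : ℕ, 0 < n → PP K (∅ : Set (Lit (Nd d n))) := by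
  obtain ⟨K1, hK1⟩ := asm_z d
  obtain ⟨K2, hK2⟩ := two_blocks d
  refine ⟨K1 + K2 + 20, fun n hn => ?_⟩
  refine (searchS (l := K1 + K2 + 10) (S := {w | ∃ z, w = ⟨.vB z z, true⟩}) ?_ ?_).le (by omega)
  · rintro x ⟨z, rfl⟩
    refine (searchS (l := K1 + K2 + 5) (S := {w | ∃ m' : Fin (n + 1), w = ⟨.nr m', true⟩}) ?_ ?_).le (by omega)
    · rintro x ⟨m', rfl⟩
      have hB : DD 0 (insert ⟨.nr m', true⟩ (insert ⟨.vB z z, true⟩ (∅ : Set (Lit (Nd d n))))) ⟨.vB z z, true⟩ :=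
        Dn.mem (Or.inr (Or.inl rfl))
      have hnr : DD 0 (insert ⟨.nr m', true⟩ (insert ⟨.vB z z, true⟩ (∅ : Set (Lit (Nd d n))))) ⟨.nr m', true⟩ :=
        Dn.mem (Or.inl rfl)
      have hm' := m'.2
      by_cases h : n ≤ m'.val + 1
      · exact (hK2 n 0 _ z m' h hB hnr).le (by omega)
      · exact (hK1 n 0 _ z ⟨n - m'.val, by omega⟩ m' (by
          show n - m'.val + m'.val = n
          omega) (by
          show 2 ≤ n - m'.val
          omega) hB hnr).le (by omega)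
    · refine Pn.cover (C := CC d n) (S := NA) fun c hc => ?_
      have h1 : (NA : Set (Lit (Nd d n))).ncard ≤ n := by
        have h2 : (NA : Set (Lit (Nd d n))) = Set.range (fun y : Fin n => (⟨.ra y, false⟩ : Lit (Nd d n))) := by
          ext x
          constructor
          · rintro ⟨y, rfl⟩
            exact ⟨y, rfl⟩
          · rintro ⟨y, rfl⟩
            exact ⟨y, rfl⟩
        rw [h2]
        refine (Finite.card_range_le _).trans ?_
        rw [Nat.card_eq_fintype_card, Fintype.card_fin]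
      obtain ⟨m, hm⟩ : ∃ m : Fin (n + 1), m.val = c := ⟨⟨c, by omega⟩, rfl⟩
      refine ⟨.nr m, {m.val}, false, rfl, ?_, Or.inr ⟨_, ⟨m, rfl⟩, rfl⟩⟩
      intro h
      have h3 : c ∈ ({m.val} : Set ℕ) := hm.symm
      exact absurd (h.1 h3) (by simp)
  · refine (pn_ins (l := 0) hn Ins.b1 ?_).le (by omega)
    rintro x ⟨y, rfl⟩
    exact ⟨.vB y y, rfl, Dn.mem (Or.inr ⟨_, ⟨y, rfl⟩, rfl⟩)⟩

theorem upper (d : ℕ) : ∃ c : ℕ, ∀ n : ℕ, 2 ≤ n →
    ∃ R : Refutation (T d) (Fin n), R.size ≤ n ^ c ∧ ∀ a, R.C.rank a ≤ 7 := by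
  obtain ⟨l, hl⟩ := refuted d
  obtain ⟨c, hc⟩ := Nd_card d
  refine ⟨c + (c + 4) * l + 1, fun n hn => ?_⟩
  have h1 := hl n (by omega)
  unfold PP Pn at h1
  rw [Set.image_empty] at h1
  obtain ⟨R, hR, hlin⟩ := Pool.Agent.H42.CS.to_refutation h1
  refine ⟨R, ?_, ?_⟩
  · have hN : Nat.card R.C.N = Nat.card (Nd d n) := by rw [hR]
    have hb : bs (CC d n) ≤ n ^ (c + 4) := by
      have e1 : bs (CC d n) = 2 * Nat.card (Nd d n) + 8 := rfl
      have e2 := hc n hn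
      have e3 : 1 ≤ n ^ c := Nat.one_le_pow _ _ (by omega)
      have e4 : 2 ^ 4 ≤ n ^ 4 := Nat.pow_le_pow_left hn 4
      rw [e1, pow_add]
      nlinarith
    have h2 : R.lines.ncard ≤ n ^ ((c + 4) * l) := by
      rw [pow_mul]
      exact hlin.trans (Nat.pow_le_pow_left hb l)
    unfold Refutation.size
    rw [hN]
    have h3 : n ^ c ≤ n ^ (c + (c + 4) * l) := Nat.pow_le_pow_right (by omega) (by omega)
    have h4 : n ^ ((c + 4) * l) ≤ n ^ (c + (c + 4) * l) := Nat.pow_le_pow_right (by omega) (by omega)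
    have h5 := hc n hn
    calc Nat.card (Nd d n) + R.lines.ncard ≤ n ^ (c + (c + 4) * l) + n ^ (c + (c + 4) * l) := by omega
      _ = n ^ (c + (c + 4) * l) * 2 := by ring
      _ ≤ n ^ (c + (c + 4) * l) * n := Nat.mul_le_mul_left _ hn
      _ = n ^ (c + (c + 4) * l + 1) := by rw [pow_succ]
  · have h2 : ∀ C' : Circuit (Re d) (Fin n), C' = CC d n → ∀ a, C'.rank a ≤ 7 := by
      rintro _ rfl a
      exact rk_le a
    exact h2 _ hR

end Pool.Agent.H79.CQ
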