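import Pool.Agent.H79.CQ.Upa
import Pool.Agent.H79.CQ.Low
import Pool.Agent.H79.CQ.Num
import Pool.Agent.H79.CQ.GrB

/-!
# Chapter (B) of the cost of symmetry: all primes, every line with its own group

PROOF. `lower` with the cells of `exists_cells` and `I = B` (the index of `H` in the group of the cells is at
most its index in `Γ`), `numeric` with `S = 2 * B * size`, and `2 * B * size ≤ (size * B) ^ 2`.
-/

set_option autoImplicit false

namespace Pool.Agent.H79.CQ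

open Pool.Agent.H42.CS (Ax Atom Lit Gate Circuit Step Refutation)

theorem chapterB (δ : ℝ) (h0 : 0 < δ) (h1 : δ < 1) :
    ∃ (Rel : ℕ → Type) (T : Set (Ax Rel)) (C : ℕ), 0 < C ∧ T.Finite ∧
      (∀ A ∈ T, A.lits.Finite ∧ A.ex.Finite) ∧
      ∀ n : ℕ, 2 ≤ n →
        (∃ R : Refutation T (Fin n), R.size ≤ n ^ C ∧ ∀ a, R.C.rank a ≤ C) ∧
        ∀ (Γ : Subgroup (Equiv.Perm (Fin n))) (p h : ℕ), p.Prime → p ^ h ∣ Nat.card Γ →
          ∀ (R : Refutation T (Fin n)) (B : ℕ),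
            (∀ Λ ∈ R.lines, ∃ H : Subgroup (Equiv.Perm (Fin n)), H ≤ Γ ∧ H.relIndex Γ ≤ B ∧
              ∀ g ∈ H, ∀ x ∈ Λ, ∃ y ∈ Λ, y.pos = x.pos ∧ H16.LE.Img R.C g x.node y.node) →
            (2 : ℝ) ^ (((h : ℝ) / Real.logb 2 n) ^ (1 - δ) / C) ≤ R.size * B := by
  obtain ⟨d, C1, hd, hC1, hnum⟩ := numeric k8 δ h0 h1
  obtain ⟨c2, hup⟩ := upper d
  refine ⟨Re d, T d, 2 * max C1 (max c2 7), by omega, T_finite d, fun A hA => T_lits A hA, ?_⟩
  intro n hn
  constructor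
  · obtain ⟨R, hs, hr⟩ := hup n hn
    refine ⟨R, hs.trans (Nat.pow_le_pow_right (by omega) (by omega)), fun a => ?_⟩
    have := hr a
    omega
  · intro Γ p h hp hdiv R B hR
    haveI : Fact p.Prime := ⟨hp⟩
    haveI : Nonempty (Fin n) := ⟨⟨0, by omega⟩⟩
    obtain ⟨r, M, hM, hh⟩ := exists_cells Γ h hdiv
    have hB : 1 ≤ B := by
      obtain ⟨H, -, h2, -⟩ := hR ∅ R.empty_mem
      have h3 : H.relIndex Γ ≠ 0 := by
        unfold Subgroup.relIndex
        exact Subgroup.index_ne_zero_of_finite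
      omega
    have hR' : ∀ Λ ∈ R.lines, ∃ H : Subgroup M.H, H.index ≤ B ∧ ∀ g ∈ H, ∀ x ∈ Λ,
        ∃ y ∈ Λ, y.pos = x.pos ∧ H16.LE.Img R.C (g : Equiv.Perm (Fin n)) x.node y.node := by
      intro Λ hΛ
      obtain ⟨H, h1, h2, h3⟩ := hR Λ hΛ
      refine ⟨H.subgroupOf M.H, ?_, fun g hg x hx => h3 _ hg x hx⟩
      have h4 : H.relIndex Γ ≠ 0 := by
        unfold Subgroup.relIndex
        exact Subgroup.index_ne_zero_of_finite
      exact (Subgroup.relIndex_le_of_le_right hM h4).trans h2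
    have hs2 := size_ge_two R
    obtain ⟨S, hS⟩ : ∃ S, S = 2 * B * R.size := ⟨_, rfl⟩
    have hS2 : 2 ≤ S := by
      rw [hS]
      nlinarith
    have key := hnum (max C1 (max c2 7)) (le_max_left _ _) r n h S hn hh hS2
      (fun L hL hr => by
        rw [hS]
        exact lower hd hL hr M R B hR')
    have hC0 : (0 : ℝ) < (max C1 (max c2 7) : ℕ) := by
      exact_mod_cast (show 0 < max C1 (max c2 7) by omega)
    obtain ⟨E, hE⟩ : ∃ E : ℝ, E = ((h : ℝ) / Real.logb 2 n) ^ (1 - δ) := ⟨_, rfl⟩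
    rw [← hE] at key ⊢
    have hSr : (S : ℝ) ≤ ((R.size : ℝ) * B) ^ 2 := by
      have h5 : S ≤ (R.size * B) ^ 2 := by
        rw [hS, pow_two]
        have h6 : 2 ≤ R.size * B := le_trans hs2 (Nat.le_mul_of_pos_right _ hB)
        calc 2 * B * R.size = 2 * (R.size * B) := by ring
          _ ≤ (R.size * B) * (R.size * B) := Nat.mul_le_mul_right _ h6
      exact_mod_cast h5
    have hsq : ((2 : ℝ) ^ (E / ((2 * max C1 (max c2 7) : ℕ) : ℝ))) ^ 2 ≤ ((R.size : ℝ) * B) ^ 2 := by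
      refine le_trans (le_of_eq ?_) (key.trans hSr)
      rw [← Real.rpow_natCast, ← Real.rpow_mul (by norm_num)]
      congr 1
      push_cast
      field_simp
    exact le_of_sq_le_sq hsq (by positivity)

end Pool.Agent.H79.CQ
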