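import Pool.Agent.H79.CQ.Upa
import Pool.Agent.H79.CQ.Low
import Pool.Agent.H79.CQ.Num
import Pool.Agent.H79.CQ.GrB

/-!
# Chapter (B) of the cost of symmetry, in terms of the prime powers which divide the order of the group

As `Fin`, with `log_n q` in place of `h / log_2 n` for the prime power `q = p ^ h`.
-/

set_option autoImplicit false

namespace Pool.Agent.H79.CQ

open Pool.Agent.H42.CS (Ax Atom Lit Gate Circuit Step Refutation)

private theorem exists_cells_q {p : ℕ} [hp : Fact p.Prime] {n : ℕ} (hn : n ≠ 0) (Γ : Subgroup (Equiv.Perm (Fin n))) (h : ℕ)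
    (hd : p ^ h ∣ Nat.card Γ) :
    ∃ (r : ℕ) (M : Cells p (Fin n) r), M.H ≤ Γ ∧ p ^ h ≤ n ^ r := by
  obtain ⟨K₀, hK₀⟩ := Sylow.exists_subgroup_card_pow_prime (G := Γ) p hd
  let K : Subgroup (Equiv.Perm (Fin n)) := K₀.map Γ.subtype
  have hcK : Nat.card K = p ^ h := by
    rw [← hK₀]
    exact (Nat.card_congr (K₀.equivMapOfInjective Γ.subtype Γ.subtype_injective).toEquiv).symm
  have hKΓ : K ≤ Γ := Subgroup.map_subtype_le _
  obtain ⟨r, M, hM, hc⟩ := cells_of_orbits (Nat.log p n) K (IsPGroup.of_card hcK) (fun x => by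
    have h1 : {y | ∃ g ∈ K, g x = y} = MulAction.orbit K x := by
      ext y
      constructor
      · rintro ⟨g, hg, hy⟩
        exact ⟨⟨g, hg⟩, hy⟩
      · rintro ⟨g, hy⟩
        exact ⟨g.1, g.2, hy⟩
    rw [h1, ← MulAction.index_stabilizer]
    have h2 : (MulAction.stabilizer K x).index ∣ p ^ h := by
      rw [← hcK]
      exact Subgroup.index_dvd_card _
    obtain ⟨a, -, ha⟩ := (Nat.dvd_prime_pow hp.out).1 h2
    have h3 : (MulAction.stabilizer K x).index ≤ n := by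
      rw [MulAction.index_stabilizer]
      have h4 := Set.ncard_le_ncard (Set.subset_univ (MulAction.orbit K x)) (Set.toFinite _)
      rwa [Set.ncard_univ, Nat.card_fin] at h4
    rw [ha] at h3 ⊢
    exact Nat.pow_le_pow_right hp.out.pos ((Nat.le_log_iff_pow_le hp.out.one_lt hn).2 h3))
  refine ⟨r, M, hM.trans hKΓ, ?_⟩
  rw [hcK] at hc
  refine hc.trans ?_
  rw [mul_comm, pow_mul]
  exact Nat.pow_le_pow_left (Nat.pow_log_le_self p hn) r

theorem chapterBq (δ : ℝ) (h0 : 0 < δ) (h1 : δ < 1) :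
    ∃ (Rel : ℕ → Type) (T : Set (Ax Rel)) (C : ℕ), 0 < C ∧ T.Finite ∧
      (∀ A ∈ T, A.lits.Finite ∧ A.ex.Finite) ∧
      ∀ n : ℕ, 2 ≤ n →
        (∃ R : Refutation T (Fin n), R.size ≤ n ^ C ∧ ∀ a, R.C.rank a ≤ C) ∧
        ∀ (Γ : Subgroup (Equiv.Perm (Fin n))) (q : ℕ), IsPrimePow q → q ∣ Nat.card Γ →
          ∀ (R : Refutation T (Fin n)) (B : ℕ),
            (∀ Λ ∈ R.lines, ∃ H : Subgroup (Equiv.Perm (Fin n)), H ≤ Γ ∧ H.relIndex Γ ≤ B ∧
              ∀ g ∈ H, ∀ x ∈ Λ, ∃ y ∈ Λ, y.pos = x.pos ∧ H16.LE.Img R.C g x.node y.node) →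
            (2 : ℝ) ^ ((Real.logb n q) ^ (1 - δ) / C) ≤ R.size * B := by
  obtain ⟨d, C1, hd, hC1, hnum⟩ := numeric k8 δ h0 h1
  obtain ⟨c2, hup⟩ := upper d
  refine ⟨Re d, T d, 2 * max C1 (max c2 7), by omega, T_finite d, fun A hA => T_lits A hA, ?_⟩
  intro n hn
  constructor
  · obtain ⟨R, hs, hr⟩ := hup n hn
    refine ⟨R, hs.trans (Nat.pow_le_pow_right (by omega) (by omega)), fun a => ?_⟩
    have := hr a
    omega
  · intro Γ q hq hdiv R B hR
    obtain ⟨p, h, hp', hh0, rfl⟩ := hq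
    have hp : p.Prime := hp'.nat_prime
    have : Fact p.Prime := ⟨hp⟩
    have : Nonempty (Fin n) := ⟨⟨0, by omega⟩⟩
    obtain ⟨r, M, hM, hh⟩ := exists_cells_q (by omega : n ≠ 0) Γ h hdiv
    have hB : 1 ≤ B := by
      obtain ⟨H, -, h2, -⟩ := hR ∅ R.empty_mem
      have h3 : H.relIndex Γ ≠ 0 := by
        unfold Subgroup.relIndex
        exact Subgroup.index_ne_zero_of_finite
      omega
    have hR' : ∀ Λ ∈ R.lines, ∃ H : Subgroup M.H, H.index ≤ B ∧ ∀ g ∈ H, ∀ x ∈ Λ,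
        ∃ y ∈ Λ, y.pos = x.pos ∧ H16.LE.Img R.C (g : Equiv.Perm (Fin n)) x.node y.node := by
      intro Λ hΛ
      obtain ⟨H, h1, h2, h3⟩ := hR Λ hΛ
      refine ⟨H.subgroupOf M.H, ?_, fun g hg x hx => h3 _ hg x hx⟩
      have h4 : H.relIndex Γ ≠ 0 := by
        unfold Subgroup.relIndex
        exact Subgroup.index_ne_zero_of_finite
      exact (Subgroup.relIndex_le_of_le_right hM h4).trans h2
    have hs2 := size_ge_two R
    obtain ⟨S, hS⟩ : ∃ S, S = 2 * B * R.size := ⟨_, rfl⟩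
    have hS2 : 2 ≤ S := by
      rw [hS]
      nlinarith
    have hlog2 : Nat.log 2 2 = 1 := by norm_num
    have key := hnum (max C1 (max c2 7)) (le_max_left _ _) r 2 r S le_rfl (by rw [hlog2, mul_one]) hS2
      (fun L hL hr => by
        rw [hS]
        exact lower hd hL hr M R B hR')
    have hl2 : Real.logb 2 ((2 : ℕ) : ℝ) = 1 := by
      push_cast
      exact Real.logb_self_eq_one (by norm_num)
    rw [hl2, div_one] at key
    have hC0 : (0 : ℝ) < (max C1 (max c2 7) : ℕ) := by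
      exact_mod_cast (show 0 < max C1 (max c2 7) by omega)
    have hn1 : (1 : ℝ) < n := by exact_mod_cast (show 1 < n by omega)
    have hq1 : 1 ≤ p ^ h := Nat.one_le_pow _ _ hp.pos
    have hxr : Real.logb n ((p ^ h : ℕ) : ℝ) ≤ r := by
      rw [Real.logb_le_iff_le_rpow hn1 (by exact_mod_cast hq1), Real.rpow_natCast]
      exact_mod_cast hh
    have hx0 : 0 ≤ Real.logb n ((p ^ h : ℕ) : ℝ) := Real.logb_nonneg hn1 (by exact_mod_cast hq1)
    have hδ1 : 0 < 1 - δ := by linarith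
    obtain ⟨E, hE⟩ : ∃ E : ℝ, E = (Real.logb n ((p ^ h : ℕ) : ℝ)) ^ (1 - δ) := ⟨_, rfl⟩
    have hEr : E ≤ (r : ℝ) ^ (1 - δ) := by
      rw [hE]
      exact Real.rpow_le_rpow hx0 hxr hδ1.le
    have key2 : (2 : ℝ) ^ (E / ((max C1 (max c2 7) : ℕ) : ℝ)) ≤ S := by
      refine le_trans (Real.rpow_le_rpow_of_exponent_le (by norm_num) ?_) key
      exact div_le_div_of_nonneg_right hEr hC0.le
    rw [← hE]
    have hSr : (S : ℝ) ≤ ((R.size : ℝ) * B) ^ 2 := by
      have h5 : S ≤ (R.size * B) ^ 2 := by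
        rw [hS, pow_two]
        have h6 : 2 ≤ R.size * B := le_trans hs2 (Nat.le_mul_of_pos_right _ hB)
        calc 2 * B * R.size = 2 * (R.size * B) := by ring
          _ ≤ (R.size * B) * (R.size * B) := Nat.mul_le_mul_right _ h6
      exact_mod_cast h5
    have hsq : ((2 : ℝ) ^ (E / ((2 * max C1 (max c2 7) : ℕ) : ℝ))) ^ 2 ≤ ((R.size : ℝ) * B) ^ 2 := by
      refine le_trans (le_of_eq ?_) (key2.trans hSr)
      rw [← Real.rpow_natCast, ← Real.rpow_mul (by norm_num)]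
      congr 1
      push_cast
      field_simp
    exact le_of_sq_le_sq hsq (by positivity)

end Pool.Agent.H79.CQ
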