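import Pool.Agent.H42.CS.Axs
import Pool.Agent.H79.CQ.Grd

/-!
# The atoms

Relation symbols (for a dimension `d`): `Z q` (the special vertex), `E q q'` (the same vertex), `J a q q'`
(`q'` is the successor of `q` in the direction `a`), `F τ q u` (`u` is a label of the square `τ` at `q`; `τ` is
an unordered pair of slots), `B y y'` (`y`, `y'` are in the same block of the reference cell), `D y y'` (they
are in different blocks of it), and relative to a point `z` of the reference cell and to labels `u`: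
`Th σ q u z y` (thermometer of the value of the edge at the slot `σ` of `q`), `M σ k q u z y y'` (the true
element `(σ, y)` of the thermometers at `q` is matched with the element `(k, y')`), `G k q u z y'` (`(k, y')`
is one of the elements which are used), `X k q u z` (exactly one element `(k, y')` is used).

PROOFS. `arg (am s v) = v`: `funext`, `Equiv.symm_apply_apply`; `am (sy v) (arg v) = v`:
`v = ⟨r, ⟨s, hs⟩, w⟩`, `subst hs`. `am_sy`: `congrArg sy`. `am_inj`: `congrArg arg` (or directly).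
`map_am`: `rfl`. `map_aE` etc.: `map_am` and `funext` on the index (`Fin`: `fin_cases`; `Sum`: cases).
`atom_finite`: `v ↦ ⟨sy v, arg v⟩` is injective into `Σ s, (s.Ix → P)`, and `Sy d` is finite (an injective map
into a product of finite types, or a surjection from one).
-/

set_option autoImplicit false
set_option linter.unusedSectionVars false

namespace Pool.Agent.H79.CQ

open Pool.Agent.H42.CS (Pt Ed Sq un inB isE isS Slot off ed sq Ax Atom mkAx inst_mkAx)

/-- The relation symbols. -/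
inductive Sy (d : ℕ) : Type
  | Z | E | J (a : Fin d) | F (τ : Sym2 (Slot d)) | B | D | Th (σ : Slot d)
  | M (σ : Slot d) (k : Fin (2 * d)) | G (k : Fin (2 * d)) | X (k : Fin (2 * d))

/-- The names of the arguments. -/
def Sy.Ix {d : ℕ} : Sy d → Type
  | .Z => Fin 1
  | .E => Fin 2
  | .J _ => Fin 2
  | .F _ => Fin 2
  | .B => Fin 2
  | .D => Fin 2
  | .Th _ => Slot d ⊕ Fin 3
  | .M _ _ => Sym2 (Slot d) ⊕ Fin 4
  | .G _ => Sym2 (Slot d) ⊕ Fin 3
  | .X _ => Sym2 (Slot d) ⊕ Fin 2

instance Sy.instFintypeIx {d : ℕ} (s : Sy d) : Fintype s.Ix := by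
  cases s <;> (unfold Sy.Ix; infer_instance)

/-- The number of the arguments. -/
def Sy.ar {d : ℕ} (s : Sy d) : ℕ := Fintype.card s.Ix

/-- The relation symbols with `r` arguments. -/
def Re (d : ℕ) (r : ℕ) : Type := {s : Sy d // s.ar = r}

section atoms

variable {d : ℕ} {P P' : Type}

/-- The atom with the symbol `s` and the arguments `v`. -/
noncomputable def am (s : Sy d) (v : s.Ix → P) : Atom (Re d) P :=
  ⟨s.ar, ⟨s, rfl⟩, fun i => v ((Fintype.equivFin s.Ix).symm i)⟩

/-- The symbol of an atom. -/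
def sy (v : Atom (Re d) P) : Sy d := v.2.1.1

/-- The arguments of an atom. -/
noncomputable def arg (v : Atom (Re d) P) : (sy v).Ix → P :=
  fun i => v.2.2 (Fin.cast v.2.1.2 (Fintype.equivFin (sy v).Ix i))

/-- Renaming of the points of an atom. -/
def amap {Rel : ℕ → Type} (f : P → P') (v : Atom Rel P) : Atom Rel P' :=
  ⟨v.1, v.2.1, fun i => f (v.2.2 i)⟩

private theorem vec2 (f : P → P') (q z : P) : (fun i : Fin 2 => f (![q, z] i)) = ![f q, f z] := by
  funext i
  fin_cases i <;> rfl

private theorem vec3 (f : P → P') (q z y : P) :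
    (fun i : Fin 3 => f (![q, z, y] i)) = ![f q, f z, f y] := by
  funext i
  fin_cases i <;> rfl

private theorem vec4 (f : P → P') (q z y x : P) :
    (fun i : Fin 4 => f (![q, z, y, x] i)) = ![f q, f z, f y, f x] := by
  funext i
  fin_cases i <;> rfl

private theorem vecS {I J : Type} (f : P → P') (u : I → P) (w : J → P) (w' : J → P')
    (h : (fun i => f (w i)) = w') :
    (fun i : I ⊕ J => f (Sum.elim u w i)) = Sum.elim (fun t => f (u t)) w' := by
  subst h
  funext i
  rcases i with i | i <;> rfl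

private theorem sy_finite (d : ℕ) : Finite (Sy d) := by
  refine Finite.of_surjective (α := Unit ⊕ Unit ⊕ Fin d ⊕ Sym2 (Slot d) ⊕ Unit ⊕ Unit ⊕ Slot d ⊕
    (Slot d × Fin (2 * d)) ⊕ Fin (2 * d) ⊕ Fin (2 * d))
    (Sum.elim (fun _ => .Z) (Sum.elim (fun _ => .E) (Sum.elim (fun a => .J a) (Sum.elim (fun t => .F t)
      (Sum.elim (fun _ => .B) (Sum.elim (fun _ => .D) (Sum.elim (fun s => .Th s)
        (Sum.elim (fun x => .M x.1 x.2) (Sum.elim (fun k => .G k) (fun k => .X k)))))))))) ?_
  intro s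
  cases s with
  | Z => exact ⟨Sum.inl (), rfl⟩
  | E => exact ⟨Sum.inr (Sum.inl ()), rfl⟩
  | J a => exact ⟨Sum.inr (Sum.inr (Sum.inl a)), rfl⟩
  | F t => exact ⟨Sum.inr (Sum.inr (Sum.inr (Sum.inl t))), rfl⟩
  | B => exact ⟨Sum.inr (Sum.inr (Sum.inr (Sum.inr (Sum.inl ())))), rfl⟩
  | D => exact ⟨Sum.inr (Sum.inr (Sum.inr (Sum.inr (Sum.inr (Sum.inl ()))))), rfl⟩
  | Th s => exact ⟨Sum.inr (Sum.inr (Sum.inr (Sum.inr (Sum.inr (Sum.inr (Sum.inl s)))))), rfl⟩
  | M s k =>
    exact ⟨Sum.inr (Sum.inr (Sum.inr (Sum.inr (Sum.inr (Sum.inr (Sum.inr (Sum.inl (s, k)))))))), rfl⟩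
  | G k =>
    exact ⟨Sum.inr (Sum.inr (Sum.inr (Sum.inr (Sum.inr (Sum.inr (Sum.inr (Sum.inr (Sum.inl k)))))))),
      rfl⟩
  | X k =>
    exact ⟨Sum.inr (Sum.inr (Sum.inr (Sum.inr (Sum.inr (Sum.inr (Sum.inr (Sum.inr (Sum.inr k)))))))),
      rfl⟩

theorem am_arg (v : Atom (Re d) P) : am (sy v) (arg v) = v := by
  obtain ⟨r, ⟨s, hs⟩, w⟩ := v
  subst hs
  have h : (fun i => arg (⟨s.ar, ⟨s, rfl⟩, w⟩ : Atom (Re d) P) ((Fintype.equivFin s.Ix).symm i)) =
      w := by
    funext i
    change w (Fin.cast rfl (Fintype.equivFin s.Ix ((Fintype.equivFin s.Ix).symm i))) = w i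
    rw [Equiv.apply_symm_apply]
    rfl
  exact congrArg (fun z : Fin s.ar → P => (⟨s.ar, (⟨⟨s, rfl⟩, z⟩ : Re d s.ar × (Fin s.ar → P))⟩ :
    Atom (Re d) P)) h

theorem arg_am (s : Sy d) (v : s.Ix → P) : arg (am s v) = v := by
  funext i
  exact congrArg v ((Fintype.equivFin s.Ix).symm_apply_apply i)

theorem am_inj {s : Sy d} {v v' : s.Ix → P} (h : am s v = am s v') : v = v' := by
  have h1 : (fun i => v ((Fintype.equivFin s.Ix).symm i)) =
      fun i => v' ((Fintype.equivFin s.Ix).symm i) := by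
    have h2 := eq_of_heq (Sigma.mk.inj h).2
    exact (Prod.mk.inj h2).2
  funext i
  have h3 := congrFun h1 (Fintype.equivFin s.Ix i)
  rwa [Equiv.symm_apply_apply] at h3

theorem am_sy {s s' : Sy d} {v : s.Ix → P} {v' : s'.Ix → P} (h : am s v = am s' v') : s = s' := by
  exact congrArg sy h

theorem map_am (f : P → P') (s : Sy d) (v : s.Ix → P) :
    amap f (am s v) = am s (fun i => f (v i)) := by
  rfl

theorem atom_finite [Finite P] : Finite (Atom (Re d) P) := by
  have := sy_finite d
  exact Finite.of_surjective (α := Σ s : Sy d, s.Ix → P) (fun x => am x.1 x.2)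
    fun v => ⟨⟨sy v, arg v⟩, am_arg v⟩

/-- The atom `Z q`. -/
noncomputable def aZ (q : P) : Atom (Re d) P := am .Z (fun _ => q)

/-- The atom `E q q'`. -/
noncomputable def aE (q q' : P) : Atom (Re d) P := am .E ![q, q']

/-- The atom `J a q q'`. -/
noncomputable def aJ (a : Fin d) (q q' : P) : Atom (Re d) P := am (.J a) ![q, q']

/-- The atom `F τ q u`. -/
noncomputable def aF (τ : Sym2 (Slot d)) (q u : P) : Atom (Re d) P := am (.F τ) ![q, u]

/-- The atom `B y y'`. -/
noncomputable def aB (y y' : P) : Atom (Re d) P := am .B ![y, y']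

/-- The atom `D y y'`. -/
noncomputable def aD (y y' : P) : Atom (Re d) P := am .D ![y, y']

/-- The atom `Th σ q u z y`. -/
noncomputable def aT (σ : Slot d) (q : P) (u : Slot d → P) (z y : P) : Atom (Re d) P :=
  am (.Th σ) (Sum.elim u ![q, z, y])

/-- The atom `M σ k q u z y y'`. -/
noncomputable def aM (σ : Slot d) (k : Fin (2 * d)) (q : P) (u : Sym2 (Slot d) → P) (z y y' : P) :
    Atom (Re d) P := am (.M σ k) (Sum.elim u ![q, z, y, y'])

/-- The atom `G k q u z y'`. -/
noncomputable def aG (k : Fin (2 * d)) (q : P) (u : Sym2 (Slot d) → P) (z y' : P) :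
    Atom (Re d) P := am (.G k) (Sum.elim u ![q, z, y'])

/-- The atom `X k q u z`. -/
noncomputable def aX (k : Fin (2 * d)) (q : P) (u : Sym2 (Slot d) → P) (z : P) :
    Atom (Re d) P := am (.X k) (Sum.elim u ![q, z])

theorem map_aZ (f : P → P') (q : P) : amap f (aZ q : Atom (Re d) P) = aZ (f q) := by
  rfl

theorem map_aE (f : P → P') (q q' : P) :
    amap f (aE q q' : Atom (Re d) P) = aE (f q) (f q') := by
  exact congrArg (am (.E : Sy d)) (vec2 f q q')

theorem map_aJ (f : P → P') (a : Fin d) (q q' : P) : amap f (aJ a q q') = aJ a (f q) (f q') := by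
  exact congrArg (am (.J a : Sy d)) (vec2 f q q')

theorem map_aF (f : P → P') (τ : Sym2 (Slot d)) (q u : P) :
    amap f (aF τ q u) = aF τ (f q) (f u) := by
  exact congrArg (am (.F τ : Sy d)) (vec2 f q u)

theorem map_aB (f : P → P') (q q' : P) :
    amap f (aB q q' : Atom (Re d) P) = aB (f q) (f q') := by
  exact congrArg (am (.B : Sy d)) (vec2 f q q')

theorem map_aD (f : P → P') (q q' : P) :
    amap f (aD q q' : Atom (Re d) P) = aD (f q) (f q') := by
  exact congrArg (am (.D : Sy d)) (vec2 f q q')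

theorem map_aT (f : P → P') (σ : Slot d) (q : P) (u : Slot d → P) (z y : P) :
    amap f (aT σ q u z y) = aT σ (f q) (fun t => f (u t)) (f z) (f y) := by
  exact congrArg (am (.Th σ : Sy d)) (vecS f u ![q, z, y] _ (vec3 f q z y))

theorem map_aM (f : P → P') (σ : Slot d) (k : Fin (2 * d)) (q : P) (u : Sym2 (Slot d) → P)
    (z y y' : P) :
    amap f (aM σ k q u z y y') = aM σ k (f q) (fun t => f (u t)) (f z) (f y) (f y') := by
  exact congrArg (am (.M σ k : Sy d)) (vecS f u ![q, z, y, y'] _ (vec4 f q z y y'))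

theorem map_aG (f : P → P') (k : Fin (2 * d)) (q : P) (u : Sym2 (Slot d) → P) (z y' : P) :
    amap f (aG k q u z y') = aG k (f q) (fun t => f (u t)) (f z) (f y') := by
  exact congrArg (am (.G k : Sy d)) (vecS f u ![q, z, y'] _ (vec3 f q z y'))

theorem map_aX (f : P → P') (k : Fin (2 * d)) (q : P) (u : Sym2 (Slot d) → P) (z : P) :
    amap f (aX k q u z) = aX k (f q) (fun t => f (u t)) (f z) := by
  exact congrArg (am (.X k : Sy d)) (vecS f u ![q, z] _ (vec2 f q z))

end atoms

end Pool.Agent.H79.CQ
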