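import Pool.Agent.H79.CQ.Atm

/-!
# The axioms (the same for all primes)

`Ins Λ`: the clause `Λ` is an instance of one of the axioms over `P`. `T d` is the set of the axioms: the
clauses over the names `V0 d` (`L0 c`, `E0 c` for the codes `c`).

PROOFS. `T_ins`: `inst_mkAx` (of `H42/CS/Axs`; `Atom.map` there is `amap` here, by `rfl`), then for every code
the image is the explicit clause (`Set.image_insert_eq`, `Set.image_singleton`, `map_aE`, … as in
`H42/CS/Axs`: `fam1`, …; the valuation `v'` of the names gives the labels `fun t => v' (us t)`,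
`fun τ => v' (um τ)` and the points `v' (vr i)`), and the constructor of `Ins`. `ins_T`: the same backwards: for
every constructor of `Ins` the code of the same name and the valuation `Sum.elim us (Sum.elim um w)` of the
names (labels which do not occur: any point; `P` is nonempty). It is convenient to prove first for every
code one private lemma which computes `cl (L0 c) (E0 c) v'` for an arbitrary valuation `v' : V0 d → P`
(`cl`: see `H42/CS/Axs`) and to use it in both theorems. `T_finite`: the set of all pairs `(lits, ex)` over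
the finite types `V0 d`, `Option (V0 d)` is finite (`atom_finite`). `T_lits`: all sets of atoms over finite types
are finite.
-/

set_option autoImplicit false
set_option linter.unusedSimpArgs false
set_option linter.unusedSectionVars false

namespace Pool.Agent.H79.CQ

open Pool.Agent.H42.CS (Pt Ed Sq un inB isE isS Slot off ed sq Ax Atom mkAx inst_mkAx)

section instances

variable {d : ℕ} {P P' : Type}

/-! ### The instances -/

/-- The literals: `u τ` is not a label of `τ` at `q`. -/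
def lab (q : P) (u : Sym2 (Slot d) → P) : Set (Atom (Re d) P × Bool) :=
  {x | ∃ τ, x = (aF τ q (u τ), false)}

/-- The labels of the squares at the slot `σ`. -/
def sl {d : ℕ} {P : Type} (σ : Slot d) (u : Sym2 (Slot d) → P) : Slot d → P := fun t => u s(σ, t)

/-- The instances of the axioms over `P`. -/
inductive Ins : Set (Atom (Re d) P × Bool) → Prop
  | er (x : P) : Ins {(aE x x, true)}
  | es (x y : P) : Ins {(aE x y, false), (aE y x, true)}
  | et (x y z : P) : Ins {(aE x y, false), (aE y z, false), (aE x z, true)}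
  | jf (a : Fin d) (x y z : P) : Ins {(aJ a x y, false), (aJ a x z, false), (aE y z, true)}
  | ji (a : Fin d) (x y z : P) : Ins {(aJ a x z, false), (aJ a y z, false), (aE x y, true)}
  | je (a : Fin d) (x y x' y' : P) :
      Ins {(aJ a x y, false), (aE x x', false), (aE y y', false), (aJ a x' y', true)}
  | f6 (a : Fin d) (t : Slot d) (b : Bool) (q q' u : P) :
      Ins {(aJ a q q', false), (aF s((a, b), t) (if b then q else q') u, false),
        (aF s((a, !b), t) (if b then q' else q) u, true)}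
  | f7 (τ : Sym2 (Slot d)) (q : P) : Ins {x | ∃ u, x = (aF τ q u, true)}
  | z1 : Ins {x | ∃ y, x = (aZ y, true)}
  | z2 (x y : P) : Ins {(aZ x, false), (aZ y, false), (aE x y, true)}
  | z3 (x y : P) : Ins {(aZ x, false), (aE x y, false), (aZ y, true)}
  | b1 : Ins {x | ∃ y, x = (aB y y, true)}
  | b2 (x y : P) : Ins {(aB x y, false), (aB y x, true)}
  | b3 (x y z : P) : Ins {(aB x y, false), (aB y z, false), (aB x z, true)}
  | b4 (x : P) : Ins ({(aB x x, false)} ∪ {l | ∃ y, l = (aD x y, true)})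
  | b5 (x y : P) : Ins {(aD x y, false), (aB y y, true)}
  | b6 (x y : P) : Ins {(aD x y, false), (aB x y, false)}
  | tp (a : Fin d) (q : P) (u : Slot d → P) (z y : P) :
      Ins ({(aT (a, true) q u z y, false)} ∪ {x | ∃ q', x = (aJ a q q', true)})
  | tn (a : Fin d) (q : P) (u : Slot d → P) (z y : P) :
      Ins ({(aT (a, false) q u z y, false)} ∪ {x | ∃ q', x = (aJ a q' q, true)})
  | e1 (a : Fin d) (q q' : P) (u : Slot d → P) (z y : P) :
      Ins {(aJ a q q', false), (aT (a, false) q' u z y, false), (aT (a, true) q u z z, true)}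
  | e2 (a : Fin d) (q q' : P) (u : Slot d → P) (z y : P) :
      Ins {(aJ a q q', false), (aT (a, false) q' u z y, false), (aT (a, true) q u z y, false)}
  | e3 (a : Fin d) (q : P) (u : Slot d → P) (z y : P) :
      Ins {(aT (a, true) q u z y, false), (aT (a, true) q u z z, true)}
  | e4 (a : Fin d) (q q' : P) (u : Slot d → P) (z y : P) :
      Ins {(aJ a q q', false), (aT (a, true) q u z z, false), (aB y y, false),
        (aT (a, true) q u z y, true), (aT (a, false) q' u z y, true)}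
  | m1 (σ : Slot d) (q : P) (u : Sym2 (Slot d) → P) (z y : P) :
      Ins (lab q u ∪ {(aT σ q (sl σ u) z y, false)} ∪ {x | ∃ k y', x = (aM σ k q u z y y', true)})
  | m2 (σ : Slot d) (k : Fin (2 * d)) (q : P) (u : Sym2 (Slot d) → P) (z y y' : P) :
      Ins {(aM σ k q u z y y', false), (aT σ q (sl σ u) z y, true)}
  | m3 (σ : Slot d) (k : Fin (2 * d)) (q : P) (u : Sym2 (Slot d) → P) (z y y' : P) :
      Ins {(aM σ k q u z y y', false), (aG k q u z y', true)}
  | m4 (σ : Slot d) (k k' : Fin (2 * d)) (h : k ≠ k') (q : P) (u : Sym2 (Slot d) → P)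
      (z y y' y'' : P) : Ins {(aM σ k q u z y y', false), (aM σ k' q u z y y'', false)}
  | m5 (σ : Slot d) (k : Fin (2 * d)) (q : P) (u : Sym2 (Slot d) → P) (z y y' y'' : P) :
      Ins {(aM σ k q u z y y', false), (aM σ k q u z y y'', false), (aB y' y'', true)}
  | m6 (σ : Slot d) (k : Fin (2 * d)) (q : P) (u : Sym2 (Slot d) → P) (z y y' y'' : P) :
      Ins {(aM σ k q u z y y', false), (aB y' y'', false), (aM σ k q u z y y'', true)}
  | m7 (k : Fin (2 * d)) (q : P) (u : Sym2 (Slot d) → P) (z y' : P) :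
      Ins ({(aG k q u z y', false)} ∪ {x | ∃ σ y, x = (aM σ k q u z y y', true)})
  | m8 (σ σ' : Slot d) (h : σ ≠ σ') (k : Fin (2 * d)) (q : P) (u : Sym2 (Slot d) → P)
      (z y y' y'' : P) : Ins {(aM σ k q u z y y', false), (aM σ' k q u z y'' y', false)}
  | m9 (σ : Slot d) (k : Fin (2 * d)) (q : P) (u : Sym2 (Slot d) → P) (z y y' y'' : P) :
      Ins {(aM σ k q u z y y', false), (aM σ k q u z y'' y', false), (aB y y'', true)}
  | m10 (σ : Slot d) (k : Fin (2 * d)) (q : P) (u : Sym2 (Slot d) → P) (z y y' y'' : P) :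
      Ins {(aM σ k q u z y y', false), (aB y y'', false), (aM σ k q u z y'' y', true)}
  | m11 (σ : Slot d) (k : Fin (2 * d)) (q : P) (u : Sym2 (Slot d) → P) (z y y' : P) :
      Ins {(aM σ k q u z y y', false), (aB y y, true)}
  | m12 (σ : Slot d) (k : Fin (2 * d)) (q : P) (u : Sym2 (Slot d) → P) (z y y' : P) :
      Ins {(aM σ k q u z y y', false), (aB y' y', true)}
  | g1 (k : Fin (2 * d)) (q : P) (u : Sym2 (Slot d) → P) (z y' y'' : P) :
      Ins {(aG k q u z y', false), (aX k q u z, true), (aB y'' y'', false), (aG k q u z y'', true)}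
  | g2 (k : Fin (2 * d)) (q : P) (u : Sym2 (Slot d) → P) (z y' : P) :
      Ins {(aG k q u z y', false), (aX k q u z, false), (aB y' z, true)}
  | g3 (k : Fin (2 * d)) (q : P) (u : Sym2 (Slot d) → P) (z : P) :
      Ins {(aX k q u z, false), (aG k q u z z, true)}
  | g4 (k k' : Fin (2 * d)) (h : k ≠ k') (q : P) (u : Sym2 (Slot d) → P) (z : P) :
      Ins {(aX k q u z, false), (aX k' q u z, false)}
  | g5 (k : Fin (2 * d)) (q : P) (u : Sym2 (Slot d) → P) (z : P) :
      Ins {(aX k q u z, false), (aZ q, true)}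
  | g6 (q : P) (u : Sym2 (Slot d) → P) (z : P) :
      Ins (lab q u ∪ {(aZ q, false), (aB z z, false)} ∪ {x | ∃ k, x = (aX k q u z, true)})

end instances

/-! ### The set of the axioms -/

/-- Codes of the axioms. -/
inductive Code (d : ℕ) : Type
  | er | es | et | jf (a : Fin d) | ji (a : Fin d) | je (a : Fin d)
  | f6 (a : Fin d) (t : Slot d) (b : Bool) | f7 (τ : Sym2 (Slot d)) | z1 | z2 | z3
  | b1 | b2 | b3 | b4 | b5 | b6 | tp (a : Fin d) | tn (a : Fin d)
  | e1 (a : Fin d) | e2 (a : Fin d) | e3 (a : Fin d) | e4 (a : Fin d)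
  | m1 (σ : Slot d) | m2 (σ : Slot d) (k : Fin (2 * d)) | m3 (σ : Slot d) (k : Fin (2 * d))
  | m4 (σ : Slot d) (k k' : Fin (2 * d)) (h : k ≠ k') | m5 (σ : Slot d) (k : Fin (2 * d))
  | m6 (σ : Slot d) (k : Fin (2 * d)) | m7 (k : Fin (2 * d))
  | m8 (σ σ' : Slot d) (h : σ ≠ σ') (k : Fin (2 * d)) | m9 (σ : Slot d) (k : Fin (2 * d))
  | m10 (σ : Slot d) (k : Fin (2 * d)) | m11 (σ : Slot d) (k : Fin (2 * d))
  | m12 (σ : Slot d) (k : Fin (2 * d)) | g1 (k : Fin (2 * d)) | g2 (k : Fin (2 * d))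
  | g3 (k : Fin (2 * d)) | g4 (k k' : Fin (2 * d)) (h : k ≠ k') | g5 (k : Fin (2 * d)) | g6

/-- The names of the variables: labels of a slot, labels of a vertex, and six others. -/
abbrev V0 (d : ℕ) : Type := Slot d ⊕ (Sym2 (Slot d) ⊕ Fin 6)

/-- The names of the labels of a slot. -/
def us {d : ℕ} (t : Slot d) : V0 d := Sum.inl t

/-- The names of the labels of a vertex. -/
def um {d : ℕ} (τ : Sym2 (Slot d)) : V0 d := Sum.inr (Sum.inl τ)

/-- The other names. -/
def vr {d : ℕ} (i : Fin 6) : V0 d := Sum.inr (Sum.inr i)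

/-- The literals of an axiom. -/
noncomputable def L0 {d : ℕ} : Code d → Set (Atom (Re d) (V0 d) × Bool)
  | .er => {(aE (vr 0) (vr 0), true)}
  | .es => {(aE (vr 0) (vr 1), false), (aE (vr 1) (vr 0), true)}
  | .et => {(aE (vr 0) (vr 1), false), (aE (vr 1) (vr 2), false), (aE (vr 0) (vr 2), true)}
  | .jf a => {(aJ a (vr 0) (vr 1), false), (aJ a (vr 0) (vr 2), false), (aE (vr 1) (vr 2), true)}
  | .ji a => {(aJ a (vr 0) (vr 2), false), (aJ a (vr 1) (vr 2), false), (aE (vr 0) (vr 1), true)}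
  | .je a => {(aJ a (vr 0) (vr 1), false), (aE (vr 0) (vr 2), false), (aE (vr 1) (vr 3), false),
      (aJ a (vr 2) (vr 3), true)}
  | .f6 a t b => {(aJ a (vr 0) (vr 1), false),
      (aF s((a, b), t) (if b then vr 0 else vr 1) (vr 2), false),
      (aF s((a, !b), t) (if b then vr 1 else vr 0) (vr 2), true)}
  | .f7 _ => ∅
  | .z1 => ∅
  | .z2 => {(aZ (vr 0), false), (aZ (vr 1), false), (aE (vr 0) (vr 1), true)}
  | .z3 => {(aZ (vr 0), false), (aE (vr 0) (vr 1), false), (aZ (vr 1), true)}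
  | .b1 => ∅
  | .b2 => {(aB (vr 0) (vr 1), false), (aB (vr 1) (vr 0), true)}
  | .b3 => {(aB (vr 0) (vr 1), false), (aB (vr 1) (vr 2), false), (aB (vr 0) (vr 2), true)}
  | .b4 => {(aB (vr 0) (vr 0), false)}
  | .b5 => {(aD (vr 0) (vr 1), false), (aB (vr 1) (vr 1), true)}
  | .b6 => {(aD (vr 0) (vr 1), false), (aB (vr 0) (vr 1), false)}
  | .tp a => {(aT (a, true) (vr 0) us (vr 1) (vr 2), false)}
  | .tn a => {(aT (a, false) (vr 0) us (vr 1) (vr 2), false)}
  | .e1 a => {(aJ a (vr 0) (vr 3), false), (aT (a, false) (vr 3) us (vr 1) (vr 2), false),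
      (aT (a, true) (vr 0) us (vr 1) (vr 1), true)}
  | .e2 a => {(aJ a (vr 0) (vr 3), false), (aT (a, false) (vr 3) us (vr 1) (vr 2), false),
      (aT (a, true) (vr 0) us (vr 1) (vr 2), false)}
  | .e3 a => {(aT (a, true) (vr 0) us (vr 1) (vr 2), false),
      (aT (a, true) (vr 0) us (vr 1) (vr 1), true)}
  | .e4 a => {(aJ a (vr 0) (vr 3), false), (aT (a, true) (vr 0) us (vr 1) (vr 1), false),
      (aB (vr 2) (vr 2), false), (aT (a, true) (vr 0) us (vr 1) (vr 2), true),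
      (aT (a, false) (vr 3) us (vr 1) (vr 2), true)}
  | .m1 σ => lab (vr 0) um ∪ {(aT σ (vr 0) (sl σ um) (vr 1) (vr 2), false)}
  | .m2 σ k => {(aM σ k (vr 0) um (vr 1) (vr 2) (vr 3), false),
      (aT σ (vr 0) (sl σ um) (vr 1) (vr 2), true)}
  | .m3 σ k => {(aM σ k (vr 0) um (vr 1) (vr 2) (vr 3), false),
      (aG k (vr 0) um (vr 1) (vr 3), true)}
  | .m4 σ k k' _ => {(aM σ k (vr 0) um (vr 1) (vr 2) (vr 3), false),
      (aM σ k' (vr 0) um (vr 1) (vr 2) (vr 4), false)}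
  | .m5 σ k => {(aM σ k (vr 0) um (vr 1) (vr 2) (vr 3), false),
      (aM σ k (vr 0) um (vr 1) (vr 2) (vr 4), false), (aB (vr 3) (vr 4), true)}
  | .m6 σ k => {(aM σ k (vr 0) um (vr 1) (vr 2) (vr 3), false), (aB (vr 3) (vr 4), false),
      (aM σ k (vr 0) um (vr 1) (vr 2) (vr 4), true)}
  | .m7 k => {(aG k (vr 0) um (vr 1) (vr 3), false)}
  | .m8 σ σ' _ k => {(aM σ k (vr 0) um (vr 1) (vr 2) (vr 3), false),
      (aM σ' k (vr 0) um (vr 1) (vr 4) (vr 3), false)}
  | .m9 σ k => {(aM σ k (vr 0) um (vr 1) (vr 2) (vr 3), false),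
      (aM σ k (vr 0) um (vr 1) (vr 4) (vr 3), false), (aB (vr 2) (vr 4), true)}
  | .m10 σ k => {(aM σ k (vr 0) um (vr 1) (vr 2) (vr 3), false), (aB (vr 2) (vr 4), false),
      (aM σ k (vr 0) um (vr 1) (vr 4) (vr 3), true)}
  | .m11 σ k => {(aM σ k (vr 0) um (vr 1) (vr 2) (vr 3), false), (aB (vr 2) (vr 2), true)}
  | .m12 σ k => {(aM σ k (vr 0) um (vr 1) (vr 2) (vr 3), false), (aB (vr 3) (vr 3), true)}
  | .g1 k => {(aG k (vr 0) um (vr 1) (vr 3), false), (aX k (vr 0) um (vr 1), true),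
      (aB (vr 4) (vr 4), false), (aG k (vr 0) um (vr 1) (vr 4), true)}
  | .g2 k => {(aG k (vr 0) um (vr 1) (vr 3), false), (aX k (vr 0) um (vr 1), false),
      (aB (vr 3) (vr 1), true)}
  | .g3 k => {(aX k (vr 0) um (vr 1), false), (aG k (vr 0) um (vr 1) (vr 1), true)}
  | .g4 k k' _ => {(aX k (vr 0) um (vr 1), false), (aX k' (vr 0) um (vr 1), false)}
  | .g5 k => {(aX k (vr 0) um (vr 1), false), (aZ (vr 0), true)}
  | .g6 => lab (vr 0) um ∪ {(aZ (vr 0), false), (aB (vr 1) (vr 1), false)} ∪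
      {x | ∃ k, x = (aX k (vr 0) um (vr 1), true)}

/-- The atoms after the existential quantifier of an axiom (`none` is the quantified variable). -/
noncomputable def E0 {d : ℕ} : Code d → Set (Atom (Re d) (Option (V0 d)))
  | .f7 τ => {aF τ (some (vr 0)) none}
  | .z1 => {aZ none}
  | .b1 => {aB none none}
  | .b4 => {aD (some (vr 0)) none}
  | .tp a => {aJ a (some (vr 0)) none}
  | .tn a => {aJ a none (some (vr 0))}
  | .m1 σ => {x | ∃ k, x = aM σ k (some (vr 0)) (fun τ => some (um τ)) (some (vr 1)) (some (vr 2))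
      none}
  | .m7 k => {x | ∃ σ, x = aM σ k (some (vr 0)) (fun τ => some (um τ)) (some (vr 1)) none
      (some (vr 3))}
  | _ => ∅

open Classical in
/-- The axioms. -/
noncomputable def T (d : ℕ) : Set (Ax (Re d)) := {A | ∃ c : Code d, A = mkAx (V0 d) (L0 c) (E0 c)}

section computation

variable {d : ℕ} {P : Type}

/-- The instance in terms of the named variables. -/
private def cl {X : Type} (lits : Set (Atom (Re d) X × Bool)) (ex : Set (Atom (Re d) (Option X)))
    (w : X → P) : Set (Atom (Re d) P × Bool) :=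
  (fun l : Atom (Re d) X × Bool => (amap w l.1, l.2)) '' lits ∪
    {x | ∃ l ∈ ex, ∃ y : P, x = (amap (fun o : Option X => o.elim y w) l, true)}

private theorem inst_cl (X : Type) [Fintype X] (lits : Set (Atom (Re d) X × Bool))
    (ex : Set (Atom (Re d) (Option X))) (v : Fin (mkAx X lits ex).k → P) :
    (mkAx X lits ex).inst v = cl lits ex (fun x => v (Fintype.equivFin X x)) :=
  inst_mkAx X lits ex v

private theorem inst_w (X : Type) [Fintype X] (lits : Set (Atom (Re d) X × Bool))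
    (ex : Set (Atom (Re d) (Option X))) (w : X → P) :
    (mkAx X lits ex).inst (fun i => w ((Fintype.equivFin X).symm i)) = cl lits ex w := by
  rw [inst_cl]
  congr 1
  funext x
  rw [Equiv.symm_apply_apply]

private theorem cl_ex {X : Type} (lits : Set (Atom (Re d) X × Bool)) (w : X → P) :
    cl lits ∅ w = (fun l : Atom (Re d) X × Bool => (amap w l.1, l.2)) '' lits := by
  unfold cl
  have h : {x : Atom (Re d) P × Bool | ∃ l ∈ (∅ : Set (Atom (Re d) (Option X))), ∃ y : P,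
      x = (amap (fun o : Option X => o.elim y w) l, true)} = ∅ := by
    ext x
    simp
  rw [h, Set.union_empty]

private theorem cl_single {X : Type} (lits : Set (Atom (Re d) X × Bool))
    (e : Atom (Re d) (Option X)) (w : X → P) (F : P → Atom (Re d) P)
    (hF : ∀ y, amap (fun o : Option X => o.elim y w) e = F y) :
    cl lits {e} w = (fun l : Atom (Re d) X × Bool => (amap w l.1, l.2)) '' lits ∪
      {x | ∃ y, x = (F y, true)} := by
  unfold cl
  congr 1
  ext x
  constructor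
  · rintro ⟨l, rfl, y, rfl⟩
    exact ⟨y, by rw [hF]⟩
  · rintro ⟨y, rfl⟩
    exact ⟨e, rfl, y, by rw [hF]⟩

private theorem cl_fam {X K : Type} (lits : Set (Atom (Re d) X × Bool))
    (e : K → Atom (Re d) (Option X)) (w : X → P) (F : K → P → Atom (Re d) P)
    (hF : ∀ k y, amap (fun o : Option X => o.elim y w) (e k) = F k y) :
    cl lits {x | ∃ k, x = e k} w = (fun l : Atom (Re d) X × Bool => (amap w l.1, l.2)) '' lits ∪
      {x | ∃ k y, x = (F k y, true)} := by
  unfold cl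
  congr 1
  ext x
  constructor
  · rintro ⟨l, ⟨k, rfl⟩, y, rfl⟩
    exact ⟨k, y, by rw [hF]⟩
  · rintro ⟨k, y, rfl⟩
    exact ⟨e k, ⟨k, rfl⟩, y, by rw [hF]⟩

private theorem im_lab {X : Type} (w : X → P) (q : X) (u : Sym2 (Slot d) → X) :
    (fun l : Atom (Re d) X × Bool => (amap w l.1, l.2)) '' lab q u = lab (w q) (fun τ => w (u τ)) := by
  ext x
  constructor
  · rintro ⟨l, ⟨τ, rfl⟩, rfl⟩
    exact ⟨τ, Prod.ext (map_aF _ _ _ _) rfl⟩
  · rintro ⟨τ, rfl⟩
    exact ⟨_, ⟨τ, rfl⟩, Prod.ext (map_aF _ _ _ _) rfl⟩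

private theorem im_aX {X : Type} (w : X → P) (q : X) (u : Sym2 (Slot d) → X) (z : X) :
    (fun l : Atom (Re d) X × Bool => (amap w l.1, l.2)) '' {x | ∃ k, x = (aX k q u z, true)} =
      {x | ∃ k, x = (aX k (w q) (fun τ => w (u τ)) (w z), true)} := by
  ext x
  constructor
  · rintro ⟨l, ⟨k, rfl⟩, rfl⟩
    exact ⟨k, Prod.ext (map_aX _ _ _ _ _) rfl⟩
  · rintro ⟨k, rfl⟩
    exact ⟨_, ⟨k, rfl⟩, Prod.ext (map_aX _ _ _ _ _) rfl⟩

/-- The clauses in terms of the valuation. -/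
private noncomputable def R0 (w : V0 d → P) : Code d → Set (Atom (Re d) P × Bool)
  | .er => {(aE (w (vr 0)) (w (vr 0)), true)}
  | .es => {(aE (w (vr 0)) (w (vr 1)), false), (aE (w (vr 1)) (w (vr 0)), true)}
  | .et => {(aE (w (vr 0)) (w (vr 1)), false), (aE (w (vr 1)) (w (vr 2)), false), (aE (w (vr 0)) (w (vr 2)), true)}
  | .jf a => {(aJ a (w (vr 0)) (w (vr 1)), false), (aJ a (w (vr 0)) (w (vr 2)), false), (aE (w (vr 1)) (w (vr 2)), true)}
  | .ji a => {(aJ a (w (vr 0)) (w (vr 2)), false), (aJ a (w (vr 1)) (w (vr 2)), false), (aE (w (vr 0)) (w (vr 1)), true)}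
  | .je a => {(aJ a (w (vr 0)) (w (vr 1)), false), (aE (w (vr 0)) (w (vr 2)), false), (aE (w (vr 1)) (w (vr 3)), false),
      (aJ a (w (vr 2)) (w (vr 3)), true)}
  | .f6 a t b => {(aJ a (w (vr 0)) (w (vr 1)), false),
      (aF s((a, b), t) (if b then w (vr 0) else w (vr 1)) (w (vr 2)), false),
      (aF s((a, !b), t) (if b then w (vr 1) else w (vr 0)) (w (vr 2)), true)}
  | .f7 τ => {x | ∃ u, x = (aF τ (w (vr 0)) u, true)}
  | .z1 => {x | ∃ y, x = (aZ y, true)}
  | .z2 => {(aZ (w (vr 0)), false), (aZ (w (vr 1)), false), (aE (w (vr 0)) (w (vr 1)), true)}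
  | .z3 => {(aZ (w (vr 0)), false), (aE (w (vr 0)) (w (vr 1)), false), (aZ (w (vr 1)), true)}
  | .b1 => {x | ∃ y, x = (aB y y, true)}
  | .b2 => {(aB (w (vr 0)) (w (vr 1)), false), (aB (w (vr 1)) (w (vr 0)), true)}
  | .b3 => {(aB (w (vr 0)) (w (vr 1)), false), (aB (w (vr 1)) (w (vr 2)), false), (aB (w (vr 0)) (w (vr 2)), true)}
  | .b4 => ({(aB (w (vr 0)) (w (vr 0)), false)} ∪ {l | ∃ y, l = (aD (w (vr 0)) y, true)})
  | .b5 => {(aD (w (vr 0)) (w (vr 1)), false), (aB (w (vr 1)) (w (vr 1)), true)}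
  | .b6 => {(aD (w (vr 0)) (w (vr 1)), false), (aB (w (vr 0)) (w (vr 1)), false)}
  | .tp a => ({(aT (a, true) (w (vr 0)) (fun t => w (us t)) (w (vr 1)) (w (vr 2)), false)} ∪ {x | ∃ q', x = (aJ a (w (vr 0)) q', true)})
  | .tn a => ({(aT (a, false) (w (vr 0)) (fun t => w (us t)) (w (vr 1)) (w (vr 2)), false)} ∪ {x | ∃ q', x = (aJ a q' (w (vr 0)), true)})
  | .e1 a => {(aJ a (w (vr 0)) (w (vr 3)), false), (aT (a, false) (w (vr 3)) (fun t => w (us t)) (w (vr 1)) (w (vr 2)), false),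
      (aT (a, true) (w (vr 0)) (fun t => w (us t)) (w (vr 1)) (w (vr 1)), true)}
  | .e2 a => {(aJ a (w (vr 0)) (w (vr 3)), false), (aT (a, false) (w (vr 3)) (fun t => w (us t)) (w (vr 1)) (w (vr 2)), false),
      (aT (a, true) (w (vr 0)) (fun t => w (us t)) (w (vr 1)) (w (vr 2)), false)}
  | .e3 a => {(aT (a, true) (w (vr 0)) (fun t => w (us t)) (w (vr 1)) (w (vr 2)), false),
      (aT (a, true) (w (vr 0)) (fun t => w (us t)) (w (vr 1)) (w (vr 1)), true)}
  | .e4 a => {(aJ a (w (vr 0)) (w (vr 3)), false), (aT (a, true) (w (vr 0)) (fun t => w (us t)) (w (vr 1)) (w (vr 1)), false),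
      (aB (w (vr 2)) (w (vr 2)), false), (aT (a, true) (w (vr 0)) (fun t => w (us t)) (w (vr 1)) (w (vr 2)), true),
      (aT (a, false) (w (vr 3)) (fun t => w (us t)) (w (vr 1)) (w (vr 2)), true)}
  | .m1 σ => (lab (w (vr 0)) (fun τ => w (um τ)) ∪ {(aT σ (w (vr 0)) (sl σ (fun τ => w (um τ))) (w (vr 1)) (w (vr 2)), false)} ∪
      {x | ∃ k y', x = (aM σ k (w (vr 0)) (fun τ => w (um τ)) (w (vr 1)) (w (vr 2)) y', true)})
  | .m2 σ k => {(aM σ k (w (vr 0)) (fun τ => w (um τ)) (w (vr 1)) (w (vr 2)) (w (vr 3)), false),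
      (aT σ (w (vr 0)) (sl σ (fun τ => w (um τ))) (w (vr 1)) (w (vr 2)), true)}
  | .m3 σ k => {(aM σ k (w (vr 0)) (fun τ => w (um τ)) (w (vr 1)) (w (vr 2)) (w (vr 3)), false),
      (aG k (w (vr 0)) (fun τ => w (um τ)) (w (vr 1)) (w (vr 3)), true)}
  | .m4 σ k k' _ => {(aM σ k (w (vr 0)) (fun τ => w (um τ)) (w (vr 1)) (w (vr 2)) (w (vr 3)), false),
      (aM σ k' (w (vr 0)) (fun τ => w (um τ)) (w (vr 1)) (w (vr 2)) (w (vr 4)), false)}
  | .m5 σ k => {(aM σ k (w (vr 0)) (fun τ => w (um τ)) (w (vr 1)) (w (vr 2)) (w (vr 3)), false),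
      (aM σ k (w (vr 0)) (fun τ => w (um τ)) (w (vr 1)) (w (vr 2)) (w (vr 4)), false), (aB (w (vr 3)) (w (vr 4)), true)}
  | .m6 σ k => {(aM σ k (w (vr 0)) (fun τ => w (um τ)) (w (vr 1)) (w (vr 2)) (w (vr 3)), false), (aB (w (vr 3)) (w (vr 4)), false),
      (aM σ k (w (vr 0)) (fun τ => w (um τ)) (w (vr 1)) (w (vr 2)) (w (vr 4)), true)}
  | .m7 k => ({(aG k (w (vr 0)) (fun τ => w (um τ)) (w (vr 1)) (w (vr 3)), false)} ∪
      {x | ∃ σ y, x = (aM σ k (w (vr 0)) (fun τ => w (um τ)) (w (vr 1)) y (w (vr 3)), true)})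
  | .m8 σ σ' _ k => {(aM σ k (w (vr 0)) (fun τ => w (um τ)) (w (vr 1)) (w (vr 2)) (w (vr 3)), false),
      (aM σ' k (w (vr 0)) (fun τ => w (um τ)) (w (vr 1)) (w (vr 4)) (w (vr 3)), false)}
  | .m9 σ k => {(aM σ k (w (vr 0)) (fun τ => w (um τ)) (w (vr 1)) (w (vr 2)) (w (vr 3)), false),
      (aM σ k (w (vr 0)) (fun τ => w (um τ)) (w (vr 1)) (w (vr 4)) (w (vr 3)), false), (aB (w (vr 2)) (w (vr 4)), true)}
  | .m10 σ k => {(aM σ k (w (vr 0)) (fun τ => w (um τ)) (w (vr 1)) (w (vr 2)) (w (vr 3)), false), (aB (w (vr 2)) (w (vr 4)), false),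
      (aM σ k (w (vr 0)) (fun τ => w (um τ)) (w (vr 1)) (w (vr 4)) (w (vr 3)), true)}
  | .m11 σ k => {(aM σ k (w (vr 0)) (fun τ => w (um τ)) (w (vr 1)) (w (vr 2)) (w (vr 3)), false), (aB (w (vr 2)) (w (vr 2)), true)}
  | .m12 σ k => {(aM σ k (w (vr 0)) (fun τ => w (um τ)) (w (vr 1)) (w (vr 2)) (w (vr 3)), false), (aB (w (vr 3)) (w (vr 3)), true)}
  | .g1 k => {(aG k (w (vr 0)) (fun τ => w (um τ)) (w (vr 1)) (w (vr 3)), false), (aX k (w (vr 0)) (fun τ => w (um τ)) (w (vr 1)), true),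
      (aB (w (vr 4)) (w (vr 4)), false), (aG k (w (vr 0)) (fun τ => w (um τ)) (w (vr 1)) (w (vr 4)), true)}
  | .g2 k => {(aG k (w (vr 0)) (fun τ => w (um τ)) (w (vr 1)) (w (vr 3)), false), (aX k (w (vr 0)) (fun τ => w (um τ)) (w (vr 1)), false),
      (aB (w (vr 3)) (w (vr 1)), true)}
  | .g3 k => {(aX k (w (vr 0)) (fun τ => w (um τ)) (w (vr 1)), false), (aG k (w (vr 0)) (fun τ => w (um τ)) (w (vr 1)) (w (vr 1)), true)}
  | .g4 k k' _ => {(aX k (w (vr 0)) (fun τ => w (um τ)) (w (vr 1)), false), (aX k' (w (vr 0)) (fun τ => w (um τ)) (w (vr 1)), false)}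
  | .g5 k => {(aX k (w (vr 0)) (fun τ => w (um τ)) (w (vr 1)), false), (aZ (w (vr 0)), true)}
  | .g6 => lab (w (vr 0)) (fun τ => w (um τ)) ∪ {(aZ (w (vr 0)), false), (aB (w (vr 1)) (w (vr 1)), false)} ∪
      {x | ∃ k, x = (aX k (w (vr 0)) (fun τ => w (um τ)) (w (vr 1)), true)}

private theorem comp (w : V0 d → P) (c : Code d) : cl (L0 c) (E0 c) w = R0 w c := by
  cases c
  · simp only [L0, E0, R0, cl_ex, Set.image_insert_eq, Set.image_singleton, map_aZ, map_aE, map_aJ, map_aF, map_aB, map_aD, map_aT, map_aM, map_aG, map_aX]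
  · simp only [L0, E0, R0, cl_ex, Set.image_insert_eq, Set.image_singleton, map_aZ, map_aE, map_aJ, map_aF, map_aB, map_aD, map_aT, map_aM, map_aG, map_aX]
  · simp only [L0, E0, R0, cl_ex, Set.image_insert_eq, Set.image_singleton, map_aZ, map_aE, map_aJ, map_aF, map_aB, map_aD, map_aT, map_aM, map_aG, map_aX]
  · simp only [L0, E0, R0, cl_ex, Set.image_insert_eq, Set.image_singleton, map_aZ, map_aE, map_aJ, map_aF, map_aB, map_aD, map_aT, map_aM, map_aG, map_aX]
  · simp only [L0, E0, R0, cl_ex, Set.image_insert_eq, Set.image_singleton, map_aZ, map_aE, map_aJ, map_aF, map_aB, map_aD, map_aT, map_aM, map_aG, map_aX]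
  · simp only [L0, E0, R0, cl_ex, Set.image_insert_eq, Set.image_singleton, map_aZ, map_aE, map_aJ, map_aF, map_aB, map_aD, map_aT, map_aM, map_aG, map_aX]
  · simp only [L0, E0, R0]
    rw [cl_ex, Set.image_insert_eq, Set.image_pair, map_aJ, map_aF, map_aF, apply_ite w, apply_ite w]
  · rw [L0, E0, R0, cl_single _ _ w (fun y => aF _ (w (vr 0)) y) (fun y => by rw [map_aF]; rfl), Set.image_empty, Set.empty_union]
  · rw [L0, E0, R0, cl_single _ _ w (fun y => aZ y) (fun y => by rw [map_aZ]; rfl), Set.image_empty, Set.empty_union]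
  · simp only [L0, E0, R0, cl_ex, Set.image_insert_eq, Set.image_singleton, map_aZ, map_aE, map_aJ, map_aF, map_aB, map_aD, map_aT, map_aM, map_aG, map_aX]
  · simp only [L0, E0, R0, cl_ex, Set.image_insert_eq, Set.image_singleton, map_aZ, map_aE, map_aJ, map_aF, map_aB, map_aD, map_aT, map_aM, map_aG, map_aX]
  · rw [L0, E0, R0, cl_single _ _ w (fun y => aB y y) (fun y => by rw [map_aB]; rfl), Set.image_empty, Set.empty_union]
  · simp only [L0, E0, R0, cl_ex, Set.image_insert_eq, Set.image_singleton, map_aZ, map_aE, map_aJ, map_aF, map_aB, map_aD, map_aT, map_aM, map_aG, map_aX]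
  · simp only [L0, E0, R0, cl_ex, Set.image_insert_eq, Set.image_singleton, map_aZ, map_aE, map_aJ, map_aF, map_aB, map_aD, map_aT, map_aM, map_aG, map_aX]
  · rw [L0, E0, R0, cl_single _ _ w (fun y => aD (w (vr 0)) y) (fun y => by rw [map_aD]; rfl), Set.image_singleton, map_aB]
  · simp only [L0, E0, R0, cl_ex, Set.image_insert_eq, Set.image_singleton, map_aZ, map_aE, map_aJ, map_aF, map_aB, map_aD, map_aT, map_aM, map_aG, map_aX]
  · simp only [L0, E0, R0, cl_ex, Set.image_insert_eq, Set.image_singleton, map_aZ, map_aE, map_aJ, map_aF, map_aB, map_aD, map_aT, map_aM, map_aG, map_aX]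
  · rw [L0, E0, R0, cl_single _ _ w (fun y => aJ _ (w (vr 0)) y) (fun y => by rw [map_aJ]; rfl), Set.image_singleton, map_aT]
  · rw [L0, E0, R0, cl_single _ _ w (fun y => aJ _ y (w (vr 0))) (fun y => by rw [map_aJ]; rfl), Set.image_singleton, map_aT]
  · simp only [L0, E0, R0, cl_ex, Set.image_insert_eq, Set.image_singleton, map_aZ, map_aE, map_aJ, map_aF, map_aB, map_aD, map_aT, map_aM, map_aG, map_aX]
  · simp only [L0, E0, R0, cl_ex, Set.image_insert_eq, Set.image_singleton, map_aZ, map_aE, map_aJ, map_aF, map_aB, map_aD, map_aT, map_aM, map_aG, map_aX]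
  · simp only [L0, E0, R0, cl_ex, Set.image_insert_eq, Set.image_singleton, map_aZ, map_aE, map_aJ, map_aF, map_aB, map_aD, map_aT, map_aM, map_aG, map_aX]
  · simp only [L0, E0, R0, cl_ex, Set.image_insert_eq, Set.image_singleton, map_aZ, map_aE, map_aJ, map_aF, map_aB, map_aD, map_aT, map_aM, map_aG, map_aX]
  · rw [L0, E0, R0, cl_fam _ _ w (fun k y => aM _ k (w (vr 0)) (fun τ => w (um τ)) (w (vr 1)) (w (vr 2)) y)
      (fun k y => by rw [map_aM]; rfl), Set.image_union, im_lab, Set.image_singleton, map_aT]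
    rfl
  · simp only [L0, E0, R0, cl_ex, Set.image_insert_eq, Set.image_singleton, map_aZ, map_aE, map_aJ, map_aF, map_aB, map_aD, map_aT, map_aM, map_aG, map_aX]
    rfl
  · simp only [L0, E0, R0, cl_ex, Set.image_insert_eq, Set.image_singleton, map_aZ, map_aE, map_aJ, map_aF, map_aB, map_aD, map_aT, map_aM, map_aG, map_aX]
  · simp only [L0, E0, R0, cl_ex, Set.image_insert_eq, Set.image_singleton, map_aZ, map_aE, map_aJ, map_aF, map_aB, map_aD, map_aT, map_aM, map_aG, map_aX]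
  · simp only [L0, E0, R0, cl_ex, Set.image_insert_eq, Set.image_singleton, map_aZ, map_aE, map_aJ, map_aF, map_aB, map_aD, map_aT, map_aM, map_aG, map_aX]
  · simp only [L0, E0, R0, cl_ex, Set.image_insert_eq, Set.image_singleton, map_aZ, map_aE, map_aJ, map_aF, map_aB, map_aD, map_aT, map_aM, map_aG, map_aX]
  · rw [L0, E0, R0, cl_fam _ _ w (fun k y => aM k _ (w (vr 0)) (fun τ => w (um τ)) (w (vr 1)) y (w (vr 3)))
      (fun k y => by rw [map_aM]; rfl), Set.image_singleton, map_aG]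
  · simp only [L0, E0, R0, cl_ex, Set.image_insert_eq, Set.image_singleton, map_aZ, map_aE, map_aJ, map_aF, map_aB, map_aD, map_aT, map_aM, map_aG, map_aX]
  · simp only [L0, E0, R0, cl_ex, Set.image_insert_eq, Set.image_singleton, map_aZ, map_aE, map_aJ, map_aF, map_aB, map_aD, map_aT, map_aM, map_aG, map_aX]
  · simp only [L0, E0, R0, cl_ex, Set.image_insert_eq, Set.image_singleton, map_aZ, map_aE, map_aJ, map_aF, map_aB, map_aD, map_aT, map_aM, map_aG, map_aX]
  · simp only [L0, E0, R0, cl_ex, Set.image_insert_eq, Set.image_singleton, map_aZ, map_aE, map_aJ, map_aF, map_aB, map_aD, map_aT, map_aM, map_aG, map_aX]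
  · simp only [L0, E0, R0, cl_ex, Set.image_insert_eq, Set.image_singleton, map_aZ, map_aE, map_aJ, map_aF, map_aB, map_aD, map_aT, map_aM, map_aG, map_aX]
  · simp only [L0, E0, R0, cl_ex, Set.image_insert_eq, Set.image_singleton, map_aZ, map_aE, map_aJ, map_aF, map_aB, map_aD, map_aT, map_aM, map_aG, map_aX]
  · simp only [L0, E0, R0, cl_ex, Set.image_insert_eq, Set.image_singleton, map_aZ, map_aE, map_aJ, map_aF, map_aB, map_aD, map_aT, map_aM, map_aG, map_aX]
  · simp only [L0, E0, R0, cl_ex, Set.image_insert_eq, Set.image_singleton, map_aZ, map_aE, map_aJ, map_aF, map_aB, map_aD, map_aT, map_aM, map_aG, map_aX]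
  · simp only [L0, E0, R0, cl_ex, Set.image_insert_eq, Set.image_singleton, map_aZ, map_aE, map_aJ, map_aF, map_aB, map_aD, map_aT, map_aM, map_aG, map_aX]
  · simp only [L0, E0, R0, cl_ex, Set.image_insert_eq, Set.image_singleton, map_aZ, map_aE, map_aJ, map_aF, map_aB, map_aD, map_aT, map_aM, map_aG, map_aX]
  · simp only [L0, E0, R0]
    rw [cl_ex, Set.image_union, Set.image_union, im_lab, im_aX, Set.image_pair, map_aZ, map_aB]

private theorem mk_mem (c : Code d) (w : V0 d → P) {Λ : Set (Atom (Re d) P × Bool)} (h : R0 w c = Λ) :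
    ∃ A ∈ T d, ∃ v : Fin A.k → P, A.inst v = Λ := by
  unfold T
  refine ⟨_, ⟨c, rfl⟩, _, (inst_w _ _ _ w).trans ?_⟩
  rw [comp, h]

end computation

theorem T_ins {d : ℕ} {P : Type} (A : Ax (Re d)) (hA : A ∈ T d) (v : Fin A.k → P) :
    Ins (A.inst v) := by
  obtain ⟨c, rfl⟩ := hA
  rw [inst_cl, comp]
  generalize (fun x => v (Fintype.equivFin (V0 d) x)) = w
  cases c
  · exact Ins.er _
  · exact Ins.es _ _
  · exact Ins.et _ _ _
  · exact Ins.jf _ _ _ _
  · exact Ins.ji _ _ _ _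
  · exact Ins.je _ _ _ _ _
  · exact Ins.f6 _ _ _ _ _ _
  · exact Ins.f7 _ _
  · exact Ins.z1
  · exact Ins.z2 _ _
  · exact Ins.z3 _ _
  · exact Ins.b1
  · exact Ins.b2 _ _
  · exact Ins.b3 _ _ _
  · exact Ins.b4 _
  · exact Ins.b5 _ _
  · exact Ins.b6 _ _
  · exact Ins.tp _ _ _ _ _
  · exact Ins.tn _ _ _ _ _
  · exact Ins.e1 _ _ _ _ _ _
  · exact Ins.e2 _ _ _ _ _ _
  · exact Ins.e3 _ _ _ _ _
  · exact Ins.e4 _ _ _ _ _ _
  · exact Ins.m1 _ _ _ _ _
  · exact Ins.m2 _ _ _ _ _ _ _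
  · exact Ins.m3 _ _ _ _ _ _ _
  · exact Ins.m4 _ _ _ (by assumption) _ _ _ _ _ _
  · exact Ins.m5 _ _ _ _ _ _ _ _
  · exact Ins.m6 _ _ _ _ _ _ _ _
  · exact Ins.m7 _ _ _ _ _
  · exact Ins.m8 _ _ (by assumption) _ _ _ _ _ _ _
  · exact Ins.m9 _ _ _ _ _ _ _ _
  · exact Ins.m10 _ _ _ _ _ _ _ _
  · exact Ins.m11 _ _ _ _ _ _ _
  · exact Ins.m12 _ _ _ _ _ _ _
  · exact Ins.g1 _ _ _ _ _ _
  · exact Ins.g2 _ _ _ _ _
  · exact Ins.g3 _ _ _ _
  · exact Ins.g4 _ _ (by assumption) _ _ _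
  · exact Ins.g5 _ _ _ _
  · exact Ins.g6 _ _ _

theorem ins_T {d : ℕ} {P : Type} [Nonempty P] (Λ : Set (Atom (Re d) P × Bool)) (h : Ins Λ) :
    ∃ A ∈ T d, ∃ v : Fin A.k → P, A.inst v = Λ := by
  obtain ⟨p0⟩ := (inferInstance : Nonempty P)
  cases h with
  | er x => exact mk_mem .er (Sum.elim (fun _ => p0) (Sum.elim (fun _ => p0) ![x, p0, p0, p0, p0, p0])) rfl
  | es x y => exact mk_mem .es (Sum.elim (fun _ => p0) (Sum.elim (fun _ => p0) ![x, y, p0, p0, p0, p0])) rfl
  | et x y z => exact mk_mem .et (Sum.elim (fun _ => p0) (Sum.elim (fun _ => p0) ![x, y, z, p0, p0, p0])) rfl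
  | jf a x y z => exact mk_mem (.jf a) (Sum.elim (fun _ => p0) (Sum.elim (fun _ => p0) ![x, y, z, p0, p0, p0])) rfl
  | ji a x y z => exact mk_mem (.ji a) (Sum.elim (fun _ => p0) (Sum.elim (fun _ => p0) ![x, y, z, p0, p0, p0])) rfl
  | je a x y x' y' => exact mk_mem (.je a) (Sum.elim (fun _ => p0) (Sum.elim (fun _ => p0) ![x, y, x', y', p0, p0])) rfl
  | f6 a t b q q' u => exact mk_mem (.f6 a t b) (Sum.elim (fun _ => p0) (Sum.elim (fun _ => p0) ![q, q', u, p0, p0, p0])) rfl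
  | f7 τ q => exact mk_mem (.f7 τ) (Sum.elim (fun _ => p0) (Sum.elim (fun _ => p0) ![q, p0, p0, p0, p0, p0])) rfl
  | z1 => exact mk_mem .z1 (Sum.elim (fun _ => p0) (Sum.elim (fun _ => p0) ![p0, p0, p0, p0, p0, p0])) rfl
  | z2 x y => exact mk_mem .z2 (Sum.elim (fun _ => p0) (Sum.elim (fun _ => p0) ![x, y, p0, p0, p0, p0])) rfl
  | z3 x y => exact mk_mem .z3 (Sum.elim (fun _ => p0) (Sum.elim (fun _ => p0) ![x, y, p0, p0, p0, p0])) rfl
  | b1 => exact mk_mem .b1 (Sum.elim (fun _ => p0) (Sum.elim (fun _ => p0) ![p0, p0, p0, p0, p0, p0])) rfl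
  | b2 x y => exact mk_mem .b2 (Sum.elim (fun _ => p0) (Sum.elim (fun _ => p0) ![x, y, p0, p0, p0, p0])) rfl
  | b3 x y z => exact mk_mem .b3 (Sum.elim (fun _ => p0) (Sum.elim (fun _ => p0) ![x, y, z, p0, p0, p0])) rfl
  | b4 x => exact mk_mem .b4 (Sum.elim (fun _ => p0) (Sum.elim (fun _ => p0) ![x, p0, p0, p0, p0, p0])) rfl
  | b5 x y => exact mk_mem .b5 (Sum.elim (fun _ => p0) (Sum.elim (fun _ => p0) ![x, y, p0, p0, p0, p0])) rfl
  | b6 x y => exact mk_mem .b6 (Sum.elim (fun _ => p0) (Sum.elim (fun _ => p0) ![x, y, p0, p0, p0, p0])) rfl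
  | tp a q u z y => exact mk_mem (.tp a) (Sum.elim u (Sum.elim (fun _ => p0) ![q, z, y, p0, p0, p0])) rfl
  | tn a q u z y => exact mk_mem (.tn a) (Sum.elim u (Sum.elim (fun _ => p0) ![q, z, y, p0, p0, p0])) rfl
  | e1 a q q' u z y => exact mk_mem (.e1 a) (Sum.elim u (Sum.elim (fun _ => p0) ![q, z, y, q', p0, p0])) rfl
  | e2 a q q' u z y => exact mk_mem (.e2 a) (Sum.elim u (Sum.elim (fun _ => p0) ![q, z, y, q', p0, p0])) rfl
  | e3 a q u z y => exact mk_mem (.e3 a) (Sum.elim u (Sum.elim (fun _ => p0) ![q, z, y, p0, p0, p0])) rfl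
  | e4 a q q' u z y => exact mk_mem (.e4 a) (Sum.elim u (Sum.elim (fun _ => p0) ![q, z, y, q', p0, p0])) rfl
  | m1 σ q u z y => exact mk_mem (.m1 σ) (Sum.elim (fun _ => p0) (Sum.elim u ![q, z, y, p0, p0, p0])) rfl
  | m2 σ k q u z y y' => exact mk_mem (.m2 σ k) (Sum.elim (fun _ => p0) (Sum.elim u ![q, z, y, y', p0, p0])) rfl
  | m3 σ k q u z y y' => exact mk_mem (.m3 σ k) (Sum.elim (fun _ => p0) (Sum.elim u ![q, z, y, y', p0, p0])) rfl
  | m4 σ k k' h q u z y y' y'' => exact mk_mem (.m4 σ k k' h) (Sum.elim (fun _ => p0) (Sum.elim u ![q, z, y, y', y'', p0])) rfl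
  | m5 σ k q u z y y' y'' => exact mk_mem (.m5 σ k) (Sum.elim (fun _ => p0) (Sum.elim u ![q, z, y, y', y'', p0])) rfl
  | m6 σ k q u z y y' y'' => exact mk_mem (.m6 σ k) (Sum.elim (fun _ => p0) (Sum.elim u ![q, z, y, y', y'', p0])) rfl
  | m7 k q u z y' => exact mk_mem (.m7 k) (Sum.elim (fun _ => p0) (Sum.elim u ![q, z, p0, y', p0, p0])) rfl
  | m8 σ σ' h k q u z y y' y'' => exact mk_mem (.m8 σ σ' h k) (Sum.elim (fun _ => p0) (Sum.elim u ![q, z, y, y', y'', p0])) rfl
  | m9 σ k q u z y y' y'' => exact mk_mem (.m9 σ k) (Sum.elim (fun _ => p0) (Sum.elim u ![q, z, y, y', y'', p0])) rfl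
  | m10 σ k q u z y y' y'' => exact mk_mem (.m10 σ k) (Sum.elim (fun _ => p0) (Sum.elim u ![q, z, y, y', y'', p0])) rfl
  | m11 σ k q u z y y' => exact mk_mem (.m11 σ k) (Sum.elim (fun _ => p0) (Sum.elim u ![q, z, y, y', p0, p0])) rfl
  | m12 σ k q u z y y' => exact mk_mem (.m12 σ k) (Sum.elim (fun _ => p0) (Sum.elim u ![q, z, y, y', p0, p0])) rfl
  | g1 k q u z y' y'' => exact mk_mem (.g1 k) (Sum.elim (fun _ => p0) (Sum.elim u ![q, z, p0, y', y'', p0])) rfl
  | g2 k q u z y' => exact mk_mem (.g2 k) (Sum.elim (fun _ => p0) (Sum.elim u ![q, z, p0, y', p0, p0])) rfl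
  | g3 k q u z => exact mk_mem (.g3 k) (Sum.elim (fun _ => p0) (Sum.elim u ![q, z, p0, p0, p0, p0])) rfl
  | g4 k k' h q u z => exact mk_mem (.g4 k k' h) (Sum.elim (fun _ => p0) (Sum.elim u ![q, z, p0, p0, p0, p0])) rfl
  | g5 k q u z => exact mk_mem (.g5 k) (Sum.elim (fun _ => p0) (Sum.elim u ![q, z, p0, p0, p0, p0])) rfl
  | g6 q u z => exact mk_mem .g6 (Sum.elim (fun _ => p0) (Sum.elim u ![q, z, p0, p0, p0, p0])) rfl

theorem T_finite (d : ℕ) : (T d).Finite := by
  have := atom_finite (d := d) (P := V0 d)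
  have := atom_finite (d := d) (P := Option (V0 d))
  refine (Set.finite_range (fun x : Set (Atom (Re d) (V0 d) × Bool) × Set (Atom (Re d) (Option (V0 d))) =>
    mkAx (V0 d) x.1 x.2)).subset ?_
  rintro A ⟨c, rfl⟩
  exact ⟨(L0 c, E0 c), rfl⟩

theorem T_lits {d : ℕ} (A : Ax (Re d)) (hA : A ∈ T d) : A.lits.Finite ∧ A.ex.Finite := by
  have := atom_finite (d := d) (P := V0 d)
  have := atom_finite (d := d) (P := Option (V0 d))
  obtain ⟨c, rfl⟩ := hA
  exact ⟨(Set.toFinite (L0 c)).image _, (Set.toFinite (E0 c)).image _⟩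

end Pool.Agent.H79.CQ
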