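import Pool.Agent.H42.CS.Deb
import Pool.Agent.H79.CQ.Axs

/-!
# The circuit of the short refutation

Nodes (`z` is a fixed point of the reference cell): the variables; `rep q`: `q` is the least point of its
class; `ra y`: `y` is the least point of its block in the reference cell; `mi τ q u`: `u` is the least label;
`yy z σ k q y y'`: false if and only if `M σ k q u z y y'` for the least labels `u`; the items `it z x`.
Groups of items: `Gp`: pairs `(a, q, q')` and vertices with a number `(q, k)`; every item is in one group of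
each kind, and in the part `sub` of it.

PROOFS. `Nd_finite`, `Nd_card`: `Nd d n` is the image of (or injects into) a product of finite types whose
cardinalities are bounded by `n ^ c` with `c` depending on `d` only (see `H42/CS/Cir`: `dec`, `dec_surj`,
`Nd_card`); `Fin (NI d n + n + 1)` with `NI d n = 4 * d ^ 2 * n ^ 4`; the functions `Slot d → Fin n`,
`Sym2 (Slot d) → Fin n` are `n ^ (2 d)`, `n ^ card`. `rk_lt`: by cases.
-/

set_option autoImplicit false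
set_option linter.unusedSectionVars false

namespace Pool.Agent.H79.CQ

open Pool.Agent.H42.CS (Pt Ed Sq un inB isE isS Slot off ed sq Ax Atom Lit Gate Circuit Step
  Refutation Der Pn Dn bs)

/-- The items. -/
structure Itm (d n : ℕ) : Type where
  b : Bool
  a : Fin d
  q : Fin n
  q' : Fin n
  y : Fin n
  k : Fin (2 * d)
  y' : Fin n

/-- The groups of items. -/
inductive Gp (d n : ℕ) : Type
  | pair (a : Fin d) (q q' : Fin n)
  | vert (q : Fin n) (k : Fin (2 * d))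

section

variable {d n : ℕ}

/-- The vertex of an item. -/
def Itm.vx (x : Itm d n) : Fin n := if x.b then x.q else x.q'

/-- The kind of a group. -/
def Gp.kd : Gp d n → Bool
  | .pair _ _ _ => true
  | .vert _ _ => false

/-- The group of an item. -/
def gr (κ : Bool) (x : Itm d n) : Gp d n := if κ then .pair x.a x.q x.q' else .vert x.vx x.k

/-- The part of the group of an item. -/
def sub (κ : Bool) (x : Itm d n) : Fin n := if κ then x.y else x.y'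

/-- The number of the items. -/
def NI (d n : ℕ) : ℕ := 4 * d ^ 2 * n ^ 4

/-- The numbers which occur. -/
abbrev Cn (d n : ℕ) : Type := Fin (NI d n + n + 1)

end

/-- The nodes. -/
inductive Nd (d n : ℕ) : Type
  | vZ (q : Fin n)
  | vE (q q' : Fin n)
  | vJ (a : Fin d) (q q' : Fin n)
  | vF (τ : Sym2 (Slot d)) (q u : Fin n)
  | vB (y y' : Fin n)
  | vD (y y' : Fin n)
  | vT (σ : Slot d) (q : Fin n) (u : Slot d → Fin n) (z y : Fin n)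
  | vM (σ : Slot d) (k : Fin (2 * d)) (q : Fin n) (u : Sym2 (Slot d) → Fin n) (z y y' : Fin n)
  | vG (k : Fin (2 * d)) (q : Fin n) (u : Sym2 (Slot d) → Fin n) (z y' : Fin n)
  | vX (k : Fin (2 * d)) (q : Fin n) (u : Sym2 (Slot d) → Fin n) (z : Fin n)
  | rep (q : Fin n)
  | ra (y : Fin n)
  | mi (τ : Sym2 (Slot d)) (q u : Fin n)
  | mm (z : Fin n) (σ : Slot d) (k : Fin (2 * d)) (q y y' : Fin n) (u : Sym2 (Slot d) → Fin n)
  | yy (z : Fin n) (σ : Slot d) (k : Fin (2 * d)) (q y y' : Fin n)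
  | it (z : Fin n) (x : Itm d n)
  | u1 (z : Fin n) (b : Bool) (w : Itm d n ⊕ Fin n)
  | pz (z : Fin n) (g : Gp d n) (y : Fin n) (w : Option (Itm d n ⊕ Fin n))
  | ee (z : Fin n) (g : Gp d n) (y : Fin n)
  | pe (z : Fin n) (g : Gp d n)
  | tt (z : Fin n) (c : Cn d n) (g : Gp d n)
  | nr (c : Fin (n + 1))
  | ss (z : Fin n) (c : Cn d n) (g : Gp d n)
  | ps (z : Fin n) (c : Cn d n) (m : Fin (n + 1)) (g : Gp d n)
  | ww (z : Fin n) (m : Fin (n + 1)) (g : Gp d n)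
  | pn (z : Fin n) (g : Gp d n) (w : Option (Itm d n))
  | s0 (z : Fin n) (b : Bool) (c : Cn d n) (g : Gp d n)
  | p0 (z : Fin n) (κ : Bool) (c : Cn d n) (g : Option (Gp d n))
  | uj (z : Fin n) (κ : Bool) (c : Cn d n) (A : Fin 3)
  | fi (z : Fin n) (κ : Bool) (m : Fin (n + 1))
  | le1 (y : Fin n)
  | pl (y y' : Fin n)
  | lt2

section

variable {d n : ℕ}

/-- The literal of an item (`inl`), and the literal: `y` is not a representative (`inr`). -/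
def lt (z : Fin n) : Itm d n ⊕ Fin n → Lit (Nd d n)
  | .inl x => ⟨.it z x, true⟩
  | .inr y => ⟨.ra y, false⟩

/-- The items in the part `y` of the group `g`, and the literal that `y` is not a
representative. -/
def IS (g : Gp d n) (y : Fin n) : Set (Itm d n ⊕ Fin n) :=
  {w | (∃ x, w = .inl x ∧ gr g.kd x = g ∧ sub g.kd x = y) ∨ w = .inr y}

/-- The items in the group `g`. -/
def XS (z : Fin n) (g : Gp d n) : Set (Lit (Nd d n)) :=
  {l | ∃ x, gr g.kd x = g ∧ l = ⟨.it z x, true⟩}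

/-- The literals: `y` is not a representative. -/
def NA : Set (Lit (Nd d n)) := {l | ∃ y, l = ⟨.ra y, false⟩}

/-- All items. -/
def AI (z : Fin n) : Set (Lit (Nd d n)) := {l | ∃ x, l = ⟨.it z x, true⟩}

/-- The numbers of the symmetric gates `uj`. -/
def A3 (A : Fin 3) : Set ℕ := if A = 0 then {0} else if A = 1 then {1} else Set.univ

open Classical in
/-- The labels of the nodes. -/
noncomputable def gt : Nd d n → Gate (Atom (Re d) (Fin n)) (Nd d n)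
  | .vZ q => .var (aZ q)
  | .vE q q' => .var (aE q q')
  | .vJ a q q' => .var (aJ a q q')
  | .vF τ q u => .var (aF τ q u)
  | .vB y y' => .var (aB y y')
  | .vD y y' => .var (aD y y')
  | .vT σ q u z y => .var (aT σ q u z y)
  | .vM σ k q u z y y' => .var (aM σ k q u z y y')
  | .vG k q u z y' => .var (aG k q u z y')
  | .vX k q u z => .var (aX k q u z)
  | .rep q => .and {l | ∃ q', q' < q ∧ l = ⟨.vE q' q, false⟩}
  | .ra y => .and ({⟨.vB y y, true⟩} ∪ {l | ∃ y', y' < y ∧ l = ⟨.vB y' y, false⟩})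
  | .mi τ q u => .and ({⟨.vF τ q u, true⟩} ∪ {l | ∃ u', u' < u ∧ l = ⟨.vF τ q u', false⟩})
  | .mm z σ k q y y' u => .and ({⟨.vM σ k q u z y y', true⟩} ∪
      {l | ∃ τ, l = ⟨.mi τ q (u τ), true⟩})
  | .yy z σ k q y y' => .and {l | ∃ u, l = ⟨.mm z σ k q y y' u, false⟩}
  | .it z x => .and {⟨.rep x.q, true⟩, ⟨.rep x.q', true⟩, ⟨.vJ x.a x.q x.q', true⟩,
      ⟨.ra x.y, true⟩, ⟨.ra x.y', true⟩, ⟨.yy z (x.a, x.b) x.k x.vx x.y x.y', false⟩}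
  | .u1 z b w => .sym {if b = true then 1 else 0} {lt z w}
  | .pz z g y w => .and {l | ∃ w' ∈ IS g y, l = ⟨.u1 z (decide (w = some w')) w', true⟩}
  | .ee z g y => .sym {1} (lt z '' IS g y)
  | .pe z g => .and {l | ∃ y, l = ⟨.ee z g y, true⟩}
  | .tt z c g => .sym {c.val} (XS z g ∪ NA)
  | .nr c => .sym {c.val} NA
  | .ss z c g => .sym {c.val} (XS z g)
  | .ps z c m g => .and {⟨.ss z c g, true⟩, ⟨.nr m, true⟩}
  | .ww z m g => .sym {0, m.val} (XS z g)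
  | .pn z g w => .and {l | ∃ x, gr g.kd x = g ∧ l = ⟨.u1 z (decide (w = some x)) (.inl x), true⟩}
  | .s0 z b c g => .sym {if b = true then 1 else 0} {⟨.ss z c g, true⟩}
  | .p0 z κ c g => .and {l | ∃ g', g'.kd = κ ∧ l = ⟨.s0 z (decide (g = some g')) c g', true⟩}
  | .uj z κ c A => .sym (A3 A) {l | ∃ g, g.kd = κ ∧ l = ⟨.ss z c g, true⟩}
  | .fi z κ m => .sym {c | c % m.val = (if κ then 0 else 1)} (AI z)
  | .le1 y => .sym {0, 1} {⟨.ra y, false⟩}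
  | .pl y y' => .and {l | ∃ y0, l = if y0 = y ∨ y0 = y' then ⟨.u1 y false (.inr y0), true⟩
      else ⟨.le1 y0, true⟩}
  | .lt2 => .sym {c | c + 2 ≤ n} NA

/-- The levels of the nodes. -/
def rk : Nd d n → ℕ
  | .vZ _ => 0
  | .vE _ _ => 0
  | .vJ _ _ _ => 0
  | .vF _ _ _ => 0
  | .vB _ _ => 0
  | .vD _ _ => 0
  | .vT _ _ _ _ _ => 0
  | .vM _ _ _ _ _ _ _ => 0
  | .vG _ _ _ _ _ => 0
  | .vX _ _ _ _ => 0
  | .rep _ => 1
  | .ra _ => 1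
  | .mi _ _ _ => 1
  | .mm _ _ _ _ _ _ _ => 2
  | .yy _ _ _ _ _ _ => 3
  | .it _ _ => 4
  | .u1 _ _ _ => 5
  | .pz _ _ _ _ => 6
  | .ee _ _ _ => 5
  | .pe _ _ => 6
  | .tt _ _ _ => 5
  | .nr _ => 5
  | .ss _ _ _ => 5
  | .ps _ _ _ _ => 6
  | .ww _ _ _ => 5
  | .pn _ _ _ => 6
  | .s0 _ _ _ _ => 6
  | .p0 _ _ _ _ => 7
  | .uj _ _ _ _ => 6
  | .fi _ _ _ => 5
  | .le1 _ => 5
  | .pl _ _ => 6
  | .lt2 => 5

theorem rk_lt (a : Nd d n) : ∀ x ∈ (gt a).children, rk x.node < rk a := by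
  intro x hx
  cases a with
  | vZ q => exact absurd hx (Set.notMem_empty _)
  | vE q q' => exact absurd hx (Set.notMem_empty _)
  | vJ a q q' => exact absurd hx (Set.notMem_empty _)
  | vF τ q u => exact absurd hx (Set.notMem_empty _)
  | vB y y' => exact absurd hx (Set.notMem_empty _)
  | vD y y' => exact absurd hx (Set.notMem_empty _)
  | vT σ q u z y => exact absurd hx (Set.notMem_empty _)
  | vM σ k q u z y y' => exact absurd hx (Set.notMem_empty _)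
  | vG k q u z y' => exact absurd hx (Set.notMem_empty _)
  | vX k q u z => exact absurd hx (Set.notMem_empty _)
  | rep q =>
    obtain ⟨p, -, rfl⟩ := hx
    simp [rk]
  | ra y => rcases hx with rfl | ⟨p, -, rfl⟩ <;> simp [rk]
  | mi τ q u => rcases hx with rfl | ⟨p, -, rfl⟩ <;> simp [rk]
  | mm z σ k q y y' u => rcases hx with rfl | ⟨p, rfl⟩ <;> simp [rk]
  | yy z σ k q y y' =>
    obtain ⟨p, rfl⟩ := hx
    simp [rk]
  | it z x => rcases hx with rfl | rfl | rfl | rfl | rfl | rfl <;> simp [rk]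
  | u1 z b w =>
    obtain rfl : x = lt z w := hx
    cases w <;> simp [lt, rk]
  | pz z g y w =>
    obtain ⟨p, -, rfl⟩ := hx
    simp [rk]
  | ee z g y =>
    obtain ⟨w, -, rfl⟩ := hx
    cases w <;> simp [lt, rk]
  | pe z g =>
    obtain ⟨p, rfl⟩ := hx
    simp [rk]
  | tt z c g => rcases hx with ⟨p, -, rfl⟩ | ⟨p, rfl⟩ <;> simp [rk]
  | nr c =>
    obtain ⟨p, rfl⟩ := hx
    simp [rk]
  | ss z c g =>
    obtain ⟨p, -, rfl⟩ := hx
    simp [rk]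
  | ps z c m g => rcases hx with rfl | rfl <;> simp [rk]
  | ww z m g =>
    obtain ⟨p, -, rfl⟩ := hx
    simp [rk]
  | pn z g w =>
    obtain ⟨p, -, rfl⟩ := hx
    simp [rk]
  | s0 z b c g =>
    obtain rfl : x = ⟨.ss z c g, true⟩ := hx
    simp [rk]
  | p0 z κ c g =>
    obtain ⟨p, -, rfl⟩ := hx
    simp [rk]
  | uj z κ c A =>
    obtain ⟨p, -, rfl⟩ := hx
    simp [rk]
  | fi z κ m =>
    obtain ⟨p, rfl⟩ := hx
    simp [rk]
  | le1 y =>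
    obtain rfl : x = ⟨.ra y, false⟩ := hx
    simp [rk]
  | pl y y' =>
    obtain ⟨p, rfl⟩ := hx
    split_ifs <;> simp [rk]
  | lt2 =>
    obtain ⟨p, rfl⟩ := hx
    simp [rk]

theorem rk_le (a : Nd d n) : rk a ≤ 7 := by
  cases a <;> simp [rk]

private theorem pw_le (k n : ℕ) (hn : 2 ≤ n) : k ≤ n ^ k :=
  le_trans (Nat.lt_two_pow_self).le (Nat.pow_le_pow_left hn k)

private def PBT (A : ℕ → Type) : Prop := ∃ c : ℕ, ∀ n, 2 ≤ n → Nat.card (A n) ≤ n ^ c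

private def PBS {N : ℕ → Type} (S : ∀ n, Set (N n)) : Prop :=
  ∃ c : ℕ, ∀ n, 2 ≤ n → (S n).ncard ≤ n ^ c

private theorem pb_of {A : ℕ → Type} (k e : ℕ) (h : ∀ n, 2 ≤ n → Nat.card (A n) ≤ k * n ^ e) :
    PBT A := by
  refine ⟨k + e, fun n hn => (h n hn).trans ?_⟩
  rw [pow_add]
  exact Nat.mul_le_mul_right _ (pw_le k n hn)

private theorem pb_const (A : Type) : PBT fun _ => A :=
  ⟨Nat.card A, fun n hn => pw_le _ n hn⟩

private theorem pb_fin : PBT fun n => Fin n := by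
  refine ⟨1, fun n _ => ?_⟩
  rw [Nat.card_eq_fintype_card, Fintype.card_fin, pow_one]

private theorem pb_fin1 : PBT fun n => Fin (n + 1) := by
  refine pb_of 2 1 fun n _ => ?_
  rw [Nat.card_eq_fintype_card, Fintype.card_fin, pow_one]
  omega

private theorem pb_prod {A B : ℕ → Type} (h : PBT A) (h' : PBT B) : PBT fun n => A n × B n := by
  obtain ⟨c, hc⟩ := h
  obtain ⟨c', hc'⟩ := h'
  refine ⟨c + c', fun n hn => ?_⟩
  rw [Nat.card_prod, pow_add]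
  exact Nat.mul_le_mul (hc n hn) (hc' n hn)

private theorem pb_two {a b c c' n : ℕ} (hn : 2 ≤ n) (h : a ≤ n ^ c) (h' : b ≤ n ^ c') :
    a + b ≤ n ^ (max c c' + 1) := by
  have h1 : a ≤ n ^ max c c' := h.trans (Nat.pow_le_pow_right (by omega) (le_max_left _ _))
  have h2 : b ≤ n ^ max c c' := h'.trans (Nat.pow_le_pow_right (by omega) (le_max_right _ _))
  rw [pow_succ]
  have h3 : n ^ max c c' * 2 ≤ n ^ max c c' * n := Nat.mul_le_mul_left _ hn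
  omega

private theorem pb_sum {A B : ℕ → Type} [∀ n, Finite (A n)] [∀ n, Finite (B n)]
    (h : PBT A) (h' : PBT B) : PBT fun n => A n ⊕ B n := by
  obtain ⟨c, hc⟩ := h
  obtain ⟨c', hc'⟩ := h'
  refine ⟨max c c' + 1, fun n hn => ?_⟩
  rw [Nat.card_sum]
  exact pb_two hn (hc n hn) (hc' n hn)

private theorem pb_opt {A : ℕ → Type} [∀ n, Finite (A n)] (h : PBT A) :
    PBT fun n => Option (A n) := by
  obtain ⟨c, hc⟩ := h
  refine ⟨max c 0 + 1, fun n hn => ?_⟩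
  rw [Finite.card_option]
  exact pb_two hn (hc n hn) (by simp)

private theorem pb_fun (A : Type) {B : ℕ → Type} [Finite A] (h : PBT B) :
    PBT fun n => A → B n := by
  obtain ⟨c, hc⟩ := h
  refine ⟨c * Nat.card A, fun n hn => ?_⟩
  rw [Nat.card_fun, pow_mul]
  exact Nat.pow_le_pow_left (hc n hn) _

private theorem pb_surj {A B : ℕ → Type} [∀ n, Finite (A n)] (h : PBT A) (f : ∀ n, A n → B n)
    (hf : ∀ n, Function.Surjective (f n)) : PBT B := by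
  obtain ⟨c, hc⟩ := h
  exact ⟨c, fun n hn => (Nat.card_le_card_of_surjective _ (hf n)).trans (hc n hn)⟩

private theorem pb_range {N A : ℕ → Type} [∀ n, Finite (A n)] (h : PBT A) (f : ∀ n, A n → N n) :
    PBS fun n => Set.range (f n) := by
  obtain ⟨c, hc⟩ := h
  exact ⟨c, fun n hn => (Finite.card_range_le (f n)).trans (hc n hn)⟩

private theorem pb_union {N : ℕ → Type} {S S' : ∀ n, Set (N n)} (h : PBS S) (h' : PBS S') :
    PBS fun n => S n ∪ S' n := by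
  obtain ⟨c, hc⟩ := h
  obtain ⟨c', hc'⟩ := h'
  exact ⟨max c c' + 1, fun n hn => (Set.ncard_union_le _ _).trans
    (pb_two hn (hc n hn) (hc' n hn))⟩

private def itE (d n : ℕ) :
    Itm d n ≃ Bool × Fin d × Fin n × Fin n × Fin n × Fin (2 * d) × Fin n where
  toFun x := (x.b, x.a, x.q, x.q', x.y, x.k, x.y')
  invFun x := ⟨x.1, x.2.1, x.2.2.1, x.2.2.2.1, x.2.2.2.2.1, x.2.2.2.2.2.1, x.2.2.2.2.2.2⟩
  left_inv _ := rfl
  right_inv _ := rfl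

private instance it_fin (d n : ℕ) : Finite (Itm d n) := Finite.of_equiv _ (itE d n).symm

private def gpE (d n : ℕ) : (Fin d × Fin n × Fin n) ⊕ (Fin n × Fin (2 * d)) → Gp d n
  | .inl x => .pair x.1 x.2.1 x.2.2
  | .inr x => .vert x.1 x.2

private theorem gpE_surj (d n : ℕ) : Function.Surjective (gpE d n) := by
  intro g
  cases g with
  | pair a q q' => exact ⟨.inl (a, q, q'), rfl⟩
  | vert q k => exact ⟨.inr (q, k), rfl⟩

private instance gp_fin (d n : ℕ) : Finite (Gp d n) := Finite.of_surjective _ (gpE_surj d n)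

private theorem pb_gp (d : ℕ) : PBT (Gp d) :=
  pb_surj (pb_sum (pb_prod (pb_const (Fin d)) (pb_prod pb_fin pb_fin))
    (pb_prod pb_fin (pb_const (Fin (2 * d))))) (gpE d) (gpE_surj d)

theorem Itm_card (d n : ℕ) : Nat.card (Itm d n) = NI d n := by
  rw [Nat.card_congr (itE d n), Nat.card_eq_fintype_card]
  simp only [Fintype.card_prod, Fintype.card_fin, Fintype.card_bool]
  unfold NI
  ring

private theorem pb_itm (d : ℕ) : PBT (Itm d) := by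
  refine pb_of (4 * d ^ 2) 4 fun n _ => ?_
  rw [Itm_card, NI]

private theorem pb_cn (d : ℕ) : PBT (Cn d) := by
  refine pb_of (4 * d ^ 2 + 2) 4 fun n hn => ?_
  rw [Nat.card_eq_fintype_card, Fintype.card_fin, NI]
  have h1 : n ^ 1 ≤ n ^ 4 := Nat.pow_le_pow_right (by omega) (by omega)
  have h2 : 1 ≤ n ^ 4 := Nat.one_le_pow _ _ (by omega)
  rw [pow_one] at h1
  have h3 : (4 * d ^ 2 + 2) * n ^ 4 = 4 * d ^ 2 * n ^ 4 + 2 * n ^ 4 := by ring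
  rw [h3]
  omega

private def UU (d n : ℕ) : Set (Nd d n) :=
  Set.range (fun x : Fin n => (Nd.vZ x : Nd d n)) ∪ (
  Set.range (fun x : Fin n × Fin n => (Nd.vE x.1 x.2 : Nd d n)) ∪ (
  Set.range (fun x : Fin d × Fin n × Fin n => (Nd.vJ x.1 x.2.1 x.2.2 : Nd d n)) ∪ (
  Set.range (fun x : Sym2 (Slot d) × Fin n × Fin n => (Nd.vF x.1 x.2.1 x.2.2 : Nd d n)) ∪ (
  Set.range (fun x : Fin n × Fin n => (Nd.vB x.1 x.2 : Nd d n)) ∪ (
  Set.range (fun x : Fin n × Fin n => (Nd.vD x.1 x.2 : Nd d n)) ∪ (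
  Set.range (fun x : Slot d × Fin n × (Slot d → Fin n) × Fin n × Fin n => (Nd.vT x.1 x.2.1 x.2.2.1 x.2.2.2.1 x.2.2.2.2 : Nd d n)) ∪ (
  Set.range (fun x : Slot d × Fin (2 * d) × Fin n × (Sym2 (Slot d) → Fin n) × Fin n × Fin n × Fin n => (Nd.vM x.1 x.2.1 x.2.2.1 x.2.2.2.1 x.2.2.2.2.1 x.2.2.2.2.2.1 x.2.2.2.2.2.2 : Nd d n)) ∪ (
  Set.range (fun x : Fin (2 * d) × Fin n × (Sym2 (Slot d) → Fin n) × Fin n × Fin n => (Nd.vG x.1 x.2.1 x.2.2.1 x.2.2.2.1 x.2.2.2.2 : Nd d n)) ∪ (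
  Set.range (fun x : Fin (2 * d) × Fin n × (Sym2 (Slot d) → Fin n) × Fin n => (Nd.vX x.1 x.2.1 x.2.2.1 x.2.2.2 : Nd d n)) ∪ (
  Set.range (fun x : Fin n => (Nd.rep x : Nd d n)) ∪ (
  Set.range (fun x : Fin n => (Nd.ra x : Nd d n)) ∪ (
  Set.range (fun x : Sym2 (Slot d) × Fin n × Fin n => (Nd.mi x.1 x.2.1 x.2.2 : Nd d n)) ∪ (
  Set.range (fun x : Fin n × Slot d × Fin (2 * d) × Fin n × Fin n × Fin n × (Sym2 (Slot d) → Fin n) => (Nd.mm x.1 x.2.1 x.2.2.1 x.2.2.2.1 x.2.2.2.2.1 x.2.2.2.2.2.1 x.2.2.2.2.2.2 : Nd d n)) ∪ (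
  Set.range (fun x : Fin n × Slot d × Fin (2 * d) × Fin n × Fin n × Fin n => (Nd.yy x.1 x.2.1 x.2.2.1 x.2.2.2.1 x.2.2.2.2.1 x.2.2.2.2.2 : Nd d n)) ∪ (
  Set.range (fun x : Fin n × Itm d n => (Nd.it x.1 x.2 : Nd d n)) ∪ (
  Set.range (fun x : Fin n × Bool × (Itm d n ⊕ Fin n) => (Nd.u1 x.1 x.2.1 x.2.2 : Nd d n)) ∪ (
  Set.range (fun x : Fin n × Gp d n × Fin n × Option (Itm d n ⊕ Fin n) => (Nd.pz x.1 x.2.1 x.2.2.1 x.2.2.2 : Nd d n)) ∪ (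
  Set.range (fun x : Fin n × Gp d n × Fin n => (Nd.ee x.1 x.2.1 x.2.2 : Nd d n)) ∪ (
  Set.range (fun x : Fin n × Gp d n => (Nd.pe x.1 x.2 : Nd d n)) ∪ (
  Set.range (fun x : Fin n × Cn d n × Gp d n => (Nd.tt x.1 x.2.1 x.2.2 : Nd d n)) ∪ (
  Set.range (fun x : Fin (n + 1) => (Nd.nr x : Nd d n)) ∪ (
  Set.range (fun x : Fin n × Cn d n × Gp d n => (Nd.ss x.1 x.2.1 x.2.2 : Nd d n)) ∪ (
  Set.range (fun x : Fin n × Cn d n × Fin (n + 1) × Gp d n => (Nd.ps x.1 x.2.1 x.2.2.1 x.2.2.2 : Nd d n)) ∪ (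
  Set.range (fun x : Fin n × Fin (n + 1) × Gp d n => (Nd.ww x.1 x.2.1 x.2.2 : Nd d n)) ∪ (
  Set.range (fun x : Fin n × Gp d n × Option (Itm d n) => (Nd.pn x.1 x.2.1 x.2.2 : Nd d n)) ∪ (
  Set.range (fun x : Fin n × Bool × Cn d n × Gp d n => (Nd.s0 x.1 x.2.1 x.2.2.1 x.2.2.2 : Nd d n)) ∪ (
  Set.range (fun x : Fin n × Bool × Cn d n × Option (Gp d n) => (Nd.p0 x.1 x.2.1 x.2.2.1 x.2.2.2 : Nd d n)) ∪ (
  Set.range (fun x : Fin n × Bool × Cn d n × Fin 3 => (Nd.uj x.1 x.2.1 x.2.2.1 x.2.2.2 : Nd d n)) ∪ (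
  Set.range (fun x : Fin n × Bool × Fin (n + 1) => (Nd.fi x.1 x.2.1 x.2.2 : Nd d n)) ∪ (
  Set.range (fun x : Fin n => (Nd.le1 x : Nd d n)) ∪ (
  Set.range (fun x : Fin n × Fin n => (Nd.pl x.1 x.2 : Nd d n)) ∪ (
  Set.range (fun _ : Unit => (Nd.lt2 : Nd d n))))))))))))))))))))))))))))))))))

private theorem UU_univ (d n : ℕ) : UU d n = Set.univ := by
  refine Set.eq_univ_of_forall fun a => ?_
  cases a with
  | vZ x0 => exact Or.inl ⟨x0, rfl⟩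
  | vE x0 x1 => exact Or.inr (Or.inl ⟨⟨x0, x1⟩, rfl⟩)
  | vJ x0 x1 x2 => exact Or.inr (Or.inr (Or.inl ⟨⟨x0, x1, x2⟩, rfl⟩))
  | vF x0 x1 x2 => exact Or.inr (Or.inr (Or.inr (Or.inl ⟨⟨x0, x1, x2⟩, rfl⟩)))
  | vB x0 x1 => exact Or.inr (Or.inr (Or.inr (Or.inr (Or.inl ⟨⟨x0, x1⟩, rfl⟩))))
  | vD x0 x1 => exact Or.inr (Or.inr (Or.inr (Or.inr (Or.inr (Or.inl ⟨⟨x0, x1⟩, rfl⟩)))))
  | vT x0 x1 x2 x3 x4 => exact Or.inr (Or.inr (Or.inr (Or.inr (Or.inr (Or.inr (Or.inl ⟨⟨x0, x1, x2, x3, x4⟩, rfl⟩))))))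
  | vM x0 x1 x2 x3 x4 x5 x6 => exact Or.inr (Or.inr (Or.inr (Or.inr (Or.inr (Or.inr (Or.inr (Or.inl ⟨⟨x0, x1, x2, x3, x4, x5, x6⟩, rfl⟩)))))))
  | vG x0 x1 x2 x3 x4 => exact Or.inr (Or.inr (Or.inr (Or.inr (Or.inr (Or.inr (Or.inr (Or.inr (Or.inl ⟨⟨x0, x1, x2, x3, x4⟩, rfl⟩))))))))
  | vX x0 x1 x2 x3 => exact Or.inr (Or.inr (Or.inr (Or.inr (Or.inr (Or.inr (Or.inr (Or.inr (Or.inr (Or.inl ⟨⟨x0, x1, x2, x3⟩, rfl⟩)))))))))
  | rep x0 => exact Or.inr (Or.inr (Or.inr (Or.inr (Or.inr (Or.inr (Or.inr (Or.inr (Or.inr (Or.inr (Or.inl ⟨x0, rfl⟩))))))))))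
  | ra x0 => exact Or.inr (Or.inr (Or.inr (Or.inr (Or.inr (Or.inr (Or.inr (Or.inr (Or.inr (Or.inr (Or.inr (Or.inl ⟨x0, rfl⟩)))))))))))
  | mi x0 x1 x2 => exact Or.inr (Or.inr (Or.inr (Or.inr (Or.inr (Or.inr (Or.inr (Or.inr (Or.inr (Or.inr (Or.inr (Or.inr (Or.inl ⟨⟨x0, x1, x2⟩, rfl⟩))))))))))))
  | mm x0 x1 x2 x3 x4 x5 x6 => exact Or.inr (Or.inr (Or.inr (Or.inr (Or.inr (Or.inr (Or.inr (Or.inr (Or.inr (Or.inr (Or.inr (Or.inr (Or.inr (Or.inl ⟨⟨x0, x1, x2, x3, x4, x5, x6⟩, rfl⟩)))))))))))))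
  | yy x0 x1 x2 x3 x4 x5 => exact Or.inr (Or.inr (Or.inr (Or.inr (Or.inr (Or.inr (Or.inr (Or.inr (Or.inr (Or.inr (Or.inr (Or.inr (Or.inr (Or.inr (Or.inl ⟨⟨x0, x1, x2, x3, x4, x5⟩, rfl⟩))))))))))))))
  | it x0 x1 => exact Or.inr (Or.inr (Or.inr (Or.inr (Or.inr (Or.inr (Or.inr (Or.inr (Or.inr (Or.inr (Or.inr (Or.inr (Or.inr (Or.inr (Or.inr (Or.inl ⟨⟨x0, x1⟩, rfl⟩)))))))))))))))
  | u1 x0 x1 x2 => exact Or.inr (Or.inr (Or.inr (Or.inr (Or.inr (Or.inr (Or.inr (Or.inr (Or.inr (Or.inr (Or.inr (Or.inr (Or.inr (Or.inr (Or.inr (Or.inr (Or.inl ⟨⟨x0, x1, x2⟩, rfl⟩))))))))))))))))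
  | pz x0 x1 x2 x3 => exact Or.inr (Or.inr (Or.inr (Or.inr (Or.inr (Or.inr (Or.inr (Or.inr (Or.inr (Or.inr (Or.inr (Or.inr (Or.inr (Or.inr (Or.inr (Or.inr (Or.inr (Or.inl ⟨⟨x0, x1, x2, x3⟩, rfl⟩)))))))))))))))))
  | ee x0 x1 x2 => exact Or.inr (Or.inr (Or.inr (Or.inr (Or.inr (Or.inr (Or.inr (Or.inr (Or.inr (Or.inr (Or.inr (Or.inr (Or.inr (Or.inr (Or.inr (Or.inr (Or.inr (Or.inr (Or.inl ⟨⟨x0, x1, x2⟩, rfl⟩))))))))))))))))))
  | pe x0 x1 => exact Or.inr (Or.inr (Or.inr (Or.inr (Or.inr (Or.inr (Or.inr (Or.inr (Or.inr (Or.inr (Or.inr (Or.inr (Or.inr (Or.inr (Or.inr (Or.inr (Or.inr (Or.inr (Or.inr (Or.inl ⟨⟨x0, x1⟩, rfl⟩)))))))))))))))))))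
  | tt x0 x1 x2 => exact Or.inr (Or.inr (Or.inr (Or.inr (Or.inr (Or.inr (Or.inr (Or.inr (Or.inr (Or.inr (Or.inr (Or.inr (Or.inr (Or.inr (Or.inr (Or.inr (Or.inr (Or.inr (Or.inr (Or.inr (Or.inl ⟨⟨x0, x1, x2⟩, rfl⟩))))))))))))))))))))
  | nr x0 => exact Or.inr (Or.inr (Or.inr (Or.inr (Or.inr (Or.inr (Or.inr (Or.inr (Or.inr (Or.inr (Or.inr (Or.inr (Or.inr (Or.inr (Or.inr (Or.inr (Or.inr (Or.inr (Or.inr (Or.inr (Or.inr (Or.inl ⟨x0, rfl⟩)))))))))))))))))))))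
  | ss x0 x1 x2 => exact Or.inr (Or.inr (Or.inr (Or.inr (Or.inr (Or.inr (Or.inr (Or.inr (Or.inr (Or.inr (Or.inr (Or.inr (Or.inr (Or.inr (Or.inr (Or.inr (Or.inr (Or.inr (Or.inr (Or.inr (Or.inr (Or.inr (Or.inl ⟨⟨x0, x1, x2⟩, rfl⟩))))))))))))))))))))))
  | ps x0 x1 x2 x3 => exact Or.inr (Or.inr (Or.inr (Or.inr (Or.inr (Or.inr (Or.inr (Or.inr (Or.inr (Or.inr (Or.inr (Or.inr (Or.inr (Or.inr (Or.inr (Or.inr (Or.inr (Or.inr (Or.inr (Or.inr (Or.inr (Or.inr (Or.inr (Or.inl ⟨⟨x0, x1, x2, x3⟩, rfl⟩)))))))))))))))))))))))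
  | ww x0 x1 x2 => exact Or.inr (Or.inr (Or.inr (Or.inr (Or.inr (Or.inr (Or.inr (Or.inr (Or.inr (Or.inr (Or.inr (Or.inr (Or.inr (Or.inr (Or.inr (Or.inr (Or.inr (Or.inr (Or.inr (Or.inr (Or.inr (Or.inr (Or.inr (Or.inr (Or.inl ⟨⟨x0, x1, x2⟩, rfl⟩))))))))))))))))))))))))
  | pn x0 x1 x2 => exact Or.inr (Or.inr (Or.inr (Or.inr (Or.inr (Or.inr (Or.inr (Or.inr (Or.inr (Or.inr (Or.inr (Or.inr (Or.inr (Or.inr (Or.inr (Or.inr (Or.inr (Or.inr (Or.inr (Or.inr (Or.inr (Or.inr (Or.inr (Or.inr (Or.inr (Or.inl ⟨⟨x0, x1, x2⟩, rfl⟩)))))))))))))))))))))))))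
  | s0 x0 x1 x2 x3 => exact Or.inr (Or.inr (Or.inr (Or.inr (Or.inr (Or.inr (Or.inr (Or.inr (Or.inr (Or.inr (Or.inr (Or.inr (Or.inr (Or.inr (Or.inr (Or.inr (Or.inr (Or.inr (Or.inr (Or.inr (Or.inr (Or.inr (Or.inr (Or.inr (Or.inr (Or.inr (Or.inl ⟨⟨x0, x1, x2, x3⟩, rfl⟩))))))))))))))))))))))))))
  | p0 x0 x1 x2 x3 => exact Or.inr (Or.inr (Or.inr (Or.inr (Or.inr (Or.inr (Or.inr (Or.inr (Or.inr (Or.inr (Or.inr (Or.inr (Or.inr (Or.inr (Or.inr (Or.inr (Or.inr (Or.inr (Or.inr (Or.inr (Or.inr (Or.inr (Or.inr (Or.inr (Or.inr (Or.inr (Or.inr (Or.inl ⟨⟨x0, x1, x2, x3⟩, rfl⟩)))))))))))))))))))))))))))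
  | uj x0 x1 x2 x3 => exact Or.inr (Or.inr (Or.inr (Or.inr (Or.inr (Or.inr (Or.inr (Or.inr (Or.inr (Or.inr (Or.inr (Or.inr (Or.inr (Or.inr (Or.inr (Or.inr (Or.inr (Or.inr (Or.inr (Or.inr (Or.inr (Or.inr (Or.inr (Or.inr (Or.inr (Or.inr (Or.inr (Or.inr (Or.inl ⟨⟨x0, x1, x2, x3⟩, rfl⟩))))))))))))))))))))))))))))
  | fi x0 x1 x2 => exact Or.inr (Or.inr (Or.inr (Or.inr (Or.inr (Or.inr (Or.inr (Or.inr (Or.inr (Or.inr (Or.inr (Or.inr (Or.inr (Or.inr (Or.inr (Or.inr (Or.inr (Or.inr (Or.inr (Or.inr (Or.inr (Or.inr (Or.inr (Or.inr (Or.inr (Or.inr (Or.inr (Or.inr (Or.inr (Or.inl ⟨⟨x0, x1, x2⟩, rfl⟩)))))))))))))))))))))))))))))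
  | le1 x0 => exact Or.inr (Or.inr (Or.inr (Or.inr (Or.inr (Or.inr (Or.inr (Or.inr (Or.inr (Or.inr (Or.inr (Or.inr (Or.inr (Or.inr (Or.inr (Or.inr (Or.inr (Or.inr (Or.inr (Or.inr (Or.inr (Or.inr (Or.inr (Or.inr (Or.inr (Or.inr (Or.inr (Or.inr (Or.inr (Or.inr (Or.inl ⟨x0, rfl⟩))))))))))))))))))))))))))))))
  | pl x0 x1 => exact Or.inr (Or.inr (Or.inr (Or.inr (Or.inr (Or.inr (Or.inr (Or.inr (Or.inr (Or.inr (Or.inr (Or.inr (Or.inr (Or.inr (Or.inr (Or.inr (Or.inr (Or.inr (Or.inr (Or.inr (Or.inr (Or.inr (Or.inr (Or.inr (Or.inr (Or.inr (Or.inr (Or.inr (Or.inr (Or.inr (Or.inr (Or.inl ⟨⟨x0, x1⟩, rfl⟩)))))))))))))))))))))))))))))))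
  | lt2 => exact Or.inr (Or.inr (Or.inr (Or.inr (Or.inr (Or.inr (Or.inr (Or.inr (Or.inr (Or.inr (Or.inr (Or.inr (Or.inr (Or.inr (Or.inr (Or.inr (Or.inr (Or.inr (Or.inr (Or.inr (Or.inr (Or.inr (Or.inr (Or.inr (Or.inr (Or.inr (Or.inr (Or.inr (Or.inr (Or.inr (Or.inr (Or.inr (⟨(), rfl⟩))))))))))))))))))))))))))))))))

private theorem UU_fin (d n : ℕ) : (UU d n).Finite := by
  unfold UU
  repeat (first | exact Set.finite_range _ | refine Set.Finite.union (Set.finite_range _) ?_)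

private theorem pb_UU (d : ℕ) : PBS (UU d) :=
  pb_union (pb_range pb_fin (fun n (x : Fin n) => (Nd.vZ x : Nd d n))) (
  pb_union (pb_range (pb_prod pb_fin pb_fin) (fun n (x : Fin n × Fin n) => (Nd.vE x.1 x.2 : Nd d n))) (
  pb_union (pb_range (pb_prod (pb_const (Fin d)) (pb_prod pb_fin pb_fin)) (fun n (x : Fin d × Fin n × Fin n) => (Nd.vJ x.1 x.2.1 x.2.2 : Nd d n))) (
  pb_union (pb_range (pb_prod (pb_const (Sym2 (Slot d))) (pb_prod pb_fin pb_fin)) (fun n (x : Sym2 (Slot d) × Fin n × Fin n) => (Nd.vF x.1 x.2.1 x.2.2 : Nd d n))) (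
  pb_union (pb_range (pb_prod pb_fin pb_fin) (fun n (x : Fin n × Fin n) => (Nd.vB x.1 x.2 : Nd d n))) (
  pb_union (pb_range (pb_prod pb_fin pb_fin) (fun n (x : Fin n × Fin n) => (Nd.vD x.1 x.2 : Nd d n))) (
  pb_union (pb_range (pb_prod (pb_const (Slot d)) (pb_prod pb_fin (pb_prod (pb_fun (Slot d) pb_fin) (pb_prod pb_fin pb_fin)))) (fun n (x : Slot d × Fin n × (Slot d → Fin n) × Fin n × Fin n) => (Nd.vT x.1 x.2.1 x.2.2.1 x.2.2.2.1 x.2.2.2.2 : Nd d n))) (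
  pb_union (pb_range (pb_prod (pb_const (Slot d)) (pb_prod (pb_const (Fin (2 * d))) (pb_prod pb_fin (pb_prod (pb_fun (Sym2 (Slot d)) pb_fin) (pb_prod pb_fin (pb_prod pb_fin pb_fin)))))) (fun n (x : Slot d × Fin (2 * d) × Fin n × (Sym2 (Slot d) → Fin n) × Fin n × Fin n × Fin n) => (Nd.vM x.1 x.2.1 x.2.2.1 x.2.2.2.1 x.2.2.2.2.1 x.2.2.2.2.2.1 x.2.2.2.2.2.2 : Nd d n))) (
  pb_union (pb_range (pb_prod (pb_const (Fin (2 * d))) (pb_prod pb_fin (pb_prod (pb_fun (Sym2 (Slot d)) pb_fin) (pb_prod pb_fin pb_fin)))) (fun n (x : Fin (2 * d) × Fin n × (Sym2 (Slot d) → Fin n) × Fin n × Fin n) => (Nd.vG x.1 x.2.1 x.2.2.1 x.2.2.2.1 x.2.2.2.2 : Nd d n))) (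
  pb_union (pb_range (pb_prod (pb_const (Fin (2 * d))) (pb_prod pb_fin (pb_prod (pb_fun (Sym2 (Slot d)) pb_fin) pb_fin))) (fun n (x : Fin (2 * d) × Fin n × (Sym2 (Slot d) → Fin n) × Fin n) => (Nd.vX x.1 x.2.1 x.2.2.1 x.2.2.2 : Nd d n))) (
  pb_union (pb_range pb_fin (fun n (x : Fin n) => (Nd.rep x : Nd d n))) (
  pb_union (pb_range pb_fin (fun n (x : Fin n) => (Nd.ra x : Nd d n))) (
  pb_union (pb_range (pb_prod (pb_const (Sym2 (Slot d))) (pb_prod pb_fin pb_fin)) (fun n (x : Sym2 (Slot d) × Fin n × Fin n) => (Nd.mi x.1 x.2.1 x.2.2 : Nd d n))) (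
  pb_union (pb_range (pb_prod pb_fin (pb_prod (pb_const (Slot d)) (pb_prod (pb_const (Fin (2 * d))) (pb_prod pb_fin (pb_prod pb_fin (pb_prod pb_fin (pb_fun (Sym2 (Slot d)) pb_fin))))))) (fun n (x : Fin n × Slot d × Fin (2 * d) × Fin n × Fin n × Fin n × (Sym2 (Slot d) → Fin n)) => (Nd.mm x.1 x.2.1 x.2.2.1 x.2.2.2.1 x.2.2.2.2.1 x.2.2.2.2.2.1 x.2.2.2.2.2.2 : Nd d n))) (
  pb_union (pb_range (pb_prod pb_fin (pb_prod (pb_const (Slot d)) (pb_prod (pb_const (Fin (2 * d))) (pb_prod pb_fin (pb_prod pb_fin pb_fin))))) (fun n (x : Fin n × Slot d × Fin (2 * d) × Fin n × Fin n × Fin n) => (Nd.yy x.1 x.2.1 x.2.2.1 x.2.2.2.1 x.2.2.2.2.1 x.2.2.2.2.2 : Nd d n))) (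
  pb_union (pb_range (pb_prod pb_fin (pb_itm d)) (fun n (x : Fin n × Itm d n) => (Nd.it x.1 x.2 : Nd d n))) (
  pb_union (pb_range (pb_prod pb_fin (pb_prod (pb_const Bool) (pb_sum (pb_itm d) pb_fin))) (fun n (x : Fin n × Bool × (Itm d n ⊕ Fin n)) => (Nd.u1 x.1 x.2.1 x.2.2 : Nd d n))) (
  pb_union (pb_range (pb_prod pb_fin (pb_prod (pb_gp d) (pb_prod pb_fin (pb_opt (pb_sum (pb_itm d) pb_fin))))) (fun n (x : Fin n × Gp d n × Fin n × Option (Itm d n ⊕ Fin n)) => (Nd.pz x.1 x.2.1 x.2.2.1 x.2.2.2 : Nd d n))) (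
  pb_union (pb_range (pb_prod pb_fin (pb_prod (pb_gp d) pb_fin)) (fun n (x : Fin n × Gp d n × Fin n) => (Nd.ee x.1 x.2.1 x.2.2 : Nd d n))) (
  pb_union (pb_range (pb_prod pb_fin (pb_gp d)) (fun n (x : Fin n × Gp d n) => (Nd.pe x.1 x.2 : Nd d n))) (
  pb_union (pb_range (pb_prod pb_fin (pb_prod (pb_cn d) (pb_gp d))) (fun n (x : Fin n × Cn d n × Gp d n) => (Nd.tt x.1 x.2.1 x.2.2 : Nd d n))) (
  pb_union (pb_range pb_fin1 (fun n (x : Fin (n + 1)) => (Nd.nr x : Nd d n))) (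
  pb_union (pb_range (pb_prod pb_fin (pb_prod (pb_cn d) (pb_gp d))) (fun n (x : Fin n × Cn d n × Gp d n) => (Nd.ss x.1 x.2.1 x.2.2 : Nd d n))) (
  pb_union (pb_range (pb_prod pb_fin (pb_prod (pb_cn d) (pb_prod pb_fin1 (pb_gp d)))) (fun n (x : Fin n × Cn d n × Fin (n + 1) × Gp d n) => (Nd.ps x.1 x.2.1 x.2.2.1 x.2.2.2 : Nd d n))) (
  pb_union (pb_range (pb_prod pb_fin (pb_prod pb_fin1 (pb_gp d))) (fun n (x : Fin n × Fin (n + 1) × Gp d n) => (Nd.ww x.1 x.2.1 x.2.2 : Nd d n))) (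
  pb_union (pb_range (pb_prod pb_fin (pb_prod (pb_gp d) (pb_opt (pb_itm d)))) (fun n (x : Fin n × Gp d n × Option (Itm d n)) => (Nd.pn x.1 x.2.1 x.2.2 : Nd d n))) (
  pb_union (pb_range (pb_prod pb_fin (pb_prod (pb_const Bool) (pb_prod (pb_cn d) (pb_gp d)))) (fun n (x : Fin n × Bool × Cn d n × Gp d n) => (Nd.s0 x.1 x.2.1 x.2.2.1 x.2.2.2 : Nd d n))) (
  pb_union (pb_range (pb_prod pb_fin (pb_prod (pb_const Bool) (pb_prod (pb_cn d) (pb_opt (pb_gp d))))) (fun n (x : Fin n × Bool × Cn d n × Option (Gp d n)) => (Nd.p0 x.1 x.2.1 x.2.2.1 x.2.2.2 : Nd d n))) (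
  pb_union (pb_range (pb_prod pb_fin (pb_prod (pb_const Bool) (pb_prod (pb_cn d) (pb_const (Fin 3))))) (fun n (x : Fin n × Bool × Cn d n × Fin 3) => (Nd.uj x.1 x.2.1 x.2.2.1 x.2.2.2 : Nd d n))) (
  pb_union (pb_range (pb_prod pb_fin (pb_prod (pb_const Bool) pb_fin1)) (fun n (x : Fin n × Bool × Fin (n + 1)) => (Nd.fi x.1 x.2.1 x.2.2 : Nd d n))) (
  pb_union (pb_range pb_fin (fun n (x : Fin n) => (Nd.le1 x : Nd d n))) (
  pb_union (pb_range (pb_prod pb_fin pb_fin) (fun n (x : Fin n × Fin n) => (Nd.pl x.1 x.2 : Nd d n))) (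
  pb_range (pb_const Unit) (fun n (_ : Unit) => (Nd.lt2 : Nd d n))))))))))))))))))))))))))))))))))

instance Nd_finite : Finite (Nd d n) := by
  refine Set.finite_univ_iff.1 ?_
  rw [← UU_univ]
  exact UU_fin d n

theorem Nd_card (d : ℕ) : ∃ c : ℕ, ∀ n : ℕ, 2 ≤ n → Nat.card (Nd d n) ≤ n ^ c := by
  obtain ⟨c, hc⟩ := pb_UU d
  refine ⟨c, fun n hn => ?_⟩
  have h1 := hc n hn
  rwa [UU_univ, Set.ncard_univ] at h1

/-- The circuit. -/
noncomputable abbrev CC (d n : ℕ) : Circuit (Re d) (Fin n) where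
  N := Nd d n
  gate := gt
  rank := rk
  rank_lt := rk_lt

/-- Refutation of assumptions in the circuit. -/
abbrev PP (l : ℕ) (Γ : Set (Lit (Nd d n))) : Prop := Pn (T d) (CC d n) l Γ

/-- Derivation from assumptions in the circuit. -/
abbrev DD (l : ℕ) (Γ : Set (Lit (Nd d n))) (x : Lit (Nd d n)) : Prop :=
  Dn (T d) (CC d n) l Γ x

end

end Pool.Agent.H79.CQ
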