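import Pool.Agent.H79.CQ.GId

/-!
# Grid II over `F_p`: small fillings

Port of `Pool/Agent/H42/CS/GFil.lean`. PROOF. For `P` in the box put `zp := cob L (pth z0 P) + z0`. Then
`Sup L zp`, `dl L zp = dl L z0` (`dl_add`, `dl_cob`), and for an edge `e = (x, a)` of the box, by
`pth_id`, `zp e = -∑ b > a, sgs .. * ∑ t ∈ btw (P b) (x b), dl L z0 (mix x P b t, a, b)`. So if
`zp e ≠ 0` there are `b`, `t` with `dl L z0 (mix x P b t, a, b) ≠ 0`
(`Finset.exists_ne_zero_of_sum_ne_zero`, `right_ne_zero_of_mul`). The counting (`pairs` there) does not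
depend on the coefficients and can be copied.
-/

set_option autoImplicit false
set_option linter.unusedSectionVars false

namespace Pool.Agent.H79.CQ

open Pool.Agent.H42.CS (Pt Ed Sq un inB isE isS mix btw Slot off ed sq box_fin isE_fin isS_fin
  mix_isE)

variable {p : ℕ}

/-- The relation between a base point, an edge and a square. -/
private def Rl {d : ℕ} (p : Pt d) (e : Ed d) (s : Sq d) : Prop :=
  s.2.1 = e.2 ∧ s.1 = mix e.1 p s.2.2 (s.1 s.2.2)

private theorem mix_self {d : ℕ} (x p : Pt d) (b : Fin d) (t : ℤ) : mix x p b t b = t := by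
  simp [mix]

/-- The chain for the base point `P`. -/
private theorem zp_spec {d : ℕ} (L : ℕ) (z0 : Ed d → ZMod p) (h0 : Sup L z0) (P : Pt d)
    (hP : inB L P) : Sup L (cob L (pth z0 P) + z0) ∧
    dl L (cob L (pth z0 P) + z0) = dl L z0 ∧
    ∀ e, (cob L (pth z0 P) + z0) e ≠ 0 → isE L e ∧ ∃ s, dl L z0 s ≠ 0 ∧ Rl P e s := by
  have hsup : Sup L (cob L (pth z0 P) + z0) := by
    intro e he
    rw [Pi.add_apply, h0 e he, add_zero]
    unfold cob
    rw [if_neg he]
  refine ⟨hsup, by rw [dl_add, dl_cob, zero_add], fun e he => ?_⟩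
  have hE : isE L e := by
    by_contra hE
    exact he (hsup e hE)
  refine ⟨hE, ?_⟩
  obtain ⟨x, a⟩ := e
  have h1 := pth_id L z0 P x a hP hE
  have h2 : (cob L (pth z0 P) + z0) (x, a) =
      z0 (x, a) + pth z0 P x - pth z0 P (x + un a) := by
    rw [Pi.add_apply]
    unfold cob
    rw [if_pos hE]
    ring
  rw [h2, h1] at he
  obtain ⟨b, _, hb⟩ := Finset.exists_ne_zero_of_sum_ne_zero (neg_ne_zero.1 he)
  obtain ⟨t, _, ht⟩ := Finset.exists_ne_zero_of_sum_ne_zero (right_ne_zero_of_mul hb)
  refine ⟨(mix x P b t, a, b), ht, rfl, ?_⟩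
  change mix x P b t = mix x P b (mix x P b t b)
  rw [mix_self]

open Classical in
/-- The number of the pairs of a base point and an edge for one square. -/
private theorem pairs {d : ℕ} (L : ℕ) (B : Finset (Pt d)) (hB : ∀ x, x ∈ B ↔ inB L x)
    (E : Finset (Ed d)) (hE : ∀ e, e ∈ E ↔ isE L e) (s : Sq d) :
    ∑ p ∈ B, (E.filter fun e => Rl p e s).card ≤ B.card * L := by
  have h1 : (Finset.Ico (0 : ℤ) L).card = L := by simp
  have h2 : B.card * L = (B ×ˢ Finset.Ico (0 : ℤ) L).card := by
    rw [Finset.card_product, h1]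
  rw [h2, ← Finset.card_sigma]
  obtain ⟨y, a, b⟩ := s
  refine Finset.card_le_card_of_injOn
    (fun q => ((fun i => if i < b then q.1 i else if b < i then q.2.1 i else q.1 b), q.2.1 b))
    ?_ ?_
  · rintro ⟨p, x, a'⟩ hq
    rw [Finset.mem_coe, Finset.mem_sigma, Finset.mem_filter] at hq
    obtain ⟨hp, he, _⟩ := hq
    rw [hB] at hp
    have hx : inB L x := ((hE _).1 he).1
    rw [Finset.mem_coe, Finset.mem_product, hB, Finset.mem_Ico]
    refine ⟨fun i => ?_, hx b⟩
    change 0 ≤ (if i < b then p i else if b < i then x i else p b) ∧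
      (if i < b then p i else if b < i then x i else p b) < (L : ℤ)
    split_ifs
    · exact hp i
    · exact hx i
    · exact hp b
  · rintro ⟨p, x, a'⟩ hq ⟨p', x', a''⟩ hq' heq
    rw [Finset.mem_coe, Finset.mem_sigma, Finset.mem_filter] at hq hq'
    obtain ⟨_, _, ha, hm⟩ := hq
    obtain ⟨_, _, ha', hm'⟩ := hq'
    have ea : a' = a'' := ha.symm.trans ha'
    have e1 := (Prod.ext_iff.1 heq).1
    have e2 : x b = x' b := (Prod.ext_iff.1 heq).2
    have hy : ∀ i, y i = if i < b then x i else if i = b then y b else p i := fun i =>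
      congrFun hm i
    have hy' : ∀ i, y i = if i < b then x' i else if i = b then y b else p' i := fun i =>
      congrFun hm' i
    have e3 : ∀ i, (if i < b then p i else if b < i then x i else p b) =
        (if i < b then p' i else if b < i then x' i else p' b) := fun i => congrFun e1 i
    have hxx : x = x' := by
      funext i
      rcases lt_trichotomy i b with hi | hi | hi
      · have g1 := hy i
        have g2 := hy' i
        rw [if_pos hi] at g1 g2
        rw [← g1, ← g2]
      · rw [hi]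
        exact e2
      · have g := e3 i
        rwa [if_neg hi.not_gt, if_pos hi, if_neg hi.not_gt, if_pos hi] at g
    have hpp : p = p' := by
      funext i
      rcases lt_trichotomy i b with hi | hi | hi
      · have g := e3 i
        rwa [if_pos hi, if_pos hi] at g
      · have g := e3 b
        rw [if_neg (lt_irrefl b), if_neg (lt_irrefl b), if_neg (lt_irrefl b),
          if_neg (lt_irrefl b)] at g
        rw [hi]
        exact g
      · have g1 := hy i
        have g2 := hy' i
        rw [if_neg hi.not_gt, if_neg hi.ne'] at g1 g2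
        rw [← g1, ← g2]
    rw [hxx, hpp, ea]

theorem fill {d : ℕ} (L : ℕ) (z0 : Ed d → ZMod p) (h0 : Sup L z0) :
    ∃ z : Ed d → ZMod p, Sup L z ∧ dl L z = dl L z0 ∧ nm z ≤ L * nm (dl L z0) := by
  classical
  by_cases hne : ∃ P : Pt d, inB L P
  · set B : Finset (Pt d) := (box_fin (d := d) L).1.toFinset with hBdef
    have hB : ∀ x, x ∈ B ↔ inB L x := fun x => by
      rw [hBdef, Set.Finite.mem_toFinset]
      rfl
    set E : Finset (Ed d) := (isE_fin (d := d) L).toFinset with hEdef
    have hE : ∀ e, e ∈ E ↔ isE L e := fun e => by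
      rw [hEdef, Set.Finite.mem_toFinset]
      rfl
    have hfin : {s : Sq d | dl L z0 s ≠ 0}.Finite := by
      refine (isS_fin (d := d) L).1.subset fun s hs => ?_
      by_contra hS
      apply hs
      have hS' : ¬ isS L s := hS
      unfold dl
      rw [if_neg hS']
    set T : Finset (Sq d) := hfin.toFinset with hTdef
    have hT : ∀ s, s ∈ T ↔ dl L z0 s ≠ 0 := fun s => by
      rw [hTdef, Set.Finite.mem_toFinset]
      rfl
    have hTc : nm (dl L z0) = T.card := by
      unfold nm
      rw [hTdef, Set.ncard_eq_toFinset_card _ hfin]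
    have hBne : B.Nonempty := by
      obtain ⟨P, hP⟩ := hne
      exact ⟨P, (hB P).2 hP⟩
    have hbd : ∀ P ∈ B, nm (cob L (pth z0 P) + z0) ≤
        ∑ s ∈ T, (E.filter fun e => Rl P e s).card := by
      intro P hP
      obtain ⟨_, _, h3⟩ := zp_spec L z0 h0 P ((hB P).1 hP)
      refine le_trans ?_ Finset.card_biUnion_le
      unfold nm
      rw [← Set.ncard_coe_finset]
      refine Set.ncard_le_ncard (fun e he => ?_) (Finset.finite_toSet _)
      obtain ⟨h4, s, hs, hR⟩ := h3 e he
      rw [Finset.mem_coe, Finset.mem_biUnion]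
      exact ⟨s, (hT s).2 hs, Finset.mem_filter.2 ⟨(hE e).2 h4, hR⟩⟩
    have hsum : ∑ P ∈ B, nm (cob L (pth z0 P) + z0) ≤ ∑ _P ∈ B, L * nm (dl L z0) := by
      calc ∑ P ∈ B, nm (cob L (pth z0 P) + z0) ≤
            ∑ P ∈ B, ∑ s ∈ T, (E.filter fun e => Rl P e s).card := Finset.sum_le_sum hbd
        _ = ∑ s ∈ T, ∑ P ∈ B, (E.filter fun e => Rl P e s).card := Finset.sum_comm
        _ ≤ ∑ _s ∈ T, B.card * L := Finset.sum_le_sum fun s _ => pairs L B hB E hE s
        _ = ∑ _P ∈ B, L * nm (dl L z0) := by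
            rw [Finset.sum_const, Finset.sum_const, hTc, smul_eq_mul, smul_eq_mul]
            ring
    obtain ⟨P, hP, hle⟩ := Finset.exists_le_of_sum_le hBne hsum
    obtain ⟨h1, h2, _⟩ := zp_spec L z0 h0 P ((hB P).1 hP)
    exact ⟨_, h1, h2, hle⟩
  · refine ⟨0, fun e _ => rfl, ?_, ?_⟩
    · have h1 : ∀ z : Ed d → ZMod p, dl L z = 0 := by
        intro z
        funext s
        unfold dl
        rw [if_neg fun hs => hne ⟨_, hs.2.1⟩]
        rfl
      rw [h1, h1]
    · have h1 : nm (0 : Ed d → ZMod p) = 0 := by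
        unfold nm
        simp
      rw [h1]
      exact Nat.zero_le _

end Pool.Agent.H79.CQ
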