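import Pool.Agent.H79.CQ.GId

/-!
# Grid III over `F_p`: closed chains are coboundaries; isoperimetry; the value of a small closed chain

Port of `Pool/Agent/H42/CS/GIso.lean`.

`closed_cut`: `f := fun x => -pth z 0 x`; by `pth_id` with vanishing `dl`,
`z (x, a) = pth z 0 (x + un a) - pth z 0 x = f x - f (x + un a)`.

`iso`: `Q` is a union of level sets of `f`. For a pair `(P, x)` of points of the box with `¬ Q P`, `Q x`
the path sum of the 0-1 function `g := if Q then 1 else 0` gives (`pth_cob` for `g`) `b` and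
`t ∈ btw (P b) (x b)` with `cob L g (mix x P b t, b) ≠ 0`; then `f` has different values at the ends of
this edge, so `cob L f` is not zero there. (If `p = 0` or `p = 1`: for `p = 1` everything is equal; to
avoid `(1 : ZMod p) = 0` assume `Fact p.Prime`.) The injection is the one of the original.

`cob_inj`: by `pth_cob` `f 0 - f x = f' 0 - f' x`.

`small_cut`: `closed_cut` gives `f`. For every set `A` of values let `a := |{x in the box, f x ∈ A}|`,
`b := L ^ d - a`. `iso` gives `a b ≤ nm z * L ^ (d + 1)`, so (as in the original: `small_arith`) `8 a < L ^ d`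
or `8 b < L ^ d`. Take a maximal (for inclusion, or cardinality) finite set `A` of values with `8 a < L ^ d`
(`∅` is such a set; the set of all values is not). For a value `c ∉ A`: `insert c A` is not small, so its
complement is small; hence `|{f = c}| > L ^ d - 2 (L ^ d / 8)`, `{f = c}` is not small and its complement is
small: `8 |{f ≠ c}| < L ^ d`. Replace `f` by `f - c`.

`sg_eq`: uniqueness: if `cob L f = cob L f'`, both zero outside less than 1/8 of the box, then
`f' = f + c` on the box and `c ≠ 0` is impossible (`{f ≠ 0} ∪ {f' ≠ 0}` would be the box). `0` is in the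
box since `L ≥ 1` (`hd`).

`sg_add`, `sg_smul`: small functions `f, f'` for `z, z'` and `f''` for `z + z'`: `f'' = f + f' + c` on the
box; `c = 0` since `3/8 < 1`. For `c • z`: `c • f` is small (its support is contained in that of `f`).
`sg_star`: `sg_eq` with `f = Pi.single x 1`.
-/

set_option autoImplicit false
set_option linter.unusedSectionVars false

namespace Pool.Agent.H79.CQ

open Pool.Agent.H42.CS (Pt Ed Sq un inB isE isS mix btw Slot off ed sq box_fin isE_fin isS_fin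
  mix_isE)

variable {p : ℕ} [hp : Fact p.Prime]

private theorem inB_zero {d L : ℕ} (hL : 1 ≤ L) : inB L (0 : Pt d) := by
  intro i
  rw [Pi.zero_apply]
  omega

private theorem box_pos {d L : ℕ} (hd : 1 ≤ d) {x : Pt d} (hx : inB L x) : 1 ≤ L := by
  have h := hx ⟨0, by omega⟩
  omega

private theorem card_split {d : ℕ} (L : ℕ) (Q : Pt d → Prop) :
    {x | inB L x ∧ Q x}.ncard + {x | inB L x ∧ ¬ Q x}.ncard = L ^ d := by
  have hfin := (box_fin (d := d) L).1
  have hdis : Disjoint {x | inB L x ∧ Q x} {x | inB L x ∧ ¬ Q x} := by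
    rw [Set.disjoint_left]
    rintro x ⟨-, h1⟩ ⟨-, h2⟩
    exact h2 h1
  rw [← (box_fin (d := d) L).2, ← Set.ncard_union_eq hdis (hfin.subset fun x hx => hx.1) (hfin.subset fun x hx => hx.1)]
  congr 1
  ext x
  constructor
  · rintro (h | h)
    · exact h.1
    · exact h.1
  · intro h
    by_cases h1 : Q x
    · exact Or.inl ⟨h, h1⟩
    · exact Or.inr ⟨h, h1⟩

theorem closed_cut {d : ℕ} (L : ℕ) (z : Ed d → ZMod p) (hz : Sup L z) (h : dl L z = 0) :
    ∃ f : Pt d → ZMod p, z = cob L f := by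
  refine ⟨fun x => -pth z 0 x, ?_⟩
  funext e
  obtain ⟨x, a⟩ := e
  unfold cob
  by_cases he : isE L (x, a)
  · rw [if_pos he]
    have h0 : inB L (0 : Pt d) := inB_zero (box_pos (by have := a.2; omega) he.1)
    have h1 := pth_id L z 0 x a h0 he
    have h2 : ∑ b ∈ Finset.univ.filter (fun b => a < b), sgs p ((0 : Pt d) b) (x b) *
        ∑ t ∈ btw ((0 : Pt d) b) (x b), dl L z (mix x 0 b t, a, b) = 0 := by
      refine Finset.sum_eq_zero fun b _ => ?_
      have h3 : ∑ t ∈ btw ((0 : Pt d) b) (x b), dl L z (mix x 0 b t, a, b) = 0 := by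
        refine Finset.sum_eq_zero fun t _ => ?_
        rw [h]
        rfl
      rw [h3, mul_zero]
    rw [h2, neg_zero] at h1
    change z (x, a) = -pth z 0 x - -pth z 0 (x + un a)
    linear_combination h1
  · rw [if_neg he, hz _ he]

theorem iso {d : ℕ} (L : ℕ) (f : Pt d → ZMod p) (Q : Pt d → Prop)
    (hQ : ∀ x y, f x = f y → Q x → Q y) :
    {x | inB L x ∧ Q x}.ncard * {x | inB L x ∧ ¬ Q x}.ncard ≤ nm (cob L f) * L ^ (d + 1) := by
  classical
  obtain ⟨A, hA⟩ : ∃ A : Set (Pt d), A = {x | inB L x ∧ Q x} := ⟨_, rfl⟩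
  obtain ⟨B, hB⟩ : ∃ B : Set (Pt d), B = {x | inB L x ∧ ¬ Q x} := ⟨_, rfl⟩
  rw [← hA, ← hB]
  have hex : ∀ q : Pt d × Pt d, q ∈ A ×ˢ B → ∃ u : Fin d × ℤ, u.2 ∈ Pool.Agent.H42.CS.btw (q.2 u.1) (q.1 u.1) ∧
      cob L f (mix q.1 q.2 u.1 u.2, u.1) ≠ 0 := by
    rintro ⟨x, P⟩ ⟨hx, hP⟩
    rw [hA] at hx
    rw [hB] at hP
    obtain ⟨g, hg⟩ : ∃ g : Pt d → ZMod p, g = fun y => if Q y then 1 else 0 := ⟨_, rfl⟩
    have h1 := pth_cob L g P x hP.1 hx.1
    have h2 : pth (cob L g) P x ≠ 0 := by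
      rw [h1, hg]
      dsimp only
      rw [if_neg hP.2, if_pos hx.2, zero_sub]
      exact neg_ne_zero.2 one_ne_zero
    unfold pth at h2
    obtain ⟨b, -, hb⟩ := Finset.exists_ne_zero_of_sum_ne_zero h2
    obtain ⟨t, ht, ht2⟩ := Finset.exists_ne_zero_of_sum_ne_zero (right_ne_zero_of_mul hb)
    refine ⟨(b, t), ht, ?_⟩
    change cob L f (mix x P b t, b) ≠ 0
    intro h3
    apply ht2
    unfold cob at h3 ⊢
    by_cases he : isE L (mix x P b t, b)
    · rw [if_pos he] at h3 ⊢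
      have h4 := sub_eq_zero.1 h3
      rw [hg]
      dsimp only at h4 ⊢
      by_cases h5 : Q (mix x P b t)
      · rw [if_pos h5, if_pos (hQ _ _ h4 h5), sub_self]
      · rw [if_neg h5, if_neg (fun h6 => h5 (hQ _ _ h4.symm h6)), sub_self]
    · rw [if_neg he]
  have hd0 : ∀ q : Pt d × Pt d, q ∈ A ×ˢ B → Nonempty (Fin d) := fun q hq => ⟨(hex q hq).choose.1⟩
  by_cases hne : (A ×ˢ B).Nonempty
  swap
  · rw [← Set.ncard_prod, Set.not_nonempty_iff_eq_empty.1 hne, Set.ncard_empty]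
    exact Nat.zero_le _
  obtain ⟨q0, hq0⟩ := hne
  obtain ⟨b0⟩ := hd0 q0 hq0
  -- the choice of the edge
  obtain ⟨u, hu⟩ : ∃ u : Pt d × Pt d → Fin d × ℤ, ∀ q ∈ A ×ˢ B, (u q).2 ∈ Pool.Agent.H42.CS.btw (q.2 (u q).1) (q.1 (u q).1) ∧
      cob L f (mix q.1 q.2 (u q).1 (u q).2, (u q).1) ≠ 0 := by
    refine ⟨fun q => if h : q ∈ A ×ˢ B then (hex q h).choose else (b0, 0), fun q hq => ?_⟩
    simp only [dif_pos hq]
    exact (hex q hq).choose_spec
  obtain ⟨Ψ, hΨ⟩ : ∃ Ψ : Pt d × Pt d → Ed d × (Pt d × ℤ), ∀ q, Ψ q = ((mix q.1 q.2 (u q).1 (u q).2, (u q).1),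
      (fun i => if i ≤ (u q).1 then q.2 i else q.1 i), q.1 (u q).1) := ⟨_, fun _ => rfl⟩
  have hfinE : {e : Ed d | cob L f e ≠ 0}.Finite := by
    refine (isE_fin (d := d) L).subset fun e he => ?_
    by_contra h
    apply he
    unfold cob
    exact if_neg h
  have hT : ({e : Ed d | cob L f e ≠ 0} ×ˢ ({x : Pt d | inB L x} ×ˢ Set.Ico (0 : ℤ) L)).Finite :=
    hfinE.prod ((box_fin (d := d) L).1.prod (Set.finite_Ico _ _))
  have hmaps : ∀ q ∈ A ×ˢ B, Ψ q ∈ {e : Ed d | cob L f e ≠ 0} ×ˢ ({x : Pt d | inB L x} ×ˢ Set.Ico (0 : ℤ) L) := by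
    intro q hq
    rw [hΨ]
    have hq1 : inB L q.1 := by
      have := hq.1
      rw [hA] at this
      exact this.1
    have hq2 : inB L q.2 := by
      have := hq.2
      rw [hB] at this
      exact this.1
    refine ⟨(hu q hq).2, ?_, hq1 _⟩
    intro i
    change 0 ≤ (if i ≤ (u q).1 then q.2 i else q.1 i) ∧ (if i ≤ (u q).1 then q.2 i else q.1 i) < (L : ℤ)
    split_ifs
    · exact hq2 i
    · exact hq1 i
  have hinj : Set.InjOn Ψ (A ×ˢ B) := by
    intro q hq q' hq' h
    rw [hΨ, hΨ] at h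
    have h1 : (u q).1 = (u q').1 := congrArg (fun w => w.1.2) h
    have h2 : mix q.1 q.2 (u q).1 (u q).2 = mix q'.1 q'.2 (u q').1 (u q').2 := congrArg (fun w => w.1.1) h
    have h3 : (fun i => if i ≤ (u q).1 then q.2 i else q.1 i) = fun i => if i ≤ (u q').1 then q'.2 i else q'.1 i :=
      congrArg (fun w => w.2.1) h
    have h4 : q.1 (u q).1 = q'.1 (u q').1 := congrArg (fun w => w.2.2) h
    rw [← h1] at h2 h3 h4
    have k2 := fun i => congrFun h2 i
    have k3 := fun i => congrFun h3 i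
    simp only [mix] at k2 k3
    apply Prod.ext
    · funext i
      have a2 := k2 i
      have a3 := k3 i
      rcases lt_trichotomy i (u q).1 with h5 | h5 | h5
      · rw [if_pos h5, if_pos h5] at a2
        exact a2
      · rw [h5]
        exact h4
      · rw [if_neg (not_le.2 h5), if_neg (not_le.2 h5)] at a3
        exact a3
    · funext i
      have a2 := k2 i
      have a3 := k3 i
      by_cases h5 : i ≤ (u q).1
      · rw [if_pos h5, if_pos h5] at a3
        exact a3
      · have h6 : ¬ i < (u q).1 := fun h => h5 h.le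
        have h7 : ¬ i = (u q).1 := fun h => h5 h.le
        rw [if_neg h6, if_neg h7, if_neg h6, if_neg h7] at a2
        exact a2
  have hfin := Set.ncard_le_ncard_of_injOn Ψ hmaps hinj hT
  rw [Set.ncard_prod, Set.ncard_prod, Set.ncard_prod, (box_fin (d := d) L).2] at hfin
  have h8 : (Set.Ico (0 : ℤ) L).ncard = L := by
    rw [← Finset.coe_Ico, Set.ncard_coe_finset, Int.card_Ico]
    omega
  rw [h8, ← pow_succ] at hfin
  exact hfin

theorem cob_inj {d : ℕ} (L : ℕ) (f f' : Pt d → ZMod p) (h : cob L f = cob L f') :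
    ∃ c : ZMod p, ∀ x, inB L x → f' x = f x + c := by
  refine ⟨f' 0 - f 0, fun x hx => ?_⟩
  by_cases hL : 1 ≤ L
  · have h1 := pth_cob L f 0 x (inB_zero hL) hx
    have h2 := pth_cob L f' 0 x (inB_zero hL) hx
    rw [h, h2] at h1
    linear_combination -h1
  · have hd : d = 0 := by
      by_contra hd
      exact hL (box_pos (by omega) hx)
    subst hd
    have : x = 0 := Subsingleton.elim _ _
    rw [this]
    ring

private theorem small_arith {d L a b n : ℕ} (hd : 1 ≤ d) (hL : 1 ≤ L) (hab : a + b = L ^ d) (hle : a ≤ b)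
    (hi : a * b ≤ n * L ^ (d + 1)) (hs : 16 * n < L ^ (d - 1)) : 8 * a < L ^ d := by
  have hLd : 0 < L ^ d := by positivity
  have h1 : a * L ^ d ≤ (2 * n * L) * L ^ d := by
    calc a * L ^ d = a * (a + b) := by rw [hab]
      _ ≤ a * (b + b) := Nat.mul_le_mul_left _ (by omega)
      _ = 2 * (a * b) := by ring
      _ ≤ 2 * (n * L ^ (d + 1)) := Nat.mul_le_mul_left _ hi
      _ = (2 * n * L) * L ^ d := by ring
  have h2 : a ≤ 2 * n * L := Nat.le_of_mul_le_mul_right h1 hLd
  have h3 : 16 * n * L < L ^ (d - 1) * L := Nat.mul_lt_mul_of_pos_right hs (by omega)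
  have h4 : L ^ (d - 1) * L = L ^ d := by
    rw [← pow_succ]
    congr 1
    omega
  calc 8 * a ≤ 8 * (2 * n * L) := Nat.mul_le_mul_left _ h2
    _ = 16 * n * L := by ring
    _ < L ^ d := by rw [← h4]; exact h3

private theorem cob_const {d : ℕ} (L : ℕ) (f : Pt d → ZMod p) (c : ZMod p) : cob L (fun x => f x - c) = cob L f := by
  funext e
  unfold cob
  split_ifs
  · ring
  · rfl

theorem small_cut {d : ℕ} (hd : 1 ≤ d) (L : ℕ) (hL : 1 ≤ L) (z : Ed d → ZMod p) (hz : Sup L z)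
    (h : dl L z = 0) (hs : 16 * nm z < L ^ (d - 1)) :
    ∃ f : Pt d → ZMod p, z = cob L f ∧ 8 * {x | inB L x ∧ f x ≠ 0}.ncard < L ^ d := by
  classical
  obtain ⟨f, hf⟩ := closed_cut L z hz h
  have hfin := (box_fin (d := d) L).1
  have hLd : 0 < L ^ d := by positivity
  have key : ∀ Q : Pt d → Prop, (∀ x y, f x = f y → Q x → Q y) →
      8 * {x | inB L x ∧ Q x}.ncard < L ^ d ∨ 8 * {x | inB L x ∧ ¬ Q x}.ncard < L ^ d := by
    intro Q hQ
    have hab := card_split L Q
    have hi := iso L f Q hQ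
    rw [← hf] at hi
    rcases le_total {x | inB L x ∧ Q x}.ncard {x | inB L x ∧ ¬ Q x}.ncard with hle | hle
    · exact Or.inl (small_arith hd hL hab hle hi hs)
    · rw [add_comm] at hab
      rw [mul_comm] at hi
      exact Or.inr (small_arith hd hL hab hle hi hs)
  -- a maximal small set of values
  obtain ⟨A, hA, hmax⟩ := Finset.exists_max_image ((Finset.univ : Finset (ZMod p)).powerset.filter
    fun A => 8 * {x | inB L x ∧ f x ∈ A}.ncard < L ^ d) Finset.card
    ⟨∅, by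
      rw [Finset.mem_filter]
      refine ⟨Finset.empty_mem_powerset _, ?_⟩
      have e : {x : Pt d | inB L x ∧ f x ∈ (∅ : Finset (ZMod p))} = ∅ := by
        ext x
        simp
      rw [e, Set.ncard_empty, mul_zero]
      exact hLd⟩
  have hA2 := (Finset.mem_filter.1 hA).2
  obtain ⟨c, hc⟩ : ∃ c, c ∉ A := by
    by_contra hcon
    push Not at hcon
    have e : {x : Pt d | inB L x ∧ f x ∈ A} = {x | inB L x} := by
      ext x
      exact ⟨fun hx => hx.1, fun hx => ⟨hx, hcon _⟩⟩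
    rw [e, (box_fin (d := d) L).2] at hA2
    omega
  have hins : 8 * {x | inB L x ∧ ¬ f x ∈ insert c A}.ncard < L ^ d := by
    rcases key (fun x => f x ∈ insert c A) (fun x y hxy hx => by rw [← hxy]; exact hx) with h1 | h1
    · exfalso
      have h2 := hmax (insert c A) (Finset.mem_filter.2 ⟨Finset.mem_powerset.2 (Finset.subset_univ _), h1⟩)
      rw [Finset.card_insert_of_notMem hc] at h2
      omega
    · exact h1
  have hsub : {x | inB L x ∧ ¬ f x = c} ⊆ {x | inB L x ∧ f x ∈ A} ∪ {x | inB L x ∧ ¬ f x ∈ insert c A} := by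
    rintro x ⟨h1, h2⟩
    by_cases h3 : f x ∈ A
    · exact Or.inl ⟨h1, h3⟩
    · refine Or.inr ⟨h1, fun h4 => ?_⟩
      rcases Finset.mem_insert.1 h4 with h5 | h5
      · exact h2 h5
      · exact h3 h5
  have h1 := Set.ncard_le_ncard hsub ((hfin.subset fun x hx => hx.1).union (hfin.subset fun x hx => hx.1))
  have h2 := Set.ncard_union_le {x | inB L x ∧ f x ∈ A} {x | inB L x ∧ ¬ f x ∈ insert c A}
  have h3 : 8 * {x | inB L x ∧ ¬ f x = c}.ncard < L ^ d := by
    rcases key (fun x => f x = c) (fun x y hxy hx => by rw [← hxy]; exact hx) with h4 | h4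
    · exfalso
      have h5 := card_split L (fun x => f x = c)
      omega
    · exact h4
  refine ⟨fun x => f x - c, by rw [cob_const]; exact hf, ?_⟩
  have e : {x | inB L x ∧ f x - c ≠ 0} = {x | inB L x ∧ ¬ f x = c} := by
    ext x
    exact ⟨fun hx => ⟨hx.1, fun h4 => hx.2 (sub_eq_zero.2 h4)⟩, fun hx => ⟨hx.1, fun h4 => hx.2 (sub_eq_zero.1 h4)⟩⟩
  rw [e]
  exact h3

theorem sg_eq {d : ℕ} (hd : 1 ≤ d) (L : ℕ) (f : Pt d → ZMod p)
    (hs : 8 * {x | inB L x ∧ f x ≠ 0}.ncard < L ^ d) : sg L (cob L f) = f 0 := by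
  have hL : 1 ≤ L := by
    by_contra hL
    have : L = 0 := by omega
    rw [this, zero_pow (by omega)] at hs
    omega
  have hex : ∃ f' : Pt d → ZMod p, cob L f = cob L f' ∧ 8 * {x | inB L x ∧ f' x ≠ 0}.ncard < L ^ d :=
    ⟨f, rfl, hs⟩
  have h0 : sg L (cob L f) = hex.choose 0 := by
    unfold sg
    rw [dif_pos hex]
  rw [h0]
  obtain ⟨h1, h2⟩ := hex.choose_spec
  generalize hex.choose = f' at h1 h2 ⊢
  obtain ⟨c, hc⟩ := cob_inj L f f' h1
  have hc0 : c = 0 := by
    by_contra hcn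
    have hsub : {x : Pt d | inB L x} ⊆ {x | inB L x ∧ f x ≠ 0} ∪ {x | inB L x ∧ f' x ≠ 0} := by
      intro x hx
      by_cases h3 : f x = 0
      · refine Or.inr ⟨hx, ?_⟩
        rw [hc x hx, h3, zero_add]
        exact hcn
      · exact Or.inl ⟨hx, h3⟩
    have hfin := (box_fin (d := d) L).1
    have h3 := Set.ncard_le_ncard hsub ((hfin.subset fun x hx => hx.1).union (hfin.subset fun x hx => hx.1))
    have h4 := Set.ncard_union_le {x | inB L x ∧ f x ≠ 0} {x | inB L x ∧ f' x ≠ 0}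
    rw [(box_fin (d := d) L).2] at h3
    omega
  rw [hc 0 (inB_zero hL), hc0, add_zero]

theorem sg_zero {d : ℕ} (hd : 1 ≤ d) (L : ℕ) (hL : 1 ≤ L) :
    sg L (0 : Ed d → ZMod p) = 0 := by
  have h1 : cob L (0 : Pt d → ZMod p) = 0 := by
    funext e
    unfold cob
    split_ifs
    · exact sub_self 0
    · rfl
  have h2 : {x : Pt d | inB L x ∧ (0 : Pt d → ZMod p) x ≠ 0} = ∅ := by
    ext x
    simp
  have h3 := sg_eq hd L (0 : Pt d → ZMod p) (by
    rw [h2, Set.ncard_empty, mul_zero]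
    positivity)
  rw [h1] at h3
  exact h3

theorem sg_add {d : ℕ} (hd : 1 ≤ d) (L : ℕ) (hL : 1 ≤ L) (z z' : Ed d → ZMod p) (hz : Sup L z)
    (hz' : Sup L z') (h : dl L z = 0) (h' : dl L z' = 0) (hs : 16 * nm z < L ^ (d - 1))
    (hs' : 16 * nm z' < L ^ (d - 1)) (hs'' : 16 * nm (z + z') < L ^ (d - 1)) :
    sg L (z + z') = sg L z + sg L z' := by
  have hz'' : Sup L (z + z') := fun e he => by rw [Pi.add_apply, hz e he, hz' e he, add_zero]
  have h'' : dl L (z + z') = 0 := by rw [dl_add, h, h', add_zero]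
  obtain ⟨f, hf, hc⟩ := small_cut hd L hL z hz h hs
  obtain ⟨f', hf', hc'⟩ := small_cut hd L hL z' hz' h' hs'
  obtain ⟨f'', hf'', hc''⟩ := small_cut hd L hL (z + z') hz'' h'' hs''
  have h1 : cob L (f + f') = cob L f'' := by rw [cob_add, ← hf, ← hf', hf'']
  obtain ⟨c, hcc⟩ := cob_inj L _ _ h1
  have hc0 : c = 0 := by
    by_contra hcn
    have hsub : {x : Pt d | inB L x} ⊆ ({x | inB L x ∧ f x ≠ 0} ∪ {x | inB L x ∧ f' x ≠ 0}) ∪
        {x | inB L x ∧ f'' x ≠ 0} := by
      intro x hx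
      have h3 := hcc x hx
      rw [Pi.add_apply] at h3
      by_cases h4 : f x = 0
      · by_cases h5 : f' x = 0
        · refine Or.inr ⟨hx, ?_⟩
          rw [h3, h4, h5, add_zero, zero_add]
          exact hcn
        · exact Or.inl (Or.inr ⟨hx, h5⟩)
      · exact Or.inl (Or.inl ⟨hx, h4⟩)
    have hfin := (box_fin (d := d) L).1
    have h3 := Set.ncard_le_ncard hsub
      (((hfin.subset fun x hx => hx.1).union (hfin.subset fun x hx => hx.1)).union (hfin.subset fun x hx => hx.1))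
    have h4 := Set.ncard_union_le ({x | inB L x ∧ f x ≠ 0} ∪ {x | inB L x ∧ f' x ≠ 0}) {x | inB L x ∧ f'' x ≠ 0}
    have h5 := Set.ncard_union_le {x | inB L x ∧ f x ≠ 0} {x | inB L x ∧ f' x ≠ 0}
    rw [(box_fin (d := d) L).2] at h3
    omega
  have h2 := hcc 0 (inB_zero hL)
  rw [hc0, add_zero, Pi.add_apply] at h2
  have e1 := sg_eq hd L f hc
  have e2 := sg_eq hd L f' hc'
  have e3 := sg_eq hd L f'' hc''
  rw [← hf] at e1
  rw [← hf'] at e2
  rw [← hf''] at e3
  rw [e1, e2, e3, h2]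

theorem sg_smul {d : ℕ} (hd : 1 ≤ d) (L : ℕ) (hL : 1 ≤ L) (c : ZMod p) (z : Ed d → ZMod p)
    (hz : Sup L z) (h : dl L z = 0) (hs : 16 * nm z < L ^ (d - 1)) :
    sg L (c • z) = c * sg L z := by
  obtain ⟨f, hf, hc⟩ := small_cut hd L hL z hz h hs
  have hsub : {x | inB L x ∧ (c • f) x ≠ 0} ⊆ {x | inB L x ∧ f x ≠ 0} := by
    rintro x ⟨h1, h2⟩
    refine ⟨h1, fun h3 => h2 ?_⟩
    rw [Pi.smul_apply, h3, smul_zero]
  have h1 := Set.ncard_le_ncard hsub ((box_fin (d := d) L).1.subset fun x hx => hx.1)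
  have e1 := sg_eq hd L f hc
  have e2 := sg_eq hd L (c • f) (by omega)
  rw [cob_smul, ← hf, Pi.smul_apply, smul_eq_mul] at e2
  rw [← hf] at e1
  rw [e1, e2]

theorem sg_star {d : ℕ} (hd : 1 ≤ d) (L : ℕ) (hL : 8 < L ^ d) (x : Pt d) (hx : inB L x) :
    sg L (cob L (Pi.single x 1) : Ed d → ZMod p) = if x = 0 then 1 else 0 := by
  have h1 : {y : Pt d | inB L y ∧ (Pi.single x 1 : Pt d → ZMod p) y ≠ 0} = {x} := by
    ext y
    rw [Set.mem_singleton_iff]
    constructor
    · rintro ⟨-, h2⟩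
      by_contra h3
      rw [Pi.single_eq_of_ne h3] at h2
      exact h2 rfl
    · rintro rfl
      refine ⟨hx, ?_⟩
      rw [Pi.single_eq_same]
      exact one_ne_zero
  rw [sg_eq hd L _ (by rw [h1, Set.ncard_singleton]; omega), Pi.single_apply]
  by_cases h : x = 0
  · rw [if_pos h, if_pos h.symm]
  · rw [if_neg h, if_neg (fun h' => h h'.symm)]

end Pool.Agent.H79.CQ
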