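import Pool.Agent.H79.CQ.GFil
import Pool.Agent.H79.CQ.GIso

/-!
# Grid IV over `F_p`: the gadget of the grid

Port of `Pool/Agent/H42/CS/GGad.lean` (same statements over `ZMod 2`), with signs.

`iot L j` is linear, injective on the functions supported on the squares of the box, and
`nm (iot L j v) = nm v` for them. DEFINITIONS. `D := {y | ∃ z, Sup L z ∧ y = iot L j (dl L z)}`,
`w := L ^ (d - 2) / 100`.

FILLINGS (new: homogeneous). There is `Z : (K → ZMod p) → (Ed d → ZMod p)` with `Sup L (Z y)`,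
`Z (c • y) = c • Z y` for all `c`, `y`, and for `y ∈ D`: `iot L j (dl L (Z y)) = y`,
`nm (Z y) ≤ L * nm y`. Choose `Z0 y` by `fill` for `y ∈ D` (and `0` for `y ∉ D`); for `y ≠ 0` choose a
representative `r y` of the line of `y` which depends on the line only
(`Quotient.out` for the relation `∃ c ≠ 0, y' = c • y`, or: `r y := (c • y)` with `c` the inverse of the
first nonzero value of `y` for some enumeration of the finite type `K`; here `K` is a `Fintype`) and `c y`
with `y = c y • r y`, `Z y := c y • Z0 (r y)`; `Z 0 := 0`. (With the second choice `c y = y (k y)`,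
`k y` = the first `k` with `y k ≠ 0`; `k (c • y) = k y` for `c ≠ 0`, so `c (c' • y) = c' * c y` and
`r (c' • y) = r y`.) `nm (c • z) = nm z` for `c ≠ 0`.

COCYCLE. `kap y y' := sg L (Z (y + y') - Z y - Z y')`. `kap_line`: `Z (a • y + b • y) - Z (a • y) - Z (b • y) = 0`.
`kap_coc`: write `u = Z (y + y') - Z y - Z y'`, `u' = Z (y + y' + y'') - Z (y + y') - Z y''`; closed, of size at
most `3 L w`, their sum is `Z (y+y'+y'') - Z y - Z y' - Z y''`, of size at most `4 L w`,
`16 * 4 * L * w < L ^ (d - 1)`; `sg_add`; the right side is the same.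

`c e := sg L (Pi.single e 1 - Z (ye p L j e))`.

VERTEX LAW. For a set `A` of slots of `x` with `isE` put `cA := ∑ σ ∈ A, tau p σ • Pi.single (ed x σ) 1`,
`yA := iot L j (dl L cA)`, `φ A := f yA + sg L (cA - Z yA)`. CLAIM
`φ (insert σ A) = φ A + tau p σ * (f (ye (ed x σ)) + c (ed x σ))`: with `c1 := tau p σ • Pi.single (ed x σ) 1`,
`y1 := iot L j (dl L c1) = tau p σ • ye (ed x σ)`: `f (y1 + yA) = f y1 + f yA + kap y1 yA`,
`kap y1 yA = sg (Z (y1 + yA) - Z y1 - Z yA)`, and `sg (c1 + cA - Z (y1 + yA)) = sg (c1 - Z y1) +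
sg (cA - Z yA) - sg (Z (y1 + yA) - Z y1 - Z yA)` by `sg_add` (twice) and `sg_smul` (with `-1`); sizes as in
the original (`nm (c • z) ≤ nm z`). And `f y1 + sg (c1 - Z y1) = tau p σ * (f ye + c)`: `tau` is `1` or
`-1`; `f (-y) = -f y` (from `IsW` at `y, -y`, `kap_line 1 (-1)` and `f 0 = 0`, which follows from `IsW` at
`0, 0` and `kap_line`), `Z (-y) = -Z y`, `sg_smul`. For all slots with `isE`: `cA = cob L (Pi.single x 1)`
(`star_eq` with signs: at the edge `(y, a)`: `f y - f (y + un a)` with `f = Pi.single x 1`), `dl L cA = 0`,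
`yA = 0`, so `φ = sg L (cob L (Pi.single x 1)) = [x = 0]` (`sg_star`).

DOT FORMULA. `dl L (Pi.single (ed x σ) 1) s` is `oo p σ t` if `s = sq x σ t` (then `t` is unique), and `0` if
`s` has no such form. (Check: `dl` at `(y, a, b)` is `z (y, a) + z (y+a, b) - z (y+b, a) - z (y, b)`; with
`X = x + off σ`: `σ.1 = a`, `t = (b, true)`: `y = X`, coefficient `1`; `t = (b, false)`: `y + un b = X`: `-1`;
`σ.1 = b`, `t = (a, true)`: `y = X`: `-1`; `t = (a, false)`: `y + un a = X`: `1`.)
-/

set_option autoImplicit false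
set_option linter.unusedSectionVars false

namespace Pool.Agent.H79.CQ

open Pool.Agent.H42.CS (Pt Ed Sq un inB isE isS mix btw Slot off ed sq box_fin isE_fin isS_fin
  mix_isE)

variable {p : ℕ} [hp : Fact p.Prime]

/-! ### A homogeneous choice -/

private theorem hom_choice {F V X : Type} [Field F] [AddCommGroup V] [Module F V] [AddCommGroup X]
    [Module F X] (R : V → X → Prop) (h0 : R 0 0)
    (hc : ∀ (c : F) (y : V) (z : X), c ≠ 0 → R y z → R (c • y) (c • z)) (hex : ∀ y, ∃ z, R y z) :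
    ∃ Z : V → X, (∀ y, R y (Z y)) ∧ ∀ (c : F) (y : V), Z (c • y) = c • Z y := by
  classical
  choose Z0 hZ0 using hex
  let s : Setoid V := MulAction.orbitRel Fˣ V
  obtain ⟨r, hr⟩ : ∃ r : V → V, r = fun y => (Quotient.mk s y).out := ⟨_, rfl⟩
  have h1 : ∀ y, ∃ u : Fˣ, u • r y = y := by
    intro y
    have h2 : s y (r y) := by
      rw [hr]
      exact s.symm (Quotient.mk_out (s := s) y)
    exact h2
  choose u hu using h1
  have h2 : ∀ (c : Fˣ) (y : V), r (c • y) = r y := by
    intro c y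
    rw [hr]
    have h3 : Quotient.mk s (c • y) = Quotient.mk s y := Quotient.sound (s := s) ⟨c, rfl⟩
    show (Quotient.mk s (c • y)).out = (Quotient.mk s y).out
    rw [h3]
  have h3 : ∀ y, y ≠ 0 → r y ≠ 0 := by
    intro y hy h4
    apply hy
    rw [← hu y, h4, smul_zero]
  refine ⟨fun y => if y = 0 then 0 else (u y : F) • Z0 (r y), ?_, ?_⟩
  · intro y
    by_cases hy : y = 0
    · simp only [hy, if_true]
      exact h0
    · simp only [hy, if_false]
      have h4 := hc (u y : F) (r y) (Z0 (r y)) (u y).ne_zero (hZ0 (r y))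
      have h5 : (u y : F) • r y = y := hu y
      rw [h5] at h4
      exact h4
  · intro c y
    by_cases hy : y = 0
    · simp [hy]
    by_cases hc0 : c = 0
    · simp [hc0]
    have hcy : c • y ≠ 0 := smul_ne_zero hc0 hy
    simp only [hy, hcy, if_false]
    obtain ⟨c', hc'⟩ : ∃ c' : Fˣ, (c' : F) = c := ⟨Units.mk0 c hc0, rfl⟩
    have h4 : r (c • y) = r y := by
      rw [← hc']
      exact h2 c' y
    have h5 : (u (c • y) : F) • r y = (c * (u y : F)) • r y := by
      have h6 : (u (c • y) : F) • r (c • y) = c • y := hu (c • y)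
      have h7 : (u y : F) • r y = y := hu y
      rw [h4] at h6
      rw [h6, mul_smul, h7]
    have h6 : (u (c • y) : F) = c * (u y : F) := smul_left_injective F (h3 y hy) h5
    rw [h4, h6, mul_smul]

/-! ### The image of the functions on the squares -/

private theorem iot_at {d : ℕ} {K : Type} (L : ℕ) (j : Sq d → K) (hj : Set.InjOn j {s | isS L s})
    (v : Sq d → ZMod p) (s : Sq d) (hs : isS L s) : iot L j v (j s) = v s := by
  unfold iot
  have e : {s' : Sq d | isS L s' ∧ j s' = j s} = {s} := by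
    ext s'
    simp only [Set.mem_ofPred_eq, Set.mem_singleton_iff]
    exact ⟨fun h => hj h.1 hs h.2, fun h => by rw [h]; exact ⟨hs, rfl⟩⟩
  rw [e, finsum_mem_singleton]

private theorem iot_ne {d : ℕ} {K : Type} (L : ℕ) (j : Sq d → K) (v : Sq d → ZMod p) (k : K)
    (h : iot L j v k ≠ 0) : ∃ s, isS L s ∧ j s = k := by
  by_contra hne
  push Not at hne
  apply h
  unfold iot
  have e : {s : Sq d | isS L s ∧ j s = k} = ∅ := by
    ext s
    simp only [Set.mem_ofPred_eq, Set.mem_empty_iff_false, iff_false, not_and]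
    exact fun hs => hne s hs
  rw [e, finsum_mem_empty]

private theorem iot_add {d : ℕ} {K : Type} (L : ℕ) (j : Sq d → K) (v v' : Sq d → ZMod p) :
    iot L j (v + v') = iot L j v + iot L j v' := by
  funext k
  have hf : {s : Sq d | isS L s ∧ j s = k}.Finite := (isS_fin L).1.subset fun s hs => hs.1
  simp only [iot, Pi.add_apply]
  exact finsum_mem_add_distrib hf

private theorem iot_smul {d : ℕ} {K : Type} (L : ℕ) (j : Sq d → K) (c : ZMod p) (v : Sq d → ZMod p) :
    iot L j (c • v) = c • iot L j v := by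
  funext k
  have hf : {s : Sq d | isS L s ∧ j s = k}.Finite := (isS_fin L).1.subset fun s hs => hs.1
  simp only [iot, Pi.smul_apply]
  exact (smul_finsum_mem hf).symm

private theorem iot_zero {d : ℕ} {K : Type} (L : ℕ) (j : Sq d → K) :
    iot L j (0 : Sq d → ZMod p) = 0 := by
  funext k
  simp only [iot, Pi.zero_apply]
  exact finsum_mem_zero _

private theorem dl_zero {d : ℕ} (L : ℕ) : dl L (0 : Ed d → ZMod p) = 0 := by
  funext s
  simp [dl]

private theorem dl_off {d : ℕ} (L : ℕ) (z : Ed d → ZMod p) (s : Sq d) (hs : ¬ isS L s) :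
    dl L z s = 0 := by
  unfold dl
  exact if_neg hs

private theorem lin_add {d : ℕ} {K : Type} (L : ℕ) (j : Sq d → K) (z z' : Ed d → ZMod p) :
    iot L j (dl L (z + z')) = iot L j (dl L z) + iot L j (dl L z') := by
  rw [dl_add, iot_add]

private theorem lin_smul {d : ℕ} {K : Type} (L : ℕ) (j : Sq d → K) (c : ZMod p) (z : Ed d → ZMod p) :
    iot L j (dl L (c • z)) = c • iot L j (dl L z) := by
  rw [dl_smul, iot_smul]

private theorem sub_eq' {d : ℕ} (z z' : Ed d → ZMod p) : z - z' = z + (-1 : ZMod p) • z' := by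
  rw [neg_one_smul, sub_eq_add_neg]

private theorem lin_sub {d : ℕ} {K : Type} (L : ℕ) (j : Sq d → K) (z z' : Ed d → ZMod p) :
    iot L j (dl L (z - z')) = iot L j (dl L z) - iot L j (dl L z') := by
  rw [sub_eq', lin_add, lin_smul, neg_one_smul, sub_eq_add_neg]

private theorem lin_zero {d : ℕ} {K : Type} (L : ℕ) (j : Sq d → K) :
    iot L j (dl L (0 : Ed d → ZMod p)) = 0 := by
  rw [dl_zero, iot_zero]

private theorem lin_inj {d : ℕ} {K : Type} (L : ℕ) (j : Sq d → K)
    (hj : Set.InjOn j {s | isS L s}) (z : Ed d → ZMod p) (h : iot L j (dl L z) = 0) :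
    dl L z = 0 := by
  funext s
  by_cases hs : isS L s
  · rw [← iot_at L j hj (dl L z) s hs, h]
    rfl
  · exact dl_off L z s hs

private theorem nm_lin {d : ℕ} {K : Type} (L : ℕ) (j : Sq d → K)
    (hj : Set.InjOn j {s | isS L s}) (z : Ed d → ZMod p) :
    nm (iot L j (dl L z)) = nm (dl L z) := by
  unfold nm
  have hS : ∀ s, dl L z s ≠ 0 → isS L s := fun s hs => by
    by_contra h
    exact hs (dl_off L z s h)
  have e : {k | iot L j (dl L z) k ≠ 0} = j '' {s | dl L z s ≠ 0} := by
    ext k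
    simp only [Set.mem_ofPred_eq, Set.mem_image]
    constructor
    · intro hk
      obtain ⟨s, hs, rfl⟩ := iot_ne L j _ k hk
      exact ⟨s, by rwa [iot_at L j hj _ s hs] at hk, rfl⟩
    · rintro ⟨s, hs, rfl⟩
      rwa [iot_at L j hj _ s (hS s hs)]
  rw [e, Set.InjOn.ncard_image]
  intro s hs s' hs' h
  exact hj (hS s hs) (hS s' hs') h

/-! ### Squares at an edge -/

private theorem sum_sq {d : ℕ} (L : ℕ) (x : Pt d) (σ : Slot d) (s : Sq d) (hs : isS L s) :
    (open Classical in ∑ t : Slot d, (if sq x σ t = s then oo p σ t else 0)) =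
      dl L (Pi.single (ed x σ) (1 : ZMod p)) s := by
  classical
  obtain ⟨y, a, b⟩ := s
  have hab : a < b := hs.1
  obtain ⟨X, hX⟩ : ∃ X : Pt d, X = x + off σ := ⟨_, rfl⟩
  obtain ⟨α, hα⟩ : ∃ α : Fin d, α = σ.1 := ⟨_, rfl⟩
  have he : ed x σ = (X, α) := by rw [ed, hX, hα]
  have hsq : ∀ t : Slot d, sq x σ t = (X + off t, min α t.1, max α t.1) := by
    intro t
    rw [Pool.Agent.H42.CS.sq, hX, hα]
  have hoo : ∀ t : Slot d, oo p σ t = (if α < t.1 then 1 else -1) * tau p t := by
    intro t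
    rw [oo, hα]
  have hR : dl L (Pi.single (ed x σ) (1 : ZMod p)) (y, a, b) =
      (if (y, a) = (X, α) then (1 : ZMod p) else 0) + (if (y + un a, b) = (X, α) then 1 else 0) -
      (if (y + un b, a) = (X, α) then 1 else 0) - (if (y, b) = (X, α) then 1 else 0) := by
    unfold dl
    rw [if_pos hs, he]
    simp only [Pi.single_apply]
  rw [hR, Fintype.sum_prod_type]
  simp only [Fintype.sum_bool, hsq, hoo]
  have ht1 : ∀ c : Fin d, tau p ((c, true) : Slot d) = 1 := fun c => rfl
  have ht2 : ∀ c : Fin d, tau p ((c, false) : Slot d) = -1 := fun c => rfl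
  have h1 : ∀ c : Fin d, ((X + off (c, true), min α c, max α c) = (y, a, b) ↔
      y = X ∧ min α c = a ∧ max α c = b) := by
    intro c
    simp only [Prod.mk.injEq, off, if_true, add_zero]
    constructor
    · rintro ⟨h1, h2⟩; exact ⟨h1.symm, h2⟩
    · rintro ⟨h1, h2⟩; exact ⟨h1.symm, h2⟩
  have h2 : ∀ c : Fin d, ((X + off (c, false), min α c, max α c) = (y, a, b) ↔
      y + un c = X ∧ min α c = a ∧ max α c = b) := by
    intro c
    simp only [Prod.mk.injEq, off]
    constructor
    · rintro ⟨h1, h2⟩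
      refine ⟨?_, h2⟩
      rw [← h1]
      simp
    · rintro ⟨h1, h2⟩
      refine ⟨?_, h2⟩
      rw [← h1]
      simp
  simp only [h1, h2, ht1, ht2, Prod.mk.injEq]
  by_cases hαa : α = a
  · have hc : ∀ c : Fin d, (min α c = a ∧ max α c = b) ↔ c = b := by
      intro c
      rw [hαa]
      constructor
      · rintro ⟨h3, h4⟩
        rcases le_total a c with h5 | h5
        · rwa [max_eq_right h5] at h4
        · rw [max_eq_left h5] at h4
          exact absurd h4 hab.ne
      · rintro rfl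
        exact ⟨min_eq_left hab.le, max_eq_right hab.le⟩
    simp only [hc]
    rw [Finset.sum_eq_single b]
    · have h6 : α < b := by rw [hαa]; exact hab
      have h7 : ¬ b = α := by rw [hαa]; exact hab.ne'
      have h8 : a = α := hαa.symm
      simp only [h6, h7, h8, if_true, and_true, and_false, if_false, mul_one, one_mul]
      split_ifs <;> ring
    · intro c _ hcb
      simp [hcb]
    · intro h
      exact absurd (Finset.mem_univ _) h
  · by_cases hαb : α = b
    · have hc : ∀ c : Fin d, (min α c = a ∧ max α c = b) ↔ c = a := by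
        intro c
        rw [hαb]
        constructor
        · rintro ⟨h3, h4⟩
          rcases le_total b c with h5 | h5
          · rw [min_eq_left h5] at h3
            exact absurd h3 hab.ne'
          · rwa [min_eq_right h5] at h3
        · rintro rfl
          exact ⟨min_eq_right hab.le, max_eq_left hab.le⟩
      simp only [hc]
      rw [Finset.sum_eq_single a]
      · have h6 : ¬ α < a := by rw [hαb]; exact not_lt.2 hab.le
        have h7 : ¬ a = α := fun h => hαa h.symm
        have h8 : b = α := hαb.symm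
        simp only [h6, h7, h8, and_true, and_false, if_false, mul_one]
        split_ifs <;> ring
      · intro c _ hcb
        simp [hcb]
      · intro h
        exact absurd (Finset.mem_univ _) h
    · have hc : ∀ c : Fin d, (min α c = a ∧ max α c = b) ↔ False := by
        intro c
        constructor
        · rintro ⟨h3, h4⟩
          rcases le_total α c with h5 | h5
          · rw [min_eq_left h5] at h3
            exact hαa h3
          · rw [max_eq_left h5] at h4
            exact hαb h4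
        · exact False.elim
      simp only [hc]
      simp [Ne.symm hαa, Ne.symm hαb]

private theorem dot_iot {d : ℕ} {K : Type} [Fintype K] (L : ℕ) (j : Sq d → K)
    (hj : Set.InjOn j {s | isS L s}) (u : K → ZMod p) (v : Sq d → ZMod p) :
    u ⬝ᵥ iot L j v = ∑ s ∈ (isS_fin (d := d) L).1.toFinset, u (j s) * v s := by
  classical
  unfold dotProduct
  have h1 : ∑ k, u k * iot L j v k =
      ∑ k ∈ ((isS_fin (d := d) L).1.toFinset).image j, u k * iot L j v k := by
    symm
    apply Finset.sum_subset (Finset.subset_univ _)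
    intro k _ hk
    have h2 : iot L j v k = 0 := by
      by_contra h3
      obtain ⟨s, hs, rfl⟩ := iot_ne L j v k h3
      exact hk (Finset.mem_image_of_mem _ ((Set.Finite.mem_toFinset _).2 hs))
    rw [h2, mul_zero]
  rw [h1, Finset.sum_image]
  · refine Finset.sum_congr rfl fun s hs => ?_
    have hs1 : isS L s := (isS_fin (d := d) L).1.mem_toFinset.1 hs
    rw [iot_at L j hj v s hs1]
  · intro s hs s' hs' h
    exact hj ((Set.Finite.mem_toFinset _).1 hs) ((Set.Finite.mem_toFinset _).1 hs') h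

theorem ye_dot {d : ℕ} {K : Type} [Fintype K] (L : ℕ) (j : Sq d → K)
    (hj : Set.InjOn j {s | isS L s}) (x : Pt d) (σ : Slot d) (hx : inB L x)
    (he : isE L (ed x σ)) (v : K → ZMod p) :
    (open Classical in v ⬝ᵥ ye p L j (ed x σ) =
      ∑ t : Slot d, if isS L (sq x σ t) then oo p σ t * v (j (sq x σ t)) else 0) := by
  classical
  unfold ye
  rw [dot_iot L j hj]
  have h1 : ∀ s ∈ (isS_fin (d := d) L).1.toFinset, v (j s) * dl L (Pi.single (ed x σ) (1 : ZMod p)) s =
      ∑ t : Slot d, if sq x σ t = s then oo p σ t * v (j s) else 0 := by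
    intro s hs
    have hs1 : isS L s := (isS_fin (d := d) L).1.mem_toFinset.1 hs
    rw [← sum_sq L x σ s hs1, Finset.mul_sum]
    refine Finset.sum_congr rfl fun t _ => ?_
    split_ifs
    · ring
    · ring
  rw [Finset.sum_congr rfl h1, Finset.sum_comm]
  refine Finset.sum_congr rfl fun t _ => ?_
  rw [Finset.sum_ite_eq]
  simp only [Set.Finite.mem_toFinset, Set.mem_ofPred_eq]

theorem ye_supp {d : ℕ} {K : Type} (L : ℕ) (j : Sq d → K)
    (hj : Set.InjOn j {s | isS L s}) (x : Pt d) (σ : Slot d) (hx : inB L x)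
    (he : isE L (ed x σ)) (k : K) (hk : ye p L j (ed x σ) k ≠ 0) :
    ∃ t : Slot d, isS L (sq x σ t) ∧ k = j (sq x σ t) := by
  classical
  unfold ye at hk
  obtain ⟨s, hs, rfl⟩ := iot_ne L j _ k hk
  rw [iot_at L j hj _ s hs, ← sum_sq L x σ s hs] at hk
  obtain ⟨t, -, ht⟩ := Finset.exists_ne_zero_of_sum_ne_zero hk
  by_cases h : sq x σ t = s
  · exact ⟨t, by rw [h]; exact hs, by rw [h]⟩
  · exact absurd (if_neg h) ht

/-! ### Chains -/

private theorem Sup_add {d : ℕ} (L : ℕ) {z z' : Ed d → ZMod p} (h : Sup L z) (h' : Sup L z') :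
    Sup L (z + z') := fun e he => by
  rw [Pi.add_apply, h e he, h' e he, add_zero]

private theorem Sup_smul {d : ℕ} (L : ℕ) (c : ZMod p) {z : Ed d → ZMod p} (h : Sup L z) :
    Sup L (c • z) := fun e he => by
  rw [Pi.smul_apply, h e he, smul_zero]

private theorem Sup_sub {d : ℕ} (L : ℕ) {z z' : Ed d → ZMod p} (h : Sup L z) (h' : Sup L z') :
    Sup L (z - z') := fun e he => by
  rw [Pi.sub_apply, h e he, h' e he, sub_zero]

private theorem Sup_single {d : ℕ} (L : ℕ) {e : Ed d} (he : isE L e) :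
    Sup L (Pi.single e 1 : Ed d → ZMod p) := fun e' he' =>
  Pi.single_eq_of_ne (fun h => he' (by rw [h]; exact he)) 1

private theorem nm_add' {d : ℕ} (L : ℕ) {z z' : Ed d → ZMod p} (h : Sup L z) (h' : Sup L z') :
    nm (z + z') ≤ nm z + nm z' := by
  unfold nm
  have hf : {e | z e ≠ 0}.Finite := (isE_fin L).subset fun e he => by_contra fun hh => he (h e hh)
  have hf' : {e | z' e ≠ 0}.Finite := (isE_fin L).subset fun e he => by_contra fun hh => he (h' e hh)
  refine (Set.ncard_le_ncard (t := {e | z e ≠ 0} ∪ {e | z' e ≠ 0}) ?_ (hf.union hf')).trans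
    (Set.ncard_union_le _ _)
  intro e he
  by_contra hne
  simp only [Set.mem_union, Set.mem_ofPred_eq, not_or, not_not] at hne
  apply he
  rw [Pi.add_apply, hne.1, hne.2, add_zero]

private theorem nm_zero {α : Type} : nm (0 : α → ZMod p) = 0 := by
  unfold nm
  simp

private theorem nm_smul {α : Type} (c : ZMod p) (hc : c ≠ 0) (z : α → ZMod p) : nm (c • z) = nm z := by
  unfold nm
  congr 1
  ext e
  simp only [Set.mem_ofPred_eq, Pi.smul_apply, smul_eq_mul, ne_eq, mul_eq_zero, hc, false_or]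

private theorem nm_smul_le {α : Type} (c : ZMod p) (z : α → ZMod p) : nm (c • z) ≤ nm z := by
  by_cases hc : c = 0
  · rw [hc, zero_smul, nm_zero]
    exact Nat.zero_le _
  · exact (nm_smul c hc z).le

private theorem nm_sub' {d : ℕ} (L : ℕ) {z z' : Ed d → ZMod p} (h : Sup L z) (h' : Sup L z') :
    nm (z - z') ≤ nm z + nm z' := by
  rw [sub_eq']
  exact (nm_add' L h (Sup_smul L _ h')).trans (Nat.add_le_add_left (nm_smul_le _ _) _)

private theorem nm_single {d : ℕ} (e : Ed d) : nm (Pi.single e 1 : Ed d → ZMod p) ≤ 1 := by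
  unfold nm
  refine (Set.ncard_le_ncard (t := {e}) ?_ (Set.finite_singleton e)).trans
    (Set.ncard_singleton e).le
  intro e' he'
  by_contra hne
  exact he' (Pi.single_eq_of_ne hne 1)

/-- the space of the images of the coboundaries -/
private noncomputable def DD {d : ℕ} {K : Type} (p : ℕ) [Fact p.Prime] (L : ℕ) (j : Sq d → K) :
    Submodule (ZMod p) (K → ZMod p) where
  carrier := {y | ∃ z, Sup L z ∧ y = iot L j (dl L z)}
  add_mem' := by
    rintro _ _ ⟨z, hz, rfl⟩ ⟨z', hz', rfl⟩
    exact ⟨z + z', Sup_add L hz hz', by rw [lin_add]⟩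
  zero_mem' := ⟨0, fun _ _ => rfl, by rw [lin_zero]⟩
  smul_mem' := by
    rintro c _ ⟨z, hz, rfl⟩
    exact ⟨c • z, Sup_smul L c hz, by rw [lin_smul]⟩

private theorem ex_Z {d : ℕ} {K : Type} (L : ℕ) (j : Sq d → K) (hj : Set.InjOn j {s | isS L s}) :
    ∃ Z : (K → ZMod p) → (Ed d → ZMod p), (∀ (c : ZMod p) y, Z (c • y) = c • Z y) ∧
      (∀ y, Sup L (Z y)) ∧
      ∀ y ∈ DD p L j, iot L j (dl L (Z y)) = y ∧ nm (Z y) ≤ L * nm y := by
  obtain ⟨Z, hZ1, hZ2⟩ := hom_choice (F := ZMod p)
    (fun (y : K → ZMod p) (z : Ed d → ZMod p) => Sup L z ∧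
      (y ∈ DD p L j → iot L j (dl L z) = y ∧ nm z ≤ L * nm y))
    (by
      refine ⟨fun _ _ => rfl, fun _ => ⟨lin_zero L j, ?_⟩⟩
      rw [nm_zero]
      exact Nat.zero_le _)
    (by
      rintro c y z hc ⟨h1, h2⟩
      refine ⟨Sup_smul L c h1, fun h3 => ?_⟩
      have h4 : y ∈ DD p L j := ((DD p L j).smul_mem_iff hc).1 h3
      obtain ⟨h5, h6⟩ := h2 h4
      rw [lin_smul, h5, nm_smul c hc, nm_smul c hc]
      exact ⟨rfl, h6⟩)
    (by
      intro y
      by_cases hy : y ∈ DD p L j
      · obtain ⟨z0, hz0, hy'⟩ := hy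
        obtain ⟨z, hz, hz1, hz2⟩ := fill L z0 hz0
        refine ⟨z, hz, fun _ => ⟨by rw [hz1, hy'], ?_⟩⟩
        rw [hy', nm_lin L j hj]
        exact hz2
      · exact ⟨0, fun _ _ => rfl, fun h => absurd h hy⟩)
  exact ⟨Z, hZ2, fun y => (hZ1 y).1, fun y hy => (hZ1 y).2 hy⟩

private theorem coc_aux {d : ℕ} {K : Type} (hd : 1 ≤ d) (L : ℕ) (hL : 1 ≤ L) (j : Sq d → K)
    (hj : Set.InjOn j {s | isS L s}) (Z : (K → ZMod p) → (Ed d → ZMod p))
    (hZS : ∀ y, Sup L (Z y))
    (hZ : ∀ y ∈ DD p L j, iot L j (dl L (Z y)) = y ∧ nm (Z y) ≤ L * nm y) (w : ℕ)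
    (hw : 64 * (L * w) < L ^ (d - 1)) (y y' y'' : K → ZMod p) (hy : y ∈ DD p L j)
    (hy' : y' ∈ DD p L j) (hy'' : y'' ∈ DD p L j) (n1 : nm y ≤ w) (n2 : nm y' ≤ w) (n3 : nm y'' ≤ w)
    (n12 : nm (y + y') ≤ w) (n123 : nm (y + y' + y'') ≤ w) :
    sg L (Z (y + y') - Z y - Z y') + sg L (Z (y + y' + y'') - Z (y + y') - Z y'') =
      sg L (Z (y + y' + y'') - Z y - Z y' - Z y'') := by
  have hyy : y + y' ∈ DD p L j := (DD p L j).add_mem hy hy'
  have hyyy : y + y' + y'' ∈ DD p L j := (DD p L j).add_mem hyy hy''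
  have b1 : nm (Z y) ≤ L * w := (hZ y hy).2.trans (Nat.mul_le_mul_left L n1)
  have b2 : nm (Z y') ≤ L * w := (hZ y' hy').2.trans (Nat.mul_le_mul_left L n2)
  have b3 : nm (Z y'') ≤ L * w := (hZ y'' hy'').2.trans (Nat.mul_le_mul_left L n3)
  have b12 : nm (Z (y + y')) ≤ L * w := (hZ _ hyy).2.trans (Nat.mul_le_mul_left L n12)
  have b123 : nm (Z (y + y' + y'')) ≤ L * w := (hZ _ hyyy).2.trans (Nat.mul_le_mul_left L n123)
  have s1 : Sup L (Z (y + y') - Z y) := Sup_sub L (hZS _) (hZS _)
  have s2 : Sup L (Z (y + y') - Z y - Z y') := Sup_sub L s1 (hZS _)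
  have s3 : Sup L (Z (y + y' + y'') - Z (y + y')) := Sup_sub L (hZS _) (hZS _)
  have s4 : Sup L (Z (y + y' + y'') - Z (y + y') - Z y'') := Sup_sub L s3 (hZS _)
  have s5 : Sup L (Z (y + y' + y'') - Z y) := Sup_sub L (hZS _) (hZS _)
  have s6 : Sup L (Z (y + y' + y'') - Z y - Z y') := Sup_sub L s5 (hZS _)
  have e : (Z (y + y') - Z y - Z y') + (Z (y + y' + y'') - Z (y + y') - Z y'') =
      Z (y + y' + y'') - Z y - Z y' - Z y'' := by abel
  have m1 : nm (Z (y + y') - Z y - Z y') ≤ 3 * (L * w) := by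
    have h1 := nm_sub' L s1 (hZS y')
    have h2 := nm_sub' L (hZS (y + y')) (hZS y)
    omega
  have m2 : nm (Z (y + y' + y'') - Z (y + y') - Z y'') ≤ 3 * (L * w) := by
    have h1 := nm_sub' L s3 (hZS y'')
    have h2 := nm_sub' L (hZS (y + y' + y'')) (hZS (y + y'))
    omega
  have m3 : nm (Z (y + y' + y'') - Z y - Z y' - Z y'') ≤ 4 * (L * w) := by
    have h1 := nm_sub' L s6 (hZS y'')
    have h2 := nm_sub' L s5 (hZS y')
    have h3 := nm_sub' L (hZS (y + y' + y'')) (hZS y)
    omega
  have c1 : dl L (Z (y + y') - Z y - Z y') = 0 := by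
    apply lin_inj L j hj
    rw [lin_sub, lin_sub, (hZ y hy).1, (hZ y' hy').1, (hZ _ hyy).1]
    abel
  have c2 : dl L (Z (y + y' + y'') - Z (y + y') - Z y'') = 0 := by
    apply lin_inj L j hj
    rw [lin_sub, lin_sub, (hZ _ hyy).1, (hZ y'' hy'').1, (hZ _ hyyy).1]
    abel
  have := sg_add hd L hL _ _ s2 s4 c1 c2 (by omega) (by omega) (by rw [e]; omega)
  rw [← this, e]

private theorem star_eq {d : ℕ} (L : ℕ) (x : Pt d) :
    (open Classical in ∑ σ ∈ Finset.univ.filter (fun σ : Slot d => isE L (ed x σ)),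
      tau p σ • (Pi.single (ed x σ) 1 : Ed d → ZMod p)) = cob L (Pi.single x 1) := by
  classical
  funext e
  obtain ⟨y, a⟩ := e
  rw [Finset.sum_apply, Finset.sum_filter, Fintype.sum_prod_type]
  rw [Finset.sum_eq_single a]
  · rw [Fintype.sum_bool]
    have h1 : ed x (a, true) = (x, a) := by simp [ed, off]
    have h2 : ed x (a, false) = (x - un a, a) := by simp [ed, off, sub_eq_add_neg]
    have t1 : tau p ((a, true) : Slot d) = 1 := rfl
    have t2 : tau p ((a, false) : Slot d) = -1 := rfl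
    rw [h1, h2, t1, t2]
    unfold cob
    by_cases hE : isE L (y, a)
    · rw [if_pos hE]
      simp only [Pi.smul_apply, Pi.single_apply, Prod.mk.injEq, and_true, smul_eq_mul, one_mul]
      have h3 : (if isE L (x, a) then (if y = x then (1 : ZMod p) else 0) else 0) =
          if y = x then 1 else 0 := by
        by_cases h : y = x
        · rw [← h, if_pos hE]
        · simp [h]
      have h4 : (if isE L (x - un a, a) then (-1 * (if y = x - un a then (1 : ZMod p) else 0)) else 0) =
          -(if y + un a = x then 1 else 0) := by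
        have h5 : y = x - un a ↔ y + un a = x := eq_sub_iff_add_eq
        by_cases h : y = x - un a
        · rw [← h, if_pos hE, if_pos rfl, if_pos (h5.1 h)]
          ring
        · rw [if_neg h, if_neg (fun h6 => h (h5.2 h6))]
          simp
      rw [h3, h4, sub_eq_add_neg]
    · rw [if_neg hE]
      have h3 : (if isE L (x, a) then ((1 : ZMod p) • (Pi.single (x, a) 1 : Ed d → ZMod p)) (y, a) else 0) = 0 := by
        split_ifs with h
        · rw [Pi.smul_apply, Pi.single_eq_of_ne (fun h6 => hE (by rw [h6]; exact h)) 1, smul_zero]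
        · rfl
      have h4 : (if isE L (x - un a, a) then
          ((-1 : ZMod p) • (Pi.single (x - un a, a) 1 : Ed d → ZMod p)) (y, a) else 0) = 0 := by
        split_ifs with h
        · rw [Pi.smul_apply, Pi.single_eq_of_ne (fun h6 => hE (by rw [h6]; exact h)) 1, smul_zero]
        · rfl
      rw [h3, h4, add_zero]
  · intro c _ hc
    apply Finset.sum_eq_zero
    intro t _
    split_ifs with h
    · rw [Pi.smul_apply, Pi.single_eq_of_ne (fun h6 => hc ?_) 1, smul_zero]
      have := congrArg Prod.snd h6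
      exact this.symm
    · rfl
  · intro h
    exact absurd (Finset.mem_univ _) h

theorem grid_gad {d : ℕ} {K : Type} [Fintype K] (hd : 3 ≤ d) (L : ℕ) (hL : 100 * d ≤ L)
    (j : Sq d → K) (hj : Set.InjOn j {s | isS L s}) :
    ∃ (g : Gad p K) (c : Ed d → ZMod p), g.w = L ^ (d - 2) / 100 ∧
      (∀ y ∈ g.D, ∀ k, y k ≠ 0 → ∃ s, isS L s ∧ j s = k) ∧
      (∀ e, isE L e → ye p L j e ∈ g.D) ∧
      ∀ (U : Submodule (ZMod p) (K → ZMod p)) (f : Wd p K), g.Tame U → g.IsW U f →
        ∀ x : Pt d, inB L x → (∀ σ : Slot d, isE L (ed x σ) → ye p L j (ed x σ) ∈ U) →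
          (open Classical in (∑ σ : Slot d, if isE L (ed x σ) then
            tau p σ * (f (ye p L j (ed x σ)) + c (ed x σ)) else 0) = if x = 0 then 1 else 0) := by
  classical
  obtain ⟨Z, hZh, hZS, hZ⟩ := ex_Z (p := p) L j hj
  have hZ0 : Z 0 = 0 := by
    have h1 := hZh 0 0
    rwa [zero_smul, zero_smul] at h1
  have hZn : ∀ y, Z (-y) = -Z y := by
    intro y
    have h1 := hZh (-1) y
    rwa [neg_one_smul, neg_one_smul] at h1
  have hd1 : 1 ≤ d := by omega
  have hL1 : 1 ≤ L := by omega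
  obtain ⟨w, hw⟩ : ∃ w, w = L ^ (d - 2) / 100 := ⟨_, rfl⟩
  have hw1 : 100 * w ≤ L ^ (d - 2) := by
    rw [hw]
    exact Nat.mul_div_le _ _
  have hw2 : 100 * (L * w) ≤ L ^ (d - 1) := by
    have h1 : L ^ (d - 1) = L * L ^ (d - 2) := by
      rw [← pow_succ']
      congr 1
      omega
    rw [h1]
    calc 100 * (L * w) = L * (100 * w) := by ring
      _ ≤ L * L ^ (d - 2) := Nat.mul_le_mul_left L hw1
  have hX : 30000 * d ≤ L ^ (d - 1) := by
    calc 30000 * d = 300 * (100 * d) := by ring
      _ ≤ L * L := Nat.mul_le_mul (by omega) hL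
      _ = L ^ 2 := (pow_two L).symm
      _ ≤ L ^ (d - 1) := Nat.pow_le_pow_right hL1 (by omega)
  have hw64 : 64 * (L * w) < L ^ (d - 1) := by omega
  have h8 : 8 < L ^ d := by
    calc 8 < L := by omega
      _ = L ^ 1 := (pow_one L).symm
      _ ≤ L ^ d := Nat.pow_le_pow_right hL1 hd1
  refine ⟨{ D := DD p L j, w := w, kap := fun y y' => sg L (Z (y + y') - Z y - Z y'),
            kap_comm := ?_, kap_line := ?_, kap_coc := ?_ },
    fun e => sg L (Pi.single e 1 - Z (ye p L j e)), hw, ?_, ?_, ?_⟩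
  · intro y y'
    show sg L (Z (y + y') - Z y - Z y') = sg L (Z (y' + y) - Z y' - Z y)
    rw [add_comm y y', sub_right_comm]
  · intro a b y
    show sg L (Z (a • y + b • y) - Z (a • y) - Z (b • y)) = 0
    have h1 : Z (a • y + b • y) - Z (a • y) - Z (b • y) = 0 := by
      rw [← add_smul, hZh, hZh, hZh, add_smul]
      abel
    rw [h1]
    exact sg_zero hd1 L hL1
  · intro y y' y'' hy hy' hy'' n1 n2 n3 n12 n23 n123
    show sg L (Z (y + y') - Z y - Z y') + sg L (Z (y + y' + y'') - Z (y + y') - Z y'') =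
      sg L (Z (y' + y'') - Z y' - Z y'') + sg L (Z (y + (y' + y'')) - Z y - Z (y' + y''))
    rw [coc_aux hd1 L hL1 j hj Z hZS hZ w hw64 y y' y'' hy hy' hy'' n1 n2 n3 n12 n123]
    have e1 : y + (y' + y'') = y' + y'' + y := by abel
    have e2 : y + y' + y'' = y' + y'' + y := by abel
    have h1 := coc_aux hd1 L hL1 j hj Z hZS hZ w hw64 y' y'' y hy' hy'' hy n2 n3 n1 n23
      (by rw [← e2]; exact n123)
    rw [e1, e2, sub_right_comm (Z (y' + y'' + y)) (Z y) (Z (y' + y'')), h1]
    congr 1
    abel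
  · rintro y ⟨z, hz, rfl⟩ k hk
    exact iot_ne L j _ k hk
  · intro e he
    exact ⟨Pi.single e 1, Sup_single L he, rfl⟩
  · intro U f hT hW x hx hU
    have hT' : ∀ y ∈ U, y ∈ DD p L j → nm y ≤ w := hT
    have hW' : ∀ y ∈ U, y ∈ DD p L j → ∀ y' ∈ U, y' ∈ DD p L j →
        f (y + y') = f y + f y' + sg L (Z (y + y') - Z y - Z y') := hW
    have hf0 : f 0 = 0 := by
      have h1 := hW' 0 U.zero_mem (DD p L j).zero_mem 0 U.zero_mem (DD p L j).zero_mem
      rw [add_zero, hZ0, sub_zero, sub_zero, sg_zero hd1 L hL1, add_zero] at h1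
      linear_combination -h1
    have hfn : ∀ y ∈ U, y ∈ DD p L j → f (-y) = -f y := by
      intro y hy hyD
      have h1 := hW' y hy hyD (-y) (U.neg_mem hy) ((DD p L j).neg_mem hyD)
      have h2 : Z (y + -y) - Z y - Z (-y) = 0 := by
        rw [add_neg_cancel, hZ0, hZn]
        abel
      rw [h2, sg_zero hd1 L hL1, add_neg_cancel, hf0] at h1
      linear_combination -h1
    have key : ∀ A : Finset (Slot d), A ⊆ Finset.univ.filter (fun σ : Slot d => isE L (ed x σ)) →
        Sup L (∑ σ ∈ A, tau p σ • (Pi.single (ed x σ) 1 : Ed d → ZMod p)) ∧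
        iot L j (dl L (∑ σ ∈ A, tau p σ • (Pi.single (ed x σ) 1 : Ed d → ZMod p))) ∈ U ∧
        nm (∑ σ ∈ A, tau p σ • (Pi.single (ed x σ) 1 : Ed d → ZMod p)) ≤ A.card ∧
        f (iot L j (dl L (∑ σ ∈ A, tau p σ • (Pi.single (ed x σ) 1 : Ed d → ZMod p)))) +
          sg L (∑ σ ∈ A, tau p σ • (Pi.single (ed x σ) 1 : Ed d → ZMod p) -
            Z (iot L j (dl L (∑ σ ∈ A, tau p σ • (Pi.single (ed x σ) 1 : Ed d → ZMod p))))) =
          ∑ σ ∈ A, tau p σ * (f (ye p L j (ed x σ)) + sg L (Pi.single (ed x σ) 1 - Z (ye p L j (ed x σ)))) := by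
      intro A
      induction A using Finset.induction_on with
      | empty =>
        intro _
        simp only [Finset.sum_empty, Finset.card_empty]
        rw [lin_zero]
        refine ⟨fun _ _ => rfl, U.zero_mem, ?_, ?_⟩
        · rw [nm_zero]
        · rw [hZ0, hf0, sub_zero, zero_add]
          exact sg_zero hd1 L hL1
      | insert σ A hσ ih =>
        intro hA
        obtain ⟨i1, i2, i3, i4⟩ := ih ((Finset.subset_insert _ _).trans hA)
        have hσE : isE L (ed x σ) := (Finset.mem_filter.1 (hA (Finset.mem_insert_self _ _))).2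
        rw [Finset.sum_insert hσ, Finset.sum_insert hσ, Finset.card_insert_of_notMem hσ, ← i4]
        have hcard : A.card ≤ d * 2 := by
          have h1 := Finset.card_le_univ A
          have h2 : Fintype.card (Slot d) = d * 2 := by
            rw [Fintype.card_prod, Fintype.card_fin, Fintype.card_bool]
          omega
        obtain ⟨cA, hcA⟩ : ∃ cA : Ed d → ZMod p, cA = ∑ σ ∈ A, tau p σ • (Pi.single (ed x σ) 1 : Ed d → ZMod p) :=
          ⟨_, rfl⟩
        rw [← hcA] at i1 i2 i3 ⊢
        -- the single edge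
        have D0 : ye p L j (ed x σ) ∈ DD p L j := ⟨Pi.single (ed x σ) 1, Sup_single L hσE, rfl⟩
        have hyU0 := hU σ hσE
        have b0 : nm (Z (ye p L j (ed x σ))) ≤ L * w :=
          (hZ _ D0).2.trans (Nat.mul_le_mul_left L (hT' _ hyU0 D0))
        have S0 : Sup L (Pi.single (ed x σ) 1 : Ed d → ZMod p) := Sup_single L hσE
        have sa0 : Sup L (Pi.single (ed x σ) 1 - Z (ye p L j (ed x σ))) := Sup_sub L S0 (hZS _)
        have na0 : nm (Pi.single (ed x σ) 1 - Z (ye p L j (ed x σ))) ≤ 1 + L * w :=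
          (nm_sub' L S0 (hZS _)).trans (Nat.add_le_add (nm_single _) b0)
        have ca0 : dl L (Pi.single (ed x σ) 1 - Z (ye p L j (ed x σ))) = 0 := by
          apply lin_inj L j hj
          rw [lin_sub, (hZ _ D0).1]
          exact sub_self _
        obtain ⟨c1, hc1⟩ : ∃ c1 : Ed d → ZMod p, c1 = tau p σ • Pi.single (ed x σ) 1 := ⟨_, rfl⟩
        have S1 : Sup L c1 := by rw [hc1]; exact Sup_smul L _ (Sup_single L hσE)
        have N1 : nm c1 ≤ 1 := by rw [hc1]; exact (nm_smul_le _ _).trans (nm_single _)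
        rw [← hc1, lin_add]
        obtain ⟨yA, hyA⟩ : ∃ yA : K → ZMod p, yA = iot L j (dl L cA) := ⟨_, rfl⟩
        obtain ⟨y1, hy1⟩ : ∃ y1 : K → ZMod p, y1 = iot L j (dl L c1) := ⟨_, rfl⟩
        have DA : yA ∈ DD p L j := ⟨cA, i1, hyA⟩
        have D1 : y1 ∈ DD p L j := ⟨c1, S1, hy1⟩
        have hy1' : y1 = tau p σ • ye p L j (ed x σ) := by
          rw [hy1, hc1, lin_smul, ye]
        have hyU : y1 ∈ U := by
          rw [hy1']
          exact U.smul_mem _ hyU0
        rw [← hyA] at i2 ⊢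
        rw [← hy1]
        -- the value of the new edge
        have hval : f y1 + sg L (c1 - Z y1) =
            tau p σ * (f (ye p L j (ed x σ)) + sg L (Pi.single (ed x σ) 1 - Z (ye p L j (ed x σ)))) := by
          have h1 : c1 - Z y1 = tau p σ • (Pi.single (ed x σ) 1 - Z (ye p L j (ed x σ))) := by
            rw [hy1', hZh, hc1, smul_sub]
          rw [h1, sg_smul hd1 L hL1 _ _ sa0 ca0 (by omega), hy1']
          have h2 : f (tau p σ • ye p L j (ed x σ)) = tau p σ * f (ye p L j (ed x σ)) := by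
            have h3 : tau p σ = 1 ∨ tau p σ = -1 := by
              unfold tau
              split_ifs
              · left; rfl
              · right; rfl
            rcases h3 with h3 | h3
            · rw [h3, one_smul, one_mul]
            · rw [h3, neg_one_smul, hfn _ hyU0 D0, neg_one_mul]
          rw [h2, mul_add]
        rw [← hval]
        have hUs : y1 + yA ∈ U := U.add_mem hyU i2
        have hDs : y1 + yA ∈ DD p L j := (DD p L j).add_mem D1 DA
        have b1 : nm (Z y1) ≤ L * w := (hZ y1 D1).2.trans (Nat.mul_le_mul_left L (hT' y1 hyU D1))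
        have bA : nm (Z yA) ≤ L * w := (hZ yA DA).2.trans (Nat.mul_le_mul_left L (hT' yA i2 DA))
        have bs : nm (Z (y1 + yA)) ≤ L * w :=
          (hZ _ hDs).2.trans (Nat.mul_le_mul_left L (hT' _ hUs hDs))
        refine ⟨Sup_add L S1 i1, hUs, (nm_add' L S1 i1).trans (by omega), ?_⟩
        rw [hW' y1 hyU D1 yA i2 DA]
        -- the three closed chains
        have sa : Sup L (c1 - Z y1) := Sup_sub L S1 (hZS _)
        have sb : Sup L (cA - Z yA) := Sup_sub L i1 (hZS _)
        have sc0 : Sup L (Z (y1 + yA) - Z y1) := Sup_sub L (hZS _) (hZS _)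
        have sc : Sup L (Z (y1 + yA) - Z y1 - Z yA) := Sup_sub L sc0 (hZS _)
        have sc' : Sup L ((-1 : ZMod p) • (Z (y1 + yA) - Z y1 - Z yA)) := Sup_smul L _ sc
        have sab : Sup L ((c1 - Z y1) + (cA - Z yA)) := Sup_add L sa sb
        have na : nm (c1 - Z y1) ≤ 1 + L * w := (nm_sub' L S1 (hZS _)).trans (by omega)
        have nb : nm (cA - Z yA) ≤ d * 2 + L * w := (nm_sub' L i1 (hZS _)).trans (by omega)
        have nab : nm ((c1 - Z y1) + (cA - Z yA)) ≤ (1 + L * w) + (d * 2 + L * w) :=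
          (nm_add' L sa sb).trans (by omega)
        have nc : nm (Z (y1 + yA) - Z y1 - Z yA) ≤ 3 * (L * w) := by
          have h1 := nm_sub' L sc0 (hZS yA)
          have h2 := nm_sub' L (hZS (y1 + yA)) (hZS y1)
          omega
        have nc' : nm ((-1 : ZMod p) • (Z (y1 + yA) - Z y1 - Z yA)) ≤ 3 * (L * w) :=
          (nm_smul_le _ _).trans nc
        have nabc := nm_add' L sab sc'
        have ca : dl L (c1 - Z y1) = 0 := by
          apply lin_inj L j hj
          rw [lin_sub, ← hy1, (hZ y1 D1).1]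
          exact sub_self _
        have cb : dl L (cA - Z yA) = 0 := by
          apply lin_inj L j hj
          rw [lin_sub, ← hyA, (hZ yA DA).1]
          exact sub_self _
        have cab : dl L ((c1 - Z y1) + (cA - Z yA)) = 0 := by
          rw [dl_add, ca, cb, add_zero]
        have cc : dl L (Z (y1 + yA) - Z y1 - Z yA) = 0 := by
          apply lin_inj L j hj
          rw [lin_sub, lin_sub, (hZ y1 D1).1, (hZ yA DA).1, (hZ _ hDs).1]
          abel
        have cc' : dl L ((-1 : ZMod p) • (Z (y1 + yA) - Z y1 - Z yA)) = 0 := by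
          rw [dl_smul, cc, smul_zero]
        have e : c1 + cA - Z (y1 + yA) =
            ((c1 - Z y1) + (cA - Z yA)) + (-1 : ZMod p) • (Z (y1 + yA) - Z y1 - Z yA) := by
          rw [neg_one_smul]
          abel
        rw [e, sg_add hd1 L hL1 _ _ sab sc' cab cc' (by omega) (by omega) (by omega),
          sg_add hd1 L hL1 _ _ sa sb ca cb (by omega) (by omega) (by omega),
          sg_smul hd1 L hL1 _ _ sc cc (by omega)]
        ring
    obtain ⟨-, -, -, k4⟩ := key _ (Finset.Subset.refl _)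
    rw [star_eq, dl_cob, iot_zero, hZ0, hf0, zero_add, sub_zero, sg_star hd1 L h8 x hx,
      Finset.sum_filter] at k4
    exact k4.symm

end Pool.Agent.H79.CQ
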