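import Pool.Agent.H79.CQ.Grd

/-!
# Grid I over `F_p`: the path identity

Port of `Pool/Agent/H42/CS/GId.lean` (`ZMod 2`, no signs) to `ZMod p` with signs; the lemmas on the grid
itself (`box_fin`, `isE_fin`, `isS_fin`, `mix_isE`) are used from there (`open Pool.Agent.H42.CS`).
The private helpers there (`mp`, `mix_p`, `mix_x`, `mix_un`, `mp_zero`, `mp_top`) can be copied.

PROOF of `pth_id`. Put `y := x + un a`. For `b < a` the terms of `pth z P x` and `pth z P y` are equal. For
`b = a`: `sgs * ∑ btw` from `P a` to `x a` minus the same to `x a + 1` is `-z (mix x P a (x a), a)`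
(signed sums: with `S u v := sgs u v * ∑ t ∈ btw u v, g t` one has `S u (v + 1) = S u v + g v` in both
cases `u ≤ v`, `v < u`). For `b > a`: `mix y P b t = m + un a`, `m := mix x P b t`, and by the definition
of `dl` at the square `(m, a, b)`:
`z (m, b) - z (m + un a, b) = z (m, a) - z (m + un b, a) - dl L z (m, a, b)`; the signed sum over `t` of
`g t - g (t + 1)`, `g t = z (mix x P b t, a)`, telescopes to `g (P b) - g (x b)`; the sum over `b > a`
telescopes to `z (mp x P (a + 1), a) - z (x, a)`, where `mp x P k` has its first `k` coordinates from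
`x`, and `mix x P a (x a) = mp x P (a + 1)`. In total `pth z P x - pth z P y = - z (x, a) - ∑ ..`.

PROOF of `pth_cob`: `cob L f (m, b) = f m - f (m + un b)`: the same telescoping gives `f P - f x`.
`dl_cob`: `dl (x, a, b)` of `cob f` is `f x - f (x+a) + f (x+a) - f (x+a+b) - f (x+b) + f (x+b+a) - f x + f (x+b) = 0`.
-/

set_option autoImplicit false
set_option linter.unusedSectionVars false

namespace Pool.Agent.H79.CQ

open Pool.Agent.H42.CS (Pt Ed Sq un inB isE isS mix btw Slot off ed sq box_fin isE_fin isS_fin
  mix_isE)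

variable {p : ℕ}

private theorem un_self {d : ℕ} (a : Fin d) : un a a = 1 := Pi.single_eq_same a 1

private theorem un_ne {d : ℕ} {a i : Fin d} (h : i ≠ a) : un a i = 0 := Pi.single_eq_of_ne h 1

private theorem un_nonneg {d : ℕ} (a i : Fin d) : 0 ≤ un a i := by
  by_cases h : i = a
  · rw [h, un_self]
    norm_num
  · rw [un_ne h]

private theorem mem_btw {u v t : ℤ} : t ∈ H42.CS.btw u v ↔ min u v ≤ t ∧ t < max u v := Finset.mem_Ico

private theorem mix_un {d : ℕ} (x P : Pt d) (b : Fin d) (t : ℤ) :
    mix x P b t + un b = mix x P b (t + 1) := by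
  funext i
  rw [Pi.add_apply]
  unfold H42.CS.mix
  by_cases h : i = b
  · subst h
    rw [if_neg (lt_irrefl i), if_pos rfl, if_neg (lt_irrefl i), if_pos rfl, un_self]
  · rw [un_ne h, add_zero]
    split_ifs <;> rfl

private theorem tel_le (g : ℤ → ZMod p) (u : ℤ) (n : ℕ) :
    ∑ t ∈ Finset.Ico u (u + n), (g t - g (t + 1)) = g u - g (u + n) := by
  induction n with
  | zero =>
    have e : Finset.Ico u (u + ((0 : ℕ) : ℤ)) = ∅ := by
      ext t
      simp
    rw [e, Finset.sum_empty, Nat.cast_zero, add_zero, sub_self]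
  | succ n ih =>
    have e : Finset.Ico u (u + ((n + 1 : ℕ) : ℤ)) =
        insert (u + (n : ℤ)) (Finset.Ico u (u + (n : ℤ))) := by
      ext t
      rw [Finset.mem_insert, Finset.mem_Ico, Finset.mem_Ico]
      push_cast
      omega
    have hn : (u + (n : ℤ)) ∉ Finset.Ico u (u + (n : ℤ)) := by
      rw [Finset.mem_Ico]
      omega
    rw [e, Finset.sum_insert hn, ih]
    have e2 : u + ((n + 1 : ℕ) : ℤ) = u + n + 1 := by
      push_cast
      ring
    rw [e2]
    ring

/-- signed telescoping -/
private theorem tel (g : ℤ → ZMod p) (u v : ℤ) :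
    sgs p u v * ∑ t ∈ btw u v, (g t - g (t + 1)) = g u - g v := by
  rcases le_or_gt u v with h | h
  · obtain ⟨n, hn⟩ := Int.le.dest h
    unfold H42.CS.btw sgs
    rw [min_eq_left h, max_eq_right h, if_pos h, one_mul, ← hn]
    exact tel_le g u n
  · obtain ⟨n, hn⟩ := Int.le.dest h.le
    unfold H42.CS.btw sgs
    rw [min_eq_right h.le, max_eq_left h.le, if_neg (not_le.2 h), ← hn, tel_le g v n]
    ring

/-- the last step of a signed sum -/
private theorem btw_step (g : ℤ → ZMod p) (u v : ℤ) :
    sgs p u v * ∑ t ∈ btw u v, g t - sgs p u (v + 1) * ∑ t ∈ btw u (v + 1), g t = -g v := by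
  rcases le_or_gt u v with h | h
  · have e : H42.CS.btw u (v + 1) = insert v (H42.CS.btw u v) := by
      ext t
      rw [Finset.mem_insert, mem_btw, mem_btw]
      omega
    have hn : v ∉ H42.CS.btw u v := by
      rw [mem_btw]
      omega
    rw [e, Finset.sum_insert hn]
    unfold sgs
    rw [if_pos h, if_pos (by omega)]
    ring
  · have e : H42.CS.btw u v = insert v (H42.CS.btw u (v + 1)) := by
      ext t
      rw [Finset.mem_insert, mem_btw, mem_btw]
      omega
    have hn : v ∉ H42.CS.btw u (v + 1) := by
      rw [mem_btw]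
      omega
    have hs : sgs p u (v + 1) * ∑ t ∈ btw u (v + 1), g t = -∑ t ∈ btw u (v + 1), g t := by
      unfold sgs
      by_cases h2 : u ≤ v + 1
      · have e3 : H42.CS.btw u (v + 1) = ∅ := by
          ext t
          rw [mem_btw]
          constructor
          · intro h4
            omega
          · intro h4
            simp at h4
        rw [e3, Finset.sum_empty, mul_zero, neg_zero]
      · rw [if_neg h2]
        ring
    rw [hs, e, Finset.sum_insert hn]
    unfold sgs
    rw [if_neg (not_le.2 h)]
    ring

/-- the first `k` coordinates from `x`, the others from `P` -/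
private def mp {d : ℕ} (x P : Pt d) (k : ℕ) : Pt d := fun i => if i.val < k then x i else P i

private theorem mix_p {d : ℕ} (x P : Pt d) (b : Fin d) : mix x P b (P b) = mp x P b.val := by
  funext i
  unfold H42.CS.mix mp
  by_cases h1 : i < b
  · rw [if_pos h1, if_pos (by exact h1)]
  · have h3 : ¬ i.val < b.val := h1
    rw [if_neg h1, if_neg h3]
    by_cases h2 : i = b
    · rw [if_pos h2, h2]
    · rw [if_neg h2]

private theorem mix_x {d : ℕ} (x P : Pt d) (b : Fin d) : mix x P b (x b) = mp x P (b.val + 1) := by
  funext i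
  unfold H42.CS.mix mp
  by_cases h1 : i < b
  · have h3 : i.val < b.val := h1
    rw [if_pos h1, if_pos (by omega)]
  · have h3 : ¬ i.val < b.val := h1
    rw [if_neg h1]
    by_cases h2 : i = b
    · rw [if_pos h2, if_pos (by rw [h2]; omega), h2]
    · have h4 : i.val ≠ b.val := fun h => h2 (Fin.ext h)
      rw [if_neg h2, if_neg (by omega)]

private theorem mp_zero {d : ℕ} (x P : Pt d) : mp x P 0 = P := by
  funext i
  unfold mp
  rw [if_neg (by omega)]

private theorem mp_top {d : ℕ} (x P : Pt d) : mp x P d = x := by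
  funext i
  unfold mp
  rw [if_pos i.isLt]

private theorem tel_all (G : ℕ → ZMod p) (n : ℕ) :
    ∑ i ∈ Finset.range n, (G i - G (i + 1)) = G 0 - G n := by
  induction n with
  | zero => rw [Finset.sum_range_zero, sub_self]
  | succ n ih =>
    rw [Finset.sum_range_succ, ih]
    ring

private theorem tel_gt (G : ℕ → ZMod p) (a n : ℕ) (h : a + 1 ≤ n) :
    ∑ i ∈ Finset.range n, (if a < i then G i - G (i + 1) else 0) = G (a + 1) - G n := by
  induction n, h using Nat.le_induction with
  | base =>
    rw [sub_self]
    refine Finset.sum_eq_zero fun i hi => ?_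
    rw [Finset.mem_range] at hi
    rw [if_neg (by omega)]
  | succ n hn ih =>
    rw [Finset.sum_range_succ, ih, if_pos (by omega)]
    ring

private theorem tel_fin {d : ℕ} (G : ℕ → ZMod p) (a : Fin d) :
    ∑ b ∈ Finset.univ.filter (fun b : Fin d => a < b), (G b.val - G (b.val + 1)) =
      G (a.val + 1) - G d := by
  rw [Finset.sum_filter, ← tel_gt G a.val d a.isLt,
    ← Fin.sum_univ_eq_sum_range (fun i => if a.val < i then G i - G (i + 1) else 0) d]
  rfl

theorem pth_id {d : ℕ} (L : ℕ) (z : Ed d → ZMod p) (P x : Pt d) (a : Fin d) (hP : inB L P)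
    (hx : isE L (x, a)) :
    z (x, a) + pth z P x - pth z P (x + un a) =
      -∑ b ∈ Finset.univ.filter (fun b => a < b), sgs p (P b) (x b) *
        ∑ t ∈ btw (P b) (x b), dl L z (mix x P b t, a, b) := by
  have hx1 : inB L x := hx.1
  have hy1 : inB L (x + un a) := hx.2
  have hmixy : ∀ (b : Fin d), a < b → ∀ t, mix (x + un a) P b t = mix x P b t + un a := by
    intro b hb t
    funext i
    rw [Pi.add_apply]
    unfold H42.CS.mix
    by_cases h1 : i < b
    · rw [if_pos h1, if_pos h1]
      rfl
    · rw [if_neg h1, if_neg h1]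
      have h3 : i ≠ a := fun h => h1 (h ▸ hb)
      rw [un_ne h3, add_zero]
  have hmixs : ∀ (b : Fin d), b ≤ a → ∀ t, mix (x + un a) P b t = mix x P b t := by
    intro b hb t
    funext i
    unfold H42.CS.mix
    by_cases h1 : i < b
    · have h3 : i ≠ a := (h1.trans_le hb).ne
      rw [if_pos h1, if_pos h1, Pi.add_apply, un_ne h3, add_zero]
    · rw [if_neg h1, if_neg h1]
  -- the terms
  have hT : ∀ b : Fin d, sgs p (P b) (x b) * (∑ t ∈ btw (P b) (x b), z (mix x P b t, b)) -
      sgs p (P b) ((x + un a) b) *
        (∑ t ∈ btw (P b) ((x + un a) b), z (mix (x + un a) P b t, b)) =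
      (if b = a then -z (mix x P a (x a), a) else 0) +
      (if a < b then (-(sgs p (P b) (x b) * ∑ t ∈ btw (P b) (x b), dl L z (mix x P b t, a, b))) +
        (z (mp x P b.val, a) - z (mp x P (b.val + 1), a)) else 0) := by
    intro b
    rcases lt_trichotomy b a with hb | hb | hb
    · rw [if_neg hb.ne, if_neg (not_lt.2 hb.le), add_zero, Pi.add_apply, un_ne hb.ne, add_zero]
      have e : ∀ t, z (mix (x + un a) P b t, b) = z (mix x P b t, b) := fun t => by
        rw [hmixs b hb.le t]
      rw [Finset.sum_congr rfl fun t _ => e t]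
      exact sub_self _
    · subst hb
      rw [if_pos rfl, if_neg (lt_irrefl b), add_zero, Pi.add_apply, un_self]
      have e : ∀ t, z (mix (x + un b) P b t, b) = z (mix x P b t, b) := fun t => by
        rw [hmixs b le_rfl t]
      rw [Finset.sum_congr rfl fun t _ => e t]
      exact btw_step (fun t => z (mix x P b t, b)) (P b) (x b)
    · rw [if_neg hb.ne', if_pos hb, zero_add, Pi.add_apply, un_ne hb.ne', add_zero]
      rw [← mix_p, ← mix_x, ← tel (fun t => z (mix x P b t, a)) (P b) (x b), ← mul_sub,
        ← mul_neg, ← mul_add, ← Finset.sum_sub_distrib, ← Finset.sum_neg_distrib,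
        ← Finset.sum_add_distrib]
      congr 1
      refine Finset.sum_congr rfl fun t ht => ?_
      have hE1 := mix_isE hP hx1 ht
      have hE2 := mix_isE (b := b) (t := t) hP hy1 (by
        rw [Pi.add_apply, un_ne hb.ne', add_zero]
        exact ht)
      have hS : isS L (mix x P b t, a, b) := by
        refine ⟨hb, hE1.1, ?_⟩
        show inB L (mix x P b t + un a + un b)
        rw [← hmixy b hb]
        exact hE2.2
      have hdl : dl L z (mix x P b t, a, b) = z (mix x P b t, a) + z (mix x P b t + un a, b) -
          z (mix x P b t + un b, a) - z (mix x P b t, b) := by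
        unfold dl
        rw [if_pos hS]
      rw [hdl, hmixy b hb, mix_un]
      ring
  have hpth : pth z P x - pth z P (x + un a) = -z (mix x P a (x a), a) +
      (-(∑ b ∈ Finset.univ.filter (fun b => a < b), sgs p (P b) (x b) *
        ∑ t ∈ btw (P b) (x b), dl L z (mix x P b t, a, b)) +
      (z (mp x P (a.val + 1), a) - z (mp x P d, a))) := by
    unfold pth
    rw [← Finset.sum_sub_distrib, Finset.sum_congr rfl fun b _ => hT b, Finset.sum_add_distrib,
      Finset.sum_ite_eq' Finset.univ a (fun _ => -z (mix x P a (x a), a)),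
      if_pos (Finset.mem_univ a),
      ← Finset.sum_filter, Finset.sum_add_distrib, tel_fin (fun k => z (mp x P k, a)) a,
      Finset.sum_neg_distrib]
  rw [add_sub_assoc, hpth, mp_top, ← mix_x]
  ring

theorem pth_cob {d : ℕ} (L : ℕ) (f : Pt d → ZMod p) (P x : Pt d) (hP : inB L P)
    (hx : inB L x) : pth (cob L f) P x = f P - f x := by
  have h1 : ∀ b : Fin d, sgs p (P b) (x b) * ∑ t ∈ btw (P b) (x b), cob L f (mix x P b t, b) =
      f (mp x P b.val) - f (mp x P (b.val + 1)) := by
    intro b
    rw [← mix_p, ← mix_x, ← tel (fun t => f (mix x P b t)) (P b) (x b)]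
    congr 1
    refine Finset.sum_congr rfl fun t ht => ?_
    unfold cob
    rw [if_pos (mix_isE hP hx ht)]
    show f (mix x P b t) - f (mix x P b t + un b) = _
    rw [mix_un]
  unfold pth
  rw [Finset.sum_congr rfl fun b _ => h1 b,
    Fin.sum_univ_eq_sum_range (fun i => f (mp x P i) - f (mp x P (i + 1))) d,
    tel_all (fun k => f (mp x P k)) d, mp_zero, mp_top]

/-- The coboundary of a coboundary is zero. -/
theorem dl_cob {d : ℕ} (L : ℕ) (f : Pt d → ZMod p) : dl L (cob L f) = 0 := by
  funext s
  obtain ⟨x, a, b⟩ := s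
  unfold dl
  split_ifs with hS
  · obtain ⟨hab, h1, h2⟩ := hS
    have hab' : a < b := hab
    have h1' : inB L x := h1
    have h2' : inB L (x + un a + un b) := h2
    have ha : inB L (x + un a) := by
      intro i
      have k1 := h1' i
      have k2 := h2' i
      have k3 := un_nonneg a i
      have k4 := un_nonneg b i
      rw [Pi.add_apply, Pi.add_apply] at k2
      rw [Pi.add_apply]
      omega
    have hb : inB L (x + un b) := by
      intro i
      have k1 := h1' i
      have k2 := h2' i
      have k3 := un_nonneg a i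
      have k4 := un_nonneg b i
      rw [Pi.add_apply, Pi.add_apply] at k2
      rw [Pi.add_apply]
      omega
    have hba : x + un b + un a = x + un a + un b := by
      rw [add_assoc, add_comm (un b), ← add_assoc]
    show cob L f (x, a) + cob L f (x + un a, b) - cob L f (x + un b, a) - cob L f (x, b) = 0
    unfold cob
    rw [if_pos (show isE L (x, a) from ⟨h1', ha⟩),
      if_pos (show isE L (x + un b, a) from ⟨hb, by
        show inB L (x + un b + un a)
        rw [hba]
        exact h2'⟩),
      if_pos (show isE L (x, b) from ⟨h1', hb⟩),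
      if_pos (show isE L (x + un a, b) from ⟨ha, h2'⟩)]
    show f x - f (x + un a) + (f (x + un a) - f (x + un a + un b)) -
      (f (x + un b) - f (x + un b + un a)) - (f x - f (x + un b)) = 0
    rw [hba]
    ring
  · rfl

theorem dl_add {d : ℕ} (L : ℕ) (z z' : Ed d → ZMod p) : dl L (z + z') = dl L z + dl L z' := by
  funext s
  rw [Pi.add_apply]
  unfold dl
  split_ifs
  · simp only [Pi.add_apply]
    ring
  · rw [add_zero]

theorem dl_smul {d : ℕ} (L : ℕ) (c : ZMod p) (z : Ed d → ZMod p) : dl L (c • z) = c • dl L z := by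
  funext s
  rw [Pi.smul_apply]
  unfold dl
  split_ifs
  · simp only [Pi.smul_apply, smul_eq_mul]
    ring
  · rw [smul_zero]

theorem cob_add {d : ℕ} (L : ℕ) (f f' : Pt d → ZMod p) : cob L (f + f') = cob L f + cob L f' := by
  funext s
  rw [Pi.add_apply]
  unfold cob
  split_ifs
  · simp only [Pi.add_apply]
    ring
  · rw [add_zero]

theorem cob_smul {d : ℕ} (L : ℕ) (c : ZMod p) (f : Pt d → ZMod p) :
    cob L (c • f) = c • cob L f := by
  funext s
  rw [Pi.smul_apply]
  unfold cob
  split_ifs
  · simp only [Pi.smul_apply, smul_eq_mul]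
    ring
  · rw [smul_zero]

end Pool.Agent.H79.CQ
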