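import Pool.Agent.H79.CQ.Grd

/-!
# Groups I over `F_p`: orbits of `p`-groups as cyclic arrangements of `p` blocks; information sets

Port of `Pool/Agent/H42/CS/GrA.lean` (there `p = 2`: `halving`, `infoset`).

PROOF of `splitting`. Let `S` be the stabiliser of `x` in `K`; `S ≠ ⊤`. Since `K` is a finite `p`-group there
is a subgroup `M` of index `p` with `S ≤ M` (`Sylow.exists_subgroup_card_pow_prime_le` between `S` and `K`),
and `M` is normal: a subgroup of index `p` of a finite `p`-group is normal (e.g. `p` is the least prime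
divisor of the order: `Subgroup.normal_of_index_eq_minFac_card`, or: a maximal subgroup of a nilpotent
group is normal). `K ⧸ M` has order `p`, so it is cyclic, isomorphic to `Multiplicative (ZMod p)`
(`zmodCyclicMulEquiv`, `isCyclic_of_prime_card`, or a generator): let `χ : K → ZMod p` be the composite; it is
onto with `χ g = 0 ↔ g ∈ M`. `O b := {g x | χ g = b}`. `g x = g' x` implies `g⁻¹ g' ∈ S ≤ M`, so
`χ g = χ g'`: the `O b` are disjoint. The rest is clear; all `O b` have the same size as they are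
translates of each other, and the orbit is their disjoint union.

PROOF of `infoset`. As in the original: choose a set `s ⊆ J` of maximal size such that
`g ↦ (Φ g i)_(i ∈ s)` is onto `s → ZMod p`; then `Φ g = 0` on `s` implies `Φ g = 0`: otherwise `Φ g0 j ≠ 0`
for some `j ∉ s`, and `insert j s` is also good: the powers of `g0` take all values at `j` and are 0 on `s`
(`Φ (g0 ^ n) = n • Φ g0`, `Φ g0 j` is a unit of the field `ZMod p`).
-/

set_option autoImplicit false
set_option linter.unusedSectionVars false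

namespace Pool.Agent.H79.CQ

variable {p : ℕ} [hp : Fact p.Prime]

private theorem cyc_exists {G : Type} [Group G] (n : ℕ) (h : IsCyclic G) (hn : Nat.card G = n) :
    Nonempty (Multiplicative (ZMod n) ≃* G) := by
  subst hn
  exact ⟨zmodCyclicMulEquiv h⟩

theorem splitting {P : Type} [Finite P] (K : Subgroup (Equiv.Perm P)) (hK : IsPGroup p K) (x : P)
    (hx : ∃ g ∈ K, g x ≠ x) :
    ∃ (O : ZMod p → Set P) (χ : K → ZMod p), (∀ g g' : K, χ (g * g') = χ g + χ g') ∧
      (∀ (g : K) (b : ZMod p), (g : Equiv.Perm P) '' O b = O (b + χ g)) ∧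
      (∀ b c, b ≠ c → Disjoint (O b) (O c)) ∧ (⋃ b, O b) = {y | ∃ g ∈ K, g x = y} ∧
      (∀ b, (O b).Nonempty) ∧ ∀ b, p * (O b).ncard = {y | ∃ g ∈ K, g x = y}.ncard := by
  classical
  have hp0 := hp.out.pos
  let S : Subgroup K := (MulAction.stabilizer (Equiv.Perm P) x).comap K.subtype
  have hSm : ∀ g : K, g ∈ S ↔ (g : Equiv.Perm P) x = x := fun g => Iff.rfl
  obtain ⟨n, hn⟩ := (IsPGroup.iff_card).1 hK
  obtain ⟨k, hk⟩ := (IsPGroup.iff_card).1 (hK.to_subgroup S)
  have hST : S ≠ ⊤ := by
    intro h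
    obtain ⟨g, hg, hgx⟩ := hx
    exact hgx ((hSm ⟨g, hg⟩).1 (h ▸ Subgroup.mem_top _))
  have hkn : k < n := by
    by_contra hle
    have h1 : Nat.card S ≤ Nat.card K := Subgroup.card_le_card_group S
    have h2 : Nat.card K ≤ Nat.card S := by
      rw [hn, hk]
      exact Nat.pow_le_pow_right hp0 (not_lt.1 hle)
    exact hST (Subgroup.eq_top_of_card_eq S (le_antisymm h1 h2))
  obtain ⟨M, hM, hSM⟩ := Sylow.exists_subgroup_card_pow_prime_le (G := K) p (n := k) (m := n - 1) (by
    rw [hn]
    exact Nat.pow_dvd_pow p (Nat.sub_le _ _)) S hk (by omega)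
  have hidx : M.index = p := by
    have h1 := Subgroup.card_mul_index M
    rw [hM, hn] at h1
    have h2 : p ^ n = p ^ (n - 1) * p := by
      rw [← pow_succ]
      congr 1
      omega
    rw [h2] at h1
    exact Nat.eq_of_mul_eq_mul_left (by positivity) h1
  have hnor : M.Normal := by
    apply Subgroup.normal_of_index_eq_minFac_card
    rw [hidx, hn, Nat.Prime.pow_minFac hp.out (by omega)]
  have hq : Nat.card (K ⧸ M) = p := hidx
  obtain ⟨e⟩ := cyc_exists p (isCyclic_of_prime_card hq) hq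
  obtain ⟨χ, hχ⟩ : ∃ χ : K → ZMod p, χ = fun g => Multiplicative.toAdd (e.symm (QuotientGroup.mk g)) := ⟨_, rfl⟩
  have hχ0 : ∀ g, χ g = 0 ↔ g ∈ M := by
    intro g
    rw [← QuotientGroup.eq_one_iff g, hχ]
    change Multiplicative.toAdd (e.symm (QuotientGroup.mk g)) = 0 ↔ _
    rw [toAdd_eq_zero, EmbeddingLike.map_eq_one_iff]
  have hχm : ∀ g g' : K, χ (g * g') = χ g + χ g' := by
    intro g g'
    rw [hχ]
    change Multiplicative.toAdd (e.symm (QuotientGroup.mk (g * g'))) = _
    rw [QuotientGroup.mk_mul, map_mul, toAdd_mul]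
  have hχs : Function.Surjective χ := by
    intro b
    obtain ⟨g, hg⟩ := QuotientGroup.mk_surjective (e (Multiplicative.ofAdd b))
    refine ⟨g, ?_⟩
    rw [hχ]
    change Multiplicative.toAdd (e.symm (QuotientGroup.mk g)) = b
    rw [hg, MulEquiv.symm_apply_apply, toAdd_ofAdd]
  have hχi : ∀ g : K, χ g⁻¹ = -χ g := by
    intro g
    have h1 := hχm g⁻¹ g
    rw [inv_mul_cancel, (hχ0 1).2 M.one_mem] at h1
    exact eq_neg_of_add_eq_zero_left h1.symm
  let O : ZMod p → Set P := fun b => {y | ∃ g : K, χ g = b ∧ (g : Equiv.Perm P) x = y}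
  have himg : ∀ (g : K) (b : ZMod p), (g : Equiv.Perm P) '' O b = O (b + χ g) := by
    intro g b
    ext y
    constructor
    · rintro ⟨_, ⟨g', h1, rfl⟩, rfl⟩
      refine ⟨g * g', ?_, ?_⟩
      · rw [hχm, h1, add_comm]
      · rw [Subgroup.coe_mul, Equiv.Perm.mul_apply]
    · rintro ⟨g', h1, rfl⟩
      refine ⟨((g⁻¹ * g' : K) : Equiv.Perm P) x, ⟨g⁻¹ * g', ?_, rfl⟩, ?_⟩
      · rw [hχm, hχi, h1]
        ring
      · rw [← Equiv.Perm.mul_apply, ← Subgroup.coe_mul, mul_inv_cancel_left]
  have hdis : ∀ b c, b ≠ c → Disjoint (O b) (O c) := by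
    intro b c hbc
    rw [Set.disjoint_left]
    rintro _ ⟨g, h1, rfl⟩ ⟨g', h2, h3⟩
    have h4 : g⁻¹ * g' ∈ S := by
      rw [hSm, Subgroup.coe_mul, Equiv.Perm.mul_apply, h3, ← Equiv.Perm.mul_apply, ← Subgroup.coe_mul,
        inv_mul_cancel, Subgroup.coe_one, Equiv.Perm.one_apply]
    have h5 := (hχ0 _).2 (hSM h4)
    rw [hχm, hχi, h1, h2] at h5
    exact hbc (by linear_combination -h5)
  have huni : (⋃ b, O b) = {y | ∃ g ∈ K, g x = y} := by
    ext y
    rw [Set.mem_iUnion]
    constructor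
    · rintro ⟨b, g, -, h⟩
      exact ⟨g, g.2, h⟩
    · rintro ⟨g, hg, h⟩
      exact ⟨χ ⟨g, hg⟩, ⟨g, hg⟩, rfl, h⟩
  have hcard : ∀ b c, (O b).ncard = (O c).ncard := by
    intro b c
    obtain ⟨g, hg⟩ := hχs (c - b)
    have h1 := himg g b
    rw [hg, add_sub_cancel] at h1
    rw [← h1, Set.ncard_image_of_injective _ (g : Equiv.Perm P).injective]
  refine ⟨O, χ, hχm, himg, hdis, huni, fun b => ?_, fun b => ?_⟩
  · obtain ⟨g, hg⟩ := hχs b
    exact ⟨_, g, hg, rfl⟩
  · rw [← huni, Set.ncard_iUnion_of_finite (fun _ => Set.toFinite _) (fun i j hij => hdis i j hij),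
      finsum_eq_sum_of_fintype, Finset.sum_congr rfl fun i _ => hcard i b, Finset.sum_const, Finset.card_univ,
      ZMod.card, smul_eq_mul]

theorem infoset {K J : Type} [Group K] [Finite K] [Finite J] (Φ : K → J → ZMod p)
    (hΦ : ∀ g g', Φ (g * g') = Φ g + Φ g') :
    ∃ (r : ℕ) (j : Fin r → J), Function.Injective j ∧
      Function.Surjective (fun (g : K) (i : Fin r) => Φ g (j i)) ∧
      Nat.card K = Nat.card {g : K // Φ g = 0} * p ^ r := by
  classical
  have := Fintype.ofFinite J
  let A : Finset (Finset J) := Finset.univ.filter fun s => ∀ f : J → ZMod p, ∃ g : K, ∀ i ∈ s, Φ g i = f i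
  have hA : A.Nonempty := ⟨∅, by
    rw [Finset.mem_filter]
    exact ⟨Finset.mem_univ _, fun f => ⟨1, fun i hi => absurd hi (Finset.notMem_empty i)⟩⟩⟩
  obtain ⟨s, hs, hmax⟩ := A.exists_max_image (fun s => s.card) hA
  have hs' : ∀ f : J → ZMod p, ∃ g : K, ∀ i ∈ s, Φ g i = f i := (Finset.mem_filter.1 hs).2
  have hker : ∀ g : K, (∀ i ∈ s, Φ g i = 0) → Φ g = 0 := by
    intro g₀ hg₀
    by_contra hne
    obtain ⟨j, hj⟩ : ∃ j, Φ g₀ j ≠ 0 := by
      by_contra hcon
      push Not at hcon
      exact hne (funext hcon)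
    have hpow : ∀ n : ℕ, Φ (g₀ ^ n) = n • Φ g₀ := by
      intro n
      induction n with
      | zero =>
        have h1 := hΦ 1 1
        rw [mul_one] at h1
        rw [pow_zero, zero_smul]
        exact left_eq_add.1 h1
      | succ n ih => rw [pow_succ, hΦ, ih, succ_nsmul]
    have hjs : j ∉ s := fun h => hj (hg₀ j h)
    have h1 : insert j s ∈ A := by
      rw [Finset.mem_filter]
      refine ⟨Finset.mem_univ _, fun f => ?_⟩
      obtain ⟨g, hg⟩ := hs' f
      refine ⟨g * g₀ ^ ((f j - Φ g j) / Φ g₀ j).val, fun i hi => ?_⟩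
      rw [hΦ, Pi.add_apply, hpow, Pi.smul_apply, nsmul_eq_mul, ZMod.natCast_zmod_val]
      rcases Finset.mem_insert.1 hi with rfl | hi
      · rw [div_mul_cancel₀ _ hj]
        ring
      · rw [hg i hi, hg₀ i hi, mul_zero, add_zero]
    have h2 := hmax _ h1
    rw [Finset.card_insert_of_notMem hjs] at h2
    omega
  let e : Fin s.card ≃ s := (Fintype.equivFinOfCardEq (Fintype.card_coe s)).symm
  have hsur : Function.Surjective (fun (g : K) (i : Fin s.card) => Φ g (e i : J)) := by
    intro f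
    obtain ⟨g, hg⟩ := hs' fun j => if h : j ∈ s then f (e.symm ⟨j, h⟩) else 0
    refine ⟨g, funext fun i => ?_⟩
    have h1 := hg (e i) (e i).2
    show Φ g (e i : J) = f i
    rw [h1, dif_pos (e i).2]
    congr 1
    exact e.symm_apply_apply i
  refine ⟨s.card, fun i => (e i : J), fun a b hab => e.injective (Subtype.ext hab), hsur, ?_⟩
  let ψ : K →* Multiplicative (Fin s.card → ZMod p) :=
    { toFun := fun g => Multiplicative.ofAdd fun i => Φ g (e i : J)
      map_one' := by
        have h1 := hΦ 1 1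
        rw [mul_one] at h1
        have h2 : Φ 1 = 0 := by
          have h3 : Φ 1 + 0 = Φ 1 + Φ 1 := by rw [add_zero]; exact h1
          exact (add_left_cancel h3).symm
        show Multiplicative.ofAdd (fun i => Φ 1 (e i : J)) = 1
        rw [h2]
        rfl
      map_mul' := fun g g' => by
        show Multiplicative.ofAdd (fun i => Φ (g * g') (e i : J)) = _
        rw [hΦ]
        rfl }
  have h1 := Subgroup.card_mul_index ψ.ker
  rw [Subgroup.index_ker] at h1
  have h2 : Nat.card ψ.range = p ^ s.card := by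
    have h3 : ψ.range = ⊤ := MonoidHom.range_eq_top.2 fun y => by
      obtain ⟨g, hg⟩ := hsur (Multiplicative.toAdd y)
      exact ⟨g, hg⟩
    rw [h3, Subgroup.card_top]
    have h4 : Nat.card (Multiplicative (Fin s.card → ZMod p)) = Nat.card (Fin s.card → ZMod p) := rfl
    rw [h4, Nat.card_fun, Nat.card_fin, Nat.card_zmod]
  rw [h2] at h1
  rw [← h1]
  congr 1
  refine Nat.card_congr (Equiv.subtypeEquivRight fun g => ?_)
  rw [MonoidHom.mem_ker]
  constructor
  · intro h
    refine hker g fun i hi => ?_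
    have h3 := congrFun (show (fun i => Φ g (e i : J)) = 0 from h) (e.symm ⟨i, hi⟩)
    rw [Equiv.apply_symm_apply] at h3
    exact h3
  · intro h
    show Multiplicative.ofAdd (fun i => Φ g (e i : J)) = 1
    rw [h]
    rfl

end Pool.Agent.H79.CQ
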