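import Pool.Agent.H79.CQ.Loc

/-!
# Local rules II: least labels and items

* `search_lab`: for finsets `S` of names `τ` let `LabS S q u` be the part of `Lab q u` with `τ ∈ S`. By downward
  induction on `S` (`Finset.induction` on the complement, or strong induction on `Sᶜ.card`):
  `PP (l + 2 * Sᶜ.card + 3) (Γ ∪ LabS S q u)` for all `u`. Step: `τ ∉ S`; `Pn.search` with `v i = .vF τ q i`; the
  case `i` contains `LabS (insert τ S) q (Function.update u τ i)` (and is contained in Γ ∪ it: equality of sets or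
  `Pn.mono`, which costs one level: take `3 * Sᶜ.card` then); in the last case all `vF τ q i` are false: `f7`.
* `lab_uniq`: some `τ` with `u τ ≠ u' τ`; the smaller one is both true and false: `Pn.triv`.
* `lab_edge`: some `t` with `u s((a, true), t) ≠ u' s((a, false), t)`; `f_flip` with `b = true` or `false`.
* `mi_true`, `mi_false`: `Dn.andT`, `Dn.andF`. `yy_false`: `mm … u` is true (`Dn.andT` with `mi_true`), `Dn.andF`.
  `yy_true`: `Dn.andT`: for every `u'`: `mm … u'` is false: if `u' = u` by `hM`, if `u' τ ≠ u τ` by `mi_false`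
  (`Dn.andF`). `yy_M`: `Pn.cut` on `vM …`: if it is false then `yy` is true by `yy_true`.
* `it_intro`: `Dn.andT`; `it_rep` … `it_yy`: `Dn.andE`; `it_M`: `it_yy` and `yy_M`.
-/

set_option autoImplicit false
set_option linter.unusedSectionVars false
set_option linter.unusedVariables false

namespace Pool.Agent.H79.CQ

open Pool.Agent.H42.CS (Pt Ed Sq un inB isE isS Slot off ed sq Ax Atom Lit Gate Circuit Step
  Refutation Der Pn Dn bs)

variable {d n l : ℕ} {Γ : Set (Lit (Nd d n))}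

/-- `u τ` is the least label of `τ` at `q`, for all `τ`. -/
def Lab {d n : ℕ} (q : Fin n) (u : Sym2 (Slot d) → Fin n) : Set (Lit (Nd d n)) :=
  {x | ∃ τ, x = ⟨.vF τ q (u τ), true⟩ ∨ ∃ u', u' < u τ ∧ x = ⟨.vF τ q u', false⟩}

private theorem lb_F (τ : Sym2 (Slot d)) (q : Fin n)
    (h : ∀ u, PP l (Γ ∪ {⟨.vF τ q u, true⟩} ∪ {x | ∃ u', u' < u ∧ x = ⟨.vF τ q u', false⟩})) :
    PP (l + 5) Γ := by
  have h1 : PP (l + 2) (Γ ∪ {x | ∃ u, x = (⟨.vF τ q u, false⟩ : Lit (Nd d n))}) := by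
    refine pn_ins q.pos (Ins.f7 τ q) ?_
    rintro x ⟨u, rfl⟩
    exact ⟨.vF τ q u, rfl, Dn.mem (Or.inr ⟨u, rfl⟩)⟩
  have h2 : PP (l + 2 + 2) Γ :=
    Pn.search (C := CC d n) (fun u => Nd.vF τ q u) (fun u v huv => by
      injection huv) (fun u => Pn.le (h u) (by omega)) h1
  exact Pn.le h2 (by omega)

/-- The facts that the `u τ`, `τ ∈ S`, are the least labels at `q`. -/
private def LabS (S : Finset (Sym2 (Slot d))) (q : Fin n) (u : Sym2 (Slot d) → Fin n) :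
    Set (Lit (Nd d n)) :=
  {x | ∃ τ ∈ S, x = ⟨.vF τ q (u τ), true⟩ ∨ ∃ u', u' < u τ ∧ x = ⟨.vF τ q u', false⟩}

private theorem lb_labels (S : Finset (Sym2 (Slot d))) (q : Fin n)
    (h : ∀ u : Sym2 (Slot d) → Fin n, PP l (Γ ∪ LabS S q u)) : PP (l + 1 + 6 * S.card) Γ := by
  classical
  induction S using Finset.induction_on generalizing Γ l with
  | empty =>
    have h1 := h (fun _ => q)
    refine Pn.mono h1 ?_ (by omega)
    rintro x (hx | ⟨τ, hτ, -⟩)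
    · exact hx
    · exact absurd hτ (Finset.notMem_empty τ)
  | insert τ S hτ ih =>
    rw [Finset.card_insert_of_notMem hτ]
    have h1 : PP (l + 1 + 1 + 6 * S.card + 5) Γ := by
      refine lb_F τ q fun v => ?_
      refine ih (l := l + 1) fun u => ?_
      refine Pn.mono (h (Function.update u τ v)) ?_ (Nat.lt_succ_self l)
      rintro x (hx | ⟨τ', hτ', hx⟩)
      · exact Or.inl (Or.inl (Or.inl hx))
      · rcases Finset.mem_insert.1 hτ' with rfl | hS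
        · rw [Function.update_self] at hx
          rcases hx with rfl | ⟨u', hu', rfl⟩
          · exact Or.inl (Or.inl (Or.inr rfl))
          · exact Or.inl (Or.inr ⟨u', hu', rfl⟩)
        · have hne : τ' ≠ τ := fun h2 => hτ (h2 ▸ hS)
          rw [Function.update_of_ne hne] at hx
          exact Or.inr ⟨τ', hS, hx⟩
    exact Pn.le h1 (by omega)

theorem search_lab (d : ℕ) : ∃ K : ℕ, ∀ (n l : ℕ) (Γ : Set (Lit (Nd d n))) (q : Fin n),
    (∀ u : Sym2 (Slot d) → Fin n, PP l (Γ ∪ Lab q u)) → PP (l + K) Γ := by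
  classical
  refine ⟨1 + 6 * (Finset.univ : Finset (Sym2 (Slot d))).card, fun n l Γ q h => ?_⟩
  refine (lb_labels (l := l) Finset.univ q fun u => ?_).le (by omega)
  have h1 : LabS Finset.univ q u = Lab q u := by
    ext x
    constructor
    · rintro ⟨τ, -, hx⟩
      exact ⟨τ, hx⟩
    · rintro ⟨τ, hx⟩
      exact ⟨τ, Finset.mem_univ _, hx⟩
  rw [h1]
  exact h u

theorem lab_uniq {q : Fin n} {u u' : Sym2 (Slot d) → Fin n} (h : Lab q u ⊆ Γ)
    (h' : Lab q u' ⊆ Γ) (hne : u ≠ u') : PP l Γ := by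
  obtain ⟨τ, hτ⟩ : ∃ τ, u τ ≠ u' τ := by
    by_contra hc
    push Not at hc
    exact hne (funext hc)
  rcases lt_or_gt_of_ne hτ with h1 | h1
  · exact Pn.triv (x := ⟨.vF τ q (u τ), true⟩) (h ⟨τ, Or.inl rfl⟩) (h' ⟨τ, Or.inr ⟨u τ, h1, rfl⟩⟩)
  · exact Pn.triv (x := ⟨.vF τ q (u' τ), true⟩) (h' ⟨τ, Or.inl rfl⟩) (h ⟨τ, Or.inr ⟨u' τ, h1, rfl⟩⟩)

theorem lab_edge {a : Fin d} {q q' : Fin n} {u u' : Sym2 (Slot d) → Fin n} (h : Lab q u ⊆ Γ)
    (h' : Lab q' u' ⊆ Γ) (hJ : DD l Γ ⟨.vJ a q q', true⟩) (hne : sl (a, true) u ≠ sl (a, false) u') :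
    PP (l + 10) Γ := by
  obtain ⟨t, ht⟩ : ∃ t, u s((a, true), t) ≠ u' s((a, false), t) := by
    by_contra hc
    push Not at hc
    exact hne (funext hc)
  rcases lt_or_gt_of_ne ht with h1 | h1
  · have h2 := f_flip (l := l) (Γ := Γ) t true (q := q) (q' := q') (u := u s((a, true), t)) hJ
      (Dn.mem (h ⟨s((a, true), t), Or.inl rfl⟩))
    have h3 : DD (l + 3) Γ (Lit.neg ⟨.vF s((a, !true), t) (if true then q' else q) (u s((a, true), t)), true⟩) :=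
      Dn.mem (h' ⟨s((a, false), t), Or.inr ⟨u s((a, true), t), h1, rfl⟩⟩)
    exact (Dn.contra h2 h3).le (by omega)
  · have h2 := f_flip (l := l) (Γ := Γ) t false (q := q) (q' := q') (u := u' s((a, false), t)) hJ
      (Dn.mem (h' ⟨s((a, false), t), Or.inl rfl⟩))
    have h3 : DD (l + 3) Γ (Lit.neg ⟨.vF s((a, !false), t) (if false then q' else q) (u' s((a, false), t)), true⟩) :=
      Dn.mem (h ⟨s((a, true), t), Or.inr ⟨u' s((a, false), t), h1, rfl⟩⟩)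
    exact (Dn.contra h2 h3).le (by omega)

theorem mi_true {q : Fin n} {u : Sym2 (Slot d) → Fin n} (h : Lab q u ⊆ Γ) (τ : Sym2 (Slot d)) :
    DD (l + 3) Γ ⟨.mi τ q (u τ), true⟩ := by
  refine Dn.le (l := l + 2) (Dn.andT (C := CC d n) (a := .mi τ q (u τ)) rfl ?_) (by omega)
  rintro x (rfl | ⟨u', hu', rfl⟩)
  · exact Dn.mem (h ⟨τ, Or.inl rfl⟩)
  · exact Dn.mem (h ⟨τ, Or.inr ⟨u', hu', rfl⟩⟩)

theorem mi_false {q : Fin n} {u : Sym2 (Slot d) → Fin n} (h : Lab q u ⊆ Γ) (τ : Sym2 (Slot d))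
    {u0 : Fin n} (hne : u0 ≠ u τ) : DD (l + 4) Γ ⟨.mi τ q u0, false⟩ := by
  rcases lt_or_gt_of_ne hne with h1 | h1
  · exact Dn.le (l := l + 3) (Dn.andF (C := CC d n) (a := .mi τ q u0) (x := ⟨.vF τ q u0, true⟩) rfl (Or.inl rfl)
      (Dn.mem (h ⟨τ, Or.inr ⟨u0, h1, rfl⟩⟩))) (by omega)
  · exact Dn.le (l := l + 3) (Dn.andF (C := CC d n) (a := .mi τ q u0) (x := ⟨.vF τ q (u τ), false⟩) rfl
      (Or.inr ⟨u τ, h1, rfl⟩) (Dn.mem (h ⟨τ, Or.inl rfl⟩))) (by omega)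

theorem yy_false {z q y y' : Fin n} {σ : Slot d} {k : Fin (2 * d)} {u : Sym2 (Slot d) → Fin n}
    (h : Lab q u ⊆ Γ) (hM : DD l Γ ⟨.vM σ k q u z y y', true⟩) :
    DD (l + 20) Γ ⟨.yy z σ k q y y', false⟩ := by
  have h1 : DD (l + 3 + 2) Γ ⟨.mm z σ k q y y' u, true⟩ := by
    refine Dn.andT (C := CC d n) (a := .mm z σ k q y y' u) rfl ?_
    rintro x (rfl | ⟨τ, rfl⟩)
    · exact Dn.le hM (by omega)
    · exact mi_true h τ
  have h2 : DD (l + 3 + 2 + 3) Γ ⟨.yy z σ k q y y', false⟩ :=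
    Dn.andF (C := CC d n) (a := .yy z σ k q y y') (x := ⟨.mm z σ k q y y' u, false⟩) rfl ⟨u, rfl⟩ h1
  exact Dn.le h2 (by omega)

theorem yy_true {z q y y' : Fin n} {σ : Slot d} {k : Fin (2 * d)} {u : Sym2 (Slot d) → Fin n}
    (h : Lab q u ⊆ Γ) (hM : DD l Γ ⟨.vM σ k q u z y y', false⟩) :
    DD (l + 20) Γ ⟨.yy z σ k q y y', true⟩ := by
  have h1 : ∀ v, DD (l + 7) Γ ⟨.mm z σ k q y y' v, false⟩ := by
    intro v
    by_cases hv : v = u
    · subst hv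
      have h2 : DD (l + 3) Γ ⟨.mm z σ k q y y' v, false⟩ :=
        Dn.andF (C := CC d n) (a := .mm z σ k q y y' v) (x := ⟨.vM σ k q v z y y', true⟩) rfl
          (Or.inl rfl) hM
      exact Dn.le h2 (by omega)
    · obtain ⟨τ, ht⟩ : ∃ τ, v τ ≠ u τ := by
        by_contra hc
        push Not at hc
        exact hv (funext hc)
      exact Dn.andF (C := CC d n) (a := .mm z σ k q y y' v) (x := ⟨.mi τ q (v τ), true⟩) rfl
        (Or.inr ⟨τ, rfl⟩) (mi_false h τ ht)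
  have h2 : DD (l + 7 + 2) Γ ⟨.yy z σ k q y y', true⟩ := by
    refine Dn.andT (C := CC d n) (a := .yy z σ k q y y') rfl ?_
    rintro x ⟨v, rfl⟩
    exact h1 v
  exact Dn.le h2 (by omega)

theorem yy_M {z q y y' : Fin n} {σ : Slot d} {k : Fin (2 * d)} {u : Sym2 (Slot d) → Fin n}
    (h : Lab q u ⊆ Γ) (hy : DD l Γ ⟨.yy z σ k q y y', false⟩) :
    DD (l + 30) Γ ⟨.vM σ k q u z y y', true⟩ := by
  have hs : Γ ⊆ insert (Lit.neg ⟨.vM σ k q u z y y', true⟩) Γ := Set.subset_insert _ _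
  have h1 : DD (l + 20) (insert (Lit.neg ⟨.vM σ k q u z y y', true⟩) Γ) ⟨.yy z σ k q y y', true⟩ :=
    yy_true (l := l) (u := u) (h.trans hs) (Dn.mem (Set.mem_insert _ _))
  have h2 : PP (l + 21) (insert (Lit.neg ⟨.vM σ k q u z y y', true⟩) Γ) :=
    Dn.contra h1 (hy.mono hs (by omega))
  exact Pn.le h2 (by omega)

theorem it_intro {z : Fin n} {x : Itm d n} (h1 : DD l Γ ⟨.rep x.q, true⟩)
    (h2 : DD l Γ ⟨.rep x.q', true⟩) (h3 : DD l Γ ⟨.vJ x.a x.q x.q', true⟩)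
    (h4 : DD l Γ ⟨.ra x.y, true⟩) (h5 : DD l Γ ⟨.ra x.y', true⟩)
    (h6 : DD l Γ ⟨.yy z (x.a, x.b) x.k x.vx x.y x.y', false⟩) :
    DD (l + 2) Γ ⟨.it z x, true⟩ := by
  refine Dn.andT (C := CC d n) (a := .it z x) rfl ?_
  rintro w (rfl | rfl | rfl | rfl | rfl | rfl)
  · exact h1
  · exact h2
  · exact h3
  · exact h4
  · exact h5
  · exact h6

theorem it_rep {z : Fin n} {x : Itm d n} (h : DD l Γ ⟨.it z x, true⟩) :
    DD (l + 3) Γ ⟨.rep x.q, true⟩ :=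
  Dn.andE (C := CC d n) (a := .it z x) rfl (Or.inl rfl) h

theorem it_rep' {z : Fin n} {x : Itm d n} (h : DD l Γ ⟨.it z x, true⟩) :
    DD (l + 3) Γ ⟨.rep x.q', true⟩ :=
  Dn.andE (C := CC d n) (a := .it z x) rfl (Or.inr (Or.inl rfl)) h

theorem it_J {z : Fin n} {x : Itm d n} (h : DD l Γ ⟨.it z x, true⟩) :
    DD (l + 3) Γ ⟨.vJ x.a x.q x.q', true⟩ :=
  Dn.andE (C := CC d n) (a := .it z x) rfl (Or.inr (Or.inr (Or.inl rfl))) h

theorem it_ra {z : Fin n} {x : Itm d n} (h : DD l Γ ⟨.it z x, true⟩) :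
    DD (l + 3) Γ ⟨.ra x.y, true⟩ :=
  Dn.andE (C := CC d n) (a := .it z x) rfl (Or.inr (Or.inr (Or.inr (Or.inl rfl)))) h

theorem it_ra' {z : Fin n} {x : Itm d n} (h : DD l Γ ⟨.it z x, true⟩) :
    DD (l + 3) Γ ⟨.ra x.y', true⟩ :=
  Dn.andE (C := CC d n) (a := .it z x) rfl (Or.inr (Or.inr (Or.inr (Or.inr (Or.inl rfl))))) h

theorem it_yy {z : Fin n} {x : Itm d n} (h : DD l Γ ⟨.it z x, true⟩) :
    DD (l + 3) Γ ⟨.yy z (x.a, x.b) x.k x.vx x.y x.y', false⟩ :=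
  Dn.andE (C := CC d n) (a := .it z x) rfl (Or.inr (Or.inr (Or.inr (Or.inr (Or.inr rfl))))) h

theorem it_M {z : Fin n} {x : Itm d n} {u : Sym2 (Slot d) → Fin n} (hu : Lab x.vx u ⊆ Γ)
    (h : DD l Γ ⟨.it z x, true⟩) :
    DD (l + 40) Γ ⟨.vM (x.a, x.b) x.k x.vx u z x.y x.y', true⟩ :=
  (yy_M hu (it_yy h)).le (by omega)

end Pool.Agent.H79.CQ
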