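import Pool.Agent.H79.CQ.Cir

/-!
# Local rules I

`∃ K, ∀ …`: the number `K` of levels depends on `d` only (any generous number will do).

* `pn_ins`, `dn_ins`: `ins_T` and `Pn.clause`, `Dn.clause` (as in `H42/CS/Loc`; `Fin n` is nonempty if there is
  a node; if `n = 0` then every `Ins` clause with a point is impossible and `Nd d 0`: for the clauses without
  points (`z1`, `b1`) `ins_T` needs a point: therefore the hypothesis `0 < n`).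
* `searchS`: `Pn.cutAll` with the set `Lit.neg '' S` (`Dn l Γ x.neg` is `Pn l (insert x.neg.neg Γ)`).
* rules from single axioms: `e_refl` (er), `e_symm` (es), `e_trans` (et), `j_fun` (jf), `j_inj` (ji), `j_inv`
  (je), `f_flip` (f6), `z_uni` (z2), `z_inv` (z3), `b_symm` (b2), `b_trans` (b3), `b_left`: `B x y` gives `B y x`
  and `B x x`. All by `dn_ins` (and `rfl` for the gates; the case that a member of the clause equals the
  conclusion is excluded by `hne`).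
* `rep_true`, `rep_false`, `ra_true`, `ra_B`, `ra_false`: `Dn.andT`, `Dn.andE`, `Dn.andF`.
* `rep_uniq`: if `q < q'` then `rep q'` is refuted by `rep_false`; if `q' < q` use `e_symm`. `ra_uniq` the same.
* `search_rep`: `Pn.search` with `v q' = vE q' q`: in the case `q'`: `vE q' q` is true and `vE q'' q` false for
  `q'' < q'`; derive `rep q'`: for `q'' < q'`: if `vE q'' q'` then `vE q'' q` (`e_trans`), contradiction
  (`Dn.cases`); then use the hypothesis (`Pn.cutAll`/`Pn.use`, monotonicity). The case that all are false: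
  `vE q q` is derived. `search_ra`: the same with `vB`.
-/

set_option autoImplicit false
set_option linter.unusedSectionVars false

namespace Pool.Agent.H79.CQ

open Pool.Agent.H42.CS (Pt Ed Sq un inB isE isS Slot off ed sq Ax Atom Lit Gate Circuit Step
  Refutation Der Pn Dn bs)

variable {d n l : ℕ} {Γ : Set (Lit (Nd d n))}

theorem pn_ins (hn : 0 < n) {Λ : Set (Atom (Re d) (Fin n) × Bool)} (h : Ins Λ)
    (hΛ : ∀ x ∈ Λ, ∃ a : Nd d n, gt a = .var x.1 ∧ DD l Γ ⟨a, !x.2⟩) : PP (l + 2) Γ := by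
  have : Nonempty (Fin n) := ⟨⟨0, hn⟩⟩
  obtain ⟨A, hA, v, rfl⟩ := ins_T Λ h
  exact Pn.clause hA v hΛ

theorem dn_ins (hn : 0 < n) {Λ : Set (Atom (Re d) (Fin n) × Bool)} (h : Ins Λ)
    {x0 : Atom (Re d) (Fin n) × Bool} {a0 : Nd d n} (ha0 : gt a0 = .var x0.1)
    (hΛ : ∀ x ∈ Λ, x ≠ x0 → ∃ a : Nd d n, gt a = .var x.1 ∧ DD l Γ ⟨a, !x.2⟩) :
    DD (l + 3) Γ ⟨a0, x0.2⟩ := by
  have : Nonempty (Fin n) := ⟨⟨0, hn⟩⟩
  obtain ⟨A, hA, v, rfl⟩ := ins_T Λ h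
  exact Dn.clause hA v ha0 hΛ

/-- Search: one of the members of `S` is true. -/
theorem searchS {S : Set (Lit (Nd d n))} (h : ∀ x ∈ S, PP l (insert x Γ))
    (h' : PP l (Γ ∪ Lit.neg '' S)) : PP (l + 2) Γ := by
  refine Pn.cutAll (C := CC d n) (S := Lit.neg '' S) ?_ h'
  rintro _ ⟨x, hx, rfl⟩
  have h1 : x.neg.neg = x := by
    rcases x with ⟨m, s⟩
    cases s <;> rfl
  show Pn (T d) (CC d n) l (insert x.neg.neg Γ)
  rw [h1]
  exact h x hx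

theorem e_refl (q : Fin n) : DD 3 Γ ⟨.vE q q, true⟩ := by
  refine dn_ins (l := 0) (Fin.pos q) (Ins.er q) (x0 := (aE q q, true)) (a0 := .vE q q) rfl ?_
  rintro x rfl hne
  exact absurd rfl hne

theorem e_symm {q q' : Fin n} (h : DD l Γ ⟨.vE q q', true⟩) : DD (l + 3) Γ ⟨.vE q' q, true⟩ := by
  refine dn_ins (Fin.pos q) (Ins.es q q') (x0 := (aE q' q, true)) (a0 := .vE q' q) rfl ?_
  rintro x (rfl | rfl) hne
  · exact ⟨.vE q q', rfl, h⟩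
  · exact absurd rfl hne

theorem e_trans {q q' q'' : Fin n} (h : DD l Γ ⟨.vE q q', true⟩) (h' : DD l Γ ⟨.vE q' q'', true⟩) :
    DD (l + 3) Γ ⟨.vE q q'', true⟩ := by
  refine dn_ins (Fin.pos q) (Ins.et q q' q'') (x0 := (aE q q'', true)) (a0 := .vE q q'') rfl ?_
  rintro x (rfl | rfl | rfl) hne
  · exact ⟨.vE q q', rfl, h⟩
  · exact ⟨.vE q' q'', rfl, h'⟩
  · exact absurd rfl hne

theorem j_fun {a : Fin d} {q p p' : Fin n} (h : DD l Γ ⟨.vJ a q p, true⟩)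
    (h' : DD l Γ ⟨.vJ a q p', true⟩) : DD (l + 3) Γ ⟨.vE p p', true⟩ := by
  refine dn_ins (Fin.pos q) (Ins.jf a q p p') (x0 := (aE p p', true)) (a0 := .vE p p') rfl ?_
  rintro x (rfl | rfl | rfl) hne
  · exact ⟨.vJ a q p, rfl, h⟩
  · exact ⟨.vJ a q p', rfl, h'⟩
  · exact absurd rfl hne

theorem j_inj {a : Fin d} {q q' p : Fin n} (h : DD l Γ ⟨.vJ a q p, true⟩)
    (h' : DD l Γ ⟨.vJ a q' p, true⟩) : DD (l + 3) Γ ⟨.vE q q', true⟩ := by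
  refine dn_ins (Fin.pos q) (Ins.ji a q q' p) (x0 := (aE q q', true)) (a0 := .vE q q') rfl ?_
  rintro x (rfl | rfl | rfl) hne
  · exact ⟨.vJ a q p, rfl, h⟩
  · exact ⟨.vJ a q' p, rfl, h'⟩
  · exact absurd rfl hne

theorem j_inv {a : Fin d} {q q' p p' : Fin n} (h : DD l Γ ⟨.vJ a q p, true⟩)
    (h1 : DD l Γ ⟨.vE q q', true⟩) (h2 : DD l Γ ⟨.vE p p', true⟩) :
    DD (l + 3) Γ ⟨.vJ a q' p', true⟩ := by
  refine dn_ins (Fin.pos q) (Ins.je a q p q' p') (x0 := (aJ a q' p', true)) (a0 := .vJ a q' p') rfl ?_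
  rintro x (rfl | rfl | rfl | rfl) hne
  · exact ⟨.vJ a q p, rfl, h⟩
  · exact ⟨.vE q q', rfl, h1⟩
  · exact ⟨.vE p p', rfl, h2⟩
  · exact absurd rfl hne

theorem f_flip {a : Fin d} (t : Slot d) (b : Bool) {q q' u : Fin n} (h : DD l Γ ⟨.vJ a q q', true⟩)
    (h' : DD l Γ ⟨.vF s((a, b), t) (if b then q else q') u, true⟩) :
    DD (l + 3) Γ ⟨.vF s((a, !b), t) (if b then q' else q) u, true⟩ := by
  refine dn_ins (Fin.pos q) (Ins.f6 a t b q q' u) (x0 := (aF s((a, !b), t) (if b then q' else q) u, true)) (a0 := .vF s((a, !b), t) (if b then q' else q) u) rfl ?_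
  rintro x (rfl | rfl | rfl) hne
  · exact ⟨.vJ a q q', rfl, h⟩
  · exact ⟨.vF s((a, b), t) (if b then q else q') u, rfl, h'⟩
  · exact absurd rfl hne

theorem z_uni {q q' : Fin n} (h : DD l Γ ⟨.vZ q, true⟩) (h' : DD l Γ ⟨.vZ q', true⟩) :
    DD (l + 3) Γ ⟨.vE q q', true⟩ := by
  refine dn_ins (Fin.pos q) (Ins.z2 q q') (x0 := (aE q q', true)) (a0 := .vE q q') rfl ?_
  rintro x (rfl | rfl | rfl) hne
  · exact ⟨.vZ q, rfl, h⟩
  · exact ⟨.vZ q', rfl, h'⟩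
  · exact absurd rfl hne

theorem z_inv {q q' : Fin n} (h : DD l Γ ⟨.vZ q, true⟩) (h' : DD l Γ ⟨.vE q q', true⟩) :
    DD (l + 3) Γ ⟨.vZ q', true⟩ := by
  refine dn_ins (Fin.pos q) (Ins.z3 q q') (x0 := (aZ q', true)) (a0 := .vZ q') rfl ?_
  rintro x (rfl | rfl | rfl) hne
  · exact ⟨.vZ q, rfl, h⟩
  · exact ⟨.vE q q', rfl, h'⟩
  · exact absurd rfl hne

theorem b_symm {y y' : Fin n} (h : DD l Γ ⟨.vB y y', true⟩) : DD (l + 3) Γ ⟨.vB y' y, true⟩ := by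
  refine dn_ins (Fin.pos y) (Ins.b2 y y') (x0 := (aB y' y, true)) (a0 := .vB y' y) rfl ?_
  rintro x (rfl | rfl) hne
  · exact ⟨.vB y y', rfl, h⟩
  · exact absurd rfl hne

theorem b_trans {y y' y'' : Fin n} (h : DD l Γ ⟨.vB y y', true⟩) (h' : DD l Γ ⟨.vB y' y'', true⟩) :
    DD (l + 3) Γ ⟨.vB y y'', true⟩ := by
  refine dn_ins (Fin.pos y) (Ins.b3 y y' y'') (x0 := (aB y y'', true)) (a0 := .vB y y'') rfl ?_
  rintro x (rfl | rfl | rfl) hne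
  · exact ⟨.vB y y', rfl, h⟩
  · exact ⟨.vB y' y'', rfl, h'⟩
  · exact absurd rfl hne

theorem b_left {y y' : Fin n} (h : DD l Γ ⟨.vB y y', true⟩) : DD (l + 6) Γ ⟨.vB y y, true⟩ := by
  exact b_trans (Dn.le h (by omega)) (b_symm h)

theorem rep_true {q : Fin n} (h : ∀ q', q' < q → DD l Γ ⟨.vE q' q, false⟩) :
    DD (l + 2) Γ ⟨.rep q, true⟩ := by
  refine Dn.andT (C := CC d n) (a := .rep q) rfl ?_
  rintro x ⟨p, hp, rfl⟩
  exact h p hp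

theorem rep_false {q q' : Fin n} (hq : q' < q) (h : DD l Γ ⟨.vE q' q, true⟩) :
    DD (l + 3) Γ ⟨.rep q, false⟩ := by
  exact Dn.andF (C := CC d n) (a := .rep q) (x := ⟨.vE q' q, false⟩) rfl ⟨q', hq, rfl⟩ h

theorem ra_true {y : Fin n} (h : DD l Γ ⟨.vB y y, true⟩)
    (h' : ∀ y', y' < y → DD l Γ ⟨.vB y' y, false⟩) : DD (l + 2) Γ ⟨.ra y, true⟩ := by
  refine Dn.andT (C := CC d n) (a := .ra y) rfl ?_
  rintro x (rfl | ⟨p, hp, rfl⟩)
  · exact h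
  · exact h' p hp

theorem ra_B {y : Fin n} (h : DD l Γ ⟨.ra y, true⟩) : DD (l + 3) Γ ⟨.vB y y, true⟩ := by
  exact Dn.andE (C := CC d n) (a := .ra y) (x := ⟨.vB y y, true⟩) rfl (Or.inl rfl) h

theorem ra_false {y y' : Fin n} (hy : y' < y) (h : DD l Γ ⟨.vB y' y, true⟩) :
    DD (l + 3) Γ ⟨.ra y, false⟩ := by
  exact Dn.andF (C := CC d n) (a := .ra y) (x := ⟨.vB y' y, false⟩) rfl
    (Or.inr ⟨y', hy, rfl⟩) h

theorem rep_uniq {q q' : Fin n} (h : DD l Γ ⟨.rep q, true⟩) (h' : DD l Γ ⟨.rep q', true⟩)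
    (hE : DD l Γ ⟨.vE q q', true⟩) (hne : q ≠ q') : PP (l + 10) Γ := by
  rcases lt_or_gt_of_ne hne with h1 | h1
  · have h2 : PP (l + 3 + 1) Γ :=
      Dn.contra (x := ⟨.rep q', true⟩) (Dn.le h' (by omega)) (rep_false h1 hE)
    exact Pn.le h2 (by omega)
  · have h2 : PP (l + 3 + 3 + 1) Γ :=
      Dn.contra (x := ⟨.rep q, true⟩) (Dn.le h (by omega)) (rep_false h1 (e_symm hE))
    exact Pn.le h2 (by omega)

theorem ra_uniq {y y' : Fin n} (h : DD l Γ ⟨.ra y, true⟩) (h' : DD l Γ ⟨.ra y', true⟩)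
    (hB : DD l Γ ⟨.vB y y', true⟩) (hne : y ≠ y') : PP (l + 10) Γ := by
  rcases lt_or_gt_of_ne hne with h1 | h1
  · have h2 : PP (l + 3 + 1) Γ :=
      Dn.contra (x := ⟨.ra y', true⟩) (Dn.le h' (by omega)) (ra_false h1 hB)
    exact Pn.le h2 (by omega)
  · have h2 : PP (l + 3 + 3 + 1) Γ :=
      Dn.contra (x := ⟨.ra y, true⟩) (Dn.le h (by omega)) (ra_false h1 (b_symm hB))
    exact Pn.le h2 (by omega)

theorem search_rep (d : ℕ) : ∃ K : ℕ, ∀ (n l : ℕ) (Γ : Set (Lit (Nd d n))) (q : Fin n),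
    (∀ q' : Fin n, PP l (Γ ∪ {⟨.rep q', true⟩, ⟨.vE q' q, true⟩})) → PP (l + K) Γ := by
  refine ⟨9, fun n l Γ q h => ?_⟩
  have h0 : PP (l + 7) (Γ ∪ {x | ∃ j, x = (⟨.vE j q, false⟩ : Lit (Nd d n))}) := by
    have h1 : PP (3 + 1) (Γ ∪ {x | ∃ j, x = (⟨.vE j q, false⟩ : Lit (Nd d n))}) :=
      Dn.contra (x := ⟨.vE q q, true⟩) (e_refl q) (Dn.mem (Or.inr ⟨q, rfl⟩))
    exact Pn.le h1 (by omega)
  have h2 : PP (l + 7 + 2) Γ := by
    refine Pn.search (C := CC d n) (fun q' => Nd.vE q' q) (fun u v huv => by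
      injection huv) (fun i => ?_) h0
    show PP (l + 7) (Γ ∪ {⟨.vE i q, true⟩} ∪ {x | ∃ j, j < i ∧ x = ⟨.vE j q, false⟩})
    have h3 : DD 4 (Γ ∪ {⟨.vE i q, true⟩} ∪ {x | ∃ j, j < i ∧ x = ⟨.vE j q, false⟩})
        ⟨.vE i i, true⟩ ∧ ∀ j, j < i →
        DD 4 (Γ ∪ {⟨.vE i q, true⟩} ∪ {x | ∃ j, j < i ∧ x = ⟨.vE j q, false⟩})
          ⟨.vE j i, false⟩ := by
      refine ⟨Dn.le (e_refl i) (by omega), fun j hj => ?_⟩
      show PP (3 + 1) (insert ⟨.vE j i, true⟩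
        (Γ ∪ {⟨.vE i q, true⟩} ∪ {x | ∃ j, j < i ∧ x = ⟨.vE j q, false⟩}))
      refine Dn.contra (x := ⟨.vE j q, true⟩) ?_ (Dn.mem (Or.inr (Or.inr ⟨j, hj, rfl⟩)))
      exact e_trans (q' := i) (l := 0) (Dn.mem (Or.inl rfl))
        (Dn.mem (Or.inr (Or.inl (Or.inr rfl))))
    have h4 : DD (l + 6) (Γ ∪ {⟨.vE i q, true⟩} ∪ {x | ∃ j, j < i ∧ x = ⟨.vE j q, false⟩})
        ⟨.rep i, true⟩ := Dn.le (rep_true h3.2) (by omega)
    refine Pn.use h4 (Pn.mono (h i) ?_ (by omega))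
    rintro x (hx | rfl | rfl)
    · exact Or.inr (Or.inl (Or.inl hx))
    · exact Or.inl rfl
    · exact Or.inr (Or.inl (Or.inr rfl))
  exact h2

theorem search_ra (d : ℕ) : ∃ K : ℕ, ∀ (n l : ℕ) (Γ : Set (Lit (Nd d n))) (y : Fin n),
    DD l Γ ⟨.vB y y, true⟩ →
    (∀ y' : Fin n, PP l (Γ ∪ {⟨.ra y', true⟩, ⟨.vB y' y, true⟩})) → PP (l + K) Γ := by
  refine ⟨11, fun n l Γ y hy h => ?_⟩
  have h0 : PP (l + 9) (Γ ∪ {x | ∃ j, x = (⟨.vB j y, false⟩ : Lit (Nd d n))}) := by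
    have h1 : PP (l + 1 + 1) (Γ ∪ {x | ∃ j, x = (⟨.vB j y, false⟩ : Lit (Nd d n))}) :=
      Dn.contra (x := ⟨.vB y y, true⟩) (Dn.mono hy Set.subset_union_left (by omega))
        (Dn.mem (Or.inr ⟨y, rfl⟩))
    exact Pn.le h1 (by omega)
  have h2 : PP (l + 9 + 2) Γ := by
    refine Pn.search (C := CC d n) (fun q' => Nd.vB q' y) (fun u v huv => by
      injection huv) (fun i => ?_) h0
    show PP (l + 9) (Γ ∪ {⟨.vB i y, true⟩} ∪ {x | ∃ j, j < i ∧ x = ⟨.vB j y, false⟩})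
    have h3 : DD 6 (Γ ∪ {⟨.vB i y, true⟩} ∪ {x | ∃ j, j < i ∧ x = ⟨.vB j y, false⟩})
        ⟨.vB i i, true⟩ ∧ ∀ j, j < i →
        DD 6 (Γ ∪ {⟨.vB i y, true⟩} ∪ {x | ∃ j, j < i ∧ x = ⟨.vB j y, false⟩})
          ⟨.vB j i, false⟩ := by
      refine ⟨b_left (l := 0) (y' := y) (Dn.mem (Or.inl (Or.inr rfl))), fun j hj => ?_⟩
      show PP 6 (insert ⟨.vB j i, true⟩
        (Γ ∪ {⟨.vB i y, true⟩} ∪ {x | ∃ j, j < i ∧ x = ⟨.vB j y, false⟩}))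
      have h5 : PP (3 + 1) (insert ⟨.vB j i, true⟩
        (Γ ∪ {⟨.vB i y, true⟩} ∪ {x | ∃ j, j < i ∧ x = ⟨.vB j y, false⟩})) := by
        refine Dn.contra (x := ⟨.vB j y, true⟩) ?_ (Dn.mem (Or.inr (Or.inr ⟨j, hj, rfl⟩)))
        exact b_trans (y' := i) (l := 0) (Dn.mem (Or.inl rfl))
          (Dn.mem (Or.inr (Or.inl (Or.inr rfl))))
      exact Pn.le h5 (by omega)
    have h4 : DD (l + 8) (Γ ∪ {⟨.vB i y, true⟩} ∪ {x | ∃ j, j < i ∧ x = ⟨.vB j y, false⟩})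
        ⟨.ra i, true⟩ := Dn.le (ra_true h3.1 h3.2) (by omega)
    refine Pn.use h4 (Pn.mono (h i) ?_ (by omega))
    rintro x (hx | rfl | rfl)
    · exact Or.inr (Or.inl (Or.inl hx))
    · exact Or.inl rfl
    · exact Or.inr (Or.inl (Or.inr rfl))
  exact h2

end Pool.Agent.H79.CQ
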