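import Pool.Agent.H79.CQ.Mo2

/-!
# The clauses are true in the model II: one edge

All by `clok_of` with `s = cel u` (`card_cel`, `card_slot`); `hloc` for the members with `aT` by `loc_T`, the others do
not depend on the world (`leaf_aJ`, `leaf_aB`).

* tp, tn: if `pT (a, true) q u z y f` holds then `q ∈ blk (cv x)`, `isE L (ed x (a, true))`, `ed x (a, true) = (x, a)`, so
  `pJ a q q'` for `q'` in the nonempty cell of `x + un a`. For `(a, false)`: `ed x (a, false) = (x - un a, a)`, `q'` in the cell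
  of `x - un a`.
* `edge_val`: if `pJ a q q'`, `q ∈ blk (cv x)`, `q' ∈ blk (cv x')`, `inB x`, `inB x'` then `x' = x + un a`
  (`vert_unique`), and by `sq_shift` the value and the conditions at `(a, true)`, `x` and at `(a, false)`, `x'` are the same:
  so with `v := val x (a, true) u f` (if the labels are legal and `isE`): `pT (a, true) q u z y f ↔ X.val < v.val`,
  `pT (a, false) q' u z y f ↔ v ≠ 0 ∧ v.val ≤ X.val`, `X = bit y - bit z`, for `z, y ∈ blk kA`.
* e1: `v ≠ 0` gives `0 < v.val`. e2: they exclude each other. e3: `X.val < v.val` gives `0 < v.val` (`bit z - bit z = 0`).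
  e4: one of them holds if `0 < v.val` (then `v ≠ 0`); `pB y y` gives `y ∈ blk kA`.
-/

set_option autoImplicit false
set_option linter.unusedSectionVars false

namespace Pool.Agent.H79.CQ

open Pool.Agent.H42.CS (Pt Ed Sq un inB isE isS Slot off ed sq Ax Atom)

variable {p : ℕ} [hp : Fact p.Prime]

namespace Dat

variable {d L r : ℕ} {P : Type} (D : Dat p d L r P)

/-- The two thermometers of an edge. -/
theorem edge_val {a : Fin d} {q q' : P} (hJ : D.pJ a q q') (u : Slot d → P)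
    (f : Wd p (Fin r)) :
    (∃ v : ZMod p, ∀ z ∈ D.blk D.kA, ∀ y ∈ D.blk D.kA,
      (D.pT (a, true) q u z y f ↔ (D.bit y - D.bit z).val < v.val) ∧
      (D.pT (a, false) q' u z y f ↔ v ≠ 0 ∧ v.val ≤ (D.bit y - D.bit z).val)) ∨
    (∀ z y, ¬ D.pT (a, true) q u z y f ∧ ¬ D.pT (a, false) q' u z y f) := by
  classical
  obtain ⟨x, he, hq, hq'⟩ := hJ
  have s1 : ∀ t, sq (x + un a) (a, false) t = sq x (a, true) t := fun t => (sq_shift x a t).1
  have s2 : ed (x + un a) (a, false) = ed x (a, true) := (sq_shift x a (a, true)).2.1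
  have s3 : ed x (a, true) = (x, a) := (sq_shift x a (a, true)).2.2
  have hv : D.val (x + un a) (a, false) u f = D.val x (a, true) u f := by
    unfold val
    rw [s2]
    congr 1
    refine Finset.sum_congr rfl fun t _ => ?_
    rw [s1 t]
    rfl
  by_cases hu : ∀ t, isS L (sq x (a, true) t) → u t ∈ D.blk (D.j (sq x (a, true) t))
  · refine Or.inl ⟨D.val x (a, true) u f, fun z hz y hy => ⟨?_, ?_⟩⟩
    · constructor
      · rintro ⟨-, -, x', hx', h1, -, -, h2⟩
        have e := D.vert_unique hx' he.1 h1 hq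
        subst e
        exact h2
      · intro h
        exact ⟨hz, hy, x, he.1, hq, by rw [s3]; exact he, hu, h⟩
    · constructor
      · rintro ⟨-, -, x', hx', h1, -, -, h2⟩
        have e := D.vert_unique hx' he.2 h1 hq'
        subst e
        rw [hv] at h2
        exact h2
      · intro h
        refine ⟨hz, hy, x + un a, he.2, hq', by rw [s2, s3]; exact he, ?_, ?_⟩
        · intro t ht
          rw [s1 t] at ht ⊢
          exact hu t ht
        · rw [hv]
          exact h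
  · refine Or.inr fun z y => ⟨?_, ?_⟩
    · rintro ⟨-, -, x', hx', h1, -, h3, -⟩
      have e := D.vert_unique hx' he.1 h1 hq
      subst e
      exact hu h3
    · rintro ⟨-, -, x', hx', h1, -, h3, -⟩
      have e := D.vert_unique hx' he.2 h1 hq'
      subst e
      refine hu fun t ht => ?_
      have h4 := h3 t
      rw [s1 t] at h4
      exact h4 ht

private theorem m3_f {Λ : Set (Atom (Re d) P × Bool)} {f : Wd p (Fin r)}
    (hno : ¬ ∃ x ∈ Λ, (D.leaf x.1 f ↔ x.2 = true)) {v : Atom (Re d) P}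
    (hm : (v, false) ∈ Λ) : D.leaf v f := by
  by_contra h
  exact hno ⟨_, hm, iff_of_false h (by simp)⟩

private theorem m3_t {Λ : Set (Atom (Re d) P × Bool)} {f : Wd p (Fin r)}
    (hno : ¬ ∃ x ∈ Λ, (D.leaf x.1 f ↔ x.2 = true)) {v : Atom (Re d) P}
    (hm : (v, true) ∈ Λ) : ¬ D.leaf v f :=
  fun h => hno ⟨_, hm, iff_of_true h rfl⟩

private theorem m3_c (u : Slot d → P) : (D.cel u).card ≤ k8 d :=
  (D.card_cel u).trans card_slot

private theorem m3_pos {v : ZMod p} (hv : v ≠ 0) (z : P) : (D.bit z - D.bit z).val < v.val := by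
  rw [sub_self, ZMod.val_zero]
  exact Nat.pos_of_ne_zero fun h => hv ((ZMod.val_eq_zero v).1 h)

variable {fam : Set (Submodule (ZMod p) (Fin r → ZMod p))}
  (hfam : ∀ s : Finset (Fin r), s.card ≤ k8 d → csp p s ∈ fam)

include hfam

theorem ok_tp (a : Fin d) (q : P) (u : Slot d → P) (z y : P) :
    ClOK D.g D.leaf fam ({(aT (a, true) q u z y, false)} ∪ {x | ∃ q', x = (aJ a q q', true)}) := by
  refine D.clok_of hfam (D.cel u) (D.m3_c u) ?_ ?_
  · rintro x (rfl | ⟨q', rfl⟩) f f' h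
    · exact D.loc_T (Finset.Subset.refl _) h
    · exact (D.leaf_aJ a q q' f).trans (D.leaf_aJ a q q' f').symm
  · intro U f _ _ _
    by_contra hno
    have h1 := (D.leaf_aT _ _ _ _ _ _).1 (D.m3_f hno (Or.inl rfl))
    obtain ⟨-, -, x, hx, hq, he, -⟩ := h1
    rw [(sq_shift x a (a, true)).2.2] at he
    obtain ⟨q', hq'⟩ := D.M.ne (D.cv (x + un a)) 0
    exact D.m3_t hno (Or.inr ⟨q', rfl⟩) ((D.leaf_aJ a q q' f).2 ⟨x, he, hq, 0, hq'⟩)

theorem ok_tn (a : Fin d) (q : P) (u : Slot d → P) (z y : P) :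
    ClOK D.g D.leaf fam
      ({(aT (a, false) q u z y, false)} ∪ {x | ∃ q', x = (aJ a q' q, true)}) := by
  refine D.clok_of hfam (D.cel u) (D.m3_c u) ?_ ?_
  · rintro x (rfl | ⟨q', rfl⟩) f f' h
    · exact D.loc_T (Finset.Subset.refl _) h
    · exact (D.leaf_aJ a q' q f).trans (D.leaf_aJ a q' q f').symm
  · intro U f _ _ _
    by_contra hno
    have h1 := (D.leaf_aT _ _ _ _ _ _).1 (D.m3_f hno (Or.inl rfl))
    obtain ⟨-, -, x, hx, hq, he, -⟩ := h1
    obtain ⟨x', rfl⟩ : ∃ x', x = x' + un a := ⟨x - un a, by rw [sub_add_cancel]⟩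
    rw [(sq_shift x' a (a, true)).2.1, (sq_shift x' a (a, true)).2.2] at he
    obtain ⟨q', hq'⟩ := D.M.ne (D.cv x') 0
    exact D.m3_t hno (Or.inr ⟨q', rfl⟩) ((D.leaf_aJ a q' q f).2 ⟨x', he, ⟨0, hq'⟩, hq⟩)

theorem ok_e1 (a : Fin d) (q q' : P) (u : Slot d → P) (z y : P) :
    ClOK D.g D.leaf fam
      {(aJ a q q', false), (aT (a, false) q' u z y, false), (aT (a, true) q u z z, true)} := by
  refine D.clok_of hfam (D.cel u) (D.m3_c u) ?_ ?_
  · rintro x (rfl | rfl | rfl) f f' h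
    · exact (D.leaf_aJ a q q' f).trans (D.leaf_aJ a q q' f').symm
    · exact D.loc_T (Finset.Subset.refl _) h
    · exact D.loc_T (Finset.Subset.refl _) h
  · intro U f _ _ _
    by_contra hno
    have h1 := (D.leaf_aJ _ _ _ _).1 (D.m3_f hno (Or.inl rfl))
    have h2 := (D.leaf_aT _ _ _ _ _ _).1 (D.m3_f hno (Or.inr (Or.inl rfl)))
    refine D.m3_t hno (Or.inr (Or.inr rfl)) ((D.leaf_aT _ _ _ _ _ _).2 ?_)
    rcases D.edge_val h1 u f with ⟨v, hv⟩ | hn
    · have h3 := ((hv z h2.1 y h2.2.1).2.1 h2).1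
      exact (hv z h2.1 z h2.1).1.2 (D.m3_pos h3 z)
    · exact absurd h2 (hn z y).2

theorem ok_e2 (a : Fin d) (q q' : P) (u : Slot d → P) (z y : P) :
    ClOK D.g D.leaf fam
      {(aJ a q q', false), (aT (a, false) q' u z y, false), (aT (a, true) q u z y, false)} := by
  refine D.clok_of hfam (D.cel u) (D.m3_c u) ?_ ?_
  · rintro x (rfl | rfl | rfl) f f' h
    · exact (D.leaf_aJ a q q' f).trans (D.leaf_aJ a q q' f').symm
    · exact D.loc_T (Finset.Subset.refl _) h
    · exact D.loc_T (Finset.Subset.refl _) h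
  · intro U f _ _ _
    by_contra hno
    have h1 := (D.leaf_aJ _ _ _ _).1 (D.m3_f hno (Or.inl rfl))
    have h2 := (D.leaf_aT _ _ _ _ _ _).1 (D.m3_f hno (Or.inr (Or.inl rfl)))
    have h3 := (D.leaf_aT _ _ _ _ _ _).1 (D.m3_f hno (Or.inr (Or.inr rfl)))
    rcases D.edge_val h1 u f with ⟨v, hv⟩ | hn
    · have h4 := ((hv z h2.1 y h2.2.1).2.1 h2).2
      have h5 := (hv z h2.1 y h2.2.1).1.1 h3
      omega
    · exact (hn z y).2 h2

theorem ok_e3 (a : Fin d) (q : P) (u : Slot d → P) (z y : P) :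
    ClOK D.g D.leaf fam {(aT (a, true) q u z y, false), (aT (a, true) q u z z, true)} := by
  refine D.clok_of hfam (D.cel u) (D.m3_c u) ?_ ?_
  · rintro x (rfl | rfl) f f' h
    · exact D.loc_T (Finset.Subset.refl _) h
    · exact D.loc_T (Finset.Subset.refl _) h
  · intro U f _ _ _
    by_contra hno
    have h2 := (D.leaf_aT _ _ _ _ _ _).1 (D.m3_f hno (Or.inl rfl))
    refine D.m3_t hno (Or.inr rfl) ((D.leaf_aT _ _ _ _ _ _).2 ?_)
    obtain ⟨hz, hy, x, hx, hq, he, hu, h⟩ := h2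
    refine ⟨hz, hz, x, hx, hq, he, hu, ?_⟩
    have h3 : (D.bit y - D.bit z).val < (D.val x (a, true) u f).val := h
    show (D.bit z - D.bit z).val < (D.val x (a, true) u f).val
    rw [sub_self, ZMod.val_zero]
    omega

theorem ok_e4 (a : Fin d) (q q' : P) (u : Slot d → P) (z y : P) :
    ClOK D.g D.leaf fam {(aJ a q q', false), (aT (a, true) q u z z, false), (aB y y, false),
      (aT (a, true) q u z y, true), (aT (a, false) q' u z y, true)} := by
  refine D.clok_of hfam (D.cel u) (D.m3_c u) ?_ ?_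
  · rintro x (rfl | rfl | rfl | rfl | rfl) f f' h
    · exact (D.leaf_aJ a q q' f).trans (D.leaf_aJ a q q' f').symm
    · exact D.loc_T (Finset.Subset.refl _) h
    · exact (D.leaf_aB y y f).trans (D.leaf_aB y y f').symm
    · exact D.loc_T (Finset.Subset.refl _) h
    · exact D.loc_T (Finset.Subset.refl _) h
  · intro U f _ _ _
    by_contra hno
    have h1 := (D.leaf_aJ _ _ _ _).1 (D.m3_f hno (Or.inl rfl))
    have h2 := (D.leaf_aT _ _ _ _ _ _).1 (D.m3_f hno (Or.inr (Or.inl rfl)))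
    obtain ⟨b, hb, -⟩ := (D.leaf_aB _ _ _).1 (D.m3_f hno (Or.inr (Or.inr (Or.inl rfl))))
    have hy : y ∈ D.blk D.kA := ⟨b, hb⟩
    have h4 := D.m3_t hno (Or.inr (Or.inr (Or.inr (Or.inl rfl))))
    have h5 := D.m3_t hno (Or.inr (Or.inr (Or.inr (Or.inr rfl))))
    rw [D.leaf_aT] at h4 h5
    rcases D.edge_val h1 u f with ⟨v, hv⟩ | hn
    · have h6 := (hv z h2.1 z h2.1).1.1 h2
      rw [(hv z h2.1 y hy).1] at h4
      rw [(hv z h2.1 y hy).2] at h5
      refine h5 ⟨?_, by omega⟩
      rintro rfl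
      rw [ZMod.val_zero] at h6
      omega
    · exact (hn z z).1 h2

end Dat

end Pool.Agent.H79.CQ
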