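import Pool.Agent.H79.CQ.Mo2

/-!
# The clauses are true in the model III: the matching at a vertex

All by `clok_of` with `s = cel u` (`card_cel`); `hloc`: `loc_T'`, `loc_M`, `loc_G`; the members with `aF`, `aB` do not
depend on the world.

* `tot_le`: every thermometer has at most `p - 1` elements (`card_ths`), there are `2 * d` slots.
* `exists_pt`: the block `C kA b` is nonempty. `leg_of`: unfold `pF`. `leg_unique`: `vert_unique`.
* `mem_thS`: unfold (`pT` with the labels `sl σ u`; the `x` is unique).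
* m1: if `pF τ q (u τ)` fails for some `τ`: this member. Otherwise, if `pT σ q (sl σ u) z y f`: `Leg x q u`
  (`leg_of`), `i := bit y - bit z ∈ thS x u f σ`, `m := pos (thS x u f) σ i < tot ≤ 2 * d * (p - 1) < 2 * d * p`
  (`pos_lt`); `k := m / p`, and `y' ∈ blk kA` with `bit y' = bit z + (m % p : ℕ)` (`exists_pt`), so
  `(bit y' - bit z).val = m % p`.
* m2: `mem_thS`. m3: `pos_lt`. m4: `k * p + a = k' * p + a'`, `a, a' < p` gives `k = k'`. m5: the same with `k = k'`: the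
  values are equal, `bit y' = bit y''`, `pB y' y''`. m6: `pB y' y''` gives `bit y' = bit y''`, `y'' ∈ blk kA`. m7: `pos_surj` with
  `m = k * p + (bit y' - bit z).val`, and `y ∈ blk kA` with `bit y = bit z + i`. m8: `pos_inj` gives `σ = σ'`. m9: `pos_inj`:
  `bit y - bit z = bit y'' - bit z`, `pB y y''`. m10: `bit y = bit y''`. m11, m12: `y, y' ∈ blk kA`.
-/

set_option autoImplicit false
set_option linter.unusedSectionVars false

namespace Pool.Agent.H79.CQ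

open Pool.Agent.H42.CS (Pt Ed Sq un inB isE isS Slot off ed sq Ax Atom)

variable {p : ℕ} [hp : Fact p.Prime]

namespace Dat

variable {d L r : ℕ} {P : Type} (D : Dat p d L r P)

theorem tot_le (x : Pt d) (u : Sym2 (Slot d) → P) (f : Wd p (Fin r)) :
    D.tot x u f ≤ 2 * d * (p - 1) := by
  classical
  have h1 : ∀ σ : Slot d, (D.thS x u f σ).card ≤ p - 1 := by
    intro σ
    unfold thS
    split_ifs with he
    · exact (card_ths σ.2 (D.val x σ (sl σ u) f)).2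
    · simp
  unfold tot
  refine (Finset.sum_le_card_nsmul _ _ _ fun σ _ => h1 σ).trans ?_
  rw [Finset.card_univ, smul_eq_mul]
  have h2 : Fintype.card (Slot d) = 2 * d := by
    simp [Slot, mul_comm]
  rw [h2]

theorem exists_pt (b : ZMod p) : ∃ y ∈ D.blk D.kA, D.bit y = b := by
  obtain ⟨y, hy⟩ := D.M.ne D.kA b
  exact ⟨y, ⟨b, hy⟩, D.bit_of_mem hy⟩

theorem pB_iff (y y' : P) :
    D.pB y y' ↔ y ∈ D.blk D.kA ∧ y' ∈ D.blk D.kA ∧ D.bit y = D.bit y' := by
  constructor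
  · rintro ⟨b, h1, h2⟩
    exact ⟨⟨b, h1⟩, ⟨b, h2⟩, by rw [D.bit_of_mem h1, D.bit_of_mem h2]⟩
  · rintro ⟨⟨b, h1⟩, ⟨c, h2⟩, h3⟩
    rw [D.bit_of_mem h1, D.bit_of_mem h2] at h3
    subst h3
    exact ⟨b, h1, h2⟩

theorem leg_of {x : Pt d} {q : P} {u : Sym2 (Slot d) → P} (h : ∀ τ, D.pF τ q (u τ))
    (hx : inB L x) (hq : q ∈ D.blk (D.cv x)) : D.Leg x q u := by
  exact ⟨hx, hq, fun σ t hS => h s(σ, t) x σ t rfl hx hq hS⟩

theorem leg_unique {x x' : Pt d} {q : P} {u : Sym2 (Slot d) → P} (h : D.Leg x q u)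
    (h' : D.Leg x' q u) : x = x' := by
  exact D.vert_unique h.1 h'.1 h.2.1 h'.2.1

theorem mem_thS {x : Pt d} {q : P} {u : Sym2 (Slot d) → P} (h : D.Leg x q u) (σ : Slot d)
    {z y : P} (hz : z ∈ D.blk D.kA) (hy : y ∈ D.blk D.kA) (f : Wd p (Fin r)) :
    D.bit y - D.bit z ∈ D.thS x u f σ ↔ D.pT σ q (sl σ u) z y f := by
  unfold thS pT
  constructor
  · intro h1
    split_ifs at h1 with he
    · simp only [Finset.mem_filter, Finset.mem_univ, true_and] at h1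
      exact ⟨hz, hy, x, h.1, h.2.1, he, fun t ht => h.2.2 σ t ht, h1⟩
    · simp at h1
  · rintro ⟨-, -, x', hx', hq', he, -, h1⟩
    have e := D.vert_unique hx' h.1 hq' h.2.1
    subst e
    rw [if_pos he]
    simp only [Finset.mem_filter, Finset.mem_univ, true_and]
    exact h1

private theorem m4_f {Λ : Set (Atom (Re d) P × Bool)} {f : Wd p (Fin r)}
    (hno : ¬ ∃ x ∈ Λ, (D.leaf x.1 f ↔ x.2 = true)) {v : Atom (Re d) P}
    (hm : (v, false) ∈ Λ) : D.leaf v f := by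
  by_contra hp
  exact hno ⟨_, hm, ⟨fun h => absurd h hp, fun h => absurd h (by simp)⟩⟩

private theorem m4_t {Λ : Set (Atom (Re d) P × Bool)} {f : Wd p (Fin r)}
    (hno : ¬ ∃ x ∈ Λ, (D.leaf x.1 f ↔ x.2 = true)) {v : Atom (Re d) P}
    (hm : (v, true) ∈ Λ) : ¬ D.leaf v f :=
  fun hp => hno ⟨_, hm, ⟨fun _ => rfl, fun _ => hp⟩⟩

private theorem loc_F {τ : Sym2 (Slot d)} {q w : P} {f f' : Wd p (Fin r)} :
    D.leaf (aF τ q w) f ↔ D.leaf (aF τ q w) f' := by
  rw [D.leaf_aF, D.leaf_aF]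

private theorem loc_B {y y' : P} {f f' : Wd p (Fin r)} :
    D.leaf (aB y y') f ↔ D.leaf (aB y y') f' := by
  rw [D.leaf_aB, D.leaf_aB]

private theorem kk_eq {k k' : ℕ} {a a' : ZMod p} (h : k * p + a.val = k' * p + a'.val) :
    k = k' ∧ a = a' := by
  have h1 : a.val < p := ZMod.val_lt a
  have h2 : a'.val < p := ZMod.val_lt a'
  have hp0 : 0 < p := hp.out.pos
  have e1 : (k * p + a.val) / p = k := by
    rw [mul_comm, Nat.mul_add_div hp0, Nat.div_eq_of_lt h1, add_zero]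
  have e2 : (k' * p + a'.val) / p = k' := by
    rw [mul_comm, Nat.mul_add_div hp0, Nat.div_eq_of_lt h2, add_zero]
  have e : k = k' := by rw [← e1, ← e2, h]
  refine ⟨e, ?_⟩
  rw [e] at h
  exact ZMod.val_injective p (Nat.add_left_cancel h)

private theorem pM_iff {x : Pt d} {q : P} {u : Sym2 (Slot d) → P} (hl : D.Leg x q u)
    {σ : Slot d} {k : Fin (2 * d)} {z y y' : P} {f : Wd p (Fin r)} :
    D.pM σ k q u z y y' f ↔ z ∈ D.blk D.kA ∧ y ∈ D.blk D.kA ∧ y' ∈ D.blk D.kA ∧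
      D.bit y - D.bit z ∈ D.thS x u f σ ∧
      k.val * p + (D.bit y' - D.bit z).val = pos (D.thS x u f) σ (D.bit y - D.bit z) := by
  unfold pM
  refine and_congr_right fun _ => and_congr_right fun _ => and_congr_right fun _ => ?_
  constructor
  · rintro ⟨x', hl', h1, h2⟩
    have e := D.leg_unique hl' hl
    subst e
    exact ⟨h1, h2⟩
  · rintro ⟨h1, h2⟩
    exact ⟨x, hl, h1, h2⟩

private theorem leg_M {σ : Slot d} {k : Fin (2 * d)} {q z y y' : P} {u : Sym2 (Slot d) → P}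
    {f : Wd p (Fin r)} (h : D.pM σ k q u z y y' f) : ∃ x, D.Leg x q u := by
  obtain ⟨-, -, -, x, hl, -⟩ := h
  exact ⟨x, hl⟩

variable {fam : Set (Submodule (ZMod p) (Fin r → ZMod p))}
  (hfam : ∀ s : Finset (Fin r), s.card ≤ k8 d → csp p s ∈ fam)

include hfam

private theorem ok_one {Λ : Set (Atom (Re d) P × Bool)} (u : Sym2 (Slot d) → P)
    (hloc : ∀ (s : Finset (Fin r)), D.cel u ⊆ s → ∀ x ∈ Λ, ∀ f f', D.g.Agr (csp p s) f f' →
      (D.leaf x.1 f ↔ D.leaf x.1 f'))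
    (h : ∀ f : Wd p (Fin r), ∃ x ∈ Λ, (D.leaf x.1 f ↔ x.2 = true)) :
    ClOK D.g D.leaf fam Λ :=
  D.clok_of hfam (D.cel u) (D.card_cel u) (fun x hx f f' => hloc _ le_rfl x hx f f')
    fun _ f _ _ _ => h f

theorem ok_m1 (σ : Slot d) (q : P) (u : Sym2 (Slot d) → P) (z y : P) :
    ClOK D.g D.leaf fam (lab q u ∪ {(aT σ q (sl σ u) z y, false)} ∪
      {x | ∃ k y', x = (aM σ k q u z y y', true)}) := by
  refine D.ok_one hfam u ?_ ?_
  · intro s hs x hx f f' hff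
    rcases hx with (⟨τ, rfl⟩ | rfl) | ⟨k, y', rfl⟩
    · exact D.loc_F
    · exact D.loc_T' hs hff
    · exact D.loc_M hs hff
  · intro f
    by_contra hno
    have h1 : ∀ τ, D.pF τ q (u τ) := fun τ =>
      (D.leaf_aF τ q (u τ) f).1 (D.m4_f hno (Or.inl (Or.inl ⟨τ, rfl⟩)))
    have h2 := D.m4_f hno (v := aT σ q (sl σ u) z y) (Or.inl (Or.inr rfl))
    rw [D.leaf_aT] at h2
    have h2' := h2
    obtain ⟨hz, hy, x, hx, hq, -⟩ := h2'
    have hl := D.leg_of h1 hx hq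
    have h3 := (D.mem_thS hl σ hz hy f).2 h2
    have h4 := pos_lt h3
    obtain ⟨m, hm⟩ : ∃ m, m = pos (D.thS x u f) σ (D.bit y - D.bit z) := ⟨_, rfl⟩
    have hp0 : 0 < p := hp.out.pos
    have h5 : m < 2 * d * p := by
      have h6 := D.tot_le x u f
      have h7 : 2 * d * (p - 1) ≤ 2 * d * p := Nat.mul_le_mul_left _ (Nat.sub_le _ _)
      have h8 : m < D.tot x u f := by rw [hm]; exact h4
      omega
    have h6 : m / p < 2 * d := Nat.div_lt_of_lt_mul (by rw [mul_comm]; exact h5)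
    obtain ⟨y', hy', hb⟩ := D.exists_pt (D.bit z + ((m % p : ℕ) : ZMod p))
    refine D.m4_t hno (v := aM σ ⟨m / p, h6⟩ q u z y y') (Or.inr ⟨_, _, rfl⟩) ?_
    rw [D.leaf_aM, D.pM_iff hl]
    refine ⟨hz, hy, hy', h3, ?_⟩
    rw [hb, add_sub_cancel_left, ZMod.val_natCast, Nat.mod_mod, ← hm]
    exact Nat.div_add_mod' m p

theorem ok_m2 (σ : Slot d) (k : Fin (2 * d)) (q : P) (u : Sym2 (Slot d) → P) (z y y' : P) :
    ClOK D.g D.leaf fam {(aM σ k q u z y y', false), (aT σ q (sl σ u) z y, true)} := by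
  refine D.ok_one hfam u ?_ ?_
  · intro s hs x hx f f' hff
    rcases hx with rfl | rfl
    · exact D.loc_M hs hff
    · exact D.loc_T' hs hff
  · intro f
    by_contra hno
    have h1 := (D.leaf_aM _ _ _ _ _ _ _ f).1 (D.m4_f hno (Or.inl rfl))
    obtain ⟨x, hl⟩ := D.leg_M h1
    rw [D.pM_iff hl] at h1
    refine D.m4_t hno (Or.inr rfl) ?_
    rw [D.leaf_aT]
    exact (D.mem_thS hl σ h1.1 h1.2.1 f).1 h1.2.2.2.1

theorem ok_m3 (σ : Slot d) (k : Fin (2 * d)) (q : P) (u : Sym2 (Slot d) → P) (z y y' : P) :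
    ClOK D.g D.leaf fam {(aM σ k q u z y y', false), (aG k q u z y', true)} := by
  refine D.ok_one hfam u ?_ ?_
  · intro s hs x hx f f' hff
    rcases hx with rfl | rfl
    · exact D.loc_M hs hff
    · exact D.loc_G hs hff
  · intro f
    by_contra hno
    have h1 := (D.leaf_aM _ _ _ _ _ _ _ f).1 (D.m4_f hno (Or.inl rfl))
    obtain ⟨x, hl⟩ := D.leg_M h1
    rw [D.pM_iff hl] at h1
    refine D.m4_t hno (Or.inr rfl) ?_
    rw [D.leaf_aG]
    refine ⟨h1.1, h1.2.2.1, x, hl, ?_⟩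
    rw [h1.2.2.2.2]
    exact pos_lt h1.2.2.2.1

theorem ok_m4 (σ : Slot d) (k k' : Fin (2 * d)) (h : k ≠ k') (q : P) (u : Sym2 (Slot d) → P)
    (z y y' y'' : P) :
    ClOK D.g D.leaf fam {(aM σ k q u z y y', false), (aM σ k' q u z y y'', false)} := by
  refine D.ok_one hfam u ?_ ?_
  · intro s hs x hx f f' hff
    rcases hx with rfl | rfl
    · exact D.loc_M hs hff
    · exact D.loc_M hs hff
  · intro f
    by_contra hno
    have h1 := (D.leaf_aM _ _ _ _ _ _ _ f).1 (D.m4_f hno (Or.inl rfl))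
    have h2 := (D.leaf_aM _ _ _ _ _ _ _ f).1 (D.m4_f hno (Or.inr rfl))
    obtain ⟨x, hl⟩ := D.leg_M h1
    rw [D.pM_iff hl] at h1 h2
    have h3 := h1.2.2.2.2.trans h2.2.2.2.2.symm
    exact h (Fin.ext (kk_eq h3).1)

theorem ok_m5 (σ : Slot d) (k : Fin (2 * d)) (q : P) (u : Sym2 (Slot d) → P)
    (z y y' y'' : P) : ClOK D.g D.leaf fam
      {(aM σ k q u z y y', false), (aM σ k q u z y y'', false), (aB y' y'', true)} := by
  refine D.ok_one hfam u ?_ ?_
  · intro s hs x hx f f' hff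
    rcases hx with rfl | rfl | rfl
    · exact D.loc_M hs hff
    · exact D.loc_M hs hff
    · exact D.loc_B
  · intro f
    by_contra hno
    have h1 := (D.leaf_aM _ _ _ _ _ _ _ f).1 (D.m4_f hno (Or.inl rfl))
    have h2 := (D.leaf_aM _ _ _ _ _ _ _ f).1 (D.m4_f hno (Or.inr (Or.inl rfl)))
    obtain ⟨x, hl⟩ := D.leg_M h1
    rw [D.pM_iff hl] at h1 h2
    have h3 := h1.2.2.2.2.trans h2.2.2.2.2.symm
    refine D.m4_t hno (Or.inr (Or.inr rfl)) ?_
    rw [D.leaf_aB, D.pB_iff]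
    exact ⟨h1.2.2.1, h2.2.2.1, sub_left_inj.1 (kk_eq h3).2⟩

theorem ok_m6 (σ : Slot d) (k : Fin (2 * d)) (q : P) (u : Sym2 (Slot d) → P)
    (z y y' y'' : P) : ClOK D.g D.leaf fam
      {(aM σ k q u z y y', false), (aB y' y'', false), (aM σ k q u z y y'', true)} := by
  refine D.ok_one hfam u ?_ ?_
  · intro s hs x hx f f' hff
    rcases hx with rfl | rfl | rfl
    · exact D.loc_M hs hff
    · exact D.loc_B
    · exact D.loc_M hs hff
  · intro f
    by_contra hno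
    have h1 := (D.leaf_aM _ _ _ _ _ _ _ f).1 (D.m4_f hno (Or.inl rfl))
    have h2 := (D.leaf_aB _ _ f).1 (D.m4_f hno (Or.inr (Or.inl rfl)))
    rw [D.pB_iff] at h2
    obtain ⟨x, hl⟩ := D.leg_M h1
    rw [D.pM_iff hl] at h1
    refine D.m4_t hno (Or.inr (Or.inr rfl)) ?_
    rw [D.leaf_aM, D.pM_iff hl, ← h2.2.2]
    exact ⟨h1.1, h1.2.1, h2.2.1, h1.2.2.2⟩

theorem ok_m7 (k : Fin (2 * d)) (q : P) (u : Sym2 (Slot d) → P) (z y' : P) :
    ClOK D.g D.leaf fam
      ({(aG k q u z y', false)} ∪ {x | ∃ σ y, x = (aM σ k q u z y y', true)}) := by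
  refine D.ok_one hfam u ?_ ?_
  · intro s hs x hx f f' hff
    rcases hx with rfl | ⟨σ, y, rfl⟩
    · exact D.loc_G hs hff
    · exact D.loc_M hs hff
  · intro f
    by_contra hno
    obtain ⟨hz, hy', x, hl, h1⟩ := (D.leaf_aG _ _ _ _ _ f).1 (D.m4_f hno (Or.inl rfl))
    obtain ⟨σ, i, hi, h2⟩ := pos_surj h1
    obtain ⟨y, hy, hb⟩ := D.exists_pt (D.bit z + i)
    refine D.m4_t hno (Or.inr ⟨σ, y, rfl⟩) ?_
    rw [D.leaf_aM, D.pM_iff hl, hb, add_sub_cancel_left]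
    exact ⟨hz, hy, hy', hi, h2.symm⟩

theorem ok_m8 (σ σ' : Slot d) (h : σ ≠ σ') (k : Fin (2 * d)) (q : P)
    (u : Sym2 (Slot d) → P) (z y y' y'' : P) :
    ClOK D.g D.leaf fam {(aM σ k q u z y y', false), (aM σ' k q u z y'' y', false)} := by
  refine D.ok_one hfam u ?_ ?_
  · intro s hs x hx f f' hff
    rcases hx with rfl | rfl
    · exact D.loc_M hs hff
    · exact D.loc_M hs hff
  · intro f
    by_contra hno
    have h1 := (D.leaf_aM _ _ _ _ _ _ _ f).1 (D.m4_f hno (Or.inl rfl))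
    have h2 := (D.leaf_aM _ _ _ _ _ _ _ f).1 (D.m4_f hno (Or.inr rfl))
    obtain ⟨x, hl⟩ := D.leg_M h1
    rw [D.pM_iff hl] at h1 h2
    have h3 := h1.2.2.2.2.symm.trans h2.2.2.2.2
    exact h (pos_inj h1.2.2.2.1 h2.2.2.2.1 h3).1

theorem ok_m9 (σ : Slot d) (k : Fin (2 * d)) (q : P) (u : Sym2 (Slot d) → P)
    (z y y' y'' : P) : ClOK D.g D.leaf fam
      {(aM σ k q u z y y', false), (aM σ k q u z y'' y', false), (aB y y'', true)} := by
  refine D.ok_one hfam u ?_ ?_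
  · intro s hs x hx f f' hff
    rcases hx with rfl | rfl | rfl
    · exact D.loc_M hs hff
    · exact D.loc_M hs hff
    · exact D.loc_B
  · intro f
    by_contra hno
    have h1 := (D.leaf_aM _ _ _ _ _ _ _ f).1 (D.m4_f hno (Or.inl rfl))
    have h2 := (D.leaf_aM _ _ _ _ _ _ _ f).1 (D.m4_f hno (Or.inr (Or.inl rfl)))
    obtain ⟨x, hl⟩ := D.leg_M h1
    rw [D.pM_iff hl] at h1 h2
    have h3 := h1.2.2.2.2.symm.trans h2.2.2.2.2
    refine D.m4_t hno (Or.inr (Or.inr rfl)) ?_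
    rw [D.leaf_aB, D.pB_iff]
    exact ⟨h1.2.1, h2.2.1, sub_left_inj.1 (pos_inj h1.2.2.2.1 h2.2.2.2.1 h3).2⟩

theorem ok_m10 (σ : Slot d) (k : Fin (2 * d)) (q : P) (u : Sym2 (Slot d) → P)
    (z y y' y'' : P) : ClOK D.g D.leaf fam
      {(aM σ k q u z y y', false), (aB y y'', false), (aM σ k q u z y'' y', true)} := by
  refine D.ok_one hfam u ?_ ?_
  · intro s hs x hx f f' hff
    rcases hx with rfl | rfl | rfl
    · exact D.loc_M hs hff
    · exact D.loc_B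
    · exact D.loc_M hs hff
  · intro f
    by_contra hno
    have h1 := (D.leaf_aM _ _ _ _ _ _ _ f).1 (D.m4_f hno (Or.inl rfl))
    have h2 := (D.leaf_aB _ _ f).1 (D.m4_f hno (Or.inr (Or.inl rfl)))
    rw [D.pB_iff] at h2
    obtain ⟨x, hl⟩ := D.leg_M h1
    rw [D.pM_iff hl] at h1
    refine D.m4_t hno (Or.inr (Or.inr rfl)) ?_
    rw [D.leaf_aM, D.pM_iff hl, ← h2.2.2]
    exact ⟨h1.1, h2.2.1, h1.2.2⟩

theorem ok_m11 (σ : Slot d) (k : Fin (2 * d)) (q : P) (u : Sym2 (Slot d) → P)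
    (z y y' : P) : ClOK D.g D.leaf fam {(aM σ k q u z y y', false), (aB y y, true)} := by
  refine D.ok_one hfam u ?_ ?_
  · intro s hs x hx f f' hff
    rcases hx with rfl | rfl
    · exact D.loc_M hs hff
    · exact D.loc_B
  · intro f
    by_contra hno
    obtain ⟨-, hy, -⟩ := (D.leaf_aM _ _ _ _ _ _ _ f).1 (D.m4_f hno (Or.inl rfl))
    refine D.m4_t hno (Or.inr rfl) ?_
    rw [D.leaf_aB, D.pB_iff]
    exact ⟨hy, hy, rfl⟩

theorem ok_m12 (σ : Slot d) (k : Fin (2 * d)) (q : P) (u : Sym2 (Slot d) → P)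
    (z y y' : P) : ClOK D.g D.leaf fam {(aM σ k q u z y y', false), (aB y' y', true)} := by
  refine D.ok_one hfam u ?_ ?_
  · intro s hs x hx f f' hff
    rcases hx with rfl | rfl
    · exact D.loc_M hs hff
    · exact D.loc_B
  · intro f
    by_contra hno
    obtain ⟨-, -, hy, -⟩ := (D.leaf_aM _ _ _ _ _ _ _ f).1 (D.m4_f hno (Or.inl rfl))
    refine D.m4_t hno (Or.inr rfl) ?_
    rw [D.leaf_aB, D.pB_iff]
    exact ⟨hy, hy, rfl⟩

end Dat

end Pool.Agent.H79.CQ
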