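import Pool.Agent.H79.CQ.Mo3
import Pool.Agent.H79.CQ.Mo4

/-!
# The clauses are true in the model IV: the vertex law

* `tot_law`: `((thS x u f σ).card : ZMod p) = tau p σ * val x σ (sl σ u) f` if `isE`, and `0` otherwise (`card_ths`;
  `tau p σ = if σ.2 then 1 else -1`). So `(tot : ZMod p) = ∑ σ, (if isE (ed x σ) then tau p σ * (f (ye …) + c …) else 0)
  - ∑ σ, ∑ t, (if isS (sq x σ t) then tau p σ * (oo p σ t * bit (u s(σ, t))) else 0)` (`isS (sq x σ t)` implies
  `isE (ed x σ)`, `x` in the box). The second sum is zero: `tau p σ * oo p σ t = (if σ.1 < t.1 then 1 else -1) * tau p σ *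
  tau p t`, `isS (sq x σ t)` implies `σ.1 ≠ t.1`, `sq x σ t = sq x t σ`, `s(σ, t) = s(t, σ)`: exchanging `σ` and `t` changes
  the sign of the summand, so the sum is its own negative, or: pair the summands with `Finset.sum_involution` on
  pairs `(σ, t)` (`Prod.swap`; a summand which is fixed, `σ = t`, is zero). The first sum is `[x = 0]` by `D.law`:
  `ye p L j (ed x σ) ∈ csp p s ≤ U` (`ye_csp`, `cel u ⊆ s`).
* all clauses by `clok_of` with `s = cel u`; `hloc`: `loc_G`, `loc_X`. By `tot_law`: `tot = m * p` if `x ≠ 0`,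
  `tot = m * p + 1` if `x = 0`; `0 ≤ (bit y' - bit z).val < p`.
* g1: `k * p + a < tot`, not `k * p + 1 = tot`: then `k < m`, so all `k * p + a' < tot` (`a' < p`).
  g2: `k * p + a < k * p + 1` gives `a = 0`, `bit y' = bit z`. g3: `(bit z - bit z).val = 0`. g4: `k = k'`.
  g5: `tot = k * p + 1` gives `x = 0`, so `q ∈ blk (cv 0)`. g6: if all `pF τ q (u τ)`, `pZ q`, `pB z z`: `x = 0` (`inB L 0`),
  `tot = m * p + 1 ≤ 2 * d * (p - 1)` (`tot_le`), so `m < 2 * d`: `k = m`.
* `ins_ok`: cases on `Ins`; `clok_esy` with `ok_er` … `ok_b6`, and the other `ok_` theorems.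
-/

set_option autoImplicit false
set_option linter.unusedSectionVars false

namespace Pool.Agent.H79.CQ

open Pool.Agent.H42.CS (Pt Ed Sq un inB isE isS Slot off ed sq Ax Atom)

variable {p : ℕ} [hp : Fact p.Prime]

namespace Dat

variable {d L r : ℕ} {P : Type} (D : Dat p d L r P)

private theorem sq_cm (x : Pt d) (σ t : Slot d) : sq x σ t = sq x t σ := by
  unfold H42.CS.sq
  rw [add_right_comm, min_comm, max_comm]

private theorem sq_ne {x : Pt d} {σ t : Slot d} (h : isS L (sq x σ t)) : σ.1 ≠ t.1 := by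
  obtain ⟨h1, -, -⟩ := h
  intro h
  simp [H42.CS.sq, h] at h1

private theorem off_at (t : Slot d) {i : Fin d} (h : i ≠ t.1) : off t i = 0 := by
  unfold H42.CS.off
  split_ifs
  · rfl
  · rw [Pi.neg_apply, H42.CS.un, Pi.single_eq_of_ne h, neg_zero]

private theorem isE_of_isS {x : Pt d} (hx : inB L x) {σ t : Slot d} (h : isS L (sq x σ t)) :
    isE L (ed x σ) := by
  have hne : σ.1 ≠ t.1 := sq_ne h
  obtain ⟨h1, h2, h3⟩ := h
  have hun : ∀ i, un (sq x σ t).2.1 i + un (sq x σ t).2.2 i = un σ.1 i + un t.1 i := by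
    intro i
    simp only [H42.CS.sq]
    rcases le_total σ.1 t.1 with h4 | h4
    · rw [min_eq_left h4, max_eq_right h4]
    · rw [min_eq_right h4, max_eq_left h4, add_comm]
  have h2' : ∀ i, 0 ≤ x i + off σ i + off t i ∧ x i + off σ i + off t i < L := h2
  have h3' : ∀ i, 0 ≤ x i + off σ i + off t i + un (sq x σ t).2.1 i + un (sq x σ t).2.2 i ∧
      x i + off σ i + off t i + un (sq x σ t).2.1 i + un (sq x σ t).2.2 i < L := h3
  constructor
  · intro i
    change 0 ≤ x i + off σ i ∧ x i + off σ i < L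
    by_cases hi : i = σ.1
    · have h4 := h2' i
      rw [off_at t (by rw [hi]; exact hne), add_zero] at h4
      exact h4
    · rw [off_at σ hi, add_zero]
      exact hx i
  · intro i
    change 0 ≤ x i + off σ i + un σ.1 i ∧ x i + off σ i + un σ.1 i < L
    by_cases hi : i = σ.1
    · have h4 := h3' i
      have h5 := hun i
      have h6 : un t.1 i = 0 := by
        rw [H42.CS.un, Pi.single_eq_of_ne (by rw [hi]; exact hne)]
      rw [off_at t (by rw [hi]; exact hne)] at h4
      rw [h6] at h5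
      constructor <;> omega
    · rw [off_at σ hi, H42.CS.un, Pi.single_eq_of_ne hi, add_zero, add_zero]
      exact hx i

private theorem oo_anti {σ t : Slot d} (h : σ.1 ≠ t.1) (b : ZMod p) :
    tau p σ * (oo p σ t * b) + tau p t * (oo p t σ * b) = 0 := by
  unfold oo
  rcases lt_or_gt_of_ne h with h1 | h1
  · rw [if_pos h1, if_neg (not_lt.2 h1.le)]
    ring
  · rw [if_pos (show t.1 < σ.1 from h1), if_neg (not_lt.2 (show t.1 < σ.1 from h1).le)]
    ring

open Classical in
private theorem dbl_sum (x : Pt d) (b : Sym2 (Slot d) → ZMod p) :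
    ∑ σ : Slot d, ∑ t : Slot d,
      (if isS L (sq x σ t) then tau p σ * (oo p σ t * b s(σ, t)) else 0) = 0 := by
  rw [← Fintype.sum_prod_type' (f := fun σ t : Slot d =>
    if isS L (sq x σ t) then tau p σ * (oo p σ t * b s(σ, t)) else 0)]
  refine Finset.sum_involution (fun w _ => w.swap) ?_ ?_ (fun _ _ => Finset.mem_univ _)
    (fun w _ => w.swap_swap)
  · intro w _
    simp only [Prod.fst_swap, Prod.snd_swap]
    rw [sq_cm x w.2 w.1, Sym2.eq_swap (a := w.2) (b := w.1)]
    by_cases h : isS L (sq x w.1 w.2)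
    · rw [if_pos h, if_pos h]
      exact oo_anti (sq_ne h) _
    · rw [if_neg h, if_neg h, add_zero]
  · intro w _ hw he
    apply hw
    have h1 : w.1 = w.2 := by
      have h2 := congrArg Prod.snd he
      exact h2
    rw [if_neg]
    intro h
    exact sq_ne h (by rw [h1])

open Classical in
private theorem mem_cel' {ι : Type} {u : ι → P} {i : Fin r} (h : ∃ t, u t ∈ D.blk i) :
    i ∈ D.cel u := by
  unfold cel
  exact Finset.mem_filter.2 ⟨Finset.mem_univ _, h⟩

open Classical in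
private theorem card_thS {x : Pt d} (hx : inB L x) (u : Sym2 (Slot d) → P)
    (f : Wd p (Fin r)) (σ : Slot d) :
    ((D.thS x u f σ).card : ZMod p) = (if isE L (ed x σ) then
      tau p σ * (f (ye p L D.j (ed x σ)) + D.c (ed x σ)) else 0) -
      ∑ t : Slot d, (if isS L (sq x σ t) then tau p σ * (oo p σ t * D.bit (u s(σ, t))) else 0) := by
  unfold thS
  by_cases he : isE L (ed x σ)
  · rw [if_pos he, if_pos he, (card_ths _ _).1]
    unfold val
    rw [show (if σ.2 = true then (1 : ZMod p) else -1) = tau p σ from rfl, mul_sub, Finset.mul_sum]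
    congr 1
    refine Finset.sum_congr rfl fun t _ => ?_
    rw [mul_ite, mul_zero]
    rfl
  · rw [if_neg he, if_neg he, Finset.card_empty, Nat.cast_zero, zero_sub, zero_eq_neg]
    refine Finset.sum_eq_zero fun t _ => ?_
    rw [if_neg (fun h => he (isE_of_isS hx h))]

theorem tot_law {x : Pt d} {q : P} {u : Sym2 (Slot d) → P} (hl : D.Leg x q u)
    {s : Finset (Fin r)} (hs : D.cel u ⊆ s) {U : Submodule (ZMod p) (Fin r → ZMod p)}
    {f : Wd p (Fin r)} (hU : csp p s ≤ U) (ht : D.g.Tame U) (hf : D.g.IsW U f) :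
    (open Classical in (D.tot x u f : ZMod p) = if x = 0 then 1 else 0) := by
  classical
  obtain ⟨hx, hq, hleg⟩ := hl
  have h1 := D.law U f ht hf x hx (fun σ he => hU (D.ye_csp (u := sl σ u) hx he
    (fun t hS => hleg σ t hS) s (fun i t hi => hs (D.mem_cel' ⟨s(σ, t), hi⟩))).1)
  unfold tot
  rw [Nat.cast_sum, Finset.sum_congr rfl fun σ _ => D.card_thS hx u f σ,
    Finset.sum_sub_distrib, h1, dbl_sum x (fun τ => D.bit (u τ)), sub_zero]

private theorem tot_eq {x : Pt d} {q : P} {u : Sym2 (Slot d) → P} (hl : D.Leg x q u)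
    {U : Submodule (ZMod p) (Fin r → ZMod p)} {f : Wd p (Fin r)} (hU : csp p (D.cel u) ≤ U)
    (ht : D.g.Tame U) (hf : D.g.IsW U f) :
    (x ≠ 0 → ∃ m, D.tot x u f = m * p) ∧ (x = 0 → ∃ m, D.tot x u f = m * p + 1) := by
  classical
  have h1 := D.tot_law hl subset_rfl hU ht hf
  have hp2 : 1 < p := hp.out.one_lt
  constructor
  · intro hx
    rw [if_neg hx, ← Nat.cast_zero, ZMod.natCast_eq_natCast_iff', Nat.zero_mod] at h1
    obtain ⟨m, hm⟩ := Nat.dvd_of_mod_eq_zero h1
    exact ⟨m, by rw [hm, mul_comm]⟩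
  · intro hx
    rw [if_pos hx, ← Nat.cast_one, ZMod.natCast_eq_natCast_iff', Nat.mod_eq_of_lt hp2] at h1
    refine ⟨D.tot x u f / p, ?_⟩
    have h2 := Nat.div_add_mod (D.tot x u f) p
    rw [h1, mul_comm] at h2
    exact h2.symm

private theorem ffa {Λ : Set (Atom (Re d) P × Bool)} {f : Wd p (Fin r)}
    (hno : ¬ ∃ x ∈ Λ, (D.leaf x.1 f ↔ x.2 = true)) {v : Atom (Re d) P} (h : (v, false) ∈ Λ) :
    D.leaf v f := by
  by_contra hv
  exact hno ⟨_, h, by simp [hv]⟩

private theorem tta {Λ : Set (Atom (Re d) P × Bool)} {f : Wd p (Fin r)}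
    (hno : ¬ ∃ x ∈ Λ, (D.leaf x.1 f ↔ x.2 = true)) {v : Atom (Re d) P} (h : (v, true) ∈ Λ) :
    ¬ D.leaf v f := by
  intro hv
  exact hno ⟨_, h, by simp [hv]⟩

private theorem row_lt {k m a p' : ℕ} (ha : a < p') (h : k < m) : k * p' + a < m * p' := by
  have h1 : (k + 1) * p' ≤ m * p' := Nat.mul_le_mul_right _ h
  rw [Nat.succ_mul] at h1
  omega

private theorem lt_row {k m a p' : ℕ} (h : k * p' + a < m * p') : k < m := by
  by_contra hk
  have h1 : m * p' ≤ k * p' := Nat.mul_le_mul_right _ (not_lt.1 hk)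
  omega

private theorem row_eq {k m a b p' : ℕ} (ha : a < p') (hb : b < p')
    (h : k * p' + a = m * p' + b) : k = m := by
  rcases lt_trichotomy k m with h1 | h1 | h1
  · have := row_lt (p' := p') ha h1
    omega
  · exact h1
  · have := row_lt (p' := p') hb h1
    omega

variable {fam : Set (Submodule (ZMod p) (Fin r → ZMod p))}
  (hfam : ∀ s : Finset (Fin r), s.card ≤ k8 d → csp p s ∈ fam)

include hfam

theorem ok_g1 (k : Fin (2 * d)) (q : P) (u : Sym2 (Slot d) → P) (z y' y'' : P) :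
    ClOK D.g D.leaf fam {(aG k q u z y', false), (aX k q u z, true), (aB y'' y'', false),
      (aG k q u z y'', true)} := by
  refine D.clok_of hfam (D.cel u) (D.card_cel u) ?_ ?_
  · rintro x (rfl | rfl | rfl | rfl) f f' h
    · exact D.loc_G subset_rfl h
    · exact D.loc_X subset_rfl h
    · rw [leaf_aB, leaf_aB]
    · exact D.loc_G subset_rfl h
  · intro U f hU ht hf
    by_contra hno
    have h1 := D.ffa hno (Or.inl rfl)
    have h2 := D.tta hno (Or.inr (Or.inl rfl))
    have h3 := D.ffa hno (Or.inr (Or.inr (Or.inl rfl)))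
    have h4 := D.tta hno (Or.inr (Or.inr (Or.inr rfl)))
    rw [leaf_aG] at h1 h4
    rw [leaf_aX] at h2
    rw [leaf_aB] at h3
    obtain ⟨hz, hy', x, hleg, hlt⟩ := h1
    obtain ⟨t1, t2⟩ := D.tot_eq hleg hU ht hf
    obtain ⟨b, hb, -⟩ := h3
    refine h4 ⟨hz, ⟨b, hb⟩, x, hleg, ?_⟩
    have hv := ZMod.val_lt (D.bit y'' - D.bit z)
    by_cases hx : x = 0
    · obtain ⟨m, hm⟩ := t2 hx
      have hk : k.val < m := by
        rcases lt_trichotomy k.val m with h5 | h5 | h5
        · exact h5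
        · exfalso
          refine h2 ⟨hz, x, hleg, ?_⟩
          rw [hm, h5]
        · exfalso
          have := row_lt (p' := p) hp.out.pos h5
          rw [hm] at hlt
          have h6 : (m + 1) * p ≤ k.val * p := Nat.mul_le_mul_right _ h5
          rw [Nat.succ_mul] at h6
          have := hp.out.one_lt
          omega
      have := row_lt hv hk
      omega
    · obtain ⟨m, hm⟩ := t1 hx
      rw [hm] at hlt ⊢
      exact row_lt hv (lt_row hlt)

theorem ok_g2 (k : Fin (2 * d)) (q : P) (u : Sym2 (Slot d) → P) (z y' : P) :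
    ClOK D.g D.leaf fam {(aG k q u z y', false), (aX k q u z, false), (aB y' z, true)} := by
  refine D.clok_of hfam (D.cel u) (D.card_cel u) ?_ ?_
  · rintro x (rfl | rfl | rfl) f f' h
    · exact D.loc_G subset_rfl h
    · exact D.loc_X subset_rfl h
    · rw [leaf_aB, leaf_aB]
  · intro U f hU ht hf
    by_contra hno
    have h1 := D.ffa hno (Or.inl rfl)
    have h2 := D.ffa hno (Or.inr (Or.inl rfl))
    have h3 := D.tta hno (Or.inr (Or.inr rfl))
    rw [leaf_aG] at h1
    rw [leaf_aX] at h2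
    rw [leaf_aB, pB_iff] at h3
    obtain ⟨hz, hy', x, hleg, hlt⟩ := h1
    obtain ⟨-, x', hleg', htot⟩ := h2
    have hxx := D.leg_unique hleg' hleg
    rw [hxx] at htot
    refine h3 ⟨hy', hz, ?_⟩
    have h4 : (D.bit y' - D.bit z).val = 0 := by omega
    exact sub_eq_zero.1 ((ZMod.val_eq_zero _).1 h4)

theorem ok_g3 (k : Fin (2 * d)) (q : P) (u : Sym2 (Slot d) → P) (z : P) :
    ClOK D.g D.leaf fam {(aX k q u z, false), (aG k q u z z, true)} := by
  refine D.clok_of hfam (D.cel u) (D.card_cel u) ?_ ?_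
  · rintro x (rfl | rfl) f f' h
    · exact D.loc_X subset_rfl h
    · exact D.loc_G subset_rfl h
  · intro U f hU ht hf
    by_contra hno
    have h1 := D.ffa hno (Or.inl rfl)
    have h2 := D.tta hno (Or.inr rfl)
    rw [leaf_aX] at h1
    rw [leaf_aG] at h2
    obtain ⟨hz, x, hleg, htot⟩ := h1
    refine h2 ⟨hz, hz, x, hleg, ?_⟩
    rw [sub_self, ZMod.val_zero]
    omega

theorem ok_g4 (k k' : Fin (2 * d)) (h : k ≠ k') (q : P) (u : Sym2 (Slot d) → P) (z : P) :
    ClOK D.g D.leaf fam {(aX k q u z, false), (aX k' q u z, false)} := by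
  refine D.clok_of hfam (D.cel u) (D.card_cel u) ?_ ?_
  · rintro x (rfl | rfl) f f' h
    · exact D.loc_X subset_rfl h
    · exact D.loc_X subset_rfl h
  · intro U f hU ht hf
    by_contra hno
    have h1 := D.ffa hno (Or.inl rfl)
    have h2 := D.ffa hno (Or.inr rfl)
    rw [leaf_aX] at h1 h2
    obtain ⟨hz, x, hleg, htot⟩ := h1
    obtain ⟨-, x', hleg', htot'⟩ := h2
    have hxx := D.leg_unique hleg' hleg
    rw [hxx] at htot'
    apply h
    apply Fin.ext
    have hp2 := hp.out.one_lt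
    exact row_eq hp2 hp2 (htot.trans htot'.symm)

theorem ok_g5 (k : Fin (2 * d)) (q : P) (u : Sym2 (Slot d) → P) (z : P) :
    ClOK D.g D.leaf fam {(aX k q u z, false), (aZ q, true)} := by
  refine D.clok_of hfam (D.cel u) (D.card_cel u) ?_ ?_
  · rintro x (rfl | rfl) f f' h
    · exact D.loc_X subset_rfl h
    · rw [leaf_aZ, leaf_aZ]
  · intro U f hU ht hf
    by_contra hno
    have h1 := D.ffa hno (Or.inl rfl)
    have h2 := D.tta hno (Or.inr rfl)
    rw [leaf_aX] at h1
    rw [leaf_aZ] at h2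
    obtain ⟨hz, x, hleg, htot⟩ := h1
    obtain ⟨t1, -⟩ := D.tot_eq hleg hU ht hf
    by_cases hx : x = 0
    · apply h2
      have h3 := hleg.2.1
      rw [hx] at h3
      exact h3
    · obtain ⟨m, hm⟩ := t1 hx
      rw [hm] at htot
      have hp2 := hp.out.one_lt
      have h4 := row_eq (p' := p) hp2 hp.out.pos (htot.trans (add_zero _).symm)
      rw [h4] at htot
      omega

theorem ok_g6 (hL : 0 < L) (q : P) (u : Sym2 (Slot d) → P) (z : P) :
    ClOK D.g D.leaf fam (lab q u ∪ {(aZ q, false), (aB z z, false)} ∪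
      {x | ∃ k, x = (aX k q u z, true)}) := by
  refine D.clok_of hfam (D.cel u) (D.card_cel u) ?_ ?_
  · rintro x ((⟨τ, rfl⟩ | rfl | rfl) | ⟨k, rfl⟩) f f' h
    · rw [leaf_aF, leaf_aF]
    · rw [leaf_aZ, leaf_aZ]
    · rw [leaf_aB, leaf_aB]
    · exact D.loc_X subset_rfl h
  · intro U f hU ht hf
    by_contra hno
    have h1 : ∀ τ, D.pF τ q (u τ) := fun τ => (D.leaf_aF τ q (u τ) f).1
      (D.ffa hno (Or.inl (Or.inl ⟨τ, rfl⟩)))
    have h2 := D.ffa hno (Or.inl (Or.inr (Or.inl rfl)))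
    have h3 := D.ffa hno (Or.inl (Or.inr (Or.inr rfl)))
    rw [leaf_aZ] at h2
    rw [leaf_aB, pB_iff] at h3
    have hleg : D.Leg 0 q u := D.leg_of h1 (fun i => ⟨le_rfl, by
      show (0 : ℤ) < L
      exact_mod_cast hL⟩) h2
    obtain ⟨-, t2⟩ := D.tot_eq hleg hU ht hf
    obtain ⟨m, hm⟩ := t2 rfl
    have h4 := D.tot_le 0 u f
    have hm2 : m < 2 * d := by
      have hp1 := hp.out.one_lt
      apply lt_row (p' := p) (a := 1)
      rw [← hm]
      refine lt_of_le_of_lt h4 ?_
      apply Nat.mul_lt_mul_of_pos_left (by omega)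
      rcases Nat.eq_zero_or_pos (2 * d) with h5 | h5
      · rw [h5, Nat.zero_mul, hm] at h4
        omega
      · exact h5
    have h5 := D.tta hno (Or.inr ⟨⟨m, hm2⟩, rfl⟩)
    rw [leaf_aX] at h5
    exact h5 ⟨h3.1, 0, hleg, hm.symm⟩

theorem ins_ok (hL : 0 < L) {Λ : Set (Atom (Re d) P × Bool)} (h : Ins Λ) :
    ClOK D.g D.leaf fam Λ := by
  cases h with
  | er x => exact D.clok_esy hfam (D.ok_er x)
  | es x y => exact D.clok_esy hfam (D.ok_es x y)
  | et x y z => exact D.clok_esy hfam (D.ok_et x y z)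
  | jf a x y z => exact D.clok_esy hfam (D.ok_jf a x y z)
  | ji a x y z => exact D.clok_esy hfam (D.ok_ji a x y z)
  | je a x y x' y' => exact D.clok_esy hfam (D.ok_je a x y x' y')
  | f6 a t b q q' u => exact D.clok_esy hfam (D.ok_f6 a t b q q' u)
  | f7 τ q => exact D.clok_esy hfam (D.ok_f7 τ q)
  | z1 => exact D.clok_esy hfam D.ok_z1
  | z2 x y => exact D.clok_esy hfam (D.ok_z2 x y)
  | z3 x y => exact D.clok_esy hfam (D.ok_z3 hL x y)
  | b1 => exact D.clok_esy hfam D.ok_b1
  | b2 x y => exact D.clok_esy hfam (D.ok_b2 x y)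
  | b3 x y z => exact D.clok_esy hfam (D.ok_b3 x y z)
  | b4 x => exact D.clok_esy hfam (D.ok_b4 x)
  | b5 x y => exact D.clok_esy hfam (D.ok_b5 x y)
  | b6 x y => exact D.clok_esy hfam (D.ok_b6 x y)
  | tp a q u z y => exact D.ok_tp hfam a q u z y
  | tn a q u z y => exact D.ok_tn hfam a q u z y
  | e1 a q q' u z y => exact D.ok_e1 hfam a q q' u z y
  | e2 a q q' u z y => exact D.ok_e2 hfam a q q' u z y
  | e3 a q u z y => exact D.ok_e3 hfam a q u z y
  | e4 a q q' u z y => exact D.ok_e4 hfam a q q' u z y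
  | m1 σ q u z y => exact D.ok_m1 hfam σ q u z y
  | m2 σ k q u z y y' => exact D.ok_m2 hfam σ k q u z y y'
  | m3 σ k q u z y y' => exact D.ok_m3 hfam σ k q u z y y'
  | m4 σ k k' h q u z y y' y'' => exact D.ok_m4 hfam σ k k' h q u z y y' y''
  | m5 σ k q u z y y' y'' => exact D.ok_m5 hfam σ k q u z y y' y''
  | m6 σ k q u z y y' y'' => exact D.ok_m6 hfam σ k q u z y y' y''
  | m7 k q u z y' => exact D.ok_m7 hfam k q u z y'
  | m8 σ σ' h k q u z y y' y'' => exact D.ok_m8 hfam σ σ' h k q u z y y' y''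
  | m9 σ k q u z y y' y'' => exact D.ok_m9 hfam σ k q u z y y' y''
  | m10 σ k q u z y y' y'' => exact D.ok_m10 hfam σ k q u z y y' y''
  | m11 σ k q u z y y' => exact D.ok_m11 hfam σ k q u z y y'
  | m12 σ k q u z y y' => exact D.ok_m12 hfam σ k q u z y y'
  | g1 k q u z y' y'' => exact D.ok_g1 hfam k q u z y' y''
  | g2 k q u z y' => exact D.ok_g2 hfam k q u z y'
  | g3 k q u z => exact D.ok_g3 hfam k q u z
  | g4 k k' h q u z => exact D.ok_g4 hfam k k' h q u z
  | g5 k q u z => exact D.ok_g5 hfam k q u z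
  | g6 q u z => exact D.ok_g6 hfam hL q u z

end Dat

end Pool.Agent.H79.CQ
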