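import Pool.Agent.H79.CQ.Grd

/-!
# Thermometers and the enumeration of their elements

* `card_ths`: for `b = true` the map `X ↦ X.val` is a bijection onto the numbers below `v.val`; for `b = false`
  and `v ≠ 0` the complement, `p - v.val` elements, `((p - v.val : ℕ) : ZMod p) = - v`; `v.val < p`.
* `pos_lt`, `pos_inj`, `pos_surj`: `Finset.card_sigma` and the bijection `Finset.equivFin`.
-/

set_option autoImplicit false
set_option linter.unusedSectionVars false

namespace Pool.Agent.H79.CQ

variable {p : ℕ} [hp : Fact p.Prime]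

/-- The thermometer of the value `v`: the elements below `v` (`b = true`), and the other elements
if `v` is not zero (`b = false`). -/
def ths {p : ℕ} (b : Bool) (v X : ZMod p) : Prop :=
  if b = true then X.val < v.val else v ≠ 0 ∧ v.val ≤ X.val

open Classical in
/-- The place of `(σ, i)` in a fixed enumeration of the pairs `(σ, i)`, `i ∈ S σ`. -/
noncomputable def pos {p : ℕ} {I : Type} [Fintype I] (S : I → Finset (ZMod p)) (σ : I)
    (i : ZMod p) : ℕ :=
  if h : (⟨σ, i⟩ : Σ _ : I, ZMod p) ∈ Finset.univ.sigma S then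
    ((Finset.univ.sigma S).equivFin ⟨_, h⟩).val else 0

private theorem card_below (v : ZMod p) : (open Classical in
    (Finset.univ.filter (fun X : ZMod p => X.val < v.val)).card = v.val) := by
  classical
  have h1 : (Finset.univ.filter (fun X : ZMod p => X.val < v.val)).image ZMod.val =
      Finset.range v.val := by
    ext m
    rw [Finset.mem_image, Finset.mem_range]
    constructor
    · rintro ⟨X, hX, rfl⟩
      exact (Finset.mem_filter.1 hX).2
    · intro hm
      have h2 : ((m : ZMod p)).val = m := ZMod.val_cast_of_lt (hm.trans (ZMod.val_lt v))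
      exact ⟨(m : ZMod p), Finset.mem_filter.2 ⟨Finset.mem_univ _, by rw [h2]; exact hm⟩, h2⟩
  have h3 := Finset.card_image_of_injective
    (Finset.univ.filter (fun X : ZMod p => X.val < v.val)) (ZMod.val_injective p)
  rw [h1, Finset.card_range] at h3
  exact h3.symm

theorem card_ths (b : Bool) (v : ZMod p) : (open Classical in
    ((Finset.univ.filter (fun X => ths b v X)).card : ZMod p) = (if b = true then 1 else -1) * v ∧
      (Finset.univ.filter (fun X => ths b v X)).card ≤ p - 1) := by
  classical
  have hvp := ZMod.val_lt v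
  cases b with
  | true =>
    have h1 : (Finset.univ.filter (fun X => ths true v X)) =
        Finset.univ.filter (fun X : ZMod p => X.val < v.val) := by
      ext X
      simp [ths]
    rw [h1, card_below v]
    refine ⟨?_, by omega⟩
    rw [if_pos rfl, one_mul, ZMod.natCast_zmod_val]
  | false =>
    by_cases hv : v = 0
    · have h1 : (Finset.univ.filter (fun X => ths false v X)) = ∅ := by
        ext X
        simp [ths, hv]
      rw [h1, Finset.card_empty, hv]
      simp
    · have h1 : (Finset.univ.filter (fun X => ths false v X)) =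
          (Finset.univ.filter (fun X : ZMod p => X.val < v.val))ᶜ := by
        ext X
        simp [ths, hv]
      have hv0 : 0 < v.val := by
        rw [Nat.pos_iff_ne_zero]
        intro h
        exact hv ((ZMod.val_eq_zero v).1 h)
      rw [h1, Finset.card_compl, card_below v, ZMod.card]
      refine ⟨?_, by omega⟩
      rw [Nat.cast_sub hvp.le, ZMod.natCast_self, ZMod.natCast_zmod_val]
      simp

theorem pos_lt {I : Type} [Fintype I] {S : I → Finset (ZMod p)} {σ : I} {i : ZMod p}
    (h : i ∈ S σ) : pos S σ i < ∑ σ, (S σ).card := by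
  classical
  have h1 : (⟨σ, i⟩ : Σ _ : I, ZMod p) ∈ Finset.univ.sigma S :=
    Finset.mem_sigma.2 ⟨Finset.mem_univ _, h⟩
  unfold pos
  rw [dif_pos h1, ← Finset.card_sigma]
  exact ((Finset.univ.sigma S).equivFin ⟨_, h1⟩).2

theorem pos_inj {I : Type} [Fintype I] {S : I → Finset (ZMod p)} {σ σ' : I} {i i' : ZMod p}
    (h : i ∈ S σ) (h' : i' ∈ S σ') (he : pos S σ i = pos S σ' i') : σ = σ' ∧ i = i' := by
  classical
  have h1 : (⟨σ, i⟩ : Σ _ : I, ZMod p) ∈ Finset.univ.sigma S :=
    Finset.mem_sigma.2 ⟨Finset.mem_univ _, h⟩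
  have h2 : (⟨σ', i'⟩ : Σ _ : I, ZMod p) ∈ Finset.univ.sigma S :=
    Finset.mem_sigma.2 ⟨Finset.mem_univ _, h'⟩
  unfold pos at he
  rw [dif_pos h1, dif_pos h2] at he
  have h3 := congrArg Subtype.val ((Finset.univ.sigma S).equivFin.injective (Fin.ext he))
  have h4 : (⟨σ, i⟩ : Σ _ : I, ZMod p) = ⟨σ', i'⟩ := h3
  rw [Sigma.mk.injEq] at h4
  exact ⟨h4.1, eq_of_heq h4.2⟩

theorem pos_surj {I : Type} [Fintype I] {S : I → Finset (ZMod p)} {m : ℕ}
    (hm : m < ∑ σ, (S σ).card) : ∃ σ, ∃ i ∈ S σ, pos S σ i = m := by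
  classical
  rw [← Finset.card_sigma] at hm
  obtain ⟨⟨⟨σ, i⟩, h1⟩, h2⟩ := (Finset.univ.sigma S).equivFin.surjective ⟨m, hm⟩
  refine ⟨σ, i, (Finset.mem_sigma.1 h1).2, ?_⟩
  unfold pos
  rw [dif_pos h1, h2]

end Pool.Agent.H79.CQ
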