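import Pool.Agent.H79.CQ.Axs
import Pool.Agent.H79.CQ.GGad
import Pool.Agent.H79.CQ.Pos

/-!
# The model over `F_p`: atoms at worlds

A vertex `x` of the grid is represented by the points of the cell `cv x`, a square `s` of the grid by the
points of the cell `j s`, each with a bit in `ZMod p` (its block); all other points are idle. The reference
cell is `kA := cv 0`. The value of an edge at the slot `σ` of `x` relative to labels `u` of its squares is
`val`; `Th σ` is the thermometer (`ths`) of this value, read relative to the bit of `z`; `M` matches the true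
elements of the thermometers of `x`, in the fixed enumeration `pos`, with the numbers
`k * p + (bit y' - bit z).val`, `G` is the set of the numbers below `tot`, `X` says that exactly one element of
the row `k` is used.

PROOFS. `bit_of_mem`: the blocks are disjoint. `bit_map`, `blk_map`: `M.map` (`g '' C i b = C i (b + pr g i)`, `g` is
injective, so `g q ∈ C i (b + pr g i) ↔ q ∈ C i b`). `leaf_am`: `arg_am`.
`val_equi`: `(sh (pr g) f) (ye …) = f (ye …) + pr g ⬝ᵥ ye …`, `pr g ⬝ᵥ ye = ∑ t, if isS then oo σ t * pr g (j (sq x σ t))`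
(`ye_dot`), and `bit (g (u t)) = bit (u t) + pr g (j (sq x σ t))` for `u t ∈ blk (j (sq x σ t))`.
`leaf_equi`: `v = am (sy v) (arg v)` (`am_arg`), cases on the symbol, `map_am`, `leaf_am`; all conditions about blocks
are invariant (`blk_map`), `C (kA) b` is mapped to `C kA (b + pr g kA)` (for `B`, and differences of bits of points
of `blk kA` are invariant), `val` is invariant if the labels are legal, so are `thS`, `tot`.
`leaf_loc`: the truth depends on the world only through `f (ye p L j (ed x σ))` with `isE (ed x σ)` and legal labels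
`u t ∈ blk (j (sq x σ t))` for all `t` with `isS`; every `g ∈ H` which fixes all points of the atom has
`pr g (j (sq x σ t)) = 0` for these `t` (`u t ∈ C i b` and `u t = g (u t) ∈ C i (b + pr g i)`), so `pr g ⬝ᵥ ye = 0`
(`ye_dot`); and `ye ∈ g.D` (`ye_mem`).
-/

set_option autoImplicit false
set_option linter.unusedSectionVars false

namespace Pool.Agent.H79.CQ

open Pool.Agent.H42.CS (Pt Ed Sq un inB isE isS Slot off ed sq Ax Atom)

variable {p : ℕ} [hp : Fact p.Prime]

/-- The data of the model. -/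
structure Dat (p d L r : ℕ) (P : Type) where
  /-- the cells -/
  M : Cells p P r
  /-- the cells of the vertices -/
  cv : Pt d → Fin r
  cv_inj : Set.InjOn cv {x | inB L x}
  /-- the cells of the squares -/
  j : Sq d → Fin r
  j_inj : Set.InjOn j {s | isS L s}
  cv_ne : ∀ x s, inB L x → isS L s → cv x ≠ j s
  /-- the gadget -/
  g : Gad p (Fin r)
  /-- the constants of the edges -/
  c : Ed d → ZMod p
  ye_mem : ∀ e, isE L e → ye p L j e ∈ g.D
  law : ∀ (U : Submodule (ZMod p) (Fin r → ZMod p)) (f : Wd p (Fin r)), g.Tame U → g.IsW U f →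
    ∀ x : Pt d, inB L x → (∀ σ : Slot d, isE L (ed x σ) → ye p L j (ed x σ) ∈ U) →
      (open Classical in (∑ σ : Slot d, if isE L (ed x σ) then
        tau p σ * (f (ye p L j (ed x σ)) + c (ed x σ)) else 0) = if x = 0 then 1 else 0)

namespace Dat

variable {d L r : ℕ} {P : Type} (D : Dat p d L r P)

/-- The points of a cell: the union of its blocks. -/
def blk (i : Fin r) : Set P := {q | ∃ b, q ∈ D.M.C i b}

/-- The reference cell. -/
def kA : Fin r := D.cv 0

open Classical in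
/-- The bit of a point: its block. -/
noncomputable def bit (u : P) : ZMod p := if h : ∃ b, ∃ i, u ∈ D.M.C i b then h.choose else 0

/-- The truth of `Z q`. -/
def pZ (q : P) : Prop := q ∈ D.blk (D.cv 0)

/-- The truth of `E q q'`: the same vertex, or both idle. -/
def pE (q q' : P) : Prop := ∀ x, inB L x → (q ∈ D.blk (D.cv x) ↔ q' ∈ D.blk (D.cv x))

/-- The truth of `J a q q'`. -/
def pJ (a : Fin d) (q q' : P) : Prop :=
  ∃ x, isE L (x, a) ∧ q ∈ D.blk (D.cv x) ∧ q' ∈ D.blk (D.cv (x + un a))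

/-- The truth of `F τ q u`. -/
def pF (τ : Sym2 (Slot d)) (q u : P) : Prop :=
  ∀ (x : Pt d) (σ t : Slot d), τ = s(σ, t) → inB L x → q ∈ D.blk (D.cv x) →
    isS L (sq x σ t) → u ∈ D.blk (D.j (sq x σ t))

/-- The truth of `B y y'`. -/
def pB (y y' : P) : Prop := ∃ b, y ∈ D.M.C D.kA b ∧ y' ∈ D.M.C D.kA b

/-- The truth of `D y y'`. -/
def pD (y y' : P) : Prop := y ∈ D.blk D.kA ∧ y' ∈ D.blk D.kA ∧ D.bit y ≠ D.bit y'

open Classical in
/-- The value of the edge at the slot `σ` of `x` relative to the labels `u`. -/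
noncomputable def val (x : Pt d) (σ : Slot d) (u : Slot d → P) (f : Wd p (Fin r)) : ZMod p :=
  f (ye p L D.j (ed x σ)) + D.c (ed x σ) -
    ∑ t : Slot d, if isS L (sq x σ t) then oo p σ t * D.bit (u t) else 0

/-- The truth of `Th σ q u z y` at the world `f`. -/
def pT (σ : Slot d) (q : P) (u : Slot d → P) (z y : P) (f : Wd p (Fin r)) : Prop :=
  z ∈ D.blk D.kA ∧ y ∈ D.blk D.kA ∧ ∃ x, inB L x ∧ q ∈ D.blk (D.cv x) ∧ isE L (ed x σ) ∧
    (∀ t, isS L (sq x σ t) → u t ∈ D.blk (D.j (sq x σ t))) ∧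
    ths σ.2 (D.val x σ u f) (D.bit y - D.bit z)

/-- The vertex of `q` is `x`, and the labels are legal. -/
def Leg (x : Pt d) (q : P) (u : Sym2 (Slot d) → P) : Prop :=
  inB L x ∧ q ∈ D.blk (D.cv x) ∧ ∀ σ t, isS L (sq x σ t) → u s(σ, t) ∈ D.blk (D.j (sq x σ t))

open Classical in
/-- The thermometers of a vertex. -/
noncomputable def thS (x : Pt d) (u : Sym2 (Slot d) → P) (f : Wd p (Fin r)) (σ : Slot d) :
    Finset (ZMod p) :=
  if isE L (ed x σ) then Finset.univ.filter (fun X => ths σ.2 (D.val x σ (sl σ u) f) X) else ∅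

/-- The number of the elements of the thermometers of a vertex. -/
noncomputable def tot (x : Pt d) (u : Sym2 (Slot d) → P) (f : Wd p (Fin r)) : ℕ :=
  ∑ σ : Slot d, (D.thS x u f σ).card

/-- The truth of `M σ k q u z y y'` at the world `f`. -/
def pM (σ : Slot d) (k : Fin (2 * d)) (q : P) (u : Sym2 (Slot d) → P) (z y y' : P)
    (f : Wd p (Fin r)) : Prop :=
  z ∈ D.blk D.kA ∧ y ∈ D.blk D.kA ∧ y' ∈ D.blk D.kA ∧ ∃ x, D.Leg x q u ∧
    D.bit y - D.bit z ∈ D.thS x u f σ ∧
    k.val * p + (D.bit y' - D.bit z).val = pos (D.thS x u f) σ (D.bit y - D.bit z)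

/-- The truth of `G k q u z y'` at the world `f`. -/
def pG (k : Fin (2 * d)) (q : P) (u : Sym2 (Slot d) → P) (z y' : P) (f : Wd p (Fin r)) : Prop :=
  z ∈ D.blk D.kA ∧ y' ∈ D.blk D.kA ∧ ∃ x, D.Leg x q u ∧
    k.val * p + (D.bit y' - D.bit z).val < D.tot x u f

/-- The truth of `X k q u z` at the world `f`. -/
def pX (k : Fin (2 * d)) (q : P) (u : Sym2 (Slot d) → P) (z : P) (f : Wd p (Fin r)) : Prop :=
  z ∈ D.blk D.kA ∧ ∃ x, D.Leg x q u ∧ k.val * p + 1 = D.tot x u f

/-- The truth of an atom with the symbol `s` and the arguments `w` at the world `f`. -/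
def leafS : (s : Sy d) → (s.Ix → P) → Wd p (Fin r) → Prop
  | .Z, w, _ => D.pZ (w (0 : Fin 1))
  | .E, w, _ => D.pE (w (0 : Fin 2)) (w (1 : Fin 2))
  | .J a, w, _ => D.pJ a (w (0 : Fin 2)) (w (1 : Fin 2))
  | .F τ, w, _ => D.pF τ (w (0 : Fin 2)) (w (1 : Fin 2))
  | .B, w, _ => D.pB (w (0 : Fin 2)) (w (1 : Fin 2))
  | .D, w, _ => D.pD (w (0 : Fin 2)) (w (1 : Fin 2))
  | .Th σ, w, f => D.pT σ (w (Sum.inr (0 : Fin 3))) (fun t => w (Sum.inl t))
      (w (Sum.inr (1 : Fin 3))) (w (Sum.inr (2 : Fin 3))) f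
  | .M σ k, w, f => D.pM σ k (w (Sum.inr (0 : Fin 4))) (fun τ => w (Sum.inl τ))
      (w (Sum.inr (1 : Fin 4))) (w (Sum.inr (2 : Fin 4))) (w (Sum.inr (3 : Fin 4))) f
  | .G k, w, f => D.pG k (w (Sum.inr (0 : Fin 3))) (fun τ => w (Sum.inl τ))
      (w (Sum.inr (1 : Fin 3))) (w (Sum.inr (2 : Fin 3))) f
  | .X k, w, f => D.pX k (w (Sum.inr (0 : Fin 2))) (fun τ => w (Sum.inl τ))
      (w (Sum.inr (1 : Fin 2))) f

/-- The truth of an atom at a world. -/
def leaf (v : Atom (Re d) P) (f : Wd p (Fin r)) : Prop := D.leafS (sy v) (arg v) f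

theorem leaf_am (s : Sy d) (w : s.Ix → P) (f : Wd p (Fin r)) :
    D.leaf (am s w) f ↔ D.leafS s w f := by
  change D.leafS s (arg (am s w)) f ↔ D.leafS s w f
  rw [arg_am]

theorem leaf_aZ (q : P) (f : Wd p (Fin r)) : D.leaf (aZ q) f ↔ D.pZ q := by
  exact D.leaf_am .Z (fun _ => q) f

theorem leaf_aE (q q' : P) (f : Wd p (Fin r)) : D.leaf (aE q q') f ↔ D.pE q q' := by
  exact D.leaf_am .E ![q, q'] f

theorem leaf_aJ (a : Fin d) (q q' : P) (f : Wd p (Fin r)) :
    D.leaf (aJ a q q') f ↔ D.pJ a q q' := by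
  exact D.leaf_am (.J a) ![q, q'] f

theorem leaf_aF (τ : Sym2 (Slot d)) (q u : P) (f : Wd p (Fin r)) :
    D.leaf (aF τ q u) f ↔ D.pF τ q u := by
  exact D.leaf_am (.F τ) ![q, u] f

theorem leaf_aB (y y' : P) (f : Wd p (Fin r)) : D.leaf (aB y y') f ↔ D.pB y y' := by
  exact D.leaf_am .B ![y, y'] f

theorem leaf_aD (y y' : P) (f : Wd p (Fin r)) : D.leaf (aD y y') f ↔ D.pD y y' := by
  exact D.leaf_am .D ![y, y'] f

theorem leaf_aT (σ : Slot d) (q : P) (u : Slot d → P) (z y : P) (f : Wd p (Fin r)) :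
    D.leaf (aT σ q u z y) f ↔ D.pT σ q u z y f := by
  exact D.leaf_am (.Th σ) (Sum.elim u ![q, z, y]) f

theorem leaf_aM (σ : Slot d) (k : Fin (2 * d)) (q : P) (u : Sym2 (Slot d) → P) (z y y' : P)
    (f : Wd p (Fin r)) : D.leaf (aM σ k q u z y y') f ↔ D.pM σ k q u z y y' f := by
  exact D.leaf_am (.M σ k) (Sum.elim u ![q, z, y, y']) f

theorem leaf_aG (k : Fin (2 * d)) (q : P) (u : Sym2 (Slot d) → P) (z y' : P)
    (f : Wd p (Fin r)) : D.leaf (aG k q u z y') f ↔ D.pG k q u z y' f := by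
  exact D.leaf_am (.G k) (Sum.elim u ![q, z, y']) f

theorem leaf_aX (k : Fin (2 * d)) (q : P) (u : Sym2 (Slot d) → P) (z : P)
    (f : Wd p (Fin r)) : D.leaf (aX k q u z) f ↔ D.pX k q u z f := by
  exact D.leaf_am (.X k) (Sum.elim u ![q, z]) f

/-- The cells are disjoint. -/
theorem blk_disj {i i' : Fin r} {q : P} (hi : q ∈ D.blk i) (hj : q ∈ D.blk i') : i = i' := by
  obtain ⟨b, hb⟩ := hi
  obtain ⟨c, hc⟩ := hj
  by_contra hne
  have h1 : (i, b) ≠ (i', c) := fun h => hne (congrArg Prod.fst h)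
  exact Set.disjoint_left.1 (D.M.disj i b i' c h1) hb hc

theorem bit_of_mem {i : Fin r} {b : ZMod p} {u : P} (hu : u ∈ D.M.C i b) : D.bit u = b := by
  have h : ∃ b, ∃ i, u ∈ D.M.C i b := ⟨b, i, hu⟩
  unfold bit
  rw [dif_pos h]
  obtain ⟨i', hi'⟩ := h.choose_spec
  by_contra hne
  have h1 : (i', h.choose) ≠ (i, b) := fun h => hne (congrArg Prod.snd h)
  exact Set.disjoint_left.1 (D.M.disj i' h.choose i b h1) hi' hu

/-- The vertex of a point is unique. -/
theorem vert_unique {x x' : Pt d} {q : P} (hx : inB L x) (hx' : inB L x')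
    (h : q ∈ D.blk (D.cv x)) (h' : q ∈ D.blk (D.cv x')) : x = x' := by
  exact D.cv_inj hx hx' (D.blk_disj h h')

private theorem mem_C (g : D.M.H) (i : Fin r) (b : ZMod p) (q : P) :
    (g : Equiv.Perm P) q ∈ D.M.C i (b + D.M.pr g i) ↔ q ∈ D.M.C i b := by
  rw [← D.M.map]
  exact (g : Equiv.Perm P).injective.mem_set_image

theorem blk_map (g : D.M.H) (i : Fin r) (q : P) :
    (g : Equiv.Perm P) q ∈ D.blk i ↔ q ∈ D.blk i := by
  constructor
  · rintro ⟨b, hb⟩
    refine ⟨b - D.M.pr g i, ?_⟩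
    rw [← D.mem_C g, sub_add_cancel]
    exact hb
  · rintro ⟨b, hb⟩
    exact ⟨b + D.M.pr g i, (D.mem_C g i b q).2 hb⟩

theorem bit_map (g : D.M.H) (i : Fin r) (u : P) (hu : u ∈ D.blk i) :
    D.bit ((g : Equiv.Perm P) u) = D.bit u + D.M.pr g i := by
  obtain ⟨b, hb⟩ := hu
  rw [D.bit_of_mem hb, D.bit_of_mem ((D.mem_C g i b u).2 hb)]

/-- The value of an edge is invariant. -/
theorem val_equi (g : D.M.H) {x : Pt d} {σ : Slot d} (hx : inB L x) (he : isE L (ed x σ))
    (u : Slot d → P) (hu : ∀ t, isS L (sq x σ t) → u t ∈ D.blk (D.j (sq x σ t)))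
    (f : Wd p (Fin r)) :
    D.val x σ (fun t => (g : Equiv.Perm P) (u t)) (sh (D.M.pr g) f) = D.val x σ u f := by
  classical
  unfold val sh
  rw [ye_dot L D.j D.j_inj x σ hx he]
  have h1 : (∑ t : Slot d, if isS L (sq x σ t) then
      oo p σ t * D.bit ((g : Equiv.Perm P) (u t)) else 0) =
      (∑ t : Slot d, if isS L (sq x σ t) then oo p σ t * D.bit (u t) else 0) +
      (∑ t : Slot d, if isS L (sq x σ t) then
        oo p σ t * D.M.pr g (D.j (sq x σ t)) else 0) := by
    rw [← Finset.sum_add_distrib]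
    refine Finset.sum_congr rfl fun t _ => ?_
    split_ifs with hs
    · rw [D.bit_map g _ (u t) (hu t hs), mul_add]
    · rw [add_zero]
  have h2 : ∀ A B C E F : ZMod p, E = F + B → (A + B) + C - E = A + C - F := by
    intro A B C E F h
    rw [h]
    ring
  exact h2 _ _ _ _ _ h1

private theorem val_loc {x : Pt d} {σ : Slot d} (hx : inB L x) (he : isE L (ed x σ))
    (u : Slot d → P) (hu : ∀ t, isS L (sq x σ t) → u t ∈ D.blk (D.j (sq x σ t)))
    (f f' : Wd p (Fin r))
    (h : (∀ g : D.M.H, (∀ t, (g : Equiv.Perm P) (u t) = u t) →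
      D.M.pr g ⬝ᵥ ye p L D.j (ed x σ) = 0) → f (ye p L D.j (ed x σ)) = f' (ye p L D.j (ed x σ))) :
    D.val x σ u f = D.val x σ u f' := by
  have key : f (ye p L D.j (ed x σ)) = f' (ye p L D.j (ed x σ)) := by
    refine h fun g hg => ?_
    rw [ye_dot L D.j D.j_inj x σ hx he]
    refine Finset.sum_eq_zero fun t _ => ?_
    split_ifs with hs
    · have h1 := D.bit_map g _ (u t) (hu t hs)
      rw [hg t] at h1
      rw [left_eq_add.1 h1, mul_zero]
    · rfl
  unfold val
  rw [key]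

private theorem thS_congr {x : Pt d} {u u' : Sym2 (Slot d) → P} {f f' : Wd p (Fin r)}
    (h : ∀ σ, isE L (ed x σ) → D.val x σ (sl σ u) f = D.val x σ (sl σ u') f') :
    D.thS x u f = D.thS x u' f' := by
  funext σ
  unfold thS
  split_ifs with he
  · rw [h σ he]
  · rfl

private theorem thS_loc {x : Pt d} {q : P} {u : Sym2 (Slot d) → P} (hl : D.Leg x q u)
    (f f' : Wd p (Fin r))
    (h : ∀ e, isE L e → (∀ g : D.M.H, (∀ t, (g : Equiv.Perm P) (u t) = u t) →
      D.M.pr g ⬝ᵥ ye p L D.j e = 0) → f (ye p L D.j e) = f' (ye p L D.j e)) :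
    D.thS x u f = D.thS x u f' := by
  refine D.thS_congr fun σ he => ?_
  exact D.val_loc hl.1 he _ (fun t hs => hl.2.2 σ t hs) f f'
    (fun hg => h _ he (fun g hfix => hg g fun t => hfix s(σ, t)))

/-- The atoms are local. -/
theorem leaf_loc (v : Atom (Re d) P) (f f' : Wd p (Fin r))
    (h : ∀ y : Fin r → ZMod p, (∀ g : D.M.H, (∀ i, (g : Equiv.Perm P) (v.2.2 i) = v.2.2 i) →
      D.M.pr g ⬝ᵥ y = 0) → y ∈ D.g.D → f y = f' y) : D.leaf v f ↔ D.leaf v f' := by
  obtain ⟨s, w, hv⟩ : ∃ (s : Sy d) (w : s.Ix → P), v = am s w := ⟨sy v, arg v, (am_arg v).symm⟩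
  subst hv
  have h' : ∀ e, isE L e → (∀ g : D.M.H, (∀ i, (g : Equiv.Perm P) (w i) = w i) →
      D.M.pr g ⬝ᵥ ye p L D.j e = 0) → f (ye p L D.j e) = f' (ye p L D.j e) := by
    intro e he hg
    refine h _ (fun g hfix => hg g (fun i => ?_)) (D.ye_mem e he)
    have h1 := hfix (Fintype.equivFin s.Ix i)
    change (g : Equiv.Perm P) (w ((Fintype.equivFin s.Ix).symm (Fintype.equivFin s.Ix i))) =
      w ((Fintype.equivFin s.Ix).symm (Fintype.equivFin s.Ix i)) at h1
    rwa [Equiv.symm_apply_apply] at h1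
  rw [D.leaf_am, D.leaf_am]
  cases s with
  | Z => exact Iff.rfl
  | E => exact Iff.rfl
  | J a => exact Iff.rfl
  | F τ => exact Iff.rfl
  | B => exact Iff.rfl
  | D => exact Iff.rfl
  | Th σ =>
    change D.pT σ _ _ _ _ f ↔ D.pT σ _ _ _ _ f'
    unfold pT
    refine and_congr_right fun _ => and_congr_right fun _ => exists_congr fun x =>
      and_congr_right fun hx => and_congr_right fun _ => and_congr_right fun he =>
      and_congr_right fun hu => ?_
    rw [D.val_loc hx he _ hu f f' (fun hg => h' _ he (fun g hfix => hg g fun t => hfix (Sum.inl t)))]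
  | M σ k =>
    change D.pM σ k _ _ _ _ _ f ↔ D.pM σ k _ _ _ _ _ f'
    unfold pM
    refine and_congr_right fun _ => and_congr_right fun _ => and_congr_right fun _ =>
      exists_congr fun x => and_congr_right fun hl => ?_
    rw [D.thS_loc hl f f' (fun e he hg => h' _ he (fun g hfix => hg g fun t => hfix (Sum.inl t)))]
  | G k =>
    change D.pG k _ _ _ _ f ↔ D.pG k _ _ _ _ f'
    unfold pG tot
    refine and_congr_right fun _ => and_congr_right fun _ =>
      exists_congr fun x => and_congr_right fun hl => ?_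
    rw [D.thS_loc hl f f' (fun e he hg => h' _ he (fun g hfix => hg g fun t => hfix (Sum.inl t)))]
  | X k =>
    change D.pX k _ _ _ f ↔ D.pX k _ _ _ f'
    unfold pX tot
    refine and_congr_right fun _ =>
      exists_congr fun x => and_congr_right fun hl => ?_
    rw [D.thS_loc hl f f' (fun e he hg => h' _ he (fun g hfix => hg g fun t => hfix (Sum.inl t)))]

private theorem bit_sub (g : D.M.H) {i : Fin r} {y z : P} (hy : y ∈ D.blk i) (hz : z ∈ D.blk i) :
    D.bit ((g : Equiv.Perm P) y) - D.bit ((g : Equiv.Perm P) z) = D.bit y - D.bit z := by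
  rw [D.bit_map g i y hy, D.bit_map g i z hz, add_sub_add_right_eq_sub]

private theorem Leg_map (g : D.M.H) (x : Pt d) (q : P) (u : Sym2 (Slot d) → P) :
    D.Leg x ((g : Equiv.Perm P) q) (fun τ => (g : Equiv.Perm P) (u τ)) ↔ D.Leg x q u := by
  unfold Leg
  simp only [D.blk_map g]

private theorem thS_equi (g : D.M.H) {x : Pt d} {q : P} {u : Sym2 (Slot d) → P}
    (hl : D.Leg x q u) (f : Wd p (Fin r)) :
    D.thS x (fun τ => (g : Equiv.Perm P) (u τ)) (sh (D.M.pr g) f) = D.thS x u f := by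
  refine D.thS_congr fun σ he => ?_
  exact D.val_equi g hl.1 he (sl σ u) (fun t hs => hl.2.2 σ t hs) f

/-- The atoms are equivariant. -/
theorem leaf_equi (g : D.M.H) (v : Atom (Re d) P) (f : Wd p (Fin r)) :
    D.leaf (amap (g : Equiv.Perm P) v) (sh (D.M.pr g) f) ↔ D.leaf v f := by
  obtain ⟨s, w, hv⟩ : ∃ (s : Sy d) (w : s.Ix → P), v = am s w := ⟨sy v, arg v, (am_arg v).symm⟩
  subst hv
  rw [map_am, D.leaf_am, D.leaf_am]
  cases s with
  | Z => exact D.blk_map g _ _
  | E =>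
    change D.pE ((g : Equiv.Perm P) (w (0 : Fin 2))) ((g : Equiv.Perm P) (w (1 : Fin 2))) ↔
      D.pE (w (0 : Fin 2)) (w (1 : Fin 2))
    unfold pE
    simp only [D.blk_map g]
  | J a =>
    change D.pJ a ((g : Equiv.Perm P) (w (0 : Fin 2))) ((g : Equiv.Perm P) (w (1 : Fin 2))) ↔
      D.pJ a (w (0 : Fin 2)) (w (1 : Fin 2))
    unfold pJ
    simp only [D.blk_map g]
  | F τ =>
    change D.pF τ ((g : Equiv.Perm P) (w (0 : Fin 2))) ((g : Equiv.Perm P) (w (1 : Fin 2))) ↔
      D.pF τ (w (0 : Fin 2)) (w (1 : Fin 2))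
    unfold pF
    simp only [D.blk_map g]
  | B =>
    change D.pB ((g : Equiv.Perm P) (w (0 : Fin 2))) ((g : Equiv.Perm P) (w (1 : Fin 2))) ↔
      D.pB (w (0 : Fin 2)) (w (1 : Fin 2))
    unfold pB
    constructor
    · rintro ⟨b, h1, h2⟩
      refine ⟨b - D.M.pr g D.kA, ?_, ?_⟩
      · rw [← D.mem_C g, sub_add_cancel]
        exact h1
      · rw [← D.mem_C g, sub_add_cancel]
        exact h2
    · rintro ⟨b, h1, h2⟩
      exact ⟨b + D.M.pr g D.kA, (D.mem_C g _ b _).2 h1, (D.mem_C g _ b _).2 h2⟩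
  | D =>
    change D.pD ((g : Equiv.Perm P) (w (0 : Fin 2))) ((g : Equiv.Perm P) (w (1 : Fin 2))) ↔
      D.pD (w (0 : Fin 2)) (w (1 : Fin 2))
    unfold pD
    rw [D.blk_map g, D.blk_map g]
    refine and_congr_right fun h1 => and_congr_right fun h2 => ?_
    rw [D.bit_map g _ _ h1, D.bit_map g _ _ h2, ne_eq, add_left_inj]
  | Th σ =>
    change D.pT σ ((g : Equiv.Perm P) (w (Sum.inr (0 : Fin 3))))
      (fun t => (g : Equiv.Perm P) (w (Sum.inl t))) ((g : Equiv.Perm P) (w (Sum.inr (1 : Fin 3))))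
      ((g : Equiv.Perm P) (w (Sum.inr (2 : Fin 3)))) _ ↔
      D.pT σ (w (Sum.inr (0 : Fin 3))) (fun t => w (Sum.inl t)) (w (Sum.inr (1 : Fin 3)))
        (w (Sum.inr (2 : Fin 3))) f
    unfold pT
    simp only [D.blk_map g]
    refine and_congr_right fun hz => and_congr_right fun hy => exists_congr fun x =>
      and_congr_right fun hx => and_congr_right fun _ => and_congr_right fun he =>
      and_congr_right fun hu => ?_
    rw [D.val_equi g hx he (fun t => w (Sum.inl t)) hu f, D.bit_sub g hy hz]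
  | M σ k =>
    change D.pM σ k ((g : Equiv.Perm P) (w (Sum.inr (0 : Fin 4))))
      (fun t => (g : Equiv.Perm P) (w (Sum.inl t))) ((g : Equiv.Perm P) (w (Sum.inr (1 : Fin 4))))
      ((g : Equiv.Perm P) (w (Sum.inr (2 : Fin 4)))) ((g : Equiv.Perm P) (w (Sum.inr (3 : Fin 4))))
      _ ↔
      D.pM σ k (w (Sum.inr (0 : Fin 4))) (fun t => w (Sum.inl t)) (w (Sum.inr (1 : Fin 4)))
        (w (Sum.inr (2 : Fin 4))) (w (Sum.inr (3 : Fin 4))) f
    unfold pM
    simp only [D.blk_map g]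
    refine and_congr_right fun hz => and_congr_right fun hy => and_congr_right fun hy' =>
      exists_congr fun x => ?_
    rw [D.Leg_map g x]
    refine and_congr_right fun hl => ?_
    rw [D.thS_equi g hl f, D.bit_sub g hy hz, D.bit_sub g hy' hz]
  | G k =>
    change D.pG k ((g : Equiv.Perm P) (w (Sum.inr (0 : Fin 3))))
      (fun t => (g : Equiv.Perm P) (w (Sum.inl t))) ((g : Equiv.Perm P) (w (Sum.inr (1 : Fin 3))))
      ((g : Equiv.Perm P) (w (Sum.inr (2 : Fin 3)))) _ ↔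
      D.pG k (w (Sum.inr (0 : Fin 3))) (fun t => w (Sum.inl t)) (w (Sum.inr (1 : Fin 3)))
        (w (Sum.inr (2 : Fin 3))) f
    unfold pG tot
    simp only [D.blk_map g]
    refine and_congr_right fun hz => and_congr_right fun hy => exists_congr fun x => ?_
    rw [D.Leg_map g x]
    refine and_congr_right fun hl => ?_
    rw [D.thS_equi g hl f, D.bit_sub g hy hz]
  | X k =>
    change D.pX k ((g : Equiv.Perm P) (w (Sum.inr (0 : Fin 2))))
      (fun t => (g : Equiv.Perm P) (w (Sum.inl t))) ((g : Equiv.Perm P) (w (Sum.inr (1 : Fin 2))))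
      _ ↔
      D.pX k (w (Sum.inr (0 : Fin 2))) (fun t => w (Sum.inl t)) (w (Sum.inr (1 : Fin 2))) f
    unfold pX tot
    simp only [D.blk_map g]
    refine and_congr_right fun hz => exists_congr fun x => ?_
    rw [D.Leg_map g x]
    refine and_congr_right fun hl => ?_
    rw [D.thS_equi g hl f]

end Dat

end Pool.Agent.H79.CQ
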