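import Pool.Agent.H79.CQ.Lab

/-!
# Pairs: the items of one edge

`u`, `u'` are the least labels at `q`, `q'`; `w := sl (a, true) u = sl (a, false) u'`.

* `pair_ex`: the assumptions contain `⟨.ra y, true⟩` (from `.inr y`; note `(lt z (.inr y)).neg = ⟨.ra y, true⟩`) and
  `⟨.it z x, false⟩` for all `x` with `gr true x = .pair a q q'`, `x.y = y`. `ra_B`: `vB y y`. By `e4` (cut on the
  two literals) `vT (a, true) q w z y` or `vT (a, false) q' w z y`. In the first case the clause `m1` for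
  `σ = (a, true)` at `q` with `u` (all `vF τ q (u τ)` are in `Γ`): `searchS` with the set of all `⟨.vM (a, true) k q u z y y0, true⟩`;
  for `(k, y0)`: `m12` gives `vB y0 y0`, `search_ra` gives `y1` with `ra y1`, `vB y1 y0`, so `vB y0 y1` (`b_symm`), by `m6`
  `vM (a, true) k q u z y y1`, by `yy_false` and `it_intro` the item `⟨true, a, q, q', y, k, y1⟩` is true: `Dn.contra`.
  The second case: the same at `q'` with `u'` and the item `⟨false, a, q, q', y, k, y1⟩` (its `vx` is `q'`).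
* `pair_un`: both members items `x ≠ x'` (their `a, q, q', y` are equal): `it_M`: `vM (a, b) k …`, `vM (a, b') k' …`.
  `b ≠ b'`: `m2` and `e2`. `b = b'`, `k ≠ k'`: `m4`. `b = b'`, `k = k'`, so `y' ≠ y''`: `m5`, `it_ra'`, `ra_uniq`.
  One member `.inr y`: `it_ra` and `⟨.ra y, false⟩`.
* `pair_off`: assume `⟨.it z x, true⟩`; `it_M`, `m2`: `vT (a, true) q w z y` (`b = true`), then `e3`; or
  `vT (a, false) q' w z y` (`b = false`), then `e1` with `it_J`: `vT (a, true) q w z z`: `Dn.contra`.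
-/

set_option autoImplicit false
set_option linter.unusedSectionVars false
set_option linter.unusedVariables false

namespace Pool.Agent.H79.CQ

open Pool.Agent.H42.CS (Pt Ed Sq un inB isE isS Slot off ed sq Ax Atom Lit Gate Circuit Step
  Refutation Der Pn Dn bs)

section

variable {d n l : ℕ} {Γ : Set (Lit (Nd d n))}

private theorem m2d {σ : Slot d} {k : Fin (2 * d)} {q z y y' : Fin n}
    {u : Sym2 (Slot d) → Fin n} (h : DD l Γ ⟨.vM σ k q u z y y', true⟩) :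
    DD (l + 3) Γ ⟨.vT σ q (sl σ u) z y, true⟩ := by
  refine dn_ins (Fin.pos q) (Ins.m2 σ k q u z y y') (x0 := (aT σ q (sl σ u) z y, true))
    (a0 := .vT σ q (sl σ u) z y) rfl ?_
  rintro x (rfl | rfl) hne
  · exact ⟨.vM σ k q u z y y', rfl, h⟩
  · exact absurd rfl hne

private theorem m12d {σ : Slot d} {k : Fin (2 * d)} {q z y y' : Fin n}
    {u : Sym2 (Slot d) → Fin n} (h : DD l Γ ⟨.vM σ k q u z y y', true⟩) :
    DD (l + 3) Γ ⟨.vB y' y', true⟩ := by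
  refine dn_ins (Fin.pos q) (Ins.m12 σ k q u z y y') (x0 := (aB y' y', true))
    (a0 := .vB y' y') rfl ?_
  rintro x (rfl | rfl) hne
  · exact ⟨.vM σ k q u z y y', rfl, h⟩
  · exact absurd rfl hne

private theorem m6d {σ : Slot d} {k : Fin (2 * d)} {q z y y' y'' : Fin n}
    {u : Sym2 (Slot d) → Fin n} (h : DD l Γ ⟨.vM σ k q u z y y', true⟩)
    (h' : DD l Γ ⟨.vB y' y'', true⟩) : DD (l + 3) Γ ⟨.vM σ k q u z y y'', true⟩ := by
  refine dn_ins (Fin.pos q) (Ins.m6 σ k q u z y y' y'') (x0 := (aM σ k q u z y y'', true))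
    (a0 := .vM σ k q u z y y'') rfl ?_
  rintro x (rfl | rfl | rfl) hne
  · exact ⟨.vM σ k q u z y y', rfl, h⟩
  · exact ⟨.vB y' y'', rfl, h'⟩
  · exact absurd rfl hne

private theorem m5d {σ : Slot d} {k : Fin (2 * d)} {q z y y' y'' : Fin n}
    {u : Sym2 (Slot d) → Fin n} (h : DD l Γ ⟨.vM σ k q u z y y', true⟩)
    (h' : DD l Γ ⟨.vM σ k q u z y y'', true⟩) : DD (l + 3) Γ ⟨.vB y' y'', true⟩ := by
  refine dn_ins (Fin.pos q) (Ins.m5 σ k q u z y y' y'') (x0 := (aB y' y'', true))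
    (a0 := .vB y' y'') rfl ?_
  rintro x (rfl | rfl | rfl) hne
  · exact ⟨.vM σ k q u z y y', rfl, h⟩
  · exact ⟨.vM σ k q u z y y'', rfl, h'⟩
  · exact absurd rfl hne

private theorem same {σ : Slot d} {k k' : Fin (2 * d)} {q z y y1 y2 : Fin n}
    {u : Sym2 (Slot d) → Fin n} (h : DD l Γ ⟨.vM σ k q u z y y1, true⟩)
    (h' : DD l Γ ⟨.vM σ k' q u z y y2, true⟩) (r : DD l Γ ⟨.ra y1, true⟩)
    (r' : DD l Γ ⟨.ra y2, true⟩) (hne : k = k' → y1 ≠ y2) : PP (l + 13) Γ := by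
  by_cases hk : k = k'
  · subst hk
    have h1 : PP (l + 3 + 10) Γ :=
      ra_uniq (Dn.le r (by omega)) (Dn.le r' (by omega)) (m5d h h') (hne rfl)
    exact Pn.le h1 (by omega)
  · have h1 : PP (l + 2) Γ := by
      refine pn_ins (Fin.pos q) (Ins.m4 σ k k' hk q u z y y1 y2) ?_
      rintro x (rfl | rfl)
      · exact ⟨.vM σ k q u z y y1, rfl, h⟩
      · exact ⟨.vM σ k' q u z y y2, rfl, h'⟩
    exact Pn.le h1 (by omega)

private theorem diff {a : Fin d} {k k' : Fin (2 * d)} {q q' z y y1 y2 : Fin n}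
    {u u' : Sym2 (Slot d) → Fin n} (hw : sl (a, true) u = sl (a, false) u')
    (h : DD l Γ ⟨.vM (a, true) k q u z y y1, true⟩)
    (h' : DD l Γ ⟨.vM (a, false) k' q' u' z y y2, true⟩) (hJ : DD l Γ ⟨.vJ a q q', true⟩) :
    PP (l + 13) Γ := by
  have h1 := m2d h
  have h2 := m2d h'
  rw [← hw] at h2
  have h3 : PP (l + 3 + 2) Γ := by
    refine pn_ins (Fin.pos q) (Ins.e2 a q q' (sl (a, true) u) z y) ?_
    rintro x (rfl | rfl | rfl)
    · exact ⟨.vJ a q q', rfl, Dn.le hJ (by omega)⟩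
    · exact ⟨.vT (a, false) q' (sl (a, true) u) z y, rfl, h2⟩
    · exact ⟨.vT (a, true) q (sl (a, true) u) z y, rfl, h1⟩
  exact Pn.le h3 (by omega)

end

private theorem exG (d : ℕ) : ∃ K : ℕ, ∀ (n m : ℕ) (Γ : Set (Lit (Nd d n))) (z : Fin n)
    (a : Fin d) (b : Bool) (q q' y : Fin n) (u : Sym2 (Slot d) → Fin n),
    Lab (if b then q else q') u ⊆ Γ →
    DD m Γ ⟨.rep q, true⟩ → DD m Γ ⟨.rep q', true⟩ → DD m Γ ⟨.vJ a q q', true⟩ →
    DD m Γ ⟨.ra y, true⟩ →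
    DD m Γ ⟨.vT (a, b) (if b then q else q') (sl (a, b) u) z y, true⟩ →
    (∀ k y1, (⟨.it z ⟨b, a, q, q', y, k, y1⟩, false⟩ : Lit (Nd d n)) ∈ Γ) → PP (m + K) Γ := by
  obtain ⟨K', hK'⟩ := search_ra d
  refine ⟨K' + 31, fun n m Γ z a b q q' y u hu h1 h2 h3 h4 h5 h6 => ?_⟩
  obtain ⟨v, hv⟩ : ∃ v, v = if b then q else q' := ⟨_, rfl⟩
  rw [← hv] at hu h5
  have h7 : PP (m + 29 + K' + 2) Γ := by
    refine searchS (S := {x | ∃ k y0, x = (⟨.vM (a, b) k v u z y y0, true⟩ : Lit (Nd d n))}) ?_ ?_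
    · rintro x ⟨k, y0, rfl⟩
      have hM : DD 0 (insert ⟨.vM (a, b) k v u z y y0, true⟩ Γ)
          ⟨.vM (a, b) k v u z y y0, true⟩ := Dn.mem (Or.inl rfl)
      refine hK' n (m + 29) _ y0 (Dn.le (m12d hM) (by omega)) fun y1 => ?_
      have hs : Γ ⊆ insert ⟨.vM (a, b) k v u z y y0, true⟩ Γ ∪
          {⟨.ra y1, true⟩, ⟨.vB y1 y0, true⟩} := fun x hx => Or.inl (Or.inr hx)
      have hM' : DD (0 + 3) (insert ⟨.vM (a, b) k v u z y y0, true⟩ Γ ∪
          {⟨.ra y1, true⟩, ⟨.vB y1 y0, true⟩}) ⟨.vM (a, b) k v u z y y0, true⟩ :=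
        Dn.mem (Or.inl (Or.inl rfl))
      have hB : DD (0 + 3) (insert ⟨.vM (a, b) k v u z y y0, true⟩ Γ ∪
          {⟨.ra y1, true⟩, ⟨.vB y1 y0, true⟩}) ⟨.vB y0 y1, true⟩ :=
        b_symm (Dn.mem (Or.inr (Or.inr rfl)))
      have hM1 := m6d hM' hB
      have hY := yy_false (hu.trans hs) hM1
      have hI : DD (m + 26 + 2) (insert ⟨.vM (a, b) k v u z y y0, true⟩ Γ ∪
          {⟨.ra y1, true⟩, ⟨.vB y1 y0, true⟩}) ⟨.it z ⟨b, a, q, q', y, k, y1⟩, true⟩ := by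
        refine it_intro (Dn.mono h1 hs (by omega)) (Dn.mono h2 hs (by omega))
          (Dn.mono h3 hs (by omega)) (Dn.mono h4 hs (by omega))
          (Dn.mem (Or.inr (Or.inl rfl))) (Dn.le (l := 0 + 3 + 3 + 20) ?_ (by omega))
        show Dn (T d) (CC d n) _ _ ⟨.yy z (a, b) k (if b then q else q') y y1, false⟩
        rw [← hv]
        exact hY
      exact Dn.contra hI (Dn.mem (hs (h6 k y1)))
    · have h8 : PP (m + 1 + 2) (Γ ∪
          Lit.neg '' {x | ∃ k y0, x = (⟨.vM (a, b) k v u z y y0, true⟩ : Lit (Nd d n))}) := by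
        refine pn_ins (Fin.pos q) (Ins.m1 (a, b) v u z y) ?_
        rintro x ((⟨τ, rfl⟩ | rfl) | ⟨k, y0, rfl⟩)
        · exact ⟨.vF τ v (u τ), rfl, Dn.mem (Or.inl (hu ⟨τ, Or.inl rfl⟩))⟩
        · exact ⟨.vT (a, b) v (sl (a, b) u) z y, rfl, Dn.mono h5 Set.subset_union_left
            (Nat.lt_succ_self m)⟩
        · exact ⟨.vM (a, b) k v u z y y0, rfl, Dn.mem (Or.inr ⟨_, ⟨k, y0, rfl⟩, rfl⟩)⟩
      exact Pn.le h8 (by omega)
  exact Pn.le h7 (by omega)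

theorem pair_ex (d : ℕ) : ∃ K : ℕ, ∀ (n l : ℕ) (Γ : Set (Lit (Nd d n))) (z : Fin n) (a : Fin d)
    (q q' y : Fin n) (u u' : Sym2 (Slot d) → Fin n), Lab q u ⊆ Γ → Lab q' u' ⊆ Γ →
    sl (a, true) u = sl (a, false) u' → DD l Γ ⟨.rep q, true⟩ → DD l Γ ⟨.rep q', true⟩ →
    DD l Γ ⟨.vJ a q q', true⟩ → DD l Γ ⟨.vT (a, true) q (sl (a, true) u) z z, true⟩ →
    PP (l + K) (Γ ∪ Lit.neg '' (lt z '' IS (.pair a q q') y)) := by
  obtain ⟨K0, hK0⟩ := exG d
  refine ⟨K0 + 8, fun n l Γ z a q q' y u u' hu hu' hw h1 h2 h3 h4 => ?_⟩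
  have hra : (⟨.ra y, true⟩ : Lit (Nd d n)) ∈
      Γ ∪ Lit.neg '' (lt z '' IS (.pair a q q') y) :=
    Or.inr ⟨_, ⟨.inr y, Or.inr rfl, rfl⟩, rfl⟩
  have hit : ∀ b k y1, (⟨.it z ⟨b, a, q, q', y, k, y1⟩, false⟩ : Lit (Nd d n)) ∈
      Γ ∪ Lit.neg '' (lt z '' IS (.pair a q q') y) := fun b k y1 =>
    Or.inr ⟨_, ⟨.inl ⟨b, a, q, q', y, k, y1⟩, Or.inl ⟨_, rfl, rfl, rfl⟩, rfl⟩, rfl⟩
  have hs : Γ ⊆ Γ ∪ Lit.neg '' (lt z '' IS (.pair a q q') y) := Set.subset_union_left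
  generalize (Γ ∪ Lit.neg '' (lt z '' IS (.pair a q q') y)) = Γ' at hra hit hs
  obtain ⟨x1, hx1⟩ : ∃ x1 : Lit (Nd d n), x1 = ⟨.vT (a, true) q (sl (a, true) u) z y, true⟩ :=
    ⟨_, rfl⟩
  have h5 : PP (l + 7 + K0 + 1) Γ' := by
    refine Pn.cut x1 ?_ ?_
    · have hs' : Γ ⊆ insert x1 Γ' := fun x hx => Or.inr (hs hx)
      refine hK0 n (l + 7) _ z a true q q' y u (hu.trans hs') (Dn.mono h1 hs' (by omega))
        (Dn.mono h2 hs' (by omega)) (Dn.mono h3 hs' (by omega)) (Dn.mem (Or.inr hra))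
        (Dn.mem (Or.inl hx1.symm)) fun k y1 => Or.inr (hit true k y1)
    · have hs' : Γ ⊆ insert x1.neg Γ' := fun x hx => Or.inr (hs hx)
      have h6 : DD (l + 4 + 3) (insert x1.neg Γ')
          ⟨.vT (a, false) q' (sl (a, true) u) z y, true⟩ := by
        refine dn_ins (Fin.pos q) (Ins.e4 a q q' (sl (a, true) u) z y)
          (x0 := (aT (a, false) q' (sl (a, true) u) z y, true))
          (a0 := .vT (a, false) q' (sl (a, true) u) z y) rfl ?_
        rintro x (rfl | rfl | rfl | rfl | rfl) hne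
        · exact ⟨.vJ a q q', rfl, Dn.mono h3 hs' (by omega)⟩
        · exact ⟨.vT (a, true) q (sl (a, true) u) z z, rfl, Dn.mono h4 hs' (by omega)⟩
        · exact ⟨.vB y y, rfl, Dn.le (ra_B (l := 0) (Dn.mem (Or.inr hra))) (by omega)⟩
        · refine ⟨.vT (a, true) q (sl (a, true) u) z y, rfl, Dn.mem (Or.inl ?_)⟩
          rw [hx1]
          rfl
        · exact absurd rfl hne
      rw [hw] at h6
      refine hK0 n (l + 7) _ z a false q q' y u' (hu'.trans hs') (Dn.mono h1 hs' (by omega))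
        (Dn.mono h2 hs' (by omega)) (Dn.mono h3 hs' (by omega)) (Dn.mem (Or.inr hra))
        (Dn.le h6 (by omega)) fun k y1 => Or.inr (hit false k y1)
  exact Pn.le h5 (by omega)

theorem pair_un (d : ℕ) : ∃ K : ℕ, ∀ (n l : ℕ) (Γ : Set (Lit (Nd d n))) (z : Fin n) (a : Fin d)
    (q q' y : Fin n) (u u' : Sym2 (Slot d) → Fin n), Lab q u ⊆ Γ → Lab q' u' ⊆ Γ →
    sl (a, true) u = sl (a, false) u' → DD l Γ ⟨.vJ a q q', true⟩ →
    ∀ w ∈ IS (.pair a q q') y, ∀ w' ∈ IS (.pair a q q') y, w ≠ w' →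
    PP (l + K) (Γ ∪ {lt z w, lt z w'}) := by
  refine ⟨60, fun n l Γ z a q q' y u u' hu hu' hw hJ w hw1 w' hw2 hne => ?_⟩
  have hs : Γ ⊆ Γ ∪ {lt z w, lt z w'} := Set.subset_union_left
  have hm1 : lt z w ∈ Γ ∪ {lt z w, lt z w'} := Or.inr (Or.inl rfl)
  have hm2 : lt z w' ∈ Γ ∪ {lt z w, lt z w'} := Or.inr (Or.inr rfl)
  generalize Γ ∪ {lt z w, lt z w'} = Γ' at hs hm1 hm2
  rcases hw1 with ⟨x, rfl, hx1, hx2⟩ | rfl
  · rcases hw2 with ⟨x', rfl, hx1', hx2'⟩ | rfl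
    · obtain ⟨b, a1, q1, q2, y1, k, y2⟩ := x
      obtain ⟨b', a1', q1', q2', y1', k', y2'⟩ := x'
      have e1 : Gp.pair a1 q1 q2 = Gp.pair a q q' := hx1
      have e2 : Gp.pair a1' q1' q2' = Gp.pair a q q' := hx1'
      obtain rfl : y1 = y := hx2
      obtain rfl : y1' = y1 := hx2'
      obtain ⟨e3, e4, e5⟩ := Gp.pair.inj e1
      obtain ⟨e6, e7, e8⟩ := Gp.pair.inj e2
      subst e3 e4 e5 e6 e7 e8
      have hI : DD 0 Γ' ⟨.it z ⟨b, a1', q1', q2', y1', k, y2⟩, true⟩ := Dn.mem hm1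
      have hI' : DD 0 Γ' ⟨.it z ⟨b', a1', q1', q2', y1', k', y2'⟩, true⟩ := Dn.mem hm2
      have hr : DD (l + 40) Γ' ⟨.ra y2, true⟩ := Dn.le (it_ra' hI) (by omega)
      have hr' : DD (l + 40) Γ' ⟨.ra y2', true⟩ := Dn.le (it_ra' hI') (by omega)
      have hJ' : DD (l + 40) Γ' ⟨.vJ a1' q1' q2', true⟩ := Dn.le (it_J hI) (by omega)
      have hne' : b = b' → k = k' → y2 ≠ y2' := by
        rintro rfl rfl rfl
        exact hne rfl
      cases b with
      | true =>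
        have hM : DD (l + 40) Γ' ⟨.vM (a1', true) k q1' u z y1' y2, true⟩ :=
          Dn.le (it_M (x := ⟨true, a1', q1', q2', y1', k, y2⟩) (hu.trans hs) hI) (by omega)
        cases b' with
        | true =>
          have hM' : DD (l + 40) Γ' ⟨.vM (a1', true) k' q1' u z y1' y2', true⟩ :=
            Dn.le (it_M (x := ⟨true, a1', q1', q2', y1', k', y2'⟩) (hu.trans hs) hI') (by omega)
          exact Pn.le (same hM hM' hr hr' (hne' rfl)) (by omega)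
        | false =>
          have hM' : DD (l + 40) Γ' ⟨.vM (a1', false) k' q2' u' z y1' y2', true⟩ :=
            Dn.le (it_M (x := ⟨false, a1', q1', q2', y1', k', y2'⟩) (hu'.trans hs) hI') (by omega)
          exact Pn.le (diff hw hM hM' hJ') (by omega)
      | false =>
        have hM : DD (l + 40) Γ' ⟨.vM (a1', false) k q2' u' z y1' y2, true⟩ :=
          Dn.le (it_M (x := ⟨false, a1', q1', q2', y1', k, y2⟩) (hu'.trans hs) hI) (by omega)
        cases b' with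
        | true =>
          have hM' : DD (l + 40) Γ' ⟨.vM (a1', true) k' q1' u z y1' y2', true⟩ :=
            Dn.le (it_M (x := ⟨true, a1', q1', q2', y1', k', y2'⟩) (hu.trans hs) hI') (by omega)
          exact Pn.le (diff hw hM' hM hJ') (by omega)
        | false =>
          have hM' : DD (l + 40) Γ' ⟨.vM (a1', false) k' q2' u' z y1' y2', true⟩ :=
            Dn.le (it_M (x := ⟨false, a1', q1', q2', y1', k', y2'⟩) (hu'.trans hs) hI') (by omega)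
          exact Pn.le (same hM hM' hr hr' (hne' rfl)) (by omega)
    · have hI : DD 0 Γ' ⟨.it z x, true⟩ := Dn.mem hm1
      have hr : DD 3 Γ' ⟨.ra x.y, true⟩ := it_ra hI
      have hxy : x.y = y := hx2
      rw [hxy] at hr
      exact Pn.le (Dn.contra hr (Dn.mem hm2)) (by omega)
  · rcases hw2 with ⟨x', rfl, hx1', hx2'⟩ | rfl
    · have hI : DD 0 Γ' ⟨.it z x', true⟩ := Dn.mem hm2
      have hr : DD 3 Γ' ⟨.ra x'.y, true⟩ := it_ra hI
      have hxy : x'.y = y := hx2'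
      rw [hxy] at hr
      exact Pn.le (Dn.contra hr (Dn.mem hm1)) (by omega)
    · exact absurd rfl hne

theorem pair_off (d : ℕ) : ∃ K : ℕ, ∀ (n l : ℕ) (Γ : Set (Lit (Nd d n))) (z : Fin n) (a : Fin d)
    (q q' : Fin n) (u u' : Sym2 (Slot d) → Fin n), Lab q u ⊆ Γ → Lab q' u' ⊆ Γ →
    sl (a, true) u = sl (a, false) u' →
    DD l Γ ⟨.vT (a, true) q (sl (a, true) u) z z, false⟩ →
    ∀ x : Itm d n, gr true x = .pair a q q' → DD (l + K) Γ ⟨.it z x, false⟩ := by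
  refine ⟨60, fun n l Γ z a q q' u u' hu hu' hw hT x hx => ?_⟩
  obtain ⟨b, a1, q1, q2, y1, k, y2⟩ := x
  have e1 : Gp.pair a1 q1 q2 = Gp.pair a q q' := hx
  obtain ⟨e3, e4, e5⟩ := Gp.pair.inj e1
  subst e3 e4 e5
  show PP (l + 60) (insert ⟨.it z ⟨b, a1, q1, q2, y1, k, y2⟩, true⟩ Γ)
  have hs : Γ ⊆ insert ⟨.it z ⟨b, a1, q1, q2, y1, k, y2⟩, true⟩ Γ := Set.subset_insert _ _
  have hI : DD 0 (insert ⟨.it z ⟨b, a1, q1, q2, y1, k, y2⟩, true⟩ Γ)
      ⟨.it z ⟨b, a1, q1, q2, y1, k, y2⟩, true⟩ := Dn.mem (Or.inl rfl)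
  generalize insert (⟨.it z ⟨b, a1, q1, q2, y1, k, y2⟩, true⟩ : Lit (Nd d n)) Γ = Γ' at hs hI
  have hT' : DD (l + 50) Γ' ⟨.vT (a1, true) q1 (sl (a1, true) u) z z, false⟩ :=
    Dn.mono hT hs (by omega)
  have hJ' : DD (l + 43) Γ' ⟨.vJ a1 q1 q2, true⟩ := Dn.le (it_J hI) (by omega)
  suffices h : DD (l + 43 + 3) Γ' ⟨.vT (a1, true) q1 (sl (a1, true) u) z z, true⟩ from
    Pn.le (Dn.contra (Dn.le h (by omega)) hT') (by omega)
  cases b with
  | true =>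
    have hM : DD (l + 40) Γ' ⟨.vM (a1, true) k q1 u z y1 y2, true⟩ :=
      Dn.le (it_M (x := ⟨true, a1, q1, q2, y1, k, y2⟩) (hu.trans hs) hI) (by omega)
    have h1 := m2d hM
    refine dn_ins (Fin.pos q1) (Ins.e3 a1 q1 (sl (a1, true) u) z y1)
      (x0 := (aT (a1, true) q1 (sl (a1, true) u) z z, true))
      (a0 := .vT (a1, true) q1 (sl (a1, true) u) z z) rfl ?_
    rintro x (rfl | rfl) hne
    · exact ⟨.vT (a1, true) q1 (sl (a1, true) u) z y1, rfl, h1⟩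
    · exact absurd rfl hne
  | false =>
    have hM : DD (l + 40) Γ' ⟨.vM (a1, false) k q2 u' z y1 y2, true⟩ :=
      Dn.le (it_M (x := ⟨false, a1, q1, q2, y1, k, y2⟩) (hu'.trans hs) hI) (by omega)
    have h1 := m2d hM
    rw [← hw] at h1
    refine dn_ins (Fin.pos q1) (Ins.e1 a1 q1 q2 (sl (a1, true) u) z y1)
      (x0 := (aT (a1, true) q1 (sl (a1, true) u) z z, true))
      (a0 := .vT (a1, true) q1 (sl (a1, true) u) z z) rfl ?_
    rintro x (rfl | rfl | rfl) hne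
    · exact ⟨.vJ a1 q1 q2, rfl, hJ'⟩
    · exact ⟨.vT (a1, false) q2 (sl (a1, true) u) z y1, rfl, h1⟩
    · exact absurd rfl hne

end Pool.Agent.H79.CQ
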