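import Pool.Agent.H79.CQ.Pex
import Pool.Agent.H79.CQ.Blk

/-!
# Pairs: the number of the items of one edge

PROOF. `Dn` unfolded: assume `⟨.ww z m (.pair a q q'), false⟩`. Cut on `rep q`, `rep q'`, `vJ a q q'`: if one of them is
false then all items of the group are false (`it_rep`, `it_rep'`, `it_J` and `Dn.contra`): `zero`. Then `search_lab` at
`q` (`u`) and at `q'` (`u'`); if `sl (a, true) u ≠ sl (a, false) u'`: `lab_edge`. Cut on `vT (a, true) q (sl (a, true) u) z z`: false: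
`pair_off` and `zero`; true: `ex1` with `pair_ex`, `pair_un` for all `y`, and `block`.
-/

set_option autoImplicit false
set_option linter.unusedSectionVars false
set_option linter.unusedVariables false

namespace Pool.Agent.H79.CQ

open Pool.Agent.H42.CS (Pt Ed Sq un inB isE isS Slot off ed sq Ax Atom Lit Gate Circuit Step
  Refutation Der Pn Dn bs)

private theorem pu_gr {d n : ℕ} {x : Itm d n} {a : Fin d} {q q' : Fin n}
    (h : gr (Gp.kd (.pair a q q' : Gp d n)) x = .pair a q q') : x.a = a ∧ x.q = q ∧ x.q' = q' := by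
  have h1 : (Gp.pair x.a x.q x.q' : Gp d n) = .pair a q q' := h
  injection h1 with h2 h3 h4
  exact ⟨h2, h3, h4⟩

private theorem pu_off {d n l : ℕ} {Γ : Set (Lit (Nd d n))} {z : Fin n} {x : Itm d n} {y : Lit (Nd d n)}
    (h : DD l (insert ⟨.it z x, true⟩ Γ) y) (hy : y.neg ∈ Γ) : DD (l + 1) Γ ⟨.it z x, false⟩ := by
  change PP (l + 1) (insert (⟨.it z x, true⟩ : Lit (Nd d n)) Γ)
  exact Dn.contra h (Dn.mem (Or.inr hy))

theorem pair_ww (d : ℕ) : ∃ K : ℕ, ∀ (n l : ℕ) (Γ : Set (Lit (Nd d n))) (z : Fin n) (a : Fin d)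
    (q q' : Fin n) (m m' : Fin (n + 1)), m.val + m'.val = n → DD l Γ ⟨.nr m', true⟩ →
    DD (l + K) Γ ⟨.ww z m (.pair a q q'), true⟩ := by
  obtain ⟨K1, hex⟩ := pair_ex d
  obtain ⟨K2, hun⟩ := pair_un d
  obtain ⟨K3, hoff⟩ := pair_off d
  obtain ⟨K4, hex1⟩ := ex1 d
  obtain ⟨K5, hzero⟩ := zero d
  obtain ⟨K6, hblock⟩ := block d
  obtain ⟨K7, hlab⟩ := search_lab d
  -- the case of known labels
  have core : ∀ (n l : ℕ) (Γ : Set (Lit (Nd d n))) (z : Fin n) (a : Fin d) (q q' : Fin n) (m m' : Fin (n + 1))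
      (u u' : Sym2 (Slot d) → Fin n), m.val + m'.val = n → DD l Γ ⟨.nr m', true⟩ → ⟨.rep q, true⟩ ∈ Γ →
      ⟨.rep q', true⟩ ∈ Γ → ⟨.vJ a q q', true⟩ ∈ Γ → Lab q u ⊆ Γ → Lab q' u' ⊆ Γ →
      DD (l + (K1 + K2 + K3 + K4 + K5 + K6 + 20)) Γ ⟨.ww z m (.pair a q q'), true⟩ := by
    intro n l Γ z a q q' m m' u u' hmm hnr hq hq' hJ hu hu'
    by_cases heq : sl (a, true) u = sl (a, false) u'
    · have h1 : DD (l + (K1 + K2 + K3 + K4 + K5 + K6 + 19))
          (insert ⟨.vT (a, true) q (sl (a, true) u) z z, true⟩ Γ) ⟨.ww z m (.pair a q q'), true⟩ := by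
        have hs : Γ ⊆ insert ⟨.vT (a, true) q (sl (a, true) u) z z, true⟩ Γ := Set.subset_insert _ _
        have h2 : ∀ y : Fin n, DD (l + 1 + K1 + K2 + K4) (insert ⟨.vT (a, true) q (sl (a, true) u) z z, true⟩ Γ)
            ⟨.ee z (.pair a q q') y, true⟩ := by
          intro y
          refine hex1 n (l + 1 + K1 + K2) _ z (.pair a q q') y ?_ ?_
          · exact Pn.le (hex n (l + 1) _ z a q q' y u u' (hu.trans hs) (hu'.trans hs) heq (Dn.mem (hs hq))
              (Dn.mem (hs hq')) (Dn.mem (hs hJ)) (Dn.mem (Set.mem_insert _ _))) (by omega)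
          · intro w hw w' hw' hne
            exact Pn.le (hun n (l + 1) _ z a q q' y u u' (hu.trans hs) (hu'.trans hs) heq (Dn.mem (hs hJ)) w hw w'
              hw' hne) (by omega)
        have h3 := hblock n (l + 1 + K1 + K2 + K4) _ z (.pair a q q') m m' hmm h2
          (hnr.mono hs (by omega))
        exact h3.le (by omega)
      have h1' : DD (l + (K1 + K2 + K3 + K4 + K5 + K6 + 19))
          (insert (Lit.neg ⟨.vT (a, true) q (sl (a, true) u) z z, true⟩) Γ) ⟨.ww z m (.pair a q q'), true⟩ := by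
        have hs : Γ ⊆ insert (Lit.neg ⟨.vT (a, true) q (sl (a, true) u) z z, true⟩) Γ := Set.subset_insert _ _
        have h2 := hoff n (l + 1) (insert (Lit.neg ⟨.vT (a, true) q (sl (a, true) u) z z, true⟩) Γ) z a q q' u u'
          (hu.trans hs) (hu'.trans hs) heq (Dn.mem (Set.mem_insert _ _))
        have h3 := hzero n (l + 1 + K3) _ z (.pair a q q') m (fun x hx => h2 x hx)
        exact h3.le (by omega)
      exact (Dn.cases _ h1 h1').le (by omega)
    · have h1 := lab_edge (l := l) (Γ := Γ) hu hu' (Dn.mem hJ) heq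
      exact (Dn.abs h1).le (by omega)
  refine ⟨K1 + K2 + K3 + K4 + K5 + K6 + 2 * K7 + 100, fun n l Γ z a q q' m m' hmm hnr => ?_⟩
  have stepJ : ∀ Γ' : Set (Lit (Nd d n)), DD (l + 3) Γ' ⟨.nr m', true⟩ → ⟨.rep q, true⟩ ∈ Γ' →
      ⟨.rep q', true⟩ ∈ Γ' → ⟨.vJ a q q', true⟩ ∈ Γ' →
      DD (l + (K1 + K2 + K3 + K4 + K5 + K6 + 2 * K7 + 40)) Γ' ⟨.ww z m (.pair a q q'), true⟩ := by
    intro Γ' hnr' hq hq' hJ
    have h1 : ∀ u : Sym2 (Slot d) → Fin n, ∀ u' : Sym2 (Slot d) → Fin n,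
        PP (l + 4 + (K1 + K2 + K3 + K4 + K5 + K6 + 20))
          (insert (Lit.neg ⟨.ww z m (.pair a q q'), true⟩) Γ' ∪ Lab q u ∪ Lab q' u') := by
      intro u u'
      have h2 := core n (l + 4) (Γ' ∪ Lab q u ∪ Lab q' u') z a q q' m m' u u' hmm
        (hnr'.mono (fun x hx => Or.inl (Or.inl hx)) (by omega)) (Or.inl (Or.inl hq)) (Or.inl (Or.inl hq'))
        (Or.inl (Or.inl hJ)) (fun x hx => Or.inl (Or.inr hx)) (fun x hx => Or.inr hx)
      unfold DD Dn at h2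
      rwa [Set.insert_union, Set.insert_union]
    have h2 : ∀ u : Sym2 (Slot d) → Fin n, PP (l + 4 + (K1 + K2 + K3 + K4 + K5 + K6 + 20) + K7)
        (insert (Lit.neg ⟨.ww z m (.pair a q q'), true⟩) Γ' ∪ Lab q u) := fun u =>
      hlab n _ _ q' (h1 u)
    have h3 := hlab n _ _ q h2
    exact Pn.le h3 (by omega)
  have hz : ∀ (y : Lit (Nd d n)) (Γ' : Set (Lit (Nd d n))), y.neg ∈ Γ' →
      (∀ x : Itm d n, gr (Gp.kd (.pair a q q' : Gp d n)) x = .pair a q q' →
        DD (l + 3) (insert ⟨.it z x, true⟩ Γ') y) →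
      DD (l + 4 + K5) Γ' ⟨.ww z m (.pair a q q'), true⟩ := by
    intro y Γ' hy h
    exact hzero n (l + 4) Γ' z (.pair a q q') m fun x hx => pu_off (h x hx) hy
  have s1 : DD (l + (K1 + K2 + K3 + K4 + K5 + K6 + 2 * K7 + 43)) Γ ⟨.ww z m (.pair a q q'), true⟩ := by
    refine Dn.cases (l := l + (K1 + K2 + K3 + K4 + K5 + K6 + 2 * K7 + 42)) (⟨.rep q, true⟩ : Lit (Nd d n)) ?_ ?_
    · refine Dn.cases (l := l + (K1 + K2 + K3 + K4 + K5 + K6 + 2 * K7 + 41)) (⟨.rep q', true⟩ : Lit (Nd d n)) ?_ ?_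
      · refine Dn.cases (l := l + (K1 + K2 + K3 + K4 + K5 + K6 + 2 * K7 + 40)) (⟨.vJ a q q', true⟩ : Lit (Nd d n)) ?_ ?_
        · refine stepJ _ (hnr.mono ?_ (by omega)) (Or.inr (Or.inr (Or.inl rfl))) (Or.inr (Or.inl rfl)) (Or.inl rfl)
          exact fun x hx => Or.inr (Or.inr (Or.inr hx))
        · refine (hz ⟨.vJ a q q', true⟩ _ (Or.inl rfl) fun x hx => ?_).le (by omega)
          obtain ⟨rfl, rfl, rfl⟩ := pu_gr hx
          exact (it_J (l := l) (Dn.mem (Set.mem_insert _ _))).le (by omega)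
      · refine (hz ⟨.rep q', true⟩ _ (Or.inl rfl) fun x hx => ?_).le (by omega)
        obtain ⟨rfl, rfl, rfl⟩ := pu_gr hx
        exact (it_rep' (l := l) (Dn.mem (Set.mem_insert _ _))).le (by omega)
    · refine (hz ⟨.rep q, true⟩ _ (Or.inl rfl) fun x hx => ?_).le (by omega)
      obtain ⟨rfl, rfl, rfl⟩ := pu_gr hx
      exact (it_rep (l := l) (Dn.mem (Set.mem_insert _ _))).le (by omega)
  exact s1.le (by omega)

end Pool.Agent.H79.CQ
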