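import Pool.Agent.H79.CQ.Ru1
import Pool.Agent.H79.CQ.Ru2
import Pool.Agent.H79.CQ.Ru3

/-!
# The engine refutes refutations

PROOF of `sound`: cases on the step; the lemmas `sound_*`.
PROOF of `engine`: by strong induction on `order Λ` every line is true. The empty line is not: its
space is `Vl ∅ = Vs pr ⊤ = ⊥` (`Vs_top`; every `g` stabilises `∅`), the zero function is a world on `⊥`
(`kap 0 0 = 0`), and it has no member.
-/

set_option autoImplicit false
set_option linter.unusedSectionVars false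
set_option linter.unusedVariables false

namespace Pool.Agent.H79.CQ

open Pool.Agent.H42.CS (Ax Atom Lit Gate Circuit Step Refutation)

variable {p : ℕ} [hp : Fact p.Prime]

namespace Eng

variable {Rel : ℕ → Type} {P K G : Type} [Fintype K] [Group G] (E : Eng p Rel P K G)

theorem sound {T : Set (Ax Rel)} (hT : ∀ A ∈ T, E.AxOK A) {Pr : Set (Set (Lit E.C.N))}
    {Λ : Set (Lit E.C.N)} (h : Step T E.C Pr Λ) (hΛ : E.Vl Λ ∈ E.fam)
    (hPr : ∀ Δ ∈ Pr, E.Vl Δ ∈ E.fam ∧ E.Tru Δ) : E.Tru Λ := by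
  cases h with
  | hyp hA hx => exact E.sound_hyp hΛ (hT _ hA) _ hx
  | ident hg ha hb => exact E.sound_ident hΛ hg ha hb
  | weak hΔ hsub => exact E.sound_weak hΛ (hPr _ hΔ).1 (hPr _ hΔ).2 hsub
  | cut h1 h2 => exact E.sound_cut hΛ (hPr _ h1).1 (hPr _ h1).2 (hPr _ h2).1 (hPr _ h2).2
  | andI hg ha hS => exact E.sound_andI hΛ hg ha fun x hx => hPr _ (hS x hx)
  | andE hg ha h1 => exact E.sound_andE hΛ hg ha (hPr _ h1).1 (hPr _ h1).2
  | cover h => exact E.sound_cover hΛ h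
  | unit hg ha hx => exact E.sound_unit hΛ hg ha hx
  | sum hB hd hp ha hc hpΛ haΛ => exact E.sound_sum hΛ hB hd hp ha hc hpΛ haΛ
  | dist hF hJ hB hu ha ht huΛ haΛ => exact E.sound_dist hΛ hF hJ hB hu ha ht huΛ haΛ

/-- There is no set of lines as in a refutation, if the axioms are true in the engine and the
spaces of the lines belong to the family. -/
theorem engine {T : Set (Ax Rel)} (hT : ∀ A ∈ T, E.AxOK A) (lines : Set (Set (Lit E.C.N)))
    (order : Set (Lit E.C.N) → ℕ)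
    (step : ∀ Λ ∈ lines, Step T E.C {Δ | Δ ∈ lines ∧ order Δ < order Λ} Λ)
    (hl : ∀ Λ ∈ lines, E.Vl Λ ∈ E.fam) (hempty : ∅ ∈ lines) : False := by
  have key : ∀ n : ℕ, ∀ Λ ∈ lines, order Λ < n → E.Tru Λ := by
    intro n
    induction n with
    | zero => intro Λ _ h; exact absurd h (Nat.not_lt_zero _)
    | succ n ih =>
      intro Λ hΛ hn
      refine E.sound hT (step Λ hΛ) (hl Λ hΛ) fun Δ hΔ => ⟨hl Δ hΔ.1, ih Δ hΔ.1 ?_⟩
      exact lt_of_lt_of_le hΔ.2 (Nat.lt_succ_iff.1 hn)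
  have h0 := key (order ∅ + 1) ∅ hempty (Nat.lt_succ_self _)
  have hst : stS E.act (∅ : Set (Lit E.C.N)) = ⊤ := by
    rw [eq_top_iff]
    intro g _
    exact Set.image_empty _
  have hV : E.Vl ∅ = ⊥ := by
    unfold Vl
    rw [hst]
    exact Vs_top E.pr_onto
  have hW : E.toGad.IsW (E.Vl ∅) (fun _ => 0) := by
    intro y hy _ y' hy' _
    rw [hV, Submodule.mem_bot] at hy hy'
    have h3 : E.kap (0 : K → ZMod p) 0 = 0 := by
      have h4 := E.kap_line 0 0 (0 : K → ZMod p)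
      rwa [smul_zero] at h4
    show (0 : ZMod p) = 0 + 0 + E.kap y y'
    rw [hy, hy', h3, add_zero, add_zero]
  obtain ⟨x, hx, -⟩ := h0 _ hW
  exact hx

end Eng

end Pool.Agent.H79.CQ
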