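import Pool.Agent.H79.CQ.Lab

/-!
# Vertices: the items of one vertex and one number

`u` are the least labels at `q`.

* `vert_item`: `ra y'`, `vG k q u z y0`, `vB y0 y'`. `m7` at `y0`: `searchS` with the set of all `⟨.vM σ k q u z y y0, true⟩`;
  for `(σ, y)`: `m6` gives `vM σ k q u z y y'`; `m11` gives `vB y y`, `search_ra` gives `y1` with `ra y1`, `vB y1 y`, by
  `b_symm` and `m10` `vM σ k q u z y1 y'`; `m2` gives `vT σ q (sl σ u) z y1`; `σ = (a, true)`: `tp` and `searchS`: `q2` with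
  `vJ a q q2`, `search_rep`: `q1` with `rep q1`, `vE q1 q2`, by `e_symm`, `e_refl`, `j_inv` `vJ a q q1`; `yy_false` and
  `it_intro`: the item `x = ⟨true, a, q, q1, y1, k, y'⟩` is true: use the hypothesis for `x` (`Pn.use`; the
  assumptions grow on the way: `Pn.mono`). `σ = (a, false)`: `tn`: `vJ a q2 q`, item `⟨false, a, q1, q, y1, k, y'⟩` (its `vx`
  is `q`).
* `vert_ex`: `vert_item` with `y0 = y'` over the assumptions `Γ ∪ …` (they contain `⟨.ra y', true⟩`; `vB y' y'` by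
  `ra_B`); the items are false there.
* `vert_un`: two items `x ≠ x'` with `vx = q`, the same `k`, `y'`: `it_M`: `vM (a, b) k q u z y y'`,
  `vM (a', b') k q u z y'' y'`. `(a, b) ≠ (a', b')`: `m8`. Otherwise `m9`: `vB y y''`, so `y = y''` or `ra_uniq`
  (`it_ra`). Then the other vertices are different: `q, q', x.q' ≠ x'.q'` (`b = true`) and `it_J`, `j_fun`,
  `it_rep'`, `rep_uniq`; or `b = false`: `x.q ≠ x'.q`, `j_inj`, `it_rep`, `rep_uniq`. One member `.inr y'`: `it_ra'`.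
* `vert_off`: assume `⟨.it z x, true⟩`: `it_M`, `m3`, contradiction.
-/

set_option autoImplicit false
set_option linter.unusedSectionVars false
set_option linter.unusedVariables false

namespace Pool.Agent.H79.CQ

open Pool.Agent.H42.CS (Pt Ed Sq un inB isE isS Slot off ed sq Ax Atom Lit Gate Circuit Step
  Refutation Der Pn Dn bs)

section private_rules

variable {d n l : ℕ} {Γ : Set (Lit (Nd d n))}

private theorem r_m6 {σ : Slot d} {k : Fin (2 * d)} {q z y y' y'' : Fin n} {u : Sym2 (Slot d) → Fin n}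
    (h : DD l Γ ⟨.vM σ k q u z y y', true⟩) (h' : DD l Γ ⟨.vB y' y'', true⟩) :
    DD (l + 3) Γ ⟨.vM σ k q u z y y'', true⟩ := by
  refine dn_ins q.pos (Ins.m6 σ k q u z y y' y'') (x0 := (aM σ k q u z y y'', true)) rfl ?_
  rintro x (rfl | rfl | rfl) hx
  · exact ⟨.vM σ k q u z y y', rfl, h⟩
  · exact ⟨.vB y' y'', rfl, h'⟩
  · exact absurd rfl hx

private theorem r_m11 {σ : Slot d} {k : Fin (2 * d)} {q z y y' : Fin n} {u : Sym2 (Slot d) → Fin n}
    (h : DD l Γ ⟨.vM σ k q u z y y', true⟩) : DD (l + 3) Γ ⟨.vB y y, true⟩ := by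
  refine dn_ins q.pos (Ins.m11 σ k q u z y y') (x0 := (aB y y, true)) rfl ?_
  rintro x (rfl | rfl) hx
  · exact ⟨.vM σ k q u z y y', rfl, h⟩
  · exact absurd rfl hx

private theorem r_m10 {σ : Slot d} {k : Fin (2 * d)} {q z y y' y'' : Fin n} {u : Sym2 (Slot d) → Fin n}
    (h : DD l Γ ⟨.vM σ k q u z y y', true⟩) (h' : DD l Γ ⟨.vB y y'', true⟩) :
    DD (l + 3) Γ ⟨.vM σ k q u z y'' y', true⟩ := by
  refine dn_ins q.pos (Ins.m10 σ k q u z y y' y'') (x0 := (aM σ k q u z y'' y', true)) rfl ?_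
  rintro x (rfl | rfl | rfl) hx
  · exact ⟨.vM σ k q u z y y', rfl, h⟩
  · exact ⟨.vB y y'', rfl, h'⟩
  · exact absurd rfl hx

private theorem r_m2 {σ : Slot d} {k : Fin (2 * d)} {q z y y' : Fin n} {u : Sym2 (Slot d) → Fin n}
    (h : DD l Γ ⟨.vM σ k q u z y y', true⟩) : DD (l + 3) Γ ⟨.vT σ q (sl σ u) z y, true⟩ := by
  refine dn_ins q.pos (Ins.m2 σ k q u z y y') (x0 := (aT σ q (sl σ u) z y, true)) rfl ?_
  rintro x (rfl | rfl) hx
  · exact ⟨.vM σ k q u z y y', rfl, h⟩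
  · exact absurd rfl hx

private theorem r_m3 {σ : Slot d} {k : Fin (2 * d)} {q z y y' : Fin n} {u : Sym2 (Slot d) → Fin n}
    (h : DD l Γ ⟨.vM σ k q u z y y', true⟩) : DD (l + 3) Γ ⟨.vG k q u z y', true⟩ := by
  refine dn_ins q.pos (Ins.m3 σ k q u z y y') (x0 := (aG k q u z y', true)) rfl ?_
  rintro x (rfl | rfl) hx
  · exact ⟨.vM σ k q u z y y', rfl, h⟩
  · exact absurd rfl hx

private theorem r_m8 {σ σ' : Slot d} (hσ : σ ≠ σ') {k : Fin (2 * d)} {q z y y' y'' : Fin n}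
    {u : Sym2 (Slot d) → Fin n} (h : DD l Γ ⟨.vM σ k q u z y y', true⟩)
    (h' : DD l Γ ⟨.vM σ' k q u z y'' y', true⟩) : PP (l + 2) Γ := by
  refine pn_ins q.pos (Ins.m8 σ σ' hσ k q u z y y' y'') ?_
  rintro x (rfl | rfl)
  · exact ⟨.vM σ k q u z y y', rfl, h⟩
  · exact ⟨.vM σ' k q u z y'' y', rfl, h'⟩

private theorem r_m9 {σ : Slot d} {k : Fin (2 * d)} {q z y y' y'' : Fin n} {u : Sym2 (Slot d) → Fin n}
    (h : DD l Γ ⟨.vM σ k q u z y y', true⟩) (h' : DD l Γ ⟨.vM σ k q u z y'' y', true⟩) :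
    DD (l + 3) Γ ⟨.vB y y'', true⟩ := by
  refine dn_ins q.pos (Ins.m9 σ k q u z y y' y'') (x0 := (aB y y'', true)) rfl ?_
  rintro x (rfl | rfl | rfl) hx
  · exact ⟨.vM σ k q u z y y', rfl, h⟩
  · exact ⟨.vM σ k q u z y'' y', rfl, h'⟩
  · exact absurd rfl hx

/-- the last step of `vert_item`: both orientations -/
private theorem vi_last {z q q1 y1 y' : Fin n} {k : Fin (2 * d)} {u : Sym2 (Slot d) → Fin n} {a : Fin d} {b : Bool}
    {L : ℕ} (hu : Lab q u ⊆ Γ) (hr : DD L Γ ⟨.rep q, true⟩) (hr1 : DD L Γ ⟨.rep q1, true⟩)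
    (hJ : DD L Γ ⟨.vJ a (if b then q else q1) (if b then q1 else q), true⟩)
    (hy1 : DD L Γ ⟨.ra y1, true⟩) (hy' : DD L Γ ⟨.ra y', true⟩)
    (hM : DD L Γ ⟨.vM (a, b) k q u z y1 y', true⟩)
    (hit : ∀ x : Itm d n, gr false x = .vert q k → x.y' = y' → PP L (insert ⟨.it z x, true⟩ Γ)) :
    PP (L + 23) Γ := by
  have h6 := yy_false (k := k) (z := z) hu hM
  cases b
  · have h := it_intro (l := L + 20) (z := z) (x := ⟨false, a, q1, q, y1, k, y'⟩) (hr1.le (by omega)) (hr.le (by omega))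
      (hJ.le (by omega)) (hy1.le (by omega)) (hy'.le (by omega)) h6
    exact Pn.use (l := L + 22) h ((hit ⟨false, a, q1, q, y1, k, y'⟩ rfl rfl).le (by omega))
  · have h := it_intro (l := L + 20) (z := z) (x := ⟨true, a, q, q1, y1, k, y'⟩) (hr.le (by omega)) (hr1.le (by omega))
      (hJ.le (by omega)) (hy1.le (by omega)) (hy'.le (by omega)) h6
    exact Pn.use (l := L + 22) h ((hit ⟨true, a, q, q1, y1, k, y'⟩ rfl rfl).le (by omega))

/-- the search of the other vertex -/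
private theorem vi_J (d : ℕ) : ∃ K : ℕ, ∀ (n l : ℕ) (Γ : Set (Lit (Nd d n))) (z q : Fin n)
    (k : Fin (2 * d)) (u : Sym2 (Slot d) → Fin n) (y' y1 : Fin n) (a : Fin d) (b : Bool), Lab q u ⊆ Γ →
    DD l Γ ⟨.rep q, true⟩ → DD l Γ ⟨.ra y1, true⟩ → DD l Γ ⟨.ra y', true⟩ →
    DD l Γ ⟨.vM (a, b) k q u z y1 y', true⟩ →
    (∀ x : Itm d n, gr false x = .vert q k → x.y' = y' → PP l (insert ⟨.it z x, true⟩ Γ)) →
    PP (l + K) Γ := by
  obtain ⟨K2, hK2⟩ := search_rep d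
  refine ⟨K2 + 60, fun n l Γ z q k u y' y1 a b hu hr hy1 hy' hM hit => ?_⟩
  have hT := r_m2 hM
  have key : ∀ q2 : Fin n, PP (l + 50 + K2)
      (insert ⟨.vJ a (if b then q else q2) (if b then q2 else q), true⟩ Γ) := by
    intro q2
    refine hK2 n (l + 50) _ q2 fun q1 => ?_
    have hsub : Γ ⊆ insert ⟨.vJ a (if b then q else q2) (if b then q2 else q), true⟩ Γ ∪
        {⟨.rep q1, true⟩, ⟨.vE q1 q2, true⟩} :=
      (Set.subset_insert _ _).trans Set.subset_union_left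
    have hE : DD 4 (insert ⟨.vJ a (if b then q else q2) (if b then q2 else q), true⟩ Γ ∪
        {⟨.rep q1, true⟩, ⟨.vE q1 q2, true⟩}) ⟨.vE q2 q1, true⟩ :=
      e_symm (l := 1) (Dn.mem (Or.inr (Or.inr rfl)))
    have hE0 : DD 4 (insert ⟨.vJ a (if b then q else q2) (if b then q2 else q), true⟩ Γ ∪
        {⟨.rep q1, true⟩, ⟨.vE q1 q2, true⟩}) ⟨.vE q q, true⟩ := (e_refl q).le (by omega)
    have hJ0 : DD 4 (insert ⟨.vJ a (if b then q else q2) (if b then q2 else q), true⟩ Γ ∪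
        {⟨.rep q1, true⟩, ⟨.vE q1 q2, true⟩}) ⟨.vJ a (if b then q else q2) (if b then q2 else q), true⟩ :=
      Dn.mem (Or.inl (Or.inl rfl))
    have hJ : DD 7 (insert ⟨.vJ a (if b then q else q2) (if b then q2 else q), true⟩ Γ ∪
        {⟨.rep q1, true⟩, ⟨.vE q1 q2, true⟩}) ⟨.vJ a (if b then q else q1) (if b then q1 else q), true⟩ := by
      cases b
      · exact j_inv hJ0 hE hE0
      · exact j_inv hJ0 hE0 hE
    refine (vi_last (L := l + 8) (hu.trans hsub) (hr.mono hsub (by omega)) (Dn.mem (Or.inr (Or.inl rfl)))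
      (hJ.le (by omega)) (hy1.mono hsub (by omega)) (hy'.mono hsub (by omega)) (hM.mono hsub (by omega))
      fun x hx hxy => (hit x hx hxy).mono (Set.insert_subset_insert hsub) (by omega)).le (by omega)
  cases b
  · refine (searchS (l := l + 50 + K2) (S := {w | ∃ q2, w = ⟨.vJ a q2 q, true⟩}) ?_ ?_).le (by omega)
    · rintro x ⟨q2, rfl⟩
      exact key q2
    · refine (pn_ins (l := l + 4) q.pos (Ins.tn a q (sl (a, false) u) z y1) ?_).le (by omega)
      rintro x (rfl | ⟨q', rfl⟩)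
      · exact ⟨.vT (a, false) q (sl (a, false) u) z y1, rfl, hT.mono Set.subset_union_left (by omega)⟩
      · exact ⟨.vJ a q' q, rfl, Dn.mem (Or.inr ⟨_, ⟨q', rfl⟩, rfl⟩)⟩
  · refine (searchS (l := l + 50 + K2) (S := {w | ∃ q2, w = ⟨.vJ a q q2, true⟩}) ?_ ?_).le (by omega)
    · rintro x ⟨q2, rfl⟩
      exact key q2
    · refine (pn_ins (l := l + 4) q.pos (Ins.tp a q (sl (a, true) u) z y1) ?_).le (by omega)
      rintro x (rfl | ⟨q', rfl⟩)
      · exact ⟨.vT (a, true) q (sl (a, true) u) z y1, rfl, hT.mono Set.subset_union_left (by omega)⟩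
      · exact ⟨.vJ a q q', rfl, Dn.mem (Or.inr ⟨_, ⟨q', rfl⟩, rfl⟩)⟩

end private_rules

theorem vert_item (d : ℕ) : ∃ K : ℕ, ∀ (n l : ℕ) (Γ : Set (Lit (Nd d n))) (z q : Fin n)
    (k : Fin (2 * d)) (u : Sym2 (Slot d) → Fin n) (y' y0 : Fin n), Lab q u ⊆ Γ →
    DD l Γ ⟨.rep q, true⟩ → DD l Γ ⟨.ra y', true⟩ → DD l Γ ⟨.vG k q u z y0, true⟩ →
    DD l Γ ⟨.vB y0 y', true⟩ →
    (∀ x : Itm d n, gr false x = .vert q k → x.y' = y' → PP l (insert ⟨.it z x, true⟩ Γ)) →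
    PP (l + K) Γ := by
  obtain ⟨K1, hK1⟩ := search_ra d
  obtain ⟨K2, hK2⟩ := vi_J d
  refine ⟨K1 + K2 + 60, fun n l Γ z q k u y' y0 hu hr hy' hG hB hit => ?_⟩
  refine (searchS (l := l + 20 + K2 + K1) (S := {w | ∃ σ y, w = ⟨.vM σ k q u z y y0, true⟩}) ?_ ?_).le (by omega)
  · rintro x ⟨σ, y, rfl⟩
    have hs1 : Γ ⊆ insert ⟨.vM σ k q u z y y0, true⟩ Γ := Set.subset_insert _ _
    have hM0 : DD (l + 1) (insert ⟨.vM σ k q u z y y0, true⟩ Γ) ⟨.vM σ k q u z y y0, true⟩ :=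
      Dn.mem (Or.inl rfl)
    have hM1 : DD (l + 4) (insert ⟨.vM σ k q u z y y0, true⟩ Γ) ⟨.vM σ k q u z y y', true⟩ :=
      r_m6 hM0 (hB.mono hs1 (by omega))
    refine hK1 n (l + 20 + K2) _ y ((r_m11 hM1).le (by omega)) fun y1 => ?_
    have hs2 : insert ⟨.vM σ k q u z y y0, true⟩ Γ ⊆ insert ⟨.vM σ k q u z y y0, true⟩ Γ ∪
        {⟨.ra y1, true⟩, ⟨.vB y1 y, true⟩} := Set.subset_union_left
    have hs := hs1.trans hs2
    have hB1 : DD (l + 5) (insert ⟨.vM σ k q u z y y0, true⟩ Γ ∪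
        {⟨.ra y1, true⟩, ⟨.vB y1 y, true⟩}) ⟨.vB y y1, true⟩ :=
      b_symm (l := l + 2) (Dn.mem (Or.inr (Or.inr rfl)))
    have hM2 := r_m10 (hM1.mono hs2 (by omega)) hB1
    obtain ⟨a, b⟩ := σ
    refine (hK2 n (l + 10) _ z q k u y' y1 a b (hu.trans hs) (hr.mono hs (by omega)) (Dn.mem (Or.inr (Or.inl rfl)))
      (hy'.mono hs (by omega)) (hM2.le (by omega)) fun x hx hxy => (hit x hx hxy).mono (Set.insert_subset_insert hs)
        (by omega)).le (by omega)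
  · refine (pn_ins (l := l + 4) q.pos (Ins.m7 k q u z y0) ?_).le (by omega)
    rintro x (rfl | ⟨σ, y, rfl⟩)
    · exact ⟨.vG k q u z y0, rfl, hG.mono Set.subset_union_left (by omega)⟩
    · exact ⟨.vM σ k q u z y y0, rfl, Dn.mem (Or.inr ⟨_, ⟨σ, y, rfl⟩, rfl⟩)⟩

theorem vert_ex (d : ℕ) : ∃ K : ℕ, ∀ (n l : ℕ) (Γ : Set (Lit (Nd d n))) (z q : Fin n)
    (k : Fin (2 * d)) (u : Sym2 (Slot d) → Fin n) (y' : Fin n), Lab q u ⊆ Γ →
    DD l Γ ⟨.rep q, true⟩ → DD l (insert ⟨.ra y', true⟩ Γ) ⟨.vG k q u z y', true⟩ →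
    PP (l + K) (Γ ∪ Lit.neg '' (lt z '' IS (.vert q k) y')) := by
  obtain ⟨K, hK⟩ := vert_item d
  refine ⟨K + 10, fun n l Γ z q k u y' hu hr hG => ?_⟩
  have hs : Γ ⊆ Γ ∪ Lit.neg '' (lt z '' IS (.vert q k) y') := Set.subset_union_left
  have hm : (⟨.ra y', true⟩ : Lit (Nd d n)) ∈ Γ ∪ Lit.neg '' (lt z '' IS (.vert q k) y') :=
    Or.inr ⟨⟨.ra y', false⟩, ⟨.inr y', Or.inr rfl, rfl⟩, rfl⟩
  refine (hK n (l + 5) _ z q k u y' y' (hu.trans hs) (hr.mono hs (by omega)) (Dn.mem hm)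
    (hG.mono (Set.insert_subset hm hs) (by omega)) ((ra_B (l := l + 1) (Dn.mem hm)).le (by omega))
    fun x hx hxy => ?_).le (by omega)
  refine Pn.triv (x := ⟨.it z x, true⟩) (Or.inl rfl) (Or.inr (Or.inr ⟨⟨.it z x, true⟩, ⟨.inl x, ?_, rfl⟩, rfl⟩))
  exact Or.inl ⟨x, rfl, hx, hxy⟩

theorem vert_un (d : ℕ) : ∃ K : ℕ, ∀ (n l : ℕ) (Γ : Set (Lit (Nd d n))) (z q : Fin n)
    (k : Fin (2 * d)) (u : Sym2 (Slot d) → Fin n) (y' : Fin n), Lab q u ⊆ Γ →
    ∀ w ∈ IS (.vert q k) y', ∀ w' ∈ IS (.vert q k) y', w ≠ w' →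
    PP (l + K) (Γ ∪ {lt z w, lt z w'}) := by
  refine ⟨100, fun n l Γ z q k u y' hu w hw w' hw' hne => ?_⟩
  have hs : Γ ⊆ Γ ∪ {lt z w, lt z w'} := Set.subset_union_left
  have hu' := hu.trans hs
  have h1 : lt z w ∈ Γ ∪ {lt z w, lt z w'} := Or.inr (Or.inl rfl)
  have h2 : lt z w' ∈ Γ ∪ {lt z w, lt z w'} := Or.inr (Or.inr rfl)
  generalize Γ ∪ {lt z w, lt z w'} = Γ' at hs hu' h1 h2
  have hmix : ∀ x : Itm d n, x.y' = y' → (⟨.it z x, true⟩ : Lit (Nd d n)) ∈ Γ' →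
      (⟨.ra y', false⟩ : Lit (Nd d n)) ∈ Γ' → PP (l + 100) Γ' := by
    intro x hx h3 h4
    have h5 : DD (l + 3) Γ' ⟨.ra y', true⟩ := by
      rw [← hx]
      exact it_ra' (Dn.mem h3)
    exact (Dn.contra (l := l + 3) h5 (Dn.mem h4)).le (by omega)
  rcases hw with ⟨x, rfl, hx, hxy⟩ | rfl
  · rcases hw' with ⟨x', rfl, hx', hxy'⟩ | rfl
    · have hxx : x ≠ x' := fun h => hne (by rw [h])
      have hx1 : x.vx = q := by
        injection hx
      have hx2 : x.k = k := by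
        injection hx
      have hx1' : x'.vx = q := by
        injection hx'
      have hx2' : x'.k = k := by
        injection hx'
      have hxy2 : x.y' = y' := hxy
      have hxy2' : x'.y' = y' := hxy'
      have hi : DD l Γ' ⟨.it z x, true⟩ := Dn.mem h1
      have hi' : DD l Γ' ⟨.it z x', true⟩ := Dn.mem h2
      have hM := it_M (u := u) (by rw [hx1]; exact hu') hi
      have hM' := it_M (u := u) (by rw [hx1']; exact hu') hi'
      rw [hx1, hx2, hxy2] at hM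
      rw [hx1', hx2', hxy2'] at hM'
      by_cases hab : (x.a, x.b) = (x'.a, x'.b)
      · have ha : x.a = x'.a := congrArg Prod.fst hab
        have hb : x.b = x'.b := congrArg Prod.snd hab
        rw [← hab] at hM'
        have hB := r_m9 hM hM'
        by_cases hy : x.y = x'.y
        · have hr := it_rep hi
          have hr1 := it_rep hi'
          have hr' := it_rep' hi
          have hr1' := it_rep' hi'
          have hJ := it_J hi
          have hJ' := it_J hi'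
          obtain ⟨b, a, p, p', y, k0, y0⟩ := x
          obtain ⟨b1, a1, p1, p1', y1, k1, y10⟩ := x'
          simp only at ha hb hy hx2 hx2' hxy2 hxy2' hr hr1 hr' hr1' hJ hJ'
          subst ha hb hy hx2 hx2' hxy2
          subst hxy2'
          cases b
          · have h3 : p' = q := hx1
            have h4 : p1' = q := hx1'
            subst h3
            subst h4
            have h5 : p ≠ p1 := fun h => hxx (by rw [h])
            exact (rep_uniq (l := l + 6) (hr.le (by omega)) (hr1.le (by omega)) (j_inj hJ hJ') h5).le (by omega)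
          · have h3 : p = q := hx1
            have h4 : p1 = q := hx1'
            subst h3
            subst h4
            have h5 : p' ≠ p1' := fun h => hxx (by rw [h])
            exact (rep_uniq (l := l + 6) (hr'.le (by omega)) (hr1'.le (by omega)) (j_fun hJ hJ') h5).le (by omega)
        · exact (ra_uniq (l := l + 43) ((it_ra hi).le (by omega)) ((it_ra hi').le (by omega)) hB hy).le (by omega)
      · exact (r_m8 hab hM hM').le (by omega)
    · exact hmix x hxy h1 h2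
  · rcases hw' with ⟨x', rfl, hx', hxy'⟩ | rfl
    · exact hmix x' hxy' h2 h1
    · exact absurd rfl hne

theorem vert_off (d : ℕ) : ∃ K : ℕ, ∀ (n l : ℕ) (Γ : Set (Lit (Nd d n))) (z q : Fin n)
    (k : Fin (2 * d)) (u : Sym2 (Slot d) → Fin n), Lab q u ⊆ Γ →
    (∀ y' : Fin n, DD l Γ ⟨.vG k q u z y', false⟩) →
    ∀ x : Itm d n, gr false x = .vert q k → DD (l + K) Γ ⟨.it z x, false⟩ := by
  refine ⟨100, fun n l Γ z q k u hu hG x hx => ?_⟩
  have hx1 : x.vx = q := by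
    injection hx
  have hx2 : x.k = k := by
    injection hx
  have hs : Γ ⊆ insert ⟨.it z x, true⟩ Γ := Set.subset_insert _ _
  have hi : DD l (insert ⟨.it z x, true⟩ Γ) ⟨.it z x, true⟩ := Dn.mem (Or.inl rfl)
  have hM := it_M (u := u) (by rw [hx1]; exact hu.trans hs) hi
  have hM3 := r_m3 hM
  rw [hx1, hx2] at hM3
  have h1 : PP (l + 44) (insert ⟨.it z x, true⟩ Γ) :=
    Dn.contra (l := l + 43) hM3 ((hG x.y').mono hs (by omega))
  exact h1.le (by omega)

end Pool.Agent.H79.CQ
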